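import Mathlib

/-!
# An identity between binomial sums and harmonic numbers
-/

namespace Pool.Agent.Q267.CDE

open Finset

/-- harmonic numbers in a field -/
def H (F : Type*) [Field F] (n : ℕ) : F := ∑ i ∈ range n, ((i : F) + 1)⁻¹

/-- `∑_{l=1}^{K} (-1)^(l-1) C(M, K-l)/l` -/
def S (F : Type*) [Field F] (M K : ℕ) : F :=
  ∑ l ∈ range K, (-1) ^ l * (M.choose (K - 1 - l) : F) * ((l : F) + 1)⁻¹

variable {F : Type*} [Field F]

theorem H_zero : H F 0 = 0 := by simp [H]

theorem H_succ (n : ℕ) : H F (n + 1) = H F n + ((n : F) + 1)⁻¹ := by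
  unfold H
  rw [sum_range_succ]

theorem S_zero (M : ℕ) : S F M 0 = 0 := by simp [S]

theorem S_pascal (M K : ℕ) : S F (M + 1) (K + 1) = S F M (K + 1) + S F M K := by
  unfold S
  rw [sum_range_succ, sum_range_succ (fun l => (-1 : F) ^ l * (M.choose (K + 1 - 1 - l) : F)
    * ((l : F) + 1)⁻¹)]
  have h1 : ∀ l ∈ range K, (-1 : F) ^ l * ((M + 1).choose (K + 1 - 1 - l) : F) * ((l : F) + 1)⁻¹ =
      (-1 : F) ^ l * (M.choose (K + 1 - 1 - l) : F) * ((l : F) + 1)⁻¹ +
      (-1 : F) ^ l * (M.choose (K - 1 - l) : F) * ((l : F) + 1)⁻¹ := by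
    intro l hl
    have hl' : l < K := by simpa using hl
    obtain ⟨j, hj⟩ : ∃ j, K = l + 1 + j := ⟨K - (l + 1), by omega⟩
    subst hj
    rw [show l + 1 + j + 1 - 1 - l = j + 1 by omega, show l + 1 + j - 1 - l = j by omega,
      Nat.choose_succ_succ]
    push_cast
    ring
  rw [sum_congr rfl h1, sum_add_distrib, show K + 1 - 1 - K = 0 by omega, Nat.choose_zero_right,
    Nat.choose_zero_right]
  ring

theorem S_edge (M : ℕ) (hM : ∀ j, 0 < j → j ≤ M + 1 → ((j : ℕ) : F) ≠ 0) :
    S F M (M + 1) = ((M : F) + 1)⁻¹ := by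
  have hM1 : ((M : F) + 1) ≠ 0 := by
    have := hM (M + 1) (by omega) le_rfl
    push_cast at this
    exact this
  have h1 : S F M (M + 1) = ∑ l ∈ range (M + 1), (-1 : F) ^ l * ((M + 1).choose (l + 1) : F)
      * ((M : F) + 1)⁻¹ := by
    unfold S
    refine sum_congr rfl fun l hl => ?_
    have hl' : l ≤ M := by simpa [Nat.lt_succ_iff] using hl
    have hl1 : ((l : F) + 1) ≠ 0 := by
      have := hM (l + 1) (by omega) (by omega)
      push_cast at this
      exact this
    rw [show M + 1 - 1 - l = M - l by omega, Nat.choose_symm hl']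
    have h2 := Nat.add_one_mul_choose_eq M l
    have h2' : (((M + 1) * M.choose l : ℕ) : F) = (((M + 1).choose (l + 1) * (l + 1) : ℕ) : F) := by
      rw [h2]
    push_cast at h2'
    field_simp
    linear_combination h2'
  have h3 := Int.alternating_sum_range_choose (n := M + 1)
  rw [if_neg (Nat.succ_ne_zero M), sum_range_succ'] at h3
  have h4 : (∑ k ∈ range (M + 1), (-1 : ℤ) ^ k * ((M + 1).choose (k + 1) : ℤ)) = 1 := by
    have e : ∑ k ∈ range (M + 1), (-1 : ℤ) ^ (k + 1) * ((M + 1).choose (k + 1) : ℤ) =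
        - ∑ k ∈ range (M + 1), (-1 : ℤ) ^ k * ((M + 1).choose (k + 1) : ℤ) := by
      rw [← sum_neg_distrib]
      refine sum_congr rfl fun k _ => ?_
      rw [pow_succ]; ring
    rw [e] at h3
    simp only [pow_zero, Nat.choose_zero_right, Nat.cast_one, mul_one] at h3
    linarith
  have h5 : (∑ k ∈ range (M + 1), (-1 : F) ^ k * ((M + 1).choose (k + 1) : F)) = 1 := by
    have := congrArg (Int.cast : ℤ → F) h4
    push_cast at this
    exact this
  rw [h1, ← sum_mul, h5, one_mul]

/-- the harmonic identity -/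
theorem S_eq (K x : ℕ) (hM : ∀ j, 0 < j → j ≤ x + K → ((j : ℕ) : F) ≠ 0) :
    S F (x + K) K = ((x + K).choose K : F) * (H F (x + K) - H F x) := by
  induction K generalizing x with
  | zero => simp [S_zero]
  | succ K ihK =>
    induction x with
    | zero =>
      have h1 := ihK 0 (fun j h1 h2 => hM j h1 (by omega))
      rw [zero_add] at h1 ⊢
      rw [S_pascal, S_edge K (fun j h1 h2 => hM j h1 (by omega)), h1, H_succ, Nat.choose_self,
        Nat.choose_self]
      push_cast
      ring
    | succ x ihx =>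
      have h1 := ihK (x + 1) (fun j h1 h2 => hM j h1 (by omega))
      have h2 := ihx (fun j h1 h2 => hM j h1 (by omega))
      rw [show x + 1 + K = x + K + 1 by ring] at h1
      rw [show x + (K + 1) = x + K + 1 by ring] at h2
      rw [show x + 1 + (K + 1) = (x + K + 1) + 1 by ring, S_pascal, h1, h2, H_succ (x + K + 1),
        H_succ x]
      have hx : ((x : F) + 1) ≠ 0 := by
        have := hM (x + 1) (by omega) (by omega)
        push_cast at this
        exact this
      have hs : (((x + K + 1 : ℕ) : F) + 1) ≠ 0 := by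
        have := hM (x + K + 1 + 1) (by omega) (by omega)
        push_cast at this ⊢
        exact this
      -- binomial relations
      have e1 := Nat.choose_succ_succ (x + K + 1) K
      have e1' : ((x + K + 1 + 1).choose (K + 1) : F) = ((x + K + 1).choose K : F)
          + ((x + K + 1).choose (K + 1) : F) := by
        rw [e1]; push_cast; rfl
      have e2 := Nat.choose_succ_right_eq (x + K + 1) K
      rw [show x + K + 1 - K = x + 1 by omega] at e2
      have e2' : (((x + K + 1).choose (K + 1) * (K + 1) : ℕ) : F) =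
        (((x + K + 1).choose K * (x + 1) : ℕ) : F) := by rw [e2]
      push_cast at e2'
      have e3 := Nat.add_one_mul_choose_eq (x + K + 1) K
      have e3' : (((x + K + 1 + 1) * (x + K + 1).choose K : ℕ) : F) =
        (((x + K + 1 + 1).choose (K + 1) * (K + 1) : ℕ) : F) := by rw [e3]
      push_cast at e3'
      rw [e1']
      rw [e1'] at e3'
      push_cast at hs ⊢
      field_simp
      linear_combination e2'

end Pool.Agent.Q267.CDE
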