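import Pool.Agent.Q267.CDE.Base
import Pool.Agent.Q267.CDE.Harm

/-!
# Jacobi sums modulo `p²`
-/

namespace Pool.Agent.Q267.CDE

open Finset

variable (p : ℕ) [hp : Fact p.Prime]

theorem choose_pred (s : ℕ) (hs : s < p) : (((p - 1).choose s : ℕ) : ZMod p) = (-1) ^ s := by
  induction s with
  | zero => simp
  | succ s ih =>
    have ih := ih (by omega)
    have h1 : (p - 1 + 1).choose (s + 1) = (p - 1).choose s + (p - 1).choose (s + 1) :=
      Nat.choose_succ_succ _ _
    rw [Nat.sub_add_cancel hp.out.one_le] at h1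
    have h2 : ((p.choose (s + 1) : ℕ) : ZMod p) = 0 := by
      rw [ZMod.natCast_eq_zero_iff]
      exact hp.out.dvd_choose_self (Nat.succ_ne_zero s) hs
    rw [h1, Nat.cast_add, ih] at h2
    rw [pow_succ]
    linear_combination h2

/-- the first order part of the Frobenius -/
noncomputable def G (x : R p) : R p :=
  ∑ s ∈ range (p - 1), lift p (-((s : ZMod p) + 1)⁻¹) * x ^ (s + 1)

theorem choose_p (s : ℕ) (hs : s + 1 < p) :
    (-1) ^ (s + 1) * ((p.choose (s + 1) : ℕ) : R p) = p * lift p (-((s : ZMod p) + 1)⁻¹) := by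
  have hu := isUnit_nat p (s + 1) (by omega) hs
  apply hu.mul_left_cancel
  have h1 : (s + 1) * p.choose (s + 1) = p * (p - 1).choose s := by
    have := Nat.add_one_mul_choose_eq (p - 1) s
    rw [Nat.sub_add_cancel hp.out.one_le] at this
    rw [this]; ring
  have h1' : (((s + 1) * p.choose (s + 1) : ℕ) : R p) = ((p * (p - 1).choose s : ℕ) : R p) := by
    rw [h1]
  rw [Nat.cast_mul, Nat.cast_mul] at h1'
  have h2 : (p : R p) * ((-1) ^ (s + 1) * (((p - 1).choose s : ℕ) : R p)) =
      p * (((s + 1 : ℕ) : R p) * lift p (-((s : ZMod p) + 1)⁻¹)) := by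
    apply p_mul_eq
    rw [map_mul, map_mul, map_pow, map_neg, map_one, red_nat, red_nat, red_lift,
      choose_pred p s (by omega)]
    have h0 := cast_ne p (s + 1) (by omega) hs
    push_cast at h0 ⊢
    have h3 : ((-1 : ZMod p)) ^ s * (-1) ^ s = 1 := by rw [← mul_pow]; norm_num
    have h4 : ((s : ZMod p) + 1) * -((s : ZMod p) + 1)⁻¹ = -1 := by
      rw [mul_neg, mul_inv_cancel₀ h0]
    rw [h4, pow_succ]
    linear_combination -h3
  linear_combination (-1) ^ (s + 1) * h1' + h2

theorem frob (hodd : Odd p) (x : R p) : (1 - x) ^ p = 1 - x ^ p + p * G p x := by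
  obtain ⟨q, hq⟩ : ∃ q, p = q + 1 := ⟨p - 1, by have := hp.out.one_le; omega⟩
  have h1 : (1 - x) ^ p = ∑ m ∈ range (p + 1), (-x) ^ m * ((p.choose m : ℕ) : R p) := by
    rw [show (1 : R p) - x = -x + 1 by ring, add_pow]
    refine sum_congr rfl fun m _ => ?_
    rw [one_pow, mul_one]
  have h2 : ∑ m ∈ range (p + 1), (-x) ^ m * ((p.choose m : ℕ) : R p) =
      (∑ s ∈ range (p - 1), (-x) ^ (s + 1) * ((p.choose (s + 1) : ℕ) : R p)) + 1 + (-x) ^ p := by
    rw [sum_range_succ, Nat.choose_self]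
    have h3 : ∑ m ∈ range p, (-x) ^ m * ((p.choose m : ℕ) : R p) =
        (∑ s ∈ range (p - 1), (-x) ^ (s + 1) * ((p.choose (s + 1) : ℕ) : R p)) + 1 := by
      have h4 := sum_range_succ' (fun m => (-x) ^ m * ((p.choose m : ℕ) : R p)) (p - 1)
      rw [show p - 1 + 1 = p by omega] at h4
      rw [h4]
      simp
    rw [h3]
    push_cast
    ring
  rw [h1, h2, hodd.neg_pow]
  have h5 : ∑ s ∈ range (p - 1), (-x) ^ (s + 1) * ((p.choose (s + 1) : ℕ) : R p) = p * G p x := by
    unfold G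
    rw [mul_sum]
    refine sum_congr rfl fun s hs => ?_
    have hs' : s + 1 < p := by
      rw [mem_range] at hs
      omega
    have h6 := choose_p p s hs'
    rw [neg_pow]
    linear_combination x ^ (s + 1) * h6
  rw [h5]
  ring

omit hp in
theorem nil_pow (x y : R p) (n : ℕ) :
    (x + p * y) ^ (n + 1) = x ^ (n + 1) + p * (((n : R p) + 1) * x ^ n * y) := by
  have hpp := p_sq p
  induction n with
  | zero => simp
  | succ n ih =>
    rw [pow_succ, ih]
    push_cast
    linear_combination (((n : R p) + 1) * x ^ n * y ^ 2) * hpp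

omit hp in
/-- divisibility by `p - 1` in the relevant range -/
theorem dvd_iff (A i a : ℕ) (hA : A + a = p - 1) (hi : A + i < 2 * (p - 1)) (h0 : 0 < A + i) :
    (p - 1) ∣ (A + i) ↔ i = a := by
  constructor
  · rintro ⟨c, hc⟩
    have hc0 : c ≠ 0 := by
      rintro rfl
      omega
    have hc1 : c < 2 := by
      by_contra h
      have : (p - 1) * 2 ≤ (p - 1) * c := Nat.mul_le_mul_left _ (by omega)
      omega
    have : c = 1 := by omega
    subst this
    omega
  · rintro rfl
    rw [hA]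

/-- the main part -/
theorem main_part (a N : ℕ) (ha : 0 < a) (haN : a ≤ N) (hN : N + 1 < p) :
    ∑ t : ZMod p, om p t ^ (p - 1 - a) * (1 - om p t) ^ N =
      ((p : R p) - 1) * ((-1) ^ a * ((N.choose a : ℕ) : R p)) := by
  have h1 : ∀ t : ZMod p, om p t ^ (p - 1 - a) * (1 - om p t) ^ N =
      ∑ i ∈ range (N + 1), ((-1) ^ i * ((N.choose i : ℕ) : R p)) * om p t ^ (p - 1 - a + i) := by
    intro t
    rw [show (1 : R p) - om p t = -om p t + 1 by ring, add_pow, mul_sum]
    refine sum_congr rfl fun i _ => ?_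
    rw [one_pow, mul_one, neg_pow, pow_add]
    ring
  rw [sum_congr rfl fun t _ => h1 t, sum_comm]
  rw [sum_eq_single a]
  · rw [← mul_sum, sum_om p _ (by omega), if_pos (by rw [show p - 1 - a + a = p - 1 by omega])]
    ring
  · intro i hi hia
    have hi' : i ≤ N := by simpa [Nat.lt_succ_iff] using hi
    rw [← mul_sum, sum_om p _ (by omega), if_neg, mul_zero]
    intro h
    exact hia ((dvd_iff p (p - 1 - a) i a (by omega) (by omega) (by omega)).1 h)
  · intro h
    exact absurd (mem_range.2 (by omega)) h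

/-- the inner sum of the correction -/
theorem inner (a i : ℕ) (ha : 0 < a) (hap : a + 1 < p) (hi : i + 2 < p) :
    ∑ t : ZMod p, t ^ (p - 1 - a + i) * ∑ s ∈ range (p - 1), (-((s : ZMod p) + 1)⁻¹) * t ^ (s + 1)
      = if i < a then ((a : ZMod p) - i)⁻¹ else -((i : ZMod p) + 1 - a)⁻¹ := by
  have h1 : ∀ t : ZMod p, t ^ (p - 1 - a + i) * ∑ s ∈ range (p - 1),
      (-((s : ZMod p) + 1)⁻¹) * t ^ (s + 1) =
      ∑ s ∈ range (p - 1), (-((s : ZMod p) + 1)⁻¹) * t ^ (p - 1 - a + i + (s + 1)) := by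
    intro t
    rw [mul_sum]
    refine sum_congr rfl fun s _ => ?_
    rw [pow_add t (p - 1 - a + i)]
    ring
  rw [sum_congr rfl fun t _ => h1 t, sum_comm]
  have h2 : ∀ s ∈ range (p - 1), ∑ t : ZMod p, (-((s : ZMod p) + 1)⁻¹) *
      t ^ (p - 1 - a + i + (s + 1)) = if (p - 1) ∣ (p - 1 - a + i + (s + 1)) then
        ((s : ZMod p) + 1)⁻¹ else 0 := by
    intro s _
    rw [← mul_sum, sum_pow p _ (by omega)]
    split_ifs <;> ring
  rw [sum_congr rfl h2]
  split_ifs with h
  · rw [sum_eq_single (a - i - 1)]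
    · rw [if_pos (by rw [show p - 1 - a + i + (a - i - 1 + 1) = p - 1 by omega])]
      congr 1
      have e : a - i - 1 + 1 + i = a := by omega
      have e' := congrArg (Nat.cast : ℕ → ZMod p) e
      push_cast at e'
      linear_combination e'
    · intro s hs hne
      rw [mem_range] at hs
      rw [if_neg]
      intro hd
      have := (dvd_iff p (p - 1 - a) (i + (s + 1)) a (by omega) (by omega) (by omega)).1 (by
        rwa [← add_assoc])
      omega
    · intro h'
      exact absurd (mem_range.2 (by omega)) h'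
  · rw [sum_eq_single (p - 1 - (i + 1 - a))]
    · rw [if_pos (by
        rw [show p - 1 - a + i + (p - 1 - (i + 1 - a) + 1) = (p - 1) * 2 by omega]
        exact Dvd.intro _ rfl)]
      have e : p - 1 - (i + 1 - a) + 1 + (i + 1) = a + p := by omega
      have e' := congrArg (Nat.cast : ℕ → ZMod p) e
      push_cast at e'
      have hp0 : ((p : ℕ) : ZMod p) = 0 := CharP.cast_eq_zero _ _
      rw [← inv_neg]
      congr 1
      linear_combination e' + hp0
    · intro s hs hne
      rw [mem_range] at hs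
      rw [if_neg]
      intro hd
      obtain ⟨c, hc⟩ := hd
      have hc0 : 1 < c := by
        by_contra hcc
        have : (p - 1) * c ≤ (p - 1) * 1 := Nat.mul_le_mul_left _ (by omega)
        omega
      have hc1 : c < 3 := by
        by_contra h
        have : (p - 1) * 3 ≤ (p - 1) * c := Nat.mul_le_mul_left _ (by omega)
        omega
      have : c = 2 := by omega
      subst this
      omega
    · intro h'
      exact absurd (mem_range.2 (by omega)) h'

/-- the correction -/
theorem corr (a n : ℕ) (ha : 0 < a) (han : a ≤ n) (hn : n + 2 < p) :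
    ∑ t : ZMod p, t ^ (p - 1 - a) * ((1 - t) ^ n *
      ∑ s ∈ range (p - 1), (-((s : ZMod p) + 1)⁻¹) * t ^ (s + 1)) =
      -((-1) ^ a * (S (ZMod p) n a + S (ZMod p) n (n + 1 - a))) := by
  have h1 : ∀ t : ZMod p, t ^ (p - 1 - a) * ((1 - t) ^ n *
      ∑ s ∈ range (p - 1), (-((s : ZMod p) + 1)⁻¹) * t ^ (s + 1)) =
      ∑ i ∈ range (n + 1), ((-1) ^ i * ((n.choose i : ℕ) : ZMod p)) * (t ^ (p - 1 - a + i) *
        ∑ s ∈ range (p - 1), (-((s : ZMod p) + 1)⁻¹) * t ^ (s + 1)) := by
    intro t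
    rw [show (1 : ZMod p) - t = -t + 1 by ring, add_pow, sum_mul, mul_sum]
    refine sum_congr rfl fun i _ => ?_
    rw [one_pow, mul_one, neg_pow, pow_add]
    ring
  rw [sum_congr rfl fun t _ => h1 t, sum_comm]
  have h2 : ∀ i ∈ range (n + 1), ∑ t : ZMod p, ((-1) ^ i * ((n.choose i : ℕ) : ZMod p)) *
      (t ^ (p - 1 - a + i) * ∑ s ∈ range (p - 1), (-((s : ZMod p) + 1)⁻¹) * t ^ (s + 1)) =
      ((-1) ^ i * ((n.choose i : ℕ) : ZMod p)) *
        (if i < a then ((a : ZMod p) - i)⁻¹ else -((i : ZMod p) + 1 - a)⁻¹) := by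
    intro i hi
    have hi' : i ≤ n := by simpa [Nat.lt_succ_iff] using hi
    rw [← mul_sum, inner p a i ha (by omega) (by omega)]
  rw [sum_congr rfl h2, show n + 1 = a + (n + 1 - a) by omega, sum_range_add]
  have h3 : ∑ i ∈ range a, ((-1) ^ i * ((n.choose i : ℕ) : ZMod p)) *
        (if i < a then ((a : ZMod p) - i)⁻¹ else -((i : ZMod p) + 1 - a)⁻¹) =
      -((-1) ^ a * S (ZMod p) n a) := by
    unfold S
    rw [← sum_range_reflect, mul_sum, ← sum_neg_distrib]
    refine sum_congr rfl fun l hl => ?_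
    rw [mem_range] at hl
    obtain ⟨j, hj⟩ : ∃ j, a = j + l + 1 := ⟨a - l - 1, by omega⟩
    subst hj
    rw [show j + l + 1 - 1 - l = j by omega, if_pos (by omega)]
    have h4 : ((-1 : ZMod p)) ^ l * (-1) ^ l = 1 := by rw [← mul_pow]; norm_num
    have h5 : (((j + l + 1 : ℕ) : ZMod p) - (j : ℕ)) = (l : ZMod p) + 1 := by push_cast; ring
    rw [h5, show j + l + 1 = j + (l + 1) by ring, pow_add, pow_succ]
    linear_combination (-(-1) ^ j * (n.choose j : ZMod p) * ((l : ZMod p) + 1)⁻¹) * h4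
  have h6 : ∑ i ∈ range (n + 1 - a), ((-1) ^ (a + i) * ((n.choose (a + i) : ℕ) : ZMod p)) *
        (if a + i < a then ((a : ZMod p) - ((a + i : ℕ) : ZMod p))⁻¹
          else -((((a + i : ℕ) : ZMod p)) + 1 - a)⁻¹) =
      -((-1) ^ a * S (ZMod p) n (n + 1 - a)) := by
    unfold S
    rw [mul_sum, ← sum_neg_distrib]
    refine sum_congr rfl fun l hl => ?_
    rw [mem_range] at hl
    rw [if_neg (by omega), show n + 1 - a - 1 - l = n - (a + l) by omega,
      Nat.choose_symm (by omega)]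
    have h5 : ((((a + l : ℕ) : ZMod p)) + 1 - a) = (l : ZMod p) + 1 := by push_cast; ring
    rw [h5, pow_add]
    ring
  rw [h3, h6, show a + (n + 1 - a) - a = n + 1 - a by omega]
  ring

/-- **Jacobi sums modulo `p²`** -/
theorem jac_raw (hodd : Odd p) (a n : ℕ) (ha : 0 < a) (han : a ≤ n) (hn : n + 2 < p) :
    ∑ t : ZMod p, om p t ^ (p - 1 - a) * om p (1 - t) ^ (n + 1) =
      (-1) ^ a * (((p : R p) - 1) * (((n + 1).choose a : ℕ) : R p) -
        p * lift p (((n : ZMod p) + 1) * (S (ZMod p) n a + S (ZMod p) n (n + 1 - a)))) := by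
  have h1 : ∀ t : ZMod p, om p t ^ (p - 1 - a) * om p (1 - t) ^ (n + 1) =
      om p t ^ (p - 1 - a) * (1 - om p t) ^ (n + 1) + p * (om p t ^ (p - 1 - a) *
        (((n : R p) + 1) * (1 - om p t) ^ n * G p (om p t))) := by
    intro t
    rw [om_one_sub, frob p hodd, om_pow_p, nil_pow]
    ring
  rw [sum_congr rfl fun t _ => h1 t, sum_add_distrib, main_part p a (n + 1) ha (by omega)
    (by omega), ← mul_sum]
  have h2 : (p : R p) * ∑ t : ZMod p, om p t ^ (p - 1 - a) *
        (((n : R p) + 1) * (1 - om p t) ^ n * G p (om p t)) =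
      p * (-((-1) ^ a * lift p (((n : ZMod p) + 1) *
        (S (ZMod p) n a + S (ZMod p) n (n + 1 - a))))) := by
    apply p_mul_eq
    have h3 : red p (((n : R p) + 1)) = (n : ZMod p) + 1 := by
      rw [map_add, map_one, red_nat]
    have h4 : ∀ t : ZMod p, red p (G p (om p t)) =
        ∑ s ∈ range (p - 1), (-((s : ZMod p) + 1)⁻¹) * t ^ (s + 1) := by
      intro t
      unfold G
      rw [map_sum]
      refine sum_congr rfl fun s _ => ?_
      rw [map_mul, map_pow, red_lift, red_om]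
    rw [map_sum, map_neg, map_mul, map_pow, map_neg, map_one, red_lift]
    have h5 : ∀ t : ZMod p, red p (om p t ^ (p - 1 - a) *
        (((n : R p) + 1) * (1 - om p t) ^ n * G p (om p t))) = ((n : ZMod p) + 1) *
        (t ^ (p - 1 - a) * ((1 - t) ^ n *
      ∑ s ∈ range (p - 1), (-((s : ZMod p) + 1)⁻¹) * t ^ (s + 1))) := by
      intro t
      rw [map_mul, map_pow, red_om, map_mul, map_mul, h3, h4, map_pow, map_sub, map_one, red_om]
      ring
    rw [sum_congr rfl fun t _ => h5 t, ← mul_sum, corr p a n ha han hn]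
    ring
  rw [h2]
  ring

/-- **Jacobi sums modulo `p²`**: `J = -(-1)^a C(N,a) (1 + p (N H_N - (N-a) H_{N-a} - a H_a))`. -/
theorem jac (hodd : Odd p) (a N : ℕ) (ha : 0 < a) (haN : a < N) (hN : N + 1 < p) (h : R p)
    (hh : red p h = (N : ZMod p) * H (ZMod p) N - ((N : ZMod p) - a) * H (ZMod p) (N - a)
      - a * H (ZMod p) a) :
    ∑ t : ZMod p, om p t ^ (p - 1 - a) * om p (1 - t) ^ N =
      -((-1) ^ a * (((N.choose a : ℕ) : R p) * (1 + p * h))) := by
  obtain ⟨n, rfl⟩ : ∃ n, N = n + 1 := ⟨N - 1, by omega⟩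
  rw [jac_raw p hodd a n ha (by omega) (by omega)]
  obtain ⟨x, rfl⟩ : ∃ x, n = x + a := ⟨n - a, by omega⟩
  obtain ⟨b, rfl⟩ : ∃ b, a = b + 1 := ⟨a - 1, by omega⟩
  have hinv : ∀ j, 0 < j → j ≤ x + (b + 1) → ((j : ℕ) : ZMod p) ≠ 0 :=
    fun j h1 h2 => cast_ne p j h1 (by omega)
  have e1 := S_eq (F := ZMod p) (b + 1) x hinv
  have e2 := S_eq (F := ZMod p) (x + 1) b (fun j h1 h2 => hinv j h1 (by omega))
  rw [show b + (x + 1) = x + (b + 1) by ring] at e2
  rw [show x + (b + 1) + 1 - (b + 1) = x + 1 by omega] at hh ⊢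
  have key : (p : R p) * lift p ((((x + (b + 1) : ℕ) : ZMod p) + 1) *
      (S (ZMod p) (x + (b + 1)) (b + 1) + S (ZMod p) (x + (b + 1)) (x + 1))) =
      p * ((((x + (b + 1) + 1).choose (b + 1) : ℕ) : R p) * (1 + h)) := by
    apply p_mul_eq
    rw [red_lift, e1, e2, map_mul, map_add, map_one, hh, red_nat]
    -- binomial relations
    have c1 := Nat.add_one_mul_choose_eq (x + (b + 1)) b
    have c1' := congrArg (Nat.cast : ℕ → ZMod p) c1
    have c2 := Nat.add_one_mul_choose_eq (x + (b + 1)) x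
    have c2' := congrArg (Nat.cast : ℕ → ZMod p) c2
    have c3 : (x + (b + 1)).choose x = (x + (b + 1)).choose (b + 1) := by
      rw [← Nat.choose_symm_add]
    have c4 : (x + (b + 1) + 1).choose (x + 1) = (x + (b + 1) + 1).choose (b + 1) := by
      rw [show x + (b + 1) + 1 = (x + 1) + (b + 1) by ring, ← Nat.choose_symm_add]
    have c5 : (x + (b + 1)).choose (x + 1) = (x + (b + 1)).choose b := by
      rw [show x + (b + 1) = (x + 1) + b by ring, ← Nat.choose_symm_add]
    rw [c3, c4] at c2'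
    rw [c5]
    rw [H_succ (x + (b + 1)), H_succ x, H_succ b]
    have n1 := hinv (b + 1) (by omega) (by omega)
    have n2 : ((x : ZMod p) + 1) ≠ 0 := by
      have := hinv (x + 1) (by omega) (by omega)
      push_cast at this
      exact this
    have n3 : ((x : ZMod p) + (b + 1) + 1) ≠ 0 := by
      have := cast_ne p (x + (b + 1) + 1) (by omega) (by omega)
      push_cast at this
      exact this
    push_cast at c1' c2' n1 ⊢
    set C1 := (((x + (b + 1)).choose (b + 1) : ℕ) : ZMod p)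
    set C0 := (((x + (b + 1)).choose b : ℕ) : ZMod p)
    set C2 := (((x + (b + 1) + 1).choose (b + 1) : ℕ) : ZMod p)
    set Ha := H (ZMod p) (x + (b + 1))
    set Hx := H (ZMod p) x
    set Hb := H (ZMod p) b
    have i1 : ((b : ZMod p) + 1) * ((b : ZMod p) + 1)⁻¹ = 1 := mul_inv_cancel₀ n1
    have i2 : ((x : ZMod p) + 1) * ((x : ZMod p) + 1)⁻¹ = 1 := mul_inv_cancel₀ n2
    have i3 : ((x : ZMod p) + (b + 1) + 1) * ((x : ZMod p) + (b + 1) + 1)⁻¹ = 1 :=
      mul_inv_cancel₀ n3
    linear_combination (Ha - Hx) * c2' + (Ha - Hb) * c1' - C2 * i3 + C2 * i2 + C2 * i1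
  rw [key]
  ring

end Pool.Agent.Q267.CDE
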