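import Pool.Agent.Q267.CDE.Centre
import Pool.Agent.Q267.CDE.Jac

/-!
# The sum `T` modulo `p` and modulo `p²`, and `(-3)^((p-1)/2)` modulo `p²`
-/

namespace Pool.Agent.Q267.CDE

open Finset

variable (p : ℕ) [hp : Fact p.Prime]

theorem choose_add_mod (s : ℕ) (hs : s < p) : (((p + s).choose s : ℕ) : ZMod p) = 1 := by
  have h1 : (p + s).choose s = (p + s).choose p := (Nat.choose_symm_add).symm
  have h2 := Choose.choose_modEq_choose_mod_mul_choose_div_nat (p := p) (n := p + s) (k := p)
  rw [h1, ← Nat.cast_one, ZMod.natCast_eq_natCast_iff]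
  refine h2.trans ?_
  rw [Nat.add_mod_left, Nat.mod_eq_of_lt hs, Nat.mod_self, Nat.choose_zero_right,
    Nat.add_div_left s hp.out.pos, Nat.div_eq_of_lt hs, Nat.div_self hp.out.pos, zero_add,
    Nat.choose_self, mul_one]

omit hp in
theorem abs_choose (m i : ℕ) (hpm : p = 2 * m + 1) :
    (i + 1) * (2 * m + (i + 1)).choose (2 * m) = p * (p + i).choose i := by
  have h1 : (2 * m + (i + 1)).choose (2 * m) = (2 * m + (i + 1)).choose (i + 1) :=
    Nat.choose_symm_add
  have h2 := Nat.choose_succ_right_eq (2 * m + (i + 1)) i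
  rw [show 2 * m + (i + 1) - i = p by omega] at h2
  rw [h1, show p + i = 2 * m + (i + 1) by omega, mul_comm (i + 1), h2, mul_comm]

theorem choose_R (m i : ℕ) (hpm : p = 2 * m + 1) (hi : i + 1 < p) :
    (((2 * m + (i + 1)).choose (2 * m) : ℕ) : R p) = p * lift p (((i : ZMod p) + 1)⁻¹) := by
  have hu := isUnit_nat p (i + 1) (by omega) hi
  apply hu.mul_left_cancel
  have h1 := abs_choose p m i hpm
  have h1' : (((i + 1) * (2 * m + (i + 1)).choose (2 * m) : ℕ) : R p) =
      ((p * (p + i).choose i : ℕ) : R p) := by rw [h1]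
  rw [Nat.cast_mul, Nat.cast_mul] at h1'
  have h2 : (p : R p) * ((((p + i).choose i : ℕ) : R p)) =
      p * (((i + 1 : ℕ) : R p) * lift p (((i : ZMod p) + 1)⁻¹)) := by
    apply p_mul_eq
    rw [map_mul, red_nat, red_nat, red_lift, choose_add_mod p i (by omega)]
    have h0 := cast_ne p (i + 1) (by omega) hi
    push_cast at h0 ⊢
    rw [mul_inv_cancel₀ h0]
  linear_combination h1' + h2

/-- `p` divides `T` if `p ≡ 2 (mod 3)` -/
theorem T_dvd (m : ℕ) (hpm : p = 2 * m + 1) (h3 : p % 3 = 2) : (p : ℤ) ∣ T m := by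
  unfold T
  refine dvd_sum fun j hj => ?_
  have hj' : j ≤ m := by simpa [Nat.lt_succ_iff] using hj
  apply Dvd.dvd.mul_left
  rcases lt_or_ge (3 * j) (2 * m) with h | h
  · rw [Nat.choose_eq_zero_of_lt h]
    simp
  · obtain ⟨i, hi⟩ : ∃ i, 3 * j = 2 * m + (i + 1) := ⟨3 * j - 2 * m - 1, by omega⟩
    rw [hi]
    have h1 := abs_choose p m i hpm
    have h2 : p ∣ (i + 1) * (2 * m + (i + 1)).choose (2 * m) := ⟨_, h1⟩
    rcases (hp.out.dvd_mul).1 h2 with h4 | h4
    · have := Nat.le_of_dvd (by omega) h4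
      omega
    · exact Int.natCast_dvd_natCast.2 h4

/-- `T` modulo `p²` -/
theorem T_mod (r : ℕ) (hr : p = 6 * r + 1) (h : R p)
    (hh : 3 * red p h = H (ZMod p) (3 * r) - H (ZMod p) (2 * r)) :
    (T (3 * r) : R p) = (((3 * r).choose r : ℕ) : R p) * (1 - p * h) := by
  have h2p := hp.out.two_le
  have hr0 : 0 < r := by omega
  unfold T
  push_cast
  rw [show 3 * r + 1 = 2 * r + (1 + r) by ring, sum_range_add, sum_range_add]
  have e1 : ∑ j ∈ range (2 * r), (-1 : R p) ^ j * ((3 * r).choose j : R p) *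
      ((3 * j).choose (2 * (3 * r)) : R p) = 0 := by
    refine sum_eq_zero fun j hj => ?_
    rw [mem_range] at hj
    rw [Nat.choose_eq_zero_of_lt (show 3 * j < 2 * (3 * r) by omega)]
    simp
  have e2 : ∑ j ∈ range 1, (-1 : R p) ^ (2 * r + j) * ((3 * r).choose (2 * r + j) : R p) *
      ((3 * (2 * r + j)).choose (2 * (3 * r)) : R p) = (((3 * r).choose r : ℕ) : R p) := by
    rw [sum_range_one, add_zero, show 3 * (2 * r) = 2 * (3 * r) by ring, Nat.choose_self,
      pow_mul, show 3 * r = 2 * r + r by ring, Nat.choose_symm_add]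
    norm_num
  have e3 : ∑ j ∈ range r, (-1 : R p) ^ (2 * r + (1 + j)) *
      ((3 * r).choose (2 * r + (1 + j)) : R p) *
      ((3 * (2 * r + (1 + j))).choose (2 * (3 * r)) : R p) =
      -(p * ((((3 * r).choose r : ℕ) : R p) * h)) := by
    have e4 : ∀ j ∈ range r, (-1 : R p) ^ (2 * r + (1 + j)) *
      ((3 * r).choose (2 * r + (1 + j)) : R p) *
      ((3 * (2 * r + (1 + j))).choose (2 * (3 * r)) : R p) =
      p * (-((-1) ^ j * ((3 * r).choose (r - 1 - j) : R p) *
        lift p ((((3 * (j + 1) - 1 : ℕ) : ZMod p) + 1)⁻¹))) := by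
      intro j hj
      rw [mem_range] at hj
      have e5 := choose_R p (3 * r) (3 * (j + 1) - 1) (by omega) (by omega)
      rw [show 2 * (3 * r) + (3 * (j + 1) - 1 + 1) = 3 * (2 * r + (1 + j)) by omega] at e5
      rw [e5]
      have e6 : (3 * r).choose (2 * r + (1 + j)) = (3 * r).choose (r - 1 - j) := by
        rw [← Nat.choose_symm (show r - 1 - j ≤ 3 * r by omega)]
        congr 1
        omega
      rw [e6, pow_add, pow_mul, pow_add]
      norm_num
      ring
    rw [sum_congr rfl e4, ← mul_sum, ← mul_neg]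
    apply p_mul_eq
    have hS := S_eq (F := ZMod p) r (2 * r) (fun j h1 h2 => cast_ne p j h1 (by omega))
    rw [show 2 * r + r = 3 * r by ring, ← hh] at hS
    have h3 : (3 : ZMod p) ≠ 0 := by
      have := cast_ne p 3 (by omega) (by omega)
      exact_mod_cast this
    apply mul_left_cancel₀ h3
    rw [map_neg, map_mul, red_nat, sum_neg_distrib, map_neg, map_sum]
    have e7 : 3 * ∑ x ∈ range r, red p ((-1) ^ x * ((3 * r).choose (r - 1 - x) : R p) *
        lift p ((((3 * (x + 1) - 1 : ℕ) : ZMod p) + 1)⁻¹)) = S (ZMod p) (3 * r) r := by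
      unfold S
      rw [mul_sum]
      refine sum_congr rfl fun x hx => ?_
      rw [map_mul, map_mul, map_pow, map_neg, map_one, red_nat, red_lift]
      have e8 : ((3 * (x + 1) - 1 : ℕ) : ZMod p) + 1 = 3 * ((x : ZMod p) + 1) := by
        have : 3 * (x + 1) - 1 + 1 = 3 * (x + 1) := by omega
        have := congrArg (Nat.cast : ℕ → ZMod p) this
        push_cast at this
        exact this
      rw [e8, mul_inv]
      have e9 : (3 : ZMod p) * 3⁻¹ = 1 := mul_inv_cancel₀ h3
      linear_combination ((-1) ^ x * ((3 * r).choose (r - 1 - x) : ZMod p) *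
        ((x : ZMod p) + 1)⁻¹) * e9
    linear_combination (-1 : ZMod p) * e7 - hS
  rw [e1, e2, e3]
  ring

/-! ### the power of `-3` -/

omit hp in
theorem prod_one_sub {ι : Type*} (s : Finset ι) (z : ι → R p) :
    ∏ i ∈ s, (1 - p * z i) = 1 - p * ∑ i ∈ s, z i := by
  classical
  induction s using Finset.induction_on with
  | empty => simp
  | insert a s ha ih =>
    rw [prod_insert ha, sum_insert ha, ih]
    linear_combination (z a * ∑ i ∈ s, z i) * p_sq p

theorem prod_shift {ι : Type*} (s : Finset ι) (x : ι → R p) (hx : ∀ i ∈ s, red p (x i) ≠ 0) :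
    (∏ i ∈ s, x i) * (1 - p * ∑ i ∈ s, lift p ((red p (x i))⁻¹)) = ∏ i ∈ s, (x i - p) := by
  rw [← prod_one_sub, ← prod_mul_distrib]
  refine prod_congr rfl fun i hi => ?_
  have : (p : R p) * (x i * lift p ((red p (x i))⁻¹)) = p * 1 := by
    apply p_mul_eq
    rw [map_mul, red_lift, mul_inv_cancel₀ (hx i hi), map_one]
  linear_combination -this

omit hp in
theorem fact_three (r : ℕ) : ((3 * r).factorial : R p) =
    (∏ i ∈ range r, (3 * (i : R p) + 3)) * (∏ i ∈ range r, (3 * (i : R p) + 1)) *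
      ∏ i ∈ range r, (3 * (i : R p) + 2) := by
  induction r with
  | zero => simp
  | succ r ih =>
    rw [prod_range_succ, prod_range_succ, prod_range_succ,
      show 3 * (r + 1) = 3 * r + 1 + 1 + 1 by ring, Nat.factorial_succ, Nat.factorial_succ,
      Nat.factorial_succ]
    push_cast
    rw [ih]
    ring

theorem pow_three (r : ℕ) (hr : p = 6 * r + 1) (h : R p)
    (hh : 3 * red p h = H (ZMod p) (3 * r) - H (ZMod p) r) :
    (-3 : R p) ^ (3 * r) * (1 - p * h) = 1 := by
  have h2p := hp.out.two_le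
  have hr0 : 0 < r := by omega
  have hP : (p : R p) = 6 * r + 1 := by
    have := congrArg (Nat.cast : ℕ → R p) hr
    push_cast at this
    exact this
  have h3 : (3 : ZMod p) ≠ 0 := by
    have := cast_ne p 3 (by omega) (by omega)
    exact_mod_cast this
  -- the product
  have e1 : ∏ k ∈ range (3 * r), (3 * ((k : R p) + 1)) = 3 ^ (3 * r) * ((3 * r).factorial : R p) := by
    rw [prod_mul_distrib, prod_const, card_range]
    congr 1
    rw [← prod_range_add_one_eq_factorial]
    push_cast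
    rfl
  have e2 : ∏ k ∈ range (3 * r), (3 * ((k : R p) + 1)) =
      (∏ i ∈ range r, (3 * (i : R p) + 3)) *
      (∏ i ∈ range r, (3 * ((r : R p) + i + 1))) * ∏ i ∈ range r, (3 * (2 * (r : R p) + i + 1)) := by
    rw [show 3 * r = r + r + r by ring, prod_range_add, prod_range_add]
    congr 1
    · congr 1
      · refine prod_congr rfl fun i _ => ?_
        ring
      · refine prod_congr rfl fun i _ => ?_
        push_cast
        ring
    · refine prod_congr rfl fun i _ => ?_
      push_cast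
      ring
  have r2 : ∀ i ∈ range r, red p (3 * ((r : R p) + i + 1)) ≠ 0 := by
    intro i hi
    rw [mem_range] at hi
    have := cast_ne p (r + i + 1) (by omega) (by omega)
    push_cast at this
    rw [map_mul, map_add, map_add, map_one, red_nat, red_nat, map_ofNat]
    exact mul_ne_zero h3 this
  have r3 : ∀ i ∈ range r, red p (3 * (2 * (r : R p) + i + 1)) ≠ 0 := by
    intro i hi
    rw [mem_range] at hi
    have := cast_ne p (2 * r + i + 1) (by omega) (by omega)
    push_cast at this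
    rw [map_mul, map_add, map_add, map_mul, map_one, red_nat, red_nat, map_ofNat, map_ofNat]
    exact mul_ne_zero h3 this
  have p2 := prod_shift p (range r) (fun i : ℕ => 3 * ((r : R p) + i + 1)) r2
  have p3 := prod_shift p (range r) (fun i : ℕ => 3 * (2 * (r : R p) + i + 1)) r3
  have q2 : ∏ i ∈ range r, (3 * ((r : R p) + i + 1) - p) =
      (-1) ^ r * ∏ i ∈ range r, (3 * (i : R p) + 1) := by
    have : ∏ i ∈ range r, (3 * ((r : R p) + i + 1) - p) =
        ∏ i ∈ range r, -(3 * (i : R p) + 1) := by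
      rw [← prod_range_reflect]
      refine prod_congr rfl fun i hi => ?_
      rw [mem_range] at hi
      obtain ⟨j, rfl⟩ : ∃ j, r = j + i + 1 := ⟨r - 1 - i, by omega⟩
      rw [show j + i + 1 - 1 - i = j by omega, hP]
      push_cast
      ring
    rw [this, prod_neg, card_range]
  have q3 : ∏ i ∈ range r, (3 * (2 * (r : R p) + i + 1) - p) =
      ∏ i ∈ range r, (3 * (i : R p) + 2) := by
    refine prod_congr rfl fun i hi => ?_
    rw [hP]
    ring
  rw [q2] at p2
  rw [q3] at p3
  set A := ∏ i ∈ range r, (3 * (i : R p) + 3)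
  set B2 := ∏ i ∈ range r, (3 * ((r : R p) + i + 1))
  set B3 := ∏ i ∈ range r, (3 * (2 * (r : R p) + i + 1))
  set C2 := ∏ i ∈ range r, (3 * (i : R p) + 1)
  set C3 := ∏ i ∈ range r, (3 * (i : R p) + 2)
  set Z2 := ∑ i ∈ range r, lift p ((red p (3 * ((r : R p) + i + 1)))⁻¹)
  set Z3 := ∑ i ∈ range r, lift p ((red p (3 * (2 * (r : R p) + i + 1)))⁻¹)
  have key : (3 : R p) ^ (3 * r) * (1 - p * (Z2 + Z3)) * ((3 * r).factorial : R p) =
      (-1) ^ r * ((3 * r).factorial : R p) := by
    have h5 : (1 - p * (Z2 + Z3) : R p) = (1 - p * Z2) * (1 - p * Z3) := by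
      linear_combination (-Z2 * Z3) * p_sq p
    have h6 : (3 : R p) ^ (3 * r) * ((3 * r).factorial : R p) = A * B2 * B3 := by
      rw [← e1, e2]
    calc (3 : R p) ^ (3 * r) * (1 - p * (Z2 + Z3)) * ((3 * r).factorial : R p) =
          ((3 : R p) ^ (3 * r) * ((3 * r).factorial : R p)) * ((1 - p * Z2) * (1 - p * Z3)) := by
          rw [h5]; ring
      _ = A * (B2 * (1 - p * Z2)) * (B3 * (1 - p * Z3)) := by rw [h6]; ring
      _ = A * ((-1) ^ r * C2) * C3 := by rw [p2, p3]
      _ = _ := by rw [fact_three]; ring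
  have hfu : IsUnit ((3 * r).factorial : R p) := by
    apply isUnit_of_red
    rw [red_nat, Ne, ZMod.natCast_eq_zero_iff, hp.out.dvd_factorial]
    omega
  have key2 := hfu.mul_right_cancel key
  have hZ : (p : R p) * (Z2 + Z3) = p * h := by
    apply p_mul_eq
    apply mul_left_cancel₀ h3
    rw [hh, map_add, map_sum, map_sum]
    have f2 : 3 * ∑ x ∈ range r, red p (lift p ((red p (3 * ((r : R p) + x + 1)))⁻¹)) =
        ∑ x ∈ range r, (((r + x : ℕ) : ZMod p) + 1)⁻¹ := by
      rw [mul_sum]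
      refine sum_congr rfl fun x hx => ?_
      rw [red_lift, map_mul, map_add, map_add, map_one, red_nat, red_nat, map_ofNat, mul_inv]
      have e9 : (3 : ZMod p) * 3⁻¹ = 1 := mul_inv_cancel₀ h3
      push_cast
      linear_combination ((r : ZMod p) + x + 1)⁻¹ * e9
    have f3 : 3 * ∑ x ∈ range r, red p (lift p ((red p (3 * (2 * (r : R p) + x + 1)))⁻¹)) =
        ∑ x ∈ range r, (((r + r + x : ℕ) : ZMod p) + 1)⁻¹ := by
      rw [mul_sum]
      refine sum_congr rfl fun x hx => ?_
      rw [red_lift, map_mul, map_add, map_add, map_mul, map_one, red_nat, red_nat, map_ofNat,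
        map_ofNat, mul_inv]
      have e9 : (3 : ZMod p) * 3⁻¹ = 1 := mul_inv_cancel₀ h3
      push_cast
      rw [show (r : ZMod p) + r + x + 1 = 2 * r + x + 1 by ring]
      linear_combination (2 * (r : ZMod p) + x + 1)⁻¹ * e9
    have f4 : H (ZMod p) (3 * r) = H (ZMod p) r + (∑ x ∈ range r, (((r + x : ℕ) : ZMod p) + 1)⁻¹)
        + ∑ x ∈ range r, (((r + r + x : ℕ) : ZMod p) + 1)⁻¹ := by
      unfold H
      rw [show 3 * r = r + r + r by ring, sum_range_add, sum_range_add]
    rw [f4]
    linear_combination f2 + f3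
  rw [hZ] at key2
  rw [show (-3 : R p) = (-1) * 3 by ring, mul_pow]
  have h7 : ((-1 : R p)) ^ (3 * r) * (-1) ^ r = 1 := by
    rw [← pow_add, show 3 * r + r = 2 * (2 * r) by ring, pow_mul]
    norm_num
  calc (-1 : R p) ^ (3 * r) * 3 ^ (3 * r) * (1 - p * h) =
        (-1) ^ (3 * r) * (3 ^ (3 * r) * (1 - p * h)) := by ring
    _ = 1 := by rw [key2, h7]

end Pool.Agent.Q267.CDE
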