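import Pool.Agent.Y692.QS.Pts
import Pool.Agent.Q267.CDE.Jac

/-!
# The Jacobi sum `J(2r, 3r)` modulo `p²` and the representation `p = x² + 3 y²`
-/

namespace Pool.Agent.Q267.CDE

open Finset Pool.Agent.Y692.QS

variable {p : ℕ} [hp : Fact p.Prime] {π : Ei}

/-- the integral Jacobi sum -/
noncomputable def U (hπ : nr π = p) (hp3 : p ≠ 3) : Ei :=
  ∑ y : ZMod p, chi hπ hp3 y * rho p (y + 1)

theorem U_eq (hπ : nr π = p) (hp3 : p ≠ 3) (hp2 : p ≠ 2) : U hπ hp3 = chi hπ hp3 4 * Jc hπ hp3 := by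
  have h := J_rho hπ hp3 hp2 (B := 1) one_ne_zero
  have h1 : rho p (1 : ZMod p) = 1 := by
    unfold rho
    rw [map_one, Int.cast_one]
  rw [h1, mul_one, mul_one] at h
  exact h

theorem four_ne (hp2 : p ≠ 2) : (4 : ZMod p) ≠ 0 := by
  intro h
  have h1 : ((2 ^ 2 : ℕ) : ZMod p) = 0 := by
    norm_num
    exact h
  rw [ZMod.natCast_eq_zero_iff] at h1
  exact hp2 ((Nat.prime_dvd_prime_iff_eq hp.out Nat.prime_two).1 (hp.out.dvd_of_dvd_pow h1))

theorem nr_of_cube {u : Ei} (h : u ^ 3 = 1) : nr u = 1 := by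
  rcases cube_cases h with rfl | rfl | rfl <;> decide

theorem U_nr (hπ : nr π = p) (hp3 : p ≠ 3) (hp2 : p ≠ 2) : nr (U hπ hp3) = p := by
  rw [U_eq hπ hp3 hp2, nr_mul, nr_of_cube (chi_cube hπ hp3 (four_ne hp2)), Jc_nr, one_mul]

theorem U_assoc (hπ : nr π = p) (hp3 : p ≠ 3) (hp2 : p ≠ 2) :
    ∃ v : Ei, nr v = 1 ∧ U hπ hp3 = v * π := by
  obtain ⟨u, hu, hJ⟩ := J_assoc hπ hp3
  refine ⟨chi hπ hp3 4 * u, ?_, ?_⟩
  · rw [nr_mul, nr_of_cube (chi_cube hπ hp3 (four_ne hp2)), one_mul]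
    exact isUnit_iff.1 hu
  · rw [U_eq hπ hp3 hp2, hJ]
    ring

theorem U_mod_two (hπ : nr π = p) (hp3 : p ≠ 3) : (2 : Ei) ∣ U hπ hp3 + 1 := by
  classical
  have h1 : U hπ hp3 + 1 = ∑ y : ZMod p, (chi hπ hp3 y * (rho p (y + 1) - 1) +
      if y = -1 then 1 else 0) := by
    rw [sum_add_distrib, sum_ite_eq' univ (-1 : ZMod p), if_pos (mem_univ _)]
    have h2 : ∑ y : ZMod p, chi hπ hp3 y * (rho p (y + 1) - 1) =
        U hπ hp3 - ∑ y : ZMod p, chi hπ hp3 y := by
      unfold U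
      rw [← sum_sub_distrib]
      exact sum_congr rfl fun y _ => by ring
    rw [h2, sum_chi, sub_zero]
  rw [h1]
  refine dvd_sum fun y _ => ?_
  split_ifs with hy
  · rw [hy, neg_add_cancel, chi_neg_one]
    have : rho p (0 : ZMod p) = 0 := by
      unfold rho
      rw [quadraticChar_zero, Int.cast_zero]
    rw [this]
    norm_num
  · have hy1 : y + 1 ≠ 0 := fun h => hy (eq_neg_of_add_eq_zero_left h)
    rw [add_zero]
    apply Dvd.dvd.mul_left
    unfold rho
    rcases quadraticChar_dichotomy hy1 with h | h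
    · rw [h]; norm_num
    · rw [h]
      exact ⟨-1, by norm_num⟩

/-- the element of norm `x² + 3 y²` -/
def pe (x y : ℤ) : Ei := ⟨x + y, 2 * y⟩

theorem nr_pe (x y : ℤ) : nr (pe x y) = x ^ 2 + 3 * y ^ 2 := by
  unfold nr pe
  ring

theorem unit_cases {v : Ei} (h : nr v = 1) : v.im ^ 2 ≤ 1 ∧ (v.im = 0 → v.re ^ 2 = 1) := by
  unfold nr at h
  constructor
  · nlinarith [sq_nonneg (2 * v.re - v.im)]
  · intro h0
    rw [h0] at h
    linarith

theorem trace_sq {x y : ℤ} (hxy : (p : ℤ) = x ^ 2 + 3 * y ^ 2) (hπ : nr (pe x y) = p) (hp3 : p ≠ 3)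
    (hp2 : p ≠ 2) : (2 * (U hπ hp3).re - (U hπ hp3).im) ^ 2 = 4 * x ^ 2 := by
  obtain ⟨v, hv, hU⟩ := U_assoc hπ hp3 hp2
  have h2 := U_mod_two hπ hp3
  obtain ⟨c1, c2⟩ := unit_cases hv
  have h3 : (((2 : ℤ)) : Ei) ∣ U hπ hp3 + 1 := by exact_mod_cast h2
  obtain ⟨-, h4⟩ := int_dvd.1 h3
  rw [QuadraticAlgebra.im_add] at h4
  have e1 : (1 : Ei).im = 0 := rfl
  rw [e1, add_zero, hU, mul_im] at h4
  have e2 : (pe x y).re = x + y := rfl
  have e3 : (pe x y).im = 2 * y := rfl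
  rw [e2, e3] at h4
  -- parity
  have hpodd : ¬ (2 : ℤ) ∣ (p : ℤ) := by
    intro h
    have h5 : (2 : ℕ) ∣ p := by exact_mod_cast h
    exact hp2 ((Nat.prime_dvd_prime_iff_eq Nat.prime_two hp.out).1 h5).symm
  have him : v.im = 0 := by
    have h5 : (2 : ℤ) ∣ v.im * (x - y) := by
      obtain ⟨c, hc⟩ := h4
      exact ⟨c - v.re * y, by linear_combination hc⟩
    rcases Int.prime_two.dvd_or_dvd h5 with h6 | h6
    · have h7 : v.im ≤ 1 := by nlinarith
      have h8 : -1 ≤ v.im := by nlinarith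
      omega
    · exfalso
      apply hpodd
      obtain ⟨c, hc⟩ := h6
      have hx : x = y + 2 * c := by linarith
      rw [hxy, hx]
      exact ⟨2 * y ^ 2 + 2 * y * c + 2 * c ^ 2, by ring⟩
  have hre := c2 him
  have e4 : (2 * (U hπ hp3).re - (U hπ hp3).im) = 2 * v.re * x := by
    rw [hU, mul_re, mul_im, him, e2, e3]
    ring
  rw [e4]
  linear_combination (4 * x ^ 2) * hre

/-! ### the homomorphism to `ℤ/p²` -/

theorem om_zt (hπ : nr π = p) (hp3 : p ≠ 3) :
    om p (zt p π) * om p (zt p π) = -1 - om p (zt p π) := by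
  have hz := zt_sq hπ
  have h3 := three_ne (p := p) hp3
  have hz3 := z_cube hz
  obtain ⟨n1, -, -⟩ := z_ne hz h3
  have h1 : om p (zt p π) ^ 3 = 1 := by rw [← om_pow, hz3, om_one]
  have hu : IsUnit (om p (zt p π) - 1) := by
    apply isUnit_of_red
    rw [map_sub, red_om, map_one]
    exact sub_ne_zero.2 n1
  apply hu.mul_left_cancel
  linear_combination h1

/-- the homomorphism `ℤ[w] → ℤ/p²` -/
noncomputable def Phi (hπ : nr π = p) (hp3 : p ≠ 3) : Ei →+* R p :=
  hom (om p (zt p π)) (om_zt hπ hp3)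

theorem Phi_chi (hπ : nr π = p) (hp3 : p ≠ 3) (t : ZMod p) :
    Phi hπ hp3 (chi hπ hp3 t) = om p t ^ ((p - 1) / 3) := by
  have hz := zt_sq hπ
  have h3 := three_ne (p := p) hp3
  by_cases ht : t = 0
  · rw [ht, MulChar.map_zero, map_zero, om_zero, zero_pow (third_pos hπ hp3).ne']
  · rw [chi_apply hπ hp3 ht, ← om_pow]
    have w3 : (w : Ei) ^ 3 = 1 := w_cube
    have w23 : ((w : Ei) ^ 2) ^ 3 = 1 := by decide
    rcases root_cases hz (pow_third hπ hp3 ht) with h | h | h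
    · rw [h, cu_one, map_one, om_one]
    · have h5 := cu_unique hz h3 w3
      rw [hom_w] at h5
      rw [h, h5]
      exact hom_w _ _
    · have h5 := cu_unique hz h3 w23
      rw [map_pow, hom_w] at h5
      rw [h, h5, map_pow, om_pow]
      congr 1
      exact hom_w _ _

theorem star_chi (hπ : nr π = p) (hp3 : p ≠ 3) (t : ZMod p) :
    star (chi hπ hp3 t) = chi hπ hp3 t ^ 2 := by
  by_cases hy : t = 0
  · rw [hy, MulChar.map_zero]; decide
  · rcases cube_cases (chi_cube hπ hp3 hy) with h | h | h <;> rw [h] <;> decide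

theorem Phi_rho (hπ : nr π = p) (hp3 : p ≠ 3) (hp2 : p ≠ 2) (t : ZMod p) :
    Phi hπ hp3 (rho p t) = om p t ^ (p / 2) := by
  have hodd : p % 2 = 1 := hp.out.eq_two_or_odd.resolve_left hp2
  unfold rho
  rw [map_intCast]
  by_cases ht : t = 0
  · have : 0 < p / 2 := Nat.div_pos hp.out.two_le two_pos
    rw [ht, quadraticChar_zero, Int.cast_zero, om_zero, zero_pow this.ne']
  · have h1 : (om p t ^ (p / 2)) ^ 2 = 1 := by
      rw [← pow_mul, show p / 2 * 2 = p - 1 by omega, om_pow_card p ht]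
    have h2 : red p (om p t ^ (p / 2)) = ((quadraticChar (ZMod p) t : ℤ) : ZMod p) := by
      rw [map_pow, red_om, quadraticChar_eq_pow_of_char_ne_two' (by rwa [ZMod.ringChar_zmod_n]),
        ZMod.card]
    have h4 : (((quadraticChar (ZMod p) t : ℤ) : R p)) ^ 2 = 1 := by
      have := quadraticChar_sq_one ht
      have h5 := congrArg (Int.cast : ℤ → R p) this
      push_cast at h5
      exact h5
    have h6 : red p (((quadraticChar (ZMod p) t : ℤ) : R p)) =
        ((quadraticChar (ZMod p) t : ℤ) : ZMod p) := red_int _ _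
    set y := om p t ^ (p / 2)
    set c := ((quadraticChar (ZMod p) t : ℤ) : R p)
    have h20 : (2 : ZMod p) ≠ 0 := by
      intro h
      apply four_ne (p := p) hp2
      rw [show (4 : ZMod p) = 2 * 2 by norm_num, h, zero_mul]
    have hu : IsUnit (y + c) := by
      apply isUnit_of_red
      rw [map_add, h2, h6, ← two_mul]
      apply mul_ne_zero h20
      intro h7
      have h8 := congrArg (red p) h4
      rw [map_pow, h6, h7, map_one] at h8
      norm_num at h8
    have h9 : (y + c) * c = (y + c) * y := by linear_combination h4 - h1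
    exact hu.mul_left_cancel h9

/-- **the Jacobi sum modulo `p²`** -/
theorem jac_sq (r : ℕ) (hr : p = 6 * r + 1) (x y : ℤ) (hxy : (p : ℤ) = x ^ 2 + 3 * y ^ 2)
    (hunit : IsUnit (∑ t : ZMod p, om p t ^ (p - 1 - 2 * r) * om p (1 - t) ^ (3 * r))) :
    (∑ t : ZMod p, om p t ^ (p - 1 - 2 * r) * om p (1 - t) ^ (3 * r)) ^ 2 =
      4 * (x : R p) ^ 2 - 2 * p := by
  have h2p := hp.out.two_le
  have hr0 : 0 < r := by omega
  have hp3 : p ≠ 3 := by omega
  have hp2 : p ≠ 2 := by omega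
  have hπ : nr (pe x y) = p := by rw [nr_pe, hxy]
  have e1 : ∑ t : ZMod p, om p t ^ (p - 1 - 2 * r) * om p (1 - t) ^ (3 * r) =
      Phi hπ hp3 (star (U hπ hp3)) := by
    unfold U
    rw [star_sum, map_sum, ← Equiv.sum_comp (Equiv.neg (ZMod p))]
    refine sum_congr rfl fun t _ => ?_
    rw [star_mul, star_rho, star_chi, map_mul, map_pow, Phi_chi, Phi_rho hπ hp3 hp2, Equiv.neg_apply,
      ← pow_mul, show (p - 1) / 3 * 2 = p - 1 - 2 * r by omega, show p / 2 = 3 * r by omega,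
      sub_neg_eq_add, add_comm (1 : ZMod p) t, om_neg p ⟨3 * r, by omega⟩,
      show p - 1 - 2 * r = 2 * (2 * r) by omega, pow_mul, pow_mul, neg_sq]
    ring
  rw [e1] at hunit ⊢
  set V := Phi hπ hp3 (star (U hπ hp3))
  set W := Phi hπ hp3 (U hπ hp3)
  have h1 : W * V = p := by
    rw [← map_mul, mul_star, U_nr hπ hp3 hp2]
    simp
  have h2 : W + V = ((2 * (U hπ hp3).re - (U hπ hp3).im : ℤ) : R p) := by
    rw [← map_add]
    have : U hπ hp3 + star (U hπ hp3) = ((2 * (U hπ hp3).re - (U hπ hp3).im : ℤ) : Ei) := by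
      ext
      · rw [QuadraticAlgebra.re_add, star_re, QuadraticAlgebra.re_intCast, Int.cast_id]; ring
      · rw [QuadraticAlgebra.im_add, star_im, QuadraticAlgebra.im_intCast]; ring
    rw [this, map_intCast]
  have h3 := trace_sq hxy hπ hp3 hp2
  have h3' := congrArg (Int.cast : ℤ → R p) h3
  push_cast at h3' h2
  have h4 : W ^ 2 = 0 := by
    apply (hunit.pow 2).mul_left_cancel
    rw [mul_zero]
    linear_combination (W * V + p) * h1 + p_sq p
  rw [← h2] at h3'
  linear_combination h3' - 2 * h1 - h4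

end Pool.Agent.Q267.CDE
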