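import Pool.Agent.Q267.CDE.TMod
import Pool.Agent.Q267.CDE.Eis
import Pool.Agent.Q267.Seven.Inert

/-!
# The sum `∑ C(2k,k)^3/16^k` modulo `p²`
-/

namespace Pool.Agent.Q267.CDE

open Finset Pool.Agent.Q267.Seven

variable (p : ℕ) [hp : Fact p.Prime]

/-- the split case -/
theorem dl_split (r : ℕ) (hr : p = 6 * r + 1) (x y : ℤ) (hxy : (p : ℤ) = x ^ 2 + 3 * y ^ 2) :
    ∑ k ∈ range (3 * r + 1), (dl (3 * r) k : R p) * (k.centralBinom : R p) =
      4 * (x : R p) ^ 2 - 2 * p := by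
  have h2p := hp.out.two_le
  have hr0 : 0 < r := by omega
  have h3 : (3 : ZMod p) ≠ 0 := by
    have := cast_ne p 3 (by omega) (by omega)
    exact_mod_cast this
  set H3 := H (ZMod p) (3 * r) with hH3
  set H2 := H (ZMod p) (2 * r) with hH2
  set H1 := H (ZMod p) r with hH1
  obtain ⟨h1, hh1⟩ := exists_lift p (3⁻¹ * (H3 - H2))
  obtain ⟨h2, hh2⟩ := exists_lift p (3⁻¹ * (H3 - H1))
  obtain ⟨h, hh⟩ := exists_lift p (((3 * r : ℕ) : ZMod p) * H3 -
    (((3 * r : ℕ) : ZMod p) - ((2 * r : ℕ) : ZMod p)) * H1 - ((2 * r : ℕ) : ZMod p) * H2)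
  have hT := T_mod p r hr h1 (by rw [hh1, ← mul_assoc, mul_inv_cancel₀ h3, one_mul])
  have hP := pow_three p r hr h2 (by rw [hh2, ← mul_assoc, mul_inv_cancel₀ h3, one_mul])
  have hJ := jac p ⟨3 * r, by omega⟩ (2 * r) (3 * r) (by omega) (by omega) (by omega) h (by
    rw [hh, show 3 * r - 2 * r = r by omega])
  have hbin : (3 * r).choose (2 * r) = (3 * r).choose r := by
    rw [show 3 * r = 2 * r + r by ring, Nat.choose_symm_add]
  have h1p : ((-1 : R p)) ^ (2 * r) = 1 := by rw [pow_mul]; norm_num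
  rw [hbin, h1p, one_mul] at hJ
  set C := (((3 * r).choose r : ℕ) : R p) with hC
  have hCu : red p C ≠ 0 := by
    rw [hC, red_nat, Ne, ZMod.natCast_eq_zero_iff]
    intro hd
    have h5 : (3 * r).choose r ∣ (3 * r).factorial := by
      have := Nat.choose_mul_factorial_mul_factorial (show r ≤ 3 * r by omega)
      exact ⟨r.factorial * (3 * r - r).factorial, by rw [← this]; ring⟩
    have h6 := (hp.out.dvd_factorial).1 (hd.trans h5)
    omega
  have hunit : IsUnit (∑ t : ZMod p, om p t ^ (p - 1 - 2 * r) * om p (1 - t) ^ (3 * r)) := by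
    rw [hJ]
    apply isUnit_of_red
    rw [map_neg, map_mul, map_add, map_mul, map_one, red_nat p p, CharP.cast_eq_zero (ZMod p) p,
      zero_mul, add_zero, mul_one]
    exact neg_ne_zero.2 hCu
  have hsq := jac_sq r hr x y hxy hunit
  rw [hJ] at hsq
  rw [← hsq]
  -- the exact identity
  have hcl := congrArg (Int.cast : ℤ → R p) (clausen_T (3 * r))
  push_cast at hcl
  set S0 := ∑ k ∈ range (3 * r + 1), (dl (3 * r) k : R p) * (k.centralBinom : R p) with hS0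
  have hS : (-3 : R p) ^ (3 * r) * S0 = (T (3 * r) : R p) ^ 2 := by
    have h7 : ((-1 : R p)) ^ (3 * r) * (-1) ^ (3 * r) = 1 := by
      rw [← mul_pow]; norm_num
    rw [show (-3 : R p) = (-1) * 3 by ring, mul_pow]
    linear_combination (-1) ^ (3 * r) * hcl + (T (3 * r) : R p) ^ 2 * h7
  have hS' : S0 = (T (3 * r) : R p) ^ 2 * (1 - p * h2) := by
    linear_combination (-S0) * hP + (1 - p * h2) * hS
  rw [hS', hT]
  have key : (p : R p) * (2 * h) = p * (-(2 * h1 + h2)) := by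
    apply p_mul_eq
    rw [map_mul, map_neg, map_add, map_mul, map_ofNat, hh, hh1, hh2]
    have h6 : (6 : ZMod p) * r = -1 := by
      have := congrArg (Nat.cast : ℕ → ZMod p) hr
      push_cast at this
      rw [CharP.cast_eq_zero (ZMod p) p] at this
      linear_combination -this
    have e9 : (3 : ZMod p) * 3⁻¹ = 1 := mul_inv_cancel₀ h3
    apply mul_left_cancel₀ h3
    push_cast
    linear_combination (3 * H3 - H1 - 2 * H2) * h6 + (3 * H3 - 2 * H2 - H1) * e9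
  have hpp := p_sq p
  linear_combination (-C ^ 2) * key + (-C ^ 2 * h ^ 2 + C ^ 2 * (h1 ^ 2 * (1 - p * h2) + 2 * h1 * h2)) * hpp

/-- the inert case -/
theorem dl_inert (m : ℕ) (hpm : p = 2 * m + 1) (h3 : p % 3 = 2) :
    (p : ℤ) ^ 2 ∣ ∑ k ∈ range (m + 1), dl m k * (k.centralBinom : ℤ) := by
  have h1 := T_dvd p m hpm h3
  have h2 := clausen_T m
  have h4 : (p : ℤ) ^ 2 ∣ 3 ^ m * ∑ k ∈ range (m + 1), dl m k * (k.centralBinom : ℤ) := by
    rw [h2]
    exact Dvd.dvd.mul_left (pow_dvd_pow_of_dvd h1 2) _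
  have hcop : IsCoprime ((p : ℤ) ^ 2) (3 ^ m) := by
    apply IsCoprime.pow
    have : IsCoprime (p : ℤ) ((3 : ℕ) : ℤ) := by
      rw [Nat.isCoprime_iff_coprime, Nat.coprime_primes hp.out Nat.prime_three]
      omega
    exact_mod_cast this
  exact hcop.dvd_of_dvd_mul_left h4

/-- the integral form of `∑_{k ≤ m} C(2k,k)^3/16^k` -/
def N16 (m : ℕ) : ℤ := ∑ k ∈ range (m + 1), (k.centralBinom : ℤ) ^ 3 * 16 ^ (m - k)

theorem N16_mod (m : ℕ) (hpm : p = 2 * m + 1) :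
    (p : ℤ) ^ 2 ∣ N16 m - 16 ^ m * ∑ k ∈ range (m + 1), dl m k * (k.centralBinom : ℤ) := by
  unfold N16
  rw [mul_sum, ← sum_sub_distrib]
  refine dvd_sum fun k hk => ?_
  have hk' : k ≤ m := by simpa [Nat.lt_succ_iff] using hk
  obtain ⟨c, hc⟩ := dl_sq p m hp.out hpm k hk'
  obtain ⟨j, rfl⟩ : ∃ j, m = k + j := ⟨m - k, by omega⟩
  refine ⟨-(c * (k.centralBinom : ℤ) * 16 ^ j), ?_⟩
  rw [show k + j - k = j by omega, pow_add]
  linear_combination (-(k.centralBinom : ℤ) * 16 ^ j) * hc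

theorem N16_split (r : ℕ) (hr : p = 6 * r + 1) (x y : ℤ) (hxy : (p : ℤ) = x ^ 2 + 3 * y ^ 2) :
    (p : ℤ) ^ 2 ∣ N16 (3 * r) - 16 ^ (3 * r) * (4 * x ^ 2 - 2 * p) := by
  have h1 := N16_mod p (3 * r) (by omega)
  have h2 := dl_split p r hr x y hxy
  have h3 : ((p ^ 2 : ℕ) : ℤ) ∣ (∑ k ∈ range (3 * r + 1), dl (3 * r) k * (k.centralBinom : ℤ)) -
      (4 * x ^ 2 - 2 * p) := by
    rw [← ZMod.intCast_zmod_eq_zero_iff_dvd]
    push_cast
    rw [h2]
    ring
  push_cast at h3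
  have h4 := dvd_add h1 (Dvd.dvd.mul_left h3 (16 ^ (3 * r)))
  have e : N16 (3 * r) - 16 ^ (3 * r) * (4 * x ^ 2 - 2 * p) =
      N16 (3 * r) - 16 ^ (3 * r) * ∑ k ∈ range (3 * r + 1), dl (3 * r) k * (k.centralBinom : ℤ) +
      16 ^ (3 * r) * ((∑ k ∈ range (3 * r + 1), dl (3 * r) k * (k.centralBinom : ℤ)) -
      (4 * x ^ 2 - 2 * p)) := by ring
  rw [e]
  exact h4

theorem N16_inert (m : ℕ) (hpm : p = 2 * m + 1) (h3 : p % 3 = 2) : (p : ℤ) ^ 2 ∣ N16 m := by
  have h1 := N16_mod p m hpm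
  have h2 := Dvd.dvd.mul_left (dl_inert p m hpm h3) (16 ^ m)
  have := dvd_add h1 h2
  rwa [sub_add_cancel] at this

end Pool.Agent.Q267.CDE
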