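import Pool.Agent.Q267.CDE.CentreR
import Pool.Agent.Q267.CDE.Main16
import Pool.Agent.Y692.QS.Rec

/-!
# The truncated hypergeometric value at `-w`, `w² + w + 1 = 0`, modulo `p²`
-/

namespace Pool.Agent.Q267.CDE

open Finset Pool.Agent.Q267.Seven Pool.Agent.Y692.QS

section

variable {p : ℕ} [hp : Fact p.Prime] {π : Ei}

/-- the Jacobi sum as an explicit element -/
theorem U_pe {x y : ℤ} (hxy : (p : ℤ) = x ^ 2 + 3 * y ^ 2) (hπ : nr (pe x y) = p) (hp3 : p ≠ 3)
    (hp2 : p ≠ 2) : ∃ η : ℤ, (η = 1 ∨ η = -1) ∧ (3 : ℤ) ∣ η * x + 1 ∧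
      U hπ hp3 = (η : Ei) * pe x y := by
  obtain ⟨v, hv, hU⟩ := U_assoc hπ hp3 hp2
  have h2 := U_mod_two hπ hp3
  obtain ⟨c1, c2⟩ := unit_cases hv
  have h3 : (((2 : ℤ)) : Ei) ∣ U hπ hp3 + 1 := by exact_mod_cast h2
  obtain ⟨-, h4⟩ := int_dvd.1 h3
  rw [QuadraticAlgebra.im_add] at h4
  have e1 : (1 : Ei).im = 0 := rfl
  rw [e1, add_zero, hU, mul_im] at h4
  have e2 : (pe x y).re = x + y := rfl
  have e3 : (pe x y).im = 2 * y := rfl
  rw [e2, e3] at h4
  -- parity
  have hpodd : ¬ (2 : ℤ) ∣ (p : ℤ) := by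
    intro h
    have h5 : (2 : ℕ) ∣ p := by exact_mod_cast h
    exact hp2 ((Nat.prime_dvd_prime_iff_eq Nat.prime_two hp.out).1 h5).symm
  have him : v.im = 0 := by
    have h5 : (2 : ℤ) ∣ v.im * (x - y) := by
      obtain ⟨c, hc⟩ := h4
      exact ⟨c - v.re * y, by linear_combination hc⟩
    rcases Int.prime_two.dvd_or_dvd h5 with h6 | h6
    · have h7 : v.im ≤ 1 := by nlinarith
      have h8 : -1 ≤ v.im := by nlinarith
      omega
    · exfalso
      apply hpodd
      obtain ⟨c, hc⟩ := h6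
      have hx : x = y + 2 * c := by linarith
      rw [hxy, hx]
      exact ⟨2 * y ^ 2 + 2 * y * c + 2 * c ^ 2, by ring⟩
  have hre := c2 him
  have hv' : v = ((v.re : ℤ) : Ei) := by
    have h7 := eta v
    rw [him, Int.cast_zero, zero_mul, add_zero] at h7
    exact h7
  have hη : v.re = 1 ∨ v.re = -1 := by
    have h8 : (v.re - 1) * (v.re + 1) = 0 := by linear_combination hre
    rcases mul_eq_zero.1 h8 with h9 | h9
    · exact Or.inl (by linarith)
    · exact Or.inr (by linarith)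
  refine ⟨v.re, hη, ?_, ?_⟩
  · -- reduction modulo `1 - w`
    have h3z : ((3 : ℤ) : ZMod 3) = 0 := rfl
    set θ : Ei →+* ZMod 3 := hom (1 : ZMod 3) (by decide) with hθ
    have hw : θ w = 1 := hom_w _ _
    have hchi : θ (chi hπ hp3 4) = 1 := by
      rcases cube_cases (chi_cube hπ hp3 (four_ne hp2)) with h | h | h <;> rw [h]
      · exact map_one θ
      · exact hw
      · rw [map_pow, hw, one_pow]
    have hJ : θ (Jc hπ hp3) = -1 := by
      obtain ⟨c, hc⟩ := J_mod_three hπ hp3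
      have h5 := congrArg θ hc
      rw [map_sub, map_neg, map_one, map_mul, map_ofNat] at h5
      have h6 : (3 : ZMod 3) = 0 := rfl
      rw [h6, zero_mul] at h5
      linear_combination -h5
    have hUθ : θ (U hπ hp3) = -1 := by
      rw [U_eq hπ hp3 hp2, map_mul, hchi, hJ, one_mul]
    rw [hU, map_mul, hv', map_intCast] at hUθ
    have hpe : θ (pe x y) = (x : ZMod 3) := by
      rw [hθ, hom_apply, e2, e3]
      push_cast
      have h6 : (3 : ZMod 3) = 0 := rfl
      linear_combination (y : ZMod 3) * h6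
    have hri : (((v.re : ℤ) : Ei)).re = v.re := QuadraticAlgebra.re_intCast _
    rw [hpe] at hUθ
    apply (ZMod.intCast_zmod_eq_zero_iff_dvd _ 3).1
    push_cast
    rw [hUθ]
    ring
  · rw [← hv']
    exact hU

theorem Phi_pe (hπ : nr π = p) (hp3 : p ≠ 3) (x y : ℤ) :
    Phi hπ hp3 (pe x y) = (x : R p) + y * (2 * om p (zt p π) + 1) := by
  unfold Phi
  rw [hom_apply]
  have e2 : (pe x y).re = x + y := rfl
  have e3 : (pe x y).im = 2 * y := rfl
  rw [e2, e3]
  push_cast
  ring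

theorem Phi_star_pe (hπ : nr π = p) (hp3 : p ≠ 3) (x y : ℤ) :
    Phi hπ hp3 (star (pe x y)) = (x : R p) - y * (2 * om p (zt p π) + 1) := by
  unfold Phi
  rw [hom_apply, star_re, star_im]
  have e2 : (pe x y).re = x + y := rfl
  have e3 : (pe x y).im = 2 * y := rfl
  rw [e2, e3]
  push_cast
  ring

theorem V_eq (r : ℕ) (hr : p = 6 * r + 1) (hπ : nr π = p) (hp3 : p ≠ 3) (hp2 : p ≠ 2) :
    ∑ t : ZMod p, om p t ^ (p - 1 - 2 * r) * om p (1 - t) ^ (3 * r) =
      Phi hπ hp3 (star (U hπ hp3)) := by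
  unfold U
  rw [star_sum, map_sum, ← Equiv.sum_comp (Equiv.neg (ZMod p))]
  refine sum_congr rfl fun t _ => ?_
  rw [star_mul, star_rho, star_chi, map_mul, map_pow, Phi_chi, Phi_rho hπ hp3 hp2, Equiv.neg_apply,
    ← pow_mul, show (p - 1) / 3 * 2 = p - 1 - 2 * r by omega, show p / 2 = 3 * r by omega,
    sub_neg_eq_add, add_comm (1 : ZMod p) t, om_neg p ⟨3 * r, by omega⟩,
    show p - 1 - 2 * r = 2 * (2 * r) by omega, pow_mul, pow_mul, neg_sq]
  ring

/-- square roots of one -/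
theorem sq_one_eq (hp2 : p ≠ 2) (a b : R p) (ha : a ^ 2 = b ^ 2) (hb : IsUnit b)
    (hab : red p a = red p b) : a = b := by
  have h20 : (2 : ZMod p) ≠ 0 := by
    intro h
    apply four_ne (p := p) hp2
    rw [show (4 : ZMod p) = 2 * 2 by norm_num, h, zero_mul]
  have hb0 : red p b ≠ 0 := by
    have := hb.map (red p)
    exact this.ne_zero
  have hu : IsUnit (a + b) := by
    apply isUnit_of_red
    rw [map_add, hab, ← two_mul]
    exact mul_ne_zero h20 hb0
  apply hu.mul_left_cancel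
  linear_combination ha

/-- the value at `-w` -/
theorem A_val (r : ℕ) (hr : p = 6 * r + 1) (x y : ℤ) (hxy : (p : ℤ) = x ^ 2 + 3 * y ^ 2) :
    ∃ w : R p, ∃ η : ℤ, w ^ 2 + w + 1 = 0 ∧ (η = 1 ∨ η = -1) ∧ (3 : ℤ) ∣ η * x + 1 ∧
      red p ((x : R p) + y * (2 * w + 1)) = 0 ∧
      ∑ k ∈ range (3 * r + 1), (dl (3 * r) k : R p) * (-w) ^ k =
        -(((quadraticChar (ZMod p) (red p (2 * w + 1)) : ℤ) : R p) * η) *
          ((x : R p) - y * (2 * w + 1)) := by
  have h2p := hp.out.two_le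
  have hr0 : 0 < r := by omega
  have hp3 : p ≠ 3 := by omega
  have hp2 : p ≠ 2 := by omega
  have h3 : (3 : ZMod p) ≠ 0 := by
    have := cast_ne p 3 (by omega) (by omega)
    exact_mod_cast this
  have h2 : (2 : ZMod p) ≠ 0 := by
    have := cast_ne p 2 (by omega) (by omega)
    exact_mod_cast this
  have hπ : nr (pe x y) = p := by rw [nr_pe, hxy]
  set H3 := H (ZMod p) (3 * r) with hH3
  set H2 := H (ZMod p) (2 * r) with hH2
  set H1 := H (ZMod p) r with hH1
  obtain ⟨h1, hh1⟩ := exists_lift p (3⁻¹ * (H3 - H2))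
  obtain ⟨k2, hk2⟩ := exists_lift p (2⁻¹ * (3⁻¹ * (H3 - H1)))
  obtain ⟨h, hh⟩ := exists_lift p (((3 * r : ℕ) : ZMod p) * H3 -
    (((3 * r : ℕ) : ZMod p) - ((2 * r : ℕ) : ZMod p)) * H1 - ((2 * r : ℕ) : ZMod p) * H2)
  have e22 : (2 : ZMod p) * 2⁻¹ = 1 := mul_inv_cancel₀ h2
  have e9 : (3 : ZMod p) * 3⁻¹ = 1 := mul_inv_cancel₀ h3
  have hT := T_mod p r hr h1 (by rw [hh1, ← mul_assoc, mul_inv_cancel₀ h3, one_mul])
  have hP := pow_three p r hr (2 * k2) (by
    rw [map_mul, map_ofNat, hk2]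
    linear_combination (3 * 3⁻¹ * (H3 - H1)) * e22 + (H3 - H1) * e9)
  have hJ := jac p ⟨3 * r, by omega⟩ (2 * r) (3 * r) (by omega) (by omega) (by omega) h (by
    rw [hh, show 3 * r - 2 * r = r by omega])
  have hbin : (3 * r).choose (2 * r) = (3 * r).choose r := by
    rw [show 3 * r = 2 * r + r by ring, Nat.choose_symm_add]
  have h1p : ((-1 : R p)) ^ (2 * r) = 1 := by rw [pow_mul]; norm_num
  rw [hbin, h1p, one_mul] at hJ
  set C := (((3 * r).choose r : ℕ) : R p) with hC
  obtain ⟨η, hη, hη3, hU⟩ := U_pe hxy hπ hp3 hp2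
  set w : R p := om p (zt p (pe x y)) with hw
  have hw2 : w ^ 2 + w + 1 = 0 := by
    have := om_zt hπ hp3
    linear_combination this
  have hV : -(C * (1 + p * h)) = (η : R p) * ((x : R p) - y * (2 * w + 1)) := by
    rw [← hJ, V_eq r hr hπ hp3 hp2, hU, star_mul, map_mul, Phi_star_pe]
    have : star ((η : ℤ) : Ei) = ((η : ℤ) : Ei) := by
      ext
      · rw [star_re, QuadraticAlgebra.im_intCast, sub_zero]
      · rw [star_im, QuadraticAlgebra.im_intCast, neg_zero]
    rw [this, map_intCast, mul_comm]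
  have hred : red p ((x : R p) + y * (2 * w + 1)) = 0 := by
    rw [map_add, map_mul, map_add, map_mul, map_ofNat, map_one, red_int, red_int, hw, red_om]
    have h5 := red_self hπ
    unfold Y692.QS.red at h5
    rw [hom_apply] at h5
    have e2 : (pe x y).re = x + y := rfl
    have e3 : (pe x y).im = 2 * y := rfl
    rw [e2, e3] at h5
    push_cast at h5
    linear_combination h5
  refine ⟨w, η, hw2, hη, hη3, hred, ?_⟩
  set s : R p := 2 * w + 1 with hs
  have hs2 : s ^ 2 = -3 := by rw [hs]; linear_combination 4 * hw2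
  have h3u : IsUnit (3 : R p) := by
    have := isUnit_nat p 3 (by omega) (by omega)
    exact_mod_cast this
  have hsu : IsUnit s := by
    have : IsUnit (s ^ 2) := by rw [hs2]; exact h3u.neg
    exact (isUnit_pow_iff two_ne_zero).1 this
  have hF := Rg.F_w h3u w s hw2 hs (3 * r)
  set A := ∑ k ∈ range (3 * r + 1), (dl (3 * r) k : R p) * (-w) ^ k with hA
  -- the sign
  set ε : ℤ := quadraticChar (ZMod p) (red p s) with hε
  have hs0 : red p s ≠ 0 := (hsu.map (red p)).ne_zero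
  have hε2 : ((ε : ℤ) : R p) ^ 2 = 1 := by
    have := quadraticChar_sq_one hs0
    have h5 := congrArg (Int.cast : ℤ → R p) this
    push_cast at h5
    exact h5
  have hεr : (red p s) ^ (3 * r) = ((ε : ℤ) : ZMod p) := by
    rw [hε, quadraticChar_eq_pow_of_char_ne_two' (by rwa [ZMod.ringChar_zmod_n]), ZMod.card,
      show p / 2 = 3 * r by omega]
  have hpp := p_sq p
  have hS : s ^ (3 * r) * (1 - p * k2) = (ε : R p) := by
    apply sq_one_eq hp2
    · rw [hε2, mul_pow, ← pow_mul, mul_comm (3 * r) 2, pow_mul, hs2]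
      linear_combination hP + (-3 : R p) ^ (3 * r) * k2 ^ 2 * hpp
    · have : IsUnit ((ε : R p) ^ 2) := by rw [hε2]; exact isUnit_one
      exact (isUnit_pow_iff two_ne_zero).1 this
    · rw [map_mul, map_sub, map_mul, map_one, map_pow, hεr, red_nat p p,
        CharP.cast_eq_zero (ZMod p) p, zero_mul, sub_zero, mul_one, map_intCast]
  have key : (p : R p) * h = p * (-(h1 + k2)) := by
    apply p_mul_eq
    rw [map_neg, map_add, hh, hh1, hk2]
    have h6 : (6 : ZMod p) * r = -1 := by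
      have := congrArg (Nat.cast : ℕ → ZMod p) hr
      push_cast at this
      rw [CharP.cast_eq_zero (ZMod p) p] at this
      linear_combination -this
    apply mul_left_cancel₀ h3
    apply mul_left_cancel₀ h2
    push_cast
    linear_combination (3 * H3 - H1 - 2 * H2) * h6 + (2 * (H3 - H2) + (H3 - H1)) * e9
      + (3 * 3⁻¹ * (H3 - H1)) * e22
  have hAε : A * ε = -((η : R p) * ((x : R p) - y * s)) := by
    rw [← hV, ← hS]
    linear_combination (1 - p * k2) * hF + (1 - p * k2) * hT - C * key + C * h1 * k2 * hpp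
  linear_combination (ε : R p) * hAε - A * hε2

end

end Pool.Agent.Q267.CDE
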