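import Mathlib

/-!
# The ring `ℤ/p²`: reduction, Teichmueller lifts and power sums
-/

namespace Pool.Agent.Q267.CDE

open Finset

variable (p : ℕ) [hp : Fact p.Prime]

/-- the ring `ℤ/p²` -/
abbrev R (p : ℕ) : Type := ZMod (p ^ 2)

/-- reduction modulo `p`. -/
def red : R p →+* ZMod p := ZMod.castHom (dvd_pow_self p two_ne_zero) (ZMod p)

omit hp in
theorem p_sq : ((p : ℕ) : R p) ^ 2 = 0 := by
  have := ZMod.natCast_self (p ^ 2)
  push_cast at this
  exact this

theorem red_nat (n : ℕ) : red p (n : R p) = n := map_natCast _ _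

theorem red_int (n : ℤ) : red p (n : R p) = n := map_intCast _ _

/-- `p x` only depends on `x` modulo `p`. -/
theorem p_mul_eq (x y : R p) (h : red p x = red p y) : (p : R p) * x = p * y := by
  obtain ⟨n, hn⟩ : ∃ n : ℤ, (n : R p) = x - y := ZMod.intCast_surjective _
  have h1 : red p (x - y) = 0 := by rw [map_sub, h, sub_self]
  rw [← hn, map_intCast, ZMod.intCast_zmod_eq_zero_iff_dvd] at h1
  obtain ⟨c, hc⟩ := h1
  rw [← sub_eq_zero, ← mul_sub, ← hn, hc]
  push_cast
  rw [← mul_assoc, ← pow_two, p_sq, zero_mul]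

theorem red_eq_of (x y : R p) (h : red p x = red p y) : ∃ z : R p, x = y + p * z := by
  obtain ⟨n, hn⟩ : ∃ n : ℤ, (n : R p) = x - y := ZMod.intCast_surjective _
  have h1 : red p (x - y) = 0 := by rw [map_sub, h, sub_self]
  rw [← hn, map_intCast, ZMod.intCast_zmod_eq_zero_iff_dvd] at h1
  obtain ⟨c, hc⟩ := h1
  refine ⟨(c : R p), ?_⟩
  rw [hc] at hn
  push_cast at hn
  linear_combination -hn

theorem isUnit_of_red {x : R p} (h : red p x ≠ 0) : IsUnit x := by
  have : NeZero (p ^ 2) := ⟨pow_ne_zero _ hp.out.ne_zero⟩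
  rw [← ZMod.natCast_zmod_val x, ZMod.isUnit_iff_coprime]
  refine Nat.Coprime.pow_right _ ?_
  rw [Nat.coprime_comm, Nat.Prime.coprime_iff_not_dvd hp.out]
  intro h1
  apply h
  rw [← ZMod.natCast_zmod_val x, map_natCast, ZMod.natCast_eq_zero_iff]
  exact h1

theorem cast_ne (j : ℕ) (h0 : 0 < j) (hj : j < p) : ((j : ℕ) : ZMod p) ≠ 0 := by
  rw [Ne, ZMod.natCast_eq_zero_iff]
  exact Nat.not_dvd_of_pos_of_lt h0 hj

theorem isUnit_nat (j : ℕ) (h0 : 0 < j) (hj : j < p) : IsUnit ((j : ℕ) : R p) := by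
  apply isUnit_of_red
  rw [red_nat]
  exact cast_ne p j h0 hj

theorem exists_lift (x : ZMod p) : ∃ y : R p, red p y = x := by
  refine ⟨((x.val : ℕ) : R p), ?_⟩
  rw [red_nat, ZMod.natCast_zmod_val]

/-- a chosen lift -/
noncomputable def lift (x : ZMod p) : R p := ((x.val : ℕ) : R p)

theorem red_lift (x : ZMod p) : red p (lift p x) = x := by
  unfold lift
  rw [red_nat, ZMod.natCast_zmod_val]

/-! ### Teichmueller lifts -/

/-- the Teichmueller lift -/
noncomputable def om (d : ZMod p) : R p := (lift p d) ^ p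

theorem pow_p_eq (x y : R p) (h : red p x = red p y) : x ^ p = y ^ p := by
  obtain ⟨z, hz⟩ := red_eq_of p x y h
  obtain ⟨a, ha⟩ : ∃ n : ℤ, (n : R p) = x := ZMod.intCast_surjective _
  obtain ⟨b, hb⟩ : ∃ n : ℤ, (n : R p) = y := ZMod.intCast_surjective _
  subst ha hb
  have h1 : (p : ℤ) ∣ a - b := by
    rw [red_int, red_int] at h
    rw [← ZMod.intCast_zmod_eq_zero_iff_dvd, Int.cast_sub, h, sub_self]
  have h2 := dvd_sub_pow_of_dvd_sub h1 1
  rw [pow_one, one_add_one_eq_two, ← Nat.cast_pow, ← ZMod.intCast_zmod_eq_zero_iff_dvd] at h2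
  push_cast at h2
  exact sub_eq_zero.1 h2

theorem om_eq (d : ZMod p) (x : R p) (h : red p x = d) : om p d = x ^ p := by
  unfold om
  apply pow_p_eq
  rw [red_lift, h]

theorem red_om (x : ZMod p) : red p (om p x) = x := by
  unfold om
  rw [map_pow, red_lift, ZMod.pow_card]

theorem om_mul (x y : ZMod p) : om p (x * y) = om p x * om p y := by
  rw [om_eq p (x * y) (lift p x * lift p y) (by rw [map_mul, red_lift, red_lift]), mul_pow]
  rfl

theorem om_one : om p 1 = 1 := by
  rw [om_eq p 1 1 (map_one _), one_pow]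

theorem om_zero : om p 0 = 0 := by
  rw [om_eq p 0 0 (map_zero _), zero_pow hp.out.ne_zero]

theorem om_pow (x : ZMod p) (n : ℕ) : om p (x ^ n) = om p x ^ n := by
  induction n with
  | zero => rw [pow_zero, pow_zero, om_one]
  | succ n ih =>
    rw [pow_succ, om_mul, ih]
    exact (pow_succ _ _).symm

theorem om_neg (hodd : Odd p) (x : ZMod p) : om p (-x) = - om p x := by
  rw [om_eq p (-x) (-lift p x) (by rw [map_neg, red_lift]), hodd.neg_pow]
  rfl

theorem om_pow_p (x : ZMod p) : om p x ^ p = om p x := by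
  rw [← om_pow, ZMod.pow_card]

theorem om_pow_card {x : ZMod p} (hx : x ≠ 0) : om p x ^ (p - 1) = 1 := by
  rw [← om_pow, ZMod.pow_card_sub_one_eq_one hx, om_one]

theorem om_inj {x y : ZMod p} (h : om p x = om p y) : x = y := by
  rw [← red_om p x, h, red_om]

theorem om_one_sub (x : ZMod p) : om p (1 - x) = (1 - om p x) ^ p :=
  om_eq p _ _ (by rw [map_sub, map_one, red_om])

theorem exists_gen : ∃ g : ZMod p, orderOf g = p - 1 ∧ g ≠ 0 := by
  obtain ⟨g, hg⟩ := IsCyclic.exists_generator (α := (ZMod p)ˣ)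
  have h := orderOf_eq_card_of_forall_mem_zpowers hg
  rw [Nat.card_eq_fintype_card, ZMod.card_units p] at h
  refine ⟨(g : ZMod p), ?_, g.ne_zero⟩
  rw [orderOf_units, h]

/-- power sums of Teichmueller lifts -/
theorem sum_om (k : ℕ) (hk : 0 < k) :
    ∑ t : ZMod p, om p t ^ k = if (p - 1) ∣ k then ((p : R p) - 1) else 0 := by
  split_ifs with h
  · obtain ⟨c, rfl⟩ := h
    have h1 : ∀ t : ZMod p, om p t ^ ((p - 1) * c) = if t = 0 then 0 else 1 := by
      intro t
      split_ifs with ht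
      · rw [ht, om_zero, zero_pow hk.ne']
      · rw [pow_mul, om_pow_card p ht, one_pow]
    rw [sum_congr rfl fun t _ => h1 t]
    have h2 : ∀ t : ZMod p, (if t = 0 then (0 : R p) else 1) = 1 - if t = 0 then 1 else 0 := by
      intro t
      split_ifs <;> ring
    rw [sum_congr rfl fun t _ => h2 t, sum_sub_distrib, sum_ite_eq' univ (0 : ZMod p), if_pos
      (mem_univ _), sum_const, card_univ, ZMod.card, nsmul_one]
  · obtain ⟨g, hg, hg0⟩ := exists_gen p
    have h1 : ∑ t : ZMod p, om p t ^ k = om p g ^ k * ∑ t : ZMod p, om p t ^ k := by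
      rw [mul_sum]
      refine (Fintype.sum_equiv (Equiv.mulLeft₀ g hg0) (fun t => om p g ^ k * om p t ^ k) (fun t => om p t ^ k) fun t => ?_).symm
      rw [Equiv.mulLeft₀_apply, om_mul, mul_pow]
    have h2 : IsUnit (om p g ^ k - 1) := by
      apply isUnit_of_red
      rw [map_sub, map_pow, red_om, map_one]
      intro h3
      apply h
      rw [← hg]
      exact orderOf_dvd_of_pow_eq_one (sub_eq_zero.1 h3)
    apply h2.mul_left_cancel
    rw [mul_zero]
    linear_combination -h1

/-- power sums in `ℤ/p` -/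
theorem sum_pow (k : ℕ) (hk : 0 < k) :
    ∑ t : ZMod p, t ^ k = if (p - 1) ∣ k then (-1 : ZMod p) else 0 := by
  have h := congrArg (red p) (sum_om p k hk)
  rw [map_sum] at h
  simp only [map_pow, red_om] at h
  rw [h]
  split_ifs
  · rw [map_sub, red_nat, CharP.cast_eq_zero, map_one, zero_sub]
  · exact map_zero _

end Pool.Agent.Q267.CDE
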