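import Pool.Agent.Q267.S16.WZ
import Pool.Agent.Q267.Seven.Legendre

/-!
# The trigonometric expansion of Legendre polynomials

`∑ d_k x^k = ∑_{i+j=m} u_i u_j a^i b^j` for `ab = 1`, `1 - 2x = (a+b)/2`, and its derivative.
-/

namespace Pool.Agent.Q267.CDE

open Finset Pool.Agent.Q267.Seven Pool.Agent.Q267.S16

variable {K : Type*} [Field K] [CharZero K]

/-- `∑_{i+j=m} u_i u_j a^i b^j` -/
def Wt (m : ℕ) (a b : K) : K :=
  ∑ ij ∈ antidiagonal m, (u ij.1 : K) * (u ij.2 : K) * a ^ ij.1 * b ^ ij.2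

theorem uK_succ (k : ℕ) : 2 * ((k : K) + 1) * (u (k + 1) : K) = (2 * k + 1) * (u k : K) := by
  have h := congrArg (Rat.cast : ℚ → K) (u_succ k)
  push_cast at h
  exact h

theorem W_left (n : ℕ) (a b : K) :
    ∑ ij ∈ antidiagonal (n + 1), (ij.1 : K) * ((u ij.1 : K) * (u ij.2 : K) * a ^ ij.1 * b ^ ij.2) =
    ∑ ij ∈ antidiagonal n, ((ij.1 : K) + 1 / 2) * ((u ij.1 : K) * (u ij.2 : K) * a ^ (ij.1 + 1) *
      b ^ ij.2) := by
  rw [Nat.sum_antidiagonal_succ]
  simp only [Nat.cast_zero, zero_mul, zero_add]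
  refine sum_congr rfl fun ij _ => ?_
  have h := uK_succ (K := K) ij.1
  push_cast
  linear_combination (1 / 2 * (u ij.2 : K) * a ^ (ij.1 + 1) * b ^ ij.2) * h

theorem W_right (n : ℕ) (a b : K) :
    ∑ ij ∈ antidiagonal (n + 1), (ij.2 : K) * ((u ij.1 : K) * (u ij.2 : K) * a ^ ij.1 * b ^ ij.2) =
    ∑ ij ∈ antidiagonal n, ((ij.2 : K) + 1 / 2) * ((u ij.1 : K) * (u ij.2 : K) * a ^ ij.1 *
      b ^ (ij.2 + 1)) := by
  rw [Nat.sum_antidiagonal_succ']
  simp only [Nat.cast_zero, zero_mul, zero_add]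
  refine sum_congr rfl fun ij _ => ?_
  have h := uK_succ (K := K) ij.2
  push_cast
  linear_combination (1 / 2 * (u ij.1 : K) * a ^ ij.1 * b ^ (ij.2 + 1)) * h

theorem W_rec (m : ℕ) (a b : K) : ((m : K) + 2) * Wt (m + 2) a b =
    (2 * m + 3) * ((a + b) / 2) * Wt (m + 1) a b - (m + 1) * (a * b) * Wt m a b := by
  have e1 : ((m : K) + 2) * Wt (m + 2) a b =
      ∑ ij ∈ antidiagonal (m + 1 + 1), (ij.1 : K) * ((u ij.1 : K) * (u ij.2 : K) * a ^ ij.1 *
        b ^ ij.2) + ∑ ij ∈ antidiagonal (m + 1 + 1), (ij.2 : K) * ((u ij.1 : K) * (u ij.2 : K) *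
        a ^ ij.1 * b ^ ij.2) := by
    unfold Wt
    rw [mul_sum, ← sum_add_distrib]
    refine sum_congr rfl fun ij h => ?_
    rw [HasAntidiagonal.mem_antidiagonal] at h
    have h' := congrArg (Nat.cast : ℕ → K) h
    push_cast at h'
    linear_combination (-((u ij.1 : K) * (u ij.2 : K) * a ^ ij.1 * b ^ ij.2)) * h'
  have e2 : (2 * (m : K) + 3) * (a / 2) * Wt (m + 1) a b =
      ∑ ij ∈ antidiagonal (m + 1), ((ij.1 : K) + 1 / 2) * ((u ij.1 : K) * (u ij.2 : K) *
        a ^ (ij.1 + 1) * b ^ ij.2) + a * ∑ ij ∈ antidiagonal (m + 1), (ij.2 : K) *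
        ((u ij.1 : K) * (u ij.2 : K) * a ^ ij.1 * b ^ ij.2) := by
    unfold Wt
    rw [mul_sum, mul_sum, ← sum_add_distrib]
    refine sum_congr rfl fun ij h => ?_
    rw [HasAntidiagonal.mem_antidiagonal] at h
    have h' := congrArg (Nat.cast : ℕ → K) h
    push_cast at h'
    rw [pow_succ]
    linear_combination (-((u ij.1 : K) * (u ij.2 : K) * a ^ ij.1 * a * b ^ ij.2)) * h'
  have e3 : (2 * (m : K) + 3) * (b / 2) * Wt (m + 1) a b =
      ∑ ij ∈ antidiagonal (m + 1), ((ij.2 : K) + 1 / 2) * ((u ij.1 : K) * (u ij.2 : K) *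
        a ^ ij.1 * b ^ (ij.2 + 1)) + b * ∑ ij ∈ antidiagonal (m + 1), (ij.1 : K) *
        ((u ij.1 : K) * (u ij.2 : K) * a ^ ij.1 * b ^ ij.2) := by
    unfold Wt
    rw [mul_sum, mul_sum, ← sum_add_distrib]
    refine sum_congr rfl fun ij h => ?_
    rw [HasAntidiagonal.mem_antidiagonal] at h
    have h' := congrArg (Nat.cast : ℕ → K) h
    push_cast at h'
    rw [pow_succ]
    linear_combination (-((u ij.1 : K) * (u ij.2 : K) * a ^ ij.1 * b * b ^ ij.2)) * h'
  have e4 : ((m : K) + 1) * (a * b) * Wt m a b =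
      a * ∑ ij ∈ antidiagonal m, ((ij.2 : K) + 1 / 2) * ((u ij.1 : K) * (u ij.2 : K) * a ^ ij.1 *
        b ^ (ij.2 + 1)) + b * ∑ ij ∈ antidiagonal m, ((ij.1 : K) + 1 / 2) * ((u ij.1 : K) *
        (u ij.2 : K) * a ^ (ij.1 + 1) * b ^ ij.2) := by
    unfold Wt
    rw [mul_sum, mul_sum, mul_sum, ← sum_add_distrib]
    refine sum_congr rfl fun ij h => ?_
    rw [HasAntidiagonal.mem_antidiagonal] at h
    have h' := congrArg (Nat.cast : ℕ → K) h
    push_cast at h'
    rw [pow_succ, pow_succ]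
    linear_combination (-((u ij.1 : K) * (u ij.2 : K) * a ^ ij.1 * a * b * b ^ ij.2)) * h'
  rw [W_left, W_right] at e1
  rw [W_right] at e2
  rw [W_left] at e3
  linear_combination e1 - e2 - e3 + e4

/-! ### the recurrence of Legendre polynomials -/

theorem dl_cont (m k : ℕ) : ((m : ℤ) + 1 - k) * dl (m + 1) k = ((m : ℤ) + 1 + k) * dl m k := by
  induction k with
  | zero => simp [dl]
  | succ k ih =>
    have h1 := dl_succ m k
    have h2 := dl_succ (m + 1) k
    have hk : ((k : ℤ) + 1) ^ 2 ≠ 0 := by positivity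
    apply mul_right_cancel₀ hk
    push_cast at h1 h2 ⊢
    linear_combination ((m : ℤ) - k) * h2 - ((m : ℤ) + k + 2) * h1
      - ((m : ℤ) - k) * ((m : ℤ) + 2 + k) * ih

theorem dl_rec (m k : ℕ) : ((m : ℤ) + 2) * dl (m + 2) (k + 1) =
    (2 * m + 3) * (dl (m + 1) (k + 1) - 2 * dl (m + 1) k) - (m + 1) * dl m (k + 1) := by
  have h0 := dl_succ m k
  have h1 := dl_succ (m + 1) k
  have h2 := dl_succ (m + 2) k
  have c0 := dl_cont m k
  have c1 := dl_cont (m + 1) k
  have hk : ((k : ℤ) + 1) ^ 2 ≠ 0 := by positivity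
  apply mul_right_cancel₀ hk
  push_cast at h0 h1 h2 c0 c1 ⊢
  rw [show m + 1 + 1 = m + 2 from rfl] at c1
  linear_combination ((m : ℤ) + 2) * h2 - (2 * (m : ℤ) + 3) * h1 + ((m : ℤ) + 1) * h0
    - ((m : ℤ) + 2) * ((m : ℤ) + 3 + k) * c1 + ((m : ℤ) + 1) * ((m : ℤ) - k) * c0

theorem dl_zero_of (m k : ℕ) (h : m < k) : dl m k = 0 := by
  unfold dl
  rw [Nat.choose_eq_zero_of_lt h]
  simp

/-- the polynomial `∑ d_k x^k` -/
def Fl {K : Type*} [CommRing K] (m : ℕ) (x : K) : K := ∑ k ∈ range (m + 1), (dl m k : K) * x ^ k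

theorem Fl_ext {K : Type*} [CommRing K] (m N : ℕ) (h : m < N) (x : K) :
    Fl m x = ∑ k ∈ range N, (dl m k : K) * x ^ k := by
  unfold Fl
  rw [← sum_range_add_sum_Ico _ (show m + 1 ≤ N by omega)]
  have : ∑ k ∈ Ico (m + 1) N, (dl m k : K) * x ^ k = 0 := by
    refine sum_eq_zero fun k hk => ?_
    rw [mem_Ico] at hk
    rw [dl_zero_of m k (by omega)]
    simp
  rw [this, add_zero]

theorem Fl_rec {K : Type*} [CommRing K] (m : ℕ) (x : K) : ((m : K) + 2) * Fl (m + 2) x =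
    (2 * m + 3) * (1 - 2 * x) * Fl (m + 1) x - (m + 1) * Fl m x := by
  have e1 := Fl_ext (m + 1) (m + 3) (by omega) x
  have e2 := Fl_ext (m + 2) (m + 3) (by omega) x
  have e0 := Fl_ext m (m + 3) (by omega) x
  have e1' : x * Fl (m + 1) x = ∑ k ∈ range (m + 2), (dl (m + 1) k : K) * x ^ (k + 1) := by
    unfold Fl
    rw [mul_sum]
    refine sum_congr rfl fun k _ => ?_
    ring
  rw [sum_range_succ'] at e0 e1 e2
  have z : ∀ n, dl n 0 = 1 := fun n => by simp [dl]
  rw [z] at e0 e1 e2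
  have key : ((m : K) + 2) * ∑ k ∈ range (m + 2), (dl (m + 2) (k + 1) : K) * x ^ (k + 1) =
      (2 * m + 3) * (∑ k ∈ range (m + 2), (dl (m + 1) (k + 1) : K) * x ^ (k + 1) -
        2 * ∑ k ∈ range (m + 2), (dl (m + 1) k : K) * x ^ (k + 1)) -
        (m + 1) * ∑ k ∈ range (m + 2), (dl m (k + 1) : K) * x ^ (k + 1) := by
    rw [mul_sum, mul_sum, ← sum_sub_distrib, mul_sum, mul_sum, ← sum_sub_distrib]
    refine sum_congr rfl fun k _ => ?_
    have h := congrArg (Int.cast : ℤ → K) (dl_rec m k)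
    push_cast at h
    linear_combination x ^ (k + 1) * h
  rw [← e1'] at key
  rw [e0, e2]
  push_cast
  linear_combination key - (2 * (m : K) + 3) * e1

/-- **the trigonometric expansion** -/
theorem Fl_trig (m : ℕ) (x a b : K) (hab : a * b = 1) (hx : 1 - 2 * x = (a + b) / 2) :
    Fl m x = Wt m a b := by
  have u0 : (u 0 : K) = 1 := by rw [u_zero]; norm_num
  have u1 : (u 1 : K) = 1 / 2 := by
    have := uK_succ (K := K) 0
    rw [u0] at this
    push_cast at this
    linear_combination (1 / 2 : K) * this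
  have key : ∀ n, Fl n x = Wt n a b ∧ Fl (n + 1) x = Wt (n + 1) a b := by
    intro n
    induction n with
    | zero =>
      constructor
      · simp [Fl, Wt, dl, u0]
      · have : antidiagonal (0 + 1) = {(0, 1), (1, 0)} := by decide
        unfold Fl Wt
        rw [this, sum_range_succ, sum_range_succ, range_zero, sum_empty,
          sum_insert (by decide), sum_singleton]
        simp only [dl, u0, u1]
        norm_num
        linear_combination hx
    | succ n ih =>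
      refine ⟨ih.2, ?_⟩
      have h1 := Fl_rec n x
      have h2 := W_rec n a b
      have hn : ((n : K) + 2) ≠ 0 := by
        have : ((n + 2 : ℕ) : K) ≠ 0 := Nat.cast_ne_zero.2 (by omega)
        push_cast at this
        exact this
      apply mul_left_cancel₀ hn
      rw [show n + 1 + 1 = n + 2 from rfl, h1, h2, ih.1, ih.2, hx, hab]
      ring
  exact (key m).1

omit [CharZero K] in
theorem Wt_range (m : ℕ) (a b : K) : Wt m a b =
    ∑ k ∈ range (m + 1), (u k : K) * (u (m - k) : K) * a ^ k * b ^ (m - k) := by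
  unfold Wt
  rw [Nat.sum_antidiagonal_eq_sum_range_succ_mk]

end Pool.Agent.Q267.CDE
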