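import Pool.Agent.Q267.CDE.CentreR
import Pool.Agent.Q267.CDE.TMod
import Pool.Agent.Q267.CDE.Trig

/-!
# The value `P_{2n}(3)` modulo `p²`, `p = 4n + 1`, and the power `2^(2n)`
-/

namespace Pool.Agent.Q267.CDE

open Finset Polynomial Pool.Agent.Q267.Seven

/-- the centre shift for `x³ - x` -/
theorem centre_two (m : ℕ) : Fl m (-1 : ℤ) =
    ∑ j ∈ range (m + 1), (-1) ^ (m - j) * (m.choose j : ℤ) * ((m + 2 * j).choose (2 * m) : ℤ) := by
  have h0 : Fl m (-1 : ℤ) = ((1 + C (1 : ℤ) * X : ℤ[X]) ^ m * (1 + C (1 + 1) * X) ^ m).coeff m := by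
    rw [Rg.coeff_prod, ← Rg.dl_neg]
    rfl
  have e1 : ((1 + C (1 : ℤ) * X : ℤ[X]) ^ m * (1 + C (1 + 1) * X) ^ m).coeff m =
      ((1 + C (1 : ℤ) * X : ℤ[X]) ^ m * (1 + C (1 + 1) * X) ^ m * X ^ m).coeff (2 * m) := by
    rw [two_mul, coeff_mul_X_pow]
  have e2 : C ((4 : ℤ) ^ m) * ((1 + C (1 : ℤ) * X : ℤ[X]) ^ m * (1 + C (1 + 1) * X) ^ m * X ^ m) =
      ∑ j ∈ range (m + 1), C ((-1) ^ (m - j) * (m.choose j : ℤ)) *
        (1 + C 2 * X) ^ (m + 2 * j) := by
    have e3 : C ((4 : ℤ) ^ m) * ((1 + C (1 : ℤ) * X : ℤ[X]) ^ m * (1 + C (1 + 1) * X) ^ m * X ^ m) =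
        (1 + C 2 * X) ^ m * ((1 + C 2 * X) ^ 2 + (-1)) ^ m := by
      rw [C_pow, ← mul_pow, ← mul_pow, ← mul_pow, ← mul_pow]
      congr 1
      have c4 : (C (4 : ℤ) : ℤ[X]) = 4 := by rw [map_ofNat]
      have c2 : (C (2 : ℤ) : ℤ[X]) = 2 := by rw [map_ofNat]
      have c1 : (C ((1 : ℤ) + 1) : ℤ[X]) = 2 := by norm_num
      rw [c4, c2, c1, C_1]
      ring
    rw [e3, add_pow ((1 + C 2 * X : ℤ[X]) ^ 2) (-1), mul_sum]
    refine sum_congr rfl fun j _ => ?_
    rw [← pow_mul, C_mul, C_pow, C_neg, C_1, ← C_eq_natCast, pow_add]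
    push_cast
    ring
  have h4 : (4 : ℤ) ^ m ≠ 0 := by positivity
  apply mul_left_cancel₀ h4
  rw [h0, e1, ← coeff_C_mul, e2, finsetSum_coeff, mul_sum]
  refine sum_congr rfl fun j _ => ?_
  rw [coeff_C_mul, Rg.coeff_lin, pow_mul]
  norm_num
  ring

variable (p : ℕ) [hp : Fact p.Prime]

theorem Fl_neg_one_mod (n : ℕ) (hn : p = 4 * n + 1) (g : R p)
    (hg : 2 * red p g = H (ZMod p) (2 * n) - H (ZMod p) n) :
    Fl (2 * n) (-1 : R p) = (-1) ^ n * ((((2 * n).choose n : ℕ) : R p) * (1 - p * g)) := by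
  have h2p := hp.out.two_le
  have hn0 : 0 < n := by omega
  have h0 := congrArg (Int.cast : ℤ → R p) (centre_two (2 * n))
  have h0' : ((Fl (2 * n) (-1 : ℤ) : ℤ) : R p) = Fl (2 * n) (-1 : R p) := by
    unfold Fl
    push_cast
    rfl
  rw [h0'] at h0
  rw [h0]
  push_cast
  rw [show 2 * n + 1 = n + (1 + n) by ring, sum_range_add, sum_range_add]
  have e1 : ∑ j ∈ range n, (-1 : R p) ^ (2 * n - j) * ((2 * n).choose j : R p) *
      ((2 * n + 2 * j).choose (2 * (2 * n)) : R p) = 0 := by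
    refine sum_eq_zero fun j hj => ?_
    rw [mem_range] at hj
    rw [Nat.choose_eq_zero_of_lt (show 2 * n + 2 * j < 2 * (2 * n) by omega)]
    simp
  have e2 : ∑ j ∈ range 1, (-1 : R p) ^ (2 * n - (n + j)) * ((2 * n).choose (n + j) : R p) *
      ((2 * n + 2 * (n + j)).choose (2 * (2 * n)) : R p) =
      (-1) ^ n * (((2 * n).choose n : ℕ) : R p) := by
    rw [sum_range_one, add_zero, show 2 * n + 2 * n = 2 * (2 * n) by ring, Nat.choose_self,
      show 2 * n - n = n by omega]
    norm_num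
  have e3 : ∑ j ∈ range n, (-1 : R p) ^ (2 * n - (n + (1 + j))) *
      ((2 * n).choose (n + (1 + j)) : R p) *
      ((2 * n + 2 * (n + (1 + j))).choose (2 * (2 * n)) : R p) =
      -(p * ((-1) ^ n * ((((2 * n).choose n : ℕ) : R p) * g))) := by
    have e4 : ∀ j ∈ range n, (-1 : R p) ^ (2 * n - (n + (1 + j))) *
      ((2 * n).choose (n + (1 + j)) : R p) *
      ((2 * n + 2 * (n + (1 + j))).choose (2 * (2 * n)) : R p) =
      p * (-((-1) ^ n * ((-1) ^ j * ((2 * n).choose (n - 1 - j) : R p) *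
        lift p ((((2 * (j + 1) - 1 : ℕ) : ZMod p) + 1)⁻¹)))) := by
      intro j hj
      rw [mem_range] at hj
      have e5 := choose_R p (2 * n) (2 * (j + 1) - 1) (by omega) (by omega)
      rw [show 2 * (2 * n) + (2 * (j + 1) - 1 + 1) = 2 * n + 2 * (n + (1 + j)) by omega] at e5
      rw [e5]
      have e6 : (2 * n).choose (n + (1 + j)) = (2 * n).choose (n - 1 - j) := by
        rw [← Nat.choose_symm (show n - 1 - j ≤ 2 * n by omega)]
        congr 1
        omega
      have e7 : ((-1 : R p)) ^ (2 * n - (n + (1 + j))) = -((-1) ^ n * (-1) ^ j) := by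
        have h8 : ((-1 : R p)) ^ (2 * n - (n + (1 + j))) * (-1) ^ (1 + j) = (-1) ^ n := by
          rw [← pow_add]
          congr 1
          omega
        have h9 : ((-1 : R p)) ^ j * (-1) ^ j = 1 := by rw [← mul_pow]; norm_num
        rw [pow_add, pow_one] at h8
        linear_combination (-(-1) ^ j) * h8 - ((-1 : R p)) ^ (2 * n - (n + (1 + j))) * h9
      rw [e6, e7]
      ring
    rw [sum_congr rfl e4, ← mul_sum, ← mul_neg]
    apply p_mul_eq
    have hS := S_eq (F := ZMod p) n n (fun j h1 h2 => cast_ne p j h1 (by omega))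
    rw [show n + n = 2 * n by ring, ← hg] at hS
    have h2 : (2 : ZMod p) ≠ 0 := by
      have := cast_ne p 2 (by omega) (by omega)
      exact_mod_cast this
    apply mul_left_cancel₀ h2
    rw [map_neg, map_mul, map_mul, map_pow, map_neg, map_one, red_nat, sum_neg_distrib, map_neg,
      map_sum]
    have e7 : 2 * ∑ x ∈ range n, red p ((-1) ^ n * ((-1) ^ x * ((2 * n).choose (n - 1 - x) : R p) *
        lift p ((((2 * (x + 1) - 1 : ℕ) : ZMod p) + 1)⁻¹))) =
        (-1) ^ n * S (ZMod p) (2 * n) n := by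
      unfold S
      rw [mul_sum, mul_sum]
      refine sum_congr rfl fun x hx => ?_
      rw [map_mul, map_mul, map_mul, map_pow, map_pow, map_neg, map_one, red_nat, red_lift]
      have e8 : ((2 * (x + 1) - 1 : ℕ) : ZMod p) + 1 = 2 * ((x : ZMod p) + 1) := by
        have : 2 * (x + 1) - 1 + 1 = 2 * (x + 1) := by omega
        have := congrArg (Nat.cast : ℕ → ZMod p) this
        push_cast at this
        exact this
      rw [e8, mul_inv]
      have e9 : (2 : ZMod p) * 2⁻¹ = 1 := mul_inv_cancel₀ h2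
      linear_combination ((-1) ^ n * (-1) ^ x * ((2 * n).choose (n - 1 - x) : ZMod p) *
        ((x : ZMod p) + 1)⁻¹) * e9
    linear_combination (-1 : ZMod p) * e7 - (-1) ^ n * hS
  rw [e1, e2, e3]
  ring

/-- `2^(2n) (1 - p g) = (-1)^n` -/
theorem pow_two_mod (n : ℕ) (hn : p = 4 * n + 1) (g : R p)
    (hg : 2 * red p g = H (ZMod p) (2 * n) - H (ZMod p) n) :
    (2 : R p) ^ (2 * n) * (1 - p * g) = (-1) ^ n := by
  have h2p := hp.out.two_le
  have hn0 : 0 < n := by omega
  have hP : (p : R p) = 4 * n + 1 := by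
    have := congrArg (Nat.cast : ℕ → R p) hn
    push_cast at this
    exact this
  have h2 : (2 : ZMod p) ≠ 0 := by
    have := cast_ne p 2 (by omega) (by omega)
    exact_mod_cast this
  have fact2 : ∀ r : ℕ, ((2 * r).factorial : R p) =
      (∏ i ∈ range r, (2 * (i : R p) + 2)) * (∏ i ∈ range r, (2 * (i : R p) + 1)) := by
    intro r
    induction r with
    | zero => simp
    | succ r ih =>
      rw [prod_range_succ, prod_range_succ, show 2 * (r + 1) = 2 * r + 1 + 1 by ring,
        Nat.factorial_succ, Nat.factorial_succ]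
      push_cast
      rw [ih]
      ring
  have e1 : ∏ k ∈ range (2 * n), (2 * ((k : R p) + 1)) = 2 ^ (2 * n) * ((2 * n).factorial : R p) := by
    rw [prod_mul_distrib, prod_const, card_range]
    congr 1
    rw [← prod_range_add_one_eq_factorial]
    push_cast
    rfl
  have e2 : ∏ k ∈ range (2 * n), (2 * ((k : R p) + 1)) =
      (∏ i ∈ range n, (2 * (i : R p) + 2)) * ∏ i ∈ range n, (2 * ((n : R p) + i + 1)) := by
    rw [show 2 * n = n + n by ring, prod_range_add]
    congr 1
    · refine prod_congr rfl fun i _ => ?_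
      ring
    · refine prod_congr rfl fun i _ => ?_
      push_cast
      ring
  have r2 : ∀ i ∈ range n, red p (2 * ((n : R p) + i + 1)) ≠ 0 := by
    intro i hi
    rw [mem_range] at hi
    have := cast_ne p (n + i + 1) (by omega) (by omega)
    push_cast at this
    rw [map_mul, map_add, map_add, map_one, red_nat, red_nat, map_ofNat]
    exact mul_ne_zero h2 this
  have p2 := prod_shift p (range n) (fun i : ℕ => 2 * ((n : R p) + i + 1)) r2
  have q2 : ∏ i ∈ range n, (2 * ((n : R p) + i + 1) - p) =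
      (-1) ^ n * ∏ i ∈ range n, (2 * (i : R p) + 1) := by
    have : ∏ i ∈ range n, (2 * ((n : R p) + i + 1) - p) =
        ∏ i ∈ range n, -(2 * (i : R p) + 1) := by
      rw [← prod_range_reflect]
      refine prod_congr rfl fun i hi => ?_
      rw [mem_range] at hi
      obtain ⟨j, rfl⟩ : ∃ j, n = j + i + 1 := ⟨n - 1 - i, by omega⟩
      rw [show j + i + 1 - 1 - i = j by omega, hP]
      push_cast
      ring
    rw [this, prod_neg, card_range]
  rw [q2] at p2
  set A := ∏ i ∈ range n, (2 * (i : R p) + 2)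
  set B2 := ∏ i ∈ range n, (2 * ((n : R p) + i + 1))
  set C2 := ∏ i ∈ range n, (2 * (i : R p) + 1)
  set Z2 := ∑ i ∈ range n, lift p ((red p (2 * ((n : R p) + i + 1)))⁻¹)
  have key : (2 : R p) ^ (2 * n) * (1 - p * Z2) * ((2 * n).factorial : R p) =
      (-1) ^ n * ((2 * n).factorial : R p) := by
    have h6 : (2 : R p) ^ (2 * n) * ((2 * n).factorial : R p) = A * B2 := by
      rw [← e1, e2]
    calc (2 : R p) ^ (2 * n) * (1 - p * Z2) * ((2 * n).factorial : R p) =
          ((2 : R p) ^ (2 * n) * ((2 * n).factorial : R p)) * (1 - p * Z2) := by ring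
      _ = A * (B2 * (1 - p * Z2)) := by rw [h6]; ring
      _ = A * ((-1) ^ n * C2) := by rw [p2]
      _ = _ := by rw [fact2]; ring
  have hfu : IsUnit ((2 * n).factorial : R p) := by
    apply isUnit_of_red
    rw [red_nat, Ne, ZMod.natCast_eq_zero_iff, hp.out.dvd_factorial]
    omega
  have key2 := hfu.mul_right_cancel key
  have hZ : (p : R p) * Z2 = p * g := by
    apply p_mul_eq
    apply mul_left_cancel₀ h2
    rw [hg, map_sum]
    have f2 : 2 * ∑ x ∈ range n, red p (lift p ((red p (2 * ((n : R p) + x + 1)))⁻¹)) =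
        ∑ x ∈ range n, (((n + x : ℕ) : ZMod p) + 1)⁻¹ := by
      rw [mul_sum]
      refine sum_congr rfl fun x hx => ?_
      rw [red_lift, map_mul, map_add, map_add, map_one, red_nat, red_nat, map_ofNat, mul_inv]
      have e9 : (2 : ZMod p) * 2⁻¹ = 1 := mul_inv_cancel₀ h2
      push_cast
      linear_combination ((n : ZMod p) + x + 1)⁻¹ * e9
    have f4 : H (ZMod p) (2 * n) = H (ZMod p) n +
        (∑ x ∈ range n, (((n + x : ℕ) : ZMod p) + 1)⁻¹) := by
      unfold H
      rw [show 2 * n = n + n by ring, sum_range_add]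
    rw [f4]
    linear_combination f2
  rw [hZ] at key2
  exact key2

end Pool.Agent.Q267.CDE
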