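import Pool.Agent.Q267.CDE.Centre

/-!
# The centre shift in commutative rings
-/

namespace Pool.Agent.Q267.CDE.Rg

open Finset Polynomial Pool.Agent.Q267.Seven

variable {K : Type*} [CommRing K]

theorem coeff_lin (w : K) (n k : ℕ) : ((1 + C w * X : K[X]) ^ n).coeff k = w ^ k * (n.choose k : K) := by
  have h : (1 + C w * X : K[X]) ^ n = ∑ i ∈ range (n + 1), C (w ^ i * (n.choose i : K)) * X ^ i := by
    rw [show (1 + C w * X : K[X]) = C w * X + 1 by ring, add_pow]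
    refine sum_congr rfl fun i _ => ?_
    rw [one_pow, mul_one, mul_pow, C_mul, C_pow, ← C_eq_natCast]
    ring
  rw [h, finsetSum_coeff]
  simp only [coeff_C_mul_X_pow]
  rw [sum_ite_eq]
  split_ifs with hk
  · rfl
  · rw [mem_range, not_lt] at hk
    rw [Nat.choose_eq_zero_of_lt (by omega)]
    simp

theorem coeff_prod (w : K) (m : ℕ) :
    ((1 + C w * X : K[X]) ^ m * (1 + C (1 + w) * X) ^ m).coeff m =
      ∑ k ∈ range (m + 1), (m.choose k : K) * ((m + k).choose k : K) * w ^ k := by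
  have h : (1 + C w * X : K[X]) ^ m * (1 + C (1 + w) * X) ^ m =
      ∑ k ∈ range (m + 1), C (m.choose k : K) * ((1 + C w * X) ^ (m + k) * X ^ (m - k)) := by
    rw [show (1 + C (1 + w) * X : K[X]) = (1 + C w * X) + X by rw [C_add, C_1]; ring,
      add_pow (1 + C w * X) X, mul_sum]
    refine sum_congr rfl fun k _ => ?_
    rw [pow_add, ← C_eq_natCast]
    ring
  rw [h, finsetSum_coeff]
  refine sum_congr rfl fun k hk => ?_
  have hk' : k ≤ m := by simpa [Nat.lt_succ_iff] using hk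
  rw [coeff_C_mul, coeff_mul_X_pow', if_pos (Nat.sub_le m k), Nat.sub_sub_self hk', coeff_lin]
  ring

theorem dl_neg (m : ℕ) (w : K) : ∑ k ∈ range (m + 1), (dl m k : K) * (-w) ^ k =
    ∑ k ∈ range (m + 1), (m.choose k : K) * ((m + k).choose k : K) * w ^ k := by
  refine sum_congr rfl fun k _ => ?_
  unfold dl
  push_cast
  have h7 : ((-1 : K)) ^ k * (-1) ^ k = 1 := by rw [← mul_pow]; norm_num
  rw [neg_pow w k]
  linear_combination (m.choose k : K) * ((m + k).choose k : K) * w ^ k * h7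

theorem centre (w c : K) (hw : w ^ 2 + w + 1 = 0) (hc : 3 * c = 2 * w + 1) (hc2 : 3 * c ^ 2 = -1)
    (m : ℕ) : ∑ k ∈ range (m + 1), (m.choose k : K) * ((m + k).choose k : K) * w ^ k =
      (-c) ^ m * (T m : K) := by
  rw [← coeff_prod]
  have e1 : ((1 + C w * X : K[X]) ^ m * (1 + C (1 + w) * X) ^ m).coeff m =
      ((1 + C w * X : K[X]) ^ m * (1 + C (1 + w) * X) ^ m * X ^ m).coeff (2 * m) := by
    rw [two_mul, coeff_mul_X_pow]
  have hC : (C w : K[X]) ^ 2 + C w + 1 = 0 := by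
    rw [← C_pow, ← C_1, ← C_add, ← C_add, hw, C_0]
  have hC1 : 3 * (C c : K[X]) = 2 * C w + 1 := by
    have := congrArg (C : K → K[X]) hc
    rw [C_mul, C_add, C_mul, C_1, map_ofNat, map_ofNat] at this
    exact this
  have hC2 : 3 * (C c : K[X]) ^ 2 = -1 := by
    have := congrArg (C : K → K[X]) hc2
    rw [C_mul, C_pow, C_neg, C_1, map_ofNat] at this
    exact this
  have e2 : (1 + C w * X : K[X]) ^ m * (1 + C (1 + w) * X) ^ m * X ^ m =
      ∑ j ∈ range (m + 1), C ((-1) ^ m * (m.choose j : K) * (c ^ 3) ^ (m - j)) *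
        (X + C (-c)) ^ (3 * j) := by
    have e3 : (1 + C w * X : K[X]) ^ m * (1 + C (1 + w) * X) ^ m * X ^ m =
        (-1) ^ m * ((X + C (-c)) ^ 3 + C c ^ 3) ^ m := by
      rw [← mul_pow, ← mul_pow, ← mul_pow]
      congr 1
      rw [C_add, C_1, C_neg]
      linear_combination X ^ 3 * hC - X ^ 2 * hC1 + X * hC2
    rw [e3, add_pow, mul_sum]
    refine sum_congr rfl fun j _ => ?_
    rw [← pow_mul, C_mul, C_mul, C_pow, C_pow, C_pow, C_neg, C_neg, C_1, ← C_eq_natCast]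
    ring
  rw [e1, e2, finsetSum_coeff]
  unfold T
  push_cast
  rw [mul_sum]
  refine sum_congr rfl fun j hj => ?_
  have hj' : j ≤ m := by simpa [Nat.lt_succ_iff] using hj
  rw [coeff_C_mul, coeff_X_add_C_pow]
  rcases le_or_gt (2 * m) (3 * j) with h | h
  · obtain ⟨a, ha⟩ : ∃ a, m = j + a := ⟨m - j, by omega⟩
    obtain ⟨b, hb⟩ : ∃ b, j = 2 * a + b := ⟨j - 2 * a, by omega⟩
    subst ha
    subst hb
    rw [show 2 * a + b + a - (2 * a + b) = a by omega,
      show 3 * (2 * a + b) - 2 * (2 * a + b + a) = b by omega]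
    have h4 : ((-1 : K)) ^ (2 * a) = 1 := by rw [pow_mul]; norm_num
    have h5 : (-c) ^ (2 * a + b + a) = (-1) ^ (2 * a + b + a) * c ^ (2 * a + b + a) := neg_pow _ _
    have h6 : (-c) ^ b = (-1) ^ b * c ^ b := neg_pow _ _
    rw [h5, h6]
    simp only [pow_add, h4, ← pow_mul]
    rw [show 3 * a = 2 * a + a by ring, pow_add]
    ring
  · rw [Nat.choose_eq_zero_of_lt h]
    simp

/-- `s^m ∑ d_k (-w)^k = T`, `s = 2w + 1`. -/
theorem F_w (h3 : IsUnit (3 : K)) (w s : K) (hw : w ^ 2 + w + 1 = 0) (hs : s = 2 * w + 1) (m : ℕ) :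
    s ^ m * ∑ k ∈ range (m + 1), (dl m k : K) * (-w) ^ k = (T m : K) := by
  obtain ⟨u, hu⟩ := h3
  set c : K := ((u⁻¹ : Kˣ) : K) * s with hc
  have hu3 : (3 : K) * ((u⁻¹ : Kˣ) : K) = 1 := by rw [← hu]; exact u.mul_inv
  have h1 : 3 * c = 2 * w + 1 := by
    rw [hc, ← hs]
    linear_combination s * hu3
  have hs2 : s ^ 2 = -3 := by rw [hs]; linear_combination 4 * hw
  have h2 : 3 * c ^ 2 = -1 := by
    rw [hc]
    linear_combination (3 * ((u⁻¹ : Kˣ) : K) ^ 2) * hs2 - (3 * ((u⁻¹ : Kˣ) : K) + 1) * hu3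
  have h4 : s * (-c) = 1 := by
    rw [hc]
    linear_combination (-((u⁻¹ : Kˣ) : K)) * hs2 + hu3
  rw [dl_neg, centre w c hw h1 h2 m, ← mul_assoc, ← mul_pow, h4, one_pow, one_mul]

end Pool.Agent.Q267.CDE.Rg
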