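import Pool.Agent.Q267.CDE.InvW
import Pool.Agent.Q267.Landen.Landen

/-!
# Inversion and the Landen transformation modulo `p²` in extensions of `ℤ/p²`
-/

namespace Pool.Agent.Q267.CDE.Ext

open Finset Polynomial Pool.Agent.Q267.Seven Pool.Agent.Q267.Landen Pool.Agent.Q261.SC

/-- the logarithmic weight -/
def tw (p m k : ℕ) : R p := cR p m k * (hR p (m - k) - hR p k)

section defs

variable {S : Type*} [CommRing S]

/-- the logarithmic sum -/
def TS (p : ℕ) {S : Type*} [CommRing S] [Algebra (R p) S] (m : ℕ) (y : S) : S :=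
  ∑ k ∈ range (m + 1), algebraMap (R p) S (tw p m k) * y ^ k

/-- the weighted logarithmic sum -/
def US (p : ℕ) {S : Type*} [CommRing S] [Algebra (R p) S] (m : ℕ) (y : S) : S :=
  ∑ k ∈ range (m + 1), (k : S) * (algebraMap (R p) S (tw p m k) * y ^ k)

/-- the weighted sum -/
def F1 (m : ℕ) (y : S) : S := ∑ k ∈ range (m + 1), (k : S) * ((dl m k : S) * y ^ k)

end defs

section inv

variable {p : ℕ} [hp : Fact p.Prime] {S : Type*} [CommRing S] [Algebra (R p) S] {m : ℕ}

theorem dl_inv (hpm : p = 2 * m + 1) (k : ℕ) (hk : k ≤ m) :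
    (dl m (m - k) : S) = (dl m k : S) - p * algebraMap (R p) S (tw p m k) := by
  have h := congrArg (algebraMap (R p) S) (dl_diff p m hpm k hk)
  rw [map_sub, map_intCast, map_intCast, map_neg, map_mul (algebraMap (R p) S) (p : R p),
    map_natCast] at h
  change _ = -((p : S) * algebraMap (R p) S (tw p m k)) at h
  linear_combination h

/-- inversion of the sum -/
theorem inv_F (hpm : p = 2 * m + 1) (a b : S) (hab : a * b = 1) :
    a ^ m * Fl m b = Fl m a - p * TS p m a := by
  have h1 : Fl m b = ∑ k ∈ range (m + 1), (dl m (m - k) : S) * b ^ (m - k) := by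
    unfold Fl
    rw [← sum_range_reflect]
    refine sum_congr rfl fun k hk => ?_
    rw [show m + 1 - 1 - k = m - k by omega]
  rw [h1]
  unfold Fl TS
  rw [mul_sum, mul_sum, ← sum_sub_distrib]
  refine sum_congr rfl fun k hk => ?_
  rw [mem_range] at hk
  rw [dl_inv hpm k (by omega)]
  have hs : a ^ m * b ^ (m - k) = a ^ k := by
    have e : a ^ m = a ^ k * a ^ (m - k) := by rw [← pow_add]; congr 1; omega
    rw [e, mul_assoc, ← mul_pow, hab, one_pow, mul_one]
  linear_combination ((dl m k : S) - p * algebraMap (R p) S (tw p m k)) * hs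

/-- inversion of the weighted sum -/
theorem inv_F1 (hpm : p = 2 * m + 1) (a b : S) (hab : a * b = 1) :
    a ^ m * F1 m b = m * Fl m a - F1 m a - p * (m * TS p m a - US p m a) := by
  have h1 : F1 m b = ∑ k ∈ range (m + 1), ((m - k : ℕ) : S) *
      ((dl m (m - k) : S) * b ^ (m - k)) := by
    unfold F1
    rw [← sum_range_reflect]
    refine sum_congr rfl fun k hk => ?_
    rw [show m + 1 - 1 - k = m - k by omega]
  rw [h1]
  unfold Fl TS US F1
  rw [mul_sum, mul_sum, ← sum_sub_distrib, mul_sum, ← sum_sub_distrib, mul_sum, ← sum_sub_distrib]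
  refine sum_congr rfl fun k hk => ?_
  rw [mem_range] at hk
  rw [dl_inv hpm k (by omega), Nat.cast_sub (show k ≤ m by omega)]
  have hs : a ^ m * b ^ (m - k) = a ^ k := by
    have e : a ^ m = a ^ k * a ^ (m - k) := by rw [← pow_add]; congr 1; omega
    rw [e, mul_assoc, ← mul_pow, hab, one_pow, mul_one]
  linear_combination (((m : S) - k) * ((dl m k : S) - p * algebraMap (R p) S (tw p m k))) * hs

theorem psq (p : ℕ) (S : Type*) [CommRing S] [Algebra (R p) S] : (p : S) ^ 2 = 0 := by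
  have h := congrArg (algebraMap (R p) S) (CDE.p_sq p)
  rw [map_pow, map_natCast, map_zero] at h
  exact h

end inv

section rho

variable {p : ℕ} [hp : Fact p.Prime] {S : Type*} [CommRing S] [Algebra (R p) S]
  {K : Type*} [Field K] [CharP K p] (ρ : S →+* K) {m : ℕ}

theorem rho_map (c : R p) : ρ (algebraMap (R p) S c) =
    ZMod.castHom (dvd_refl p) K (CDE.red p c) := by
  have : ρ.comp (algebraMap (R p) S) = (ZMod.castHom (dvd_refl p) K).comp (CDE.red p) :=
    RingHom.ext_zmod _ _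
  exact RingHom.congr_fun this c

theorem cast_Hh (n : ℕ) : ZMod.castHom (dvd_refl p) K (Hh (ZMod p) n) = Hh K n := by
  unfold Hh
  rw [map_sum]
  refine sum_congr rfl fun i _ => ?_
  rw [map_inv₀, map_natCast]

theorem rho_tw (hpm : p = 2 * m + 1) (k : ℕ) (hk : k ≤ m) :
    ρ (algebraMap (R p) S (tw p m k)) = dd K m k := by
  rw [rho_map]
  have h5 : CDE.red p (hR p (m - k)) = Hh (ZMod p) (m - k) := Seven.red_hR p (m - k) (by omega)
  have h6 : CDE.red p (hR p k) = Hh (ZMod p) k := Seven.red_hR p k (by omega)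
  unfold tw
  rw [map_mul, map_sub, h5, h6, map_mul, map_sub, cast_Hh, cast_Hh]
  unfold cR dd cc
  rw [map_pow, map_natCast, map_pow, map_natCast]

theorem rho_Fl (hpm : p = 2 * m + 1) (y : S) : ρ (Fl m y) = cs K m (ρ y) := by
  unfold Fl cs
  rw [map_sum]
  refine sum_congr rfl fun k hk => ?_
  rw [mem_range] at hk
  rw [map_mul, map_pow, map_intCast]
  congr 1
  exact dl_mod (K := K) p m hpm k (by omega)

theorem rho_F1 (hpm : p = 2 * m + 1) (y : S) : ρ (F1 m y) = cx K m (ρ y) := by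
  unfold F1 cx
  rw [map_sum]
  refine sum_congr rfl fun k hk => ?_
  rw [mem_range] at hk
  rw [map_mul, map_mul, map_pow, map_intCast, map_natCast]
  congr 2
  exact dl_mod (K := K) p m hpm k (by omega)

theorem rho_TS (hpm : p = 2 * m + 1) (y : S) : ρ (TS p m y) = ct K m (ρ y) := by
  unfold TS ct
  rw [map_sum]
  refine sum_congr rfl fun k hk => ?_
  rw [mem_range] at hk
  rw [map_mul, map_pow, rho_tw ρ hpm k (by omega)]

theorem rho_US (hpm : p = 2 * m + 1) (y : S) : ρ (US p m y) = cu K m (ρ y) := by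
  unfold US cu
  rw [map_sum]
  refine sum_congr rfl fun k hk => ?_
  rw [mem_range] at hk
  rw [map_mul, map_mul, map_pow, rho_tw ρ hpm k (by omega), map_natCast]

/-- the factor -/
theorem exists_Lam (hpm : p = 2 * m + 1) (s : S) :
    ∃ L : S, ρ L = (Lam K m).eval (ρ s) ∧ (p : S) * L = 2 - (1 - s) ^ p - (1 + s) ^ p := by
  refine ⟨∑ j ∈ range m, algebraMap (R p) S (((j + 1 : ℕ) : R p)⁻¹) * s ^ (2 * (j + 1)), ?_, ?_⟩
  · unfold Lam
    rw [map_sum, eval_finsetSum]
    refine sum_congr rfl fun j hj => ?_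
    rw [mem_range] at hj
    rw [map_mul, map_pow, rho_map, eval_mul, eval_C, eval_pow, eval_X]
    congr 1
    have h := Seven.unit_cast p (j + 1) (by omega) (by omega)
    have h2 := congrArg (CDE.red p) h
    rw [map_mul, map_one, CDE.red_nat] at h2
    have h3 := eq_inv_of_mul_eq_one_right h2
    rw [h3, map_inv₀, map_natCast]
  · have hodd : Odd p := ⟨m, hpm⟩
    have h1 : (1 - s) ^ p = ∑ i ∈ range (p + 1), (-s) ^ i * ((p.choose i : ℕ) : S) := by
      rw [show (1 : S) - s = -s + 1 by ring, add_pow]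
      refine sum_congr rfl fun m _ => ?_
      rw [one_pow, mul_one]
    have h2 : (1 + s) ^ p = ∑ i ∈ range (p + 1), s ^ i * ((p.choose i : ℕ) : S) := by
      rw [show (1 : S) + s = s + 1 by ring, add_pow]
      refine sum_congr rfl fun m _ => ?_
      rw [one_pow, mul_one]
    have h3 : ∀ (f : ℕ → S) (n : ℕ), ∑ i ∈ range (2 * n + 2), f i =
        ∑ j ∈ range (n + 1), (f (2 * j) + f (2 * j + 1)) := by
      intro f n
      induction n with
      | zero => simp [sum_range_succ]
      | succ n ih =>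
        rw [show 2 * (n + 1) + 2 = 2 * n + 2 + 1 + 1 by ring, sum_range_succ, sum_range_succ, ih,
          sum_range_succ (n := n + 1)]
        rw [show 2 * (n + 1) = 2 * n + 2 by ring]
        ring
    have h4 : (1 - s) ^ p + (1 + s) ^ p =
        ∑ j ∈ range (m + 1), 2 * (((p.choose (2 * j) : ℕ) : S) * s ^ (2 * j)) := by
      rw [h1, h2, ← sum_add_distrib, show p + 1 = 2 * m + 2 by omega, h3]
      refine sum_congr rfl fun j _ => ?_
      have e1 : (-s) ^ (2 * j) = s ^ (2 * j) := by rw [pow_mul, pow_mul, neg_sq]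
      rw [pow_succ, e1, pow_succ]
      ring
    rw [sub_sub, h4, sum_range_succ', mul_sum]
    have h5 : ∑ k ∈ range m, 2 * (((p.choose (2 * (k + 1)) : ℕ) : S) * s ^ (2 * (k + 1))) =
        -∑ j ∈ range m, (p : S) * (algebraMap (R p) S (((j + 1 : ℕ) : R p)⁻¹) * s ^ (2 * (j + 1))) := by
      rw [← sum_neg_distrib]
      refine sum_congr rfl fun j hj => ?_
      rw [mem_range] at hj
      have e1 := CDE.choose_p p (2 * j + 1) (by omega)
      have e2 : ((-1 : R p)) ^ (2 * j + 1 + 1) = 1 := by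
        rw [show 2 * j + 1 + 1 = 2 * (j + 1) by ring, pow_mul]
        norm_num
      rw [e2, one_mul] at e1
      have e3 : (p : R p) * (2 * CDE.lift p (-(((2 * j + 1 : ℕ) : ZMod p) + 1)⁻¹)) =
          p * (-((j + 1 : ℕ) : R p)⁻¹) := by
        apply CDE.p_mul_eq
        have h := Seven.unit_cast p (j + 1) (by omega) (by omega)
        have h2 := congrArg (CDE.red p) h
        rw [map_mul, map_one, CDE.red_nat] at h2
        have h3 := eq_inv_of_mul_eq_one_right h2
        rw [map_mul, CDE.red_lift, map_ofNat, map_neg, h3]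
        have h20 : (2 : ZMod p) ≠ 0 := by
          have := CDE.cast_ne p 2 (by omega) (by omega)
          exact_mod_cast this
        have h30 := CDE.cast_ne p (j + 1) (by omega) (by omega)
        have e5 : ((2 * j + 1 : ℕ) : ZMod p) + 1 = 2 * ((j + 1 : ℕ) : ZMod p) := by
          push_cast; ring
        rw [e5]
        field_simp
      have e4 : (2 : R p) * ((p.choose (2 * j + 1 + 1) : ℕ) : R p) =
          p * (-((j + 1 : ℕ) : R p)⁻¹) := by
        rw [e1]
        linear_combination e3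
      have e5 := congrArg (algebraMap (R p) S) e4
      rw [map_mul, map_mul, map_ofNat, map_natCast, map_natCast, map_neg] at e5
      rw [show 2 * (j + 1) = 2 * j + 1 + 1 by ring]
      linear_combination s ^ (2 * j + 1 + 1) * e5
    rw [h5]
    simp

end rho

section field

variable {p : ℕ} [hp : Fact p.Prime] {K : Type*} [Field K] [CharP K p] {m : ℕ}

theorem eval_pair2 (c : ℕ → K) (j : ℕ) (x v : K) (hv : (1 + x) * v = 1) :
    (Ph m c j (A2 : K[X]) B2).eval ((1 - x) * v) =
      (2 * v) ^ (2 * m) * ∑ k ∈ range (m + 1), c k * (k : K) ^ j * (x ^ 2) ^ k := by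
  unfold Ph A2 B2
  rw [eval_finsetSum, mul_sum]
  refine sum_congr rfl fun k hk => ?_
  rw [mem_range] at hk
  rw [eval_mul, eval_mul, eval_C, eval_pow, eval_pow, eval_pow, eval_pow, eval_sub, eval_add,
    eval_one, eval_X]
  have e1 : 1 - (1 - x) * v = 2 * v * x := by linear_combination -hv
  have e2 : 1 + (1 - x) * v = 2 * v := by linear_combination -hv
  rw [e1, e2]
  have e3 : (2 * v) ^ (2 * m) = ((2 * v) ^ 2) ^ k * ((2 * v) ^ 2) ^ (m - k) := by
    rw [← pow_add, pow_mul]
    congr 1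
    omega
  rw [e3, mul_pow (2 * v) x 2, mul_pow ((2 * v) ^ 2) (x ^ 2) k]
  ring

theorem eval_pair1 (c : ℕ → K) (j : ℕ) (x v : K) (hv : (1 + x) * v = 1) :
    (Ph m c j (A1 : K[X]) 1).eval ((1 - x) * v) =
      ∑ k ∈ range (m + 1), c k * (k : K) ^ j * (4 * x * v ^ 2) ^ k := by
  unfold Ph A1
  rw [eval_finsetSum]
  refine sum_congr rfl fun k hk => ?_
  rw [eval_mul, eval_mul, eval_C, eval_pow, eval_pow, eval_one, one_pow, mul_one, eval_sub,
    eval_one, eval_pow, eval_X]
  congr 2
  linear_combination (-(1 + (1 + x) * v)) * hv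

theorem c0 (c : ℕ → K) (z : K) : ∑ k ∈ range (m + 1), c k * (k : K) ^ 0 * z ^ k =
    ∑ k ∈ range (m + 1), c k * z ^ k :=
  sum_congr rfl fun k _ => by rw [pow_zero, mul_one]

theorem c1 (c : ℕ → K) (z : K) : ∑ k ∈ range (m + 1), c k * (k : K) ^ 1 * z ^ k =
    ∑ k ∈ range (m + 1), (k : K) * (c k * z ^ k) :=
  sum_congr rfl fun k _ => by ring

theorem four_pow_m (hpm : p = 2 * m + 1) (h2 : (2 : K) ≠ 0) (v : K) :
    (2 * v) ^ (2 * m) = v ^ (2 * m) := by
  have h := two_pow_two_mul (K := K) p m hpm h2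
  have e : (2 : K) ^ (2 * m) = 1 := by
    rw [pow_mul]
    norm_num
    exact h
  rw [mul_pow, e, one_mul]

/-- the Landen transformation at a point -/
theorem landen_at (hpm : p = 2 * m + 1) (h2 : (2 : K) ≠ 0) (x v : K) (hv : (1 + x) * v = 1) :
    v ^ (2 * m) * cs K m (x ^ 2) = cs K m (4 * x * v ^ 2) := by
  have h := congrArg (eval ((1 - x) * v)) (landen (K := K) p m hpm h2)
  rw [eval_pair2 _ _ _ _ hv, eval_pair1 _ _ _ _ hv, four_pow_m hpm h2, c0, c0] at h
  exact h

/-- the logarithmic companion at a point -/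
theorem log_at (hpm : p = 2 * m + 1) (h2 : (2 : K) ≠ 0) (x v : K) (hv : (1 + x) * v = 1) :
    ((1 - x) * v) ^ p * (v ^ (2 * m) * ct K m (x ^ 2)) =
      2 * ct K m (4 * x * v ^ 2) - (Lam K m).eval ((1 - x) * v) * cs K m (4 * x * v ^ 2) := by
  have h := congrArg (eval ((1 - x) * v)) (landen_log (K := K) p m hpm h2)
  rw [eval_mul, eval_pow, eval_X, eval_sub, eval_mul, eval_ofNat, eval_mul,
    eval_pair2 _ _ _ _ hv, eval_pair1 _ _ _ _ hv, eval_pair1 _ _ _ _ hv, four_pow_m hpm h2, c0, c0,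
    c0] at h
  exact h

/-- the derivative of the logarithmic companion at a point -/
theorem dlog_at (hpm : p = 2 * m + 1) (h2 : (2 : K) ≠ 0) (x v : K) (hv : (1 + x) * v = 1)
    (h0 : ct K m (x ^ 2) = 0) :
    2 * (((1 - x) * v) ^ p * (v ^ (2 * m) * cu K m (x ^ 2))) =
      2 * (((1 - x) * v) * cu K m (4 * x * v ^ 2)) +
        (((1 - x) * v) - ((1 - x) * v) ^ p) * cs K m (4 * x * v ^ 2) -
        ((1 - x) * v) * (Lam K m).eval ((1 - x) * v) * cx K m (4 * x * v ^ 2) := by
  have hm' : (2 : K) * m + 1 = 0 := by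
    have : ((p : ℕ) : K) = 0 := CharP.cast_eq_zero K p
    rw [hpm] at this
    push_cast at this
    exact this
  have hn : ∀ n : ℕ, 0 < n → n ≤ m → ((n : ℕ) : K) ≠ 0 := fun n h1 h2 =>
    Landen.cast_ne p n h1 (by omega)
  have hXp := derivative_X_pow_p K p
  have hlog := congrArg (fun q : K[X] => (1 - X ^ 2) * derivative q) (landen_log (K := K) p m hpm h2)
  have hdL := dLam m hn (K := K)
  rw [← hpm] at hdL
  have q1 := p2a m (dd K m) (K := K)
  have q2 := p1a m (dd K m) (K := K)
  have q3 := p1a m (cc K m) (K := K)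
  set M0 := Ph m (dd K m) 0 (A2 : K[X]) B2 with hM0
  set M1 := Ph m (dd K m) 1 (A2 : K[X]) B2 with hM1
  set N0 := Ph m (dd K m) 0 (A1 : K[X]) 1 with hN0
  set N1 := Ph m (dd K m) 1 (A1 : K[X]) 1 with hN1
  set Y0 := Ph m (cc K m) 0 (A1 : K[X]) 1 with hY0
  set Y1 := Ph m (cc K m) 1 (A1 : K[X]) 1 with hY1
  set L := Lam K m with hL
  have e1 : derivative (X ^ p * M0) = X ^ p * derivative M0 := by
    rw [derivative_mul, hXp, zero_mul, zero_add]
  have e2 : derivative (2 * N0 - L * Y0) = 2 * derivative N0 - (derivative L * Y0 + L * derivative Y0) := by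
    rw [derivative_sub, derivative_mul, derivative_mul, derivative_ofNat]
    ring
  rw [e1, e2] at hlog
  have key : X ^ p * (-4 * M1 + 2 * C (m : K) * (1 - X) * M0) =
      2 * (-2 * X * N1) - (2 * (X - X ^ p) * Y0 + L * (-2 * X * Y1)) := by
    linear_combination hlog - X ^ p * q1 + 2 * q2 - Y0 * hdL - L * q3
  have h := congrArg (eval ((1 - x) * v)) key
  simp only [eval_mul, eval_pow, eval_X, eval_sub, eval_add, eval_ofNat, eval_neg, eval_C,
    eval_one] at h
  rw [hM0, hM1, hN1, hY0, hY1, eval_pair2 _ _ _ _ hv, eval_pair2 _ _ _ _ hv,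
    eval_pair1 _ _ _ _ hv, eval_pair1 _ _ _ _ hv, eval_pair1 _ _ _ _ hv, four_pow_m hpm h2, c0, c0,
    c1, c1, c1] at h
  change _ * (-4 * (_ * cu K m (x ^ 2)) + _ * (_ * ct K m (x ^ 2))) =
    2 * (_ * cu K m (4 * x * v ^ 2)) - (_ * cs K m (4 * x * v ^ 2) +
      _ * (_ * cx K m (4 * x * v ^ 2))) at h
  rw [h0] at h
  apply mul_left_cancel₀ h2
  linear_combination -h

end field

end Pool.Agent.Q267.CDE.Ext
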