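import Pool.Agent.Q267.CDE.InvW
import Pool.Agent.Q267.CDE.A3

/-!
# The sums of `C(4k,2k) C(2k,k) / 48^k` modulo `p²`, `p ≡ 1 (mod 3)`
-/

namespace Pool.Agent.Q267.CDE

open Finset Pool.Agent.Q267.Seven Pool.Agent.Q267.Landen Pool.Agent.Q261.SC

variable (p : ℕ) [hp : Fact p.Prime]

/-- the relations at a cube root of unity -/
theorem at_w (r : ℕ) (hr : p = 6 * r + 1) (w : R p) (hw : w ^ 2 + w + 1 = 0)
    (I : R p) (hI : D0 p (3 * r) w * I = 1) :
    (p : R p) * T0 p (3 * r) w = 0 ∧
    (2 : R p) * (p * U0 p (3 * r) w) = p * I - p * D0 p (3 * r) w ∧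
    2 * ((1 - w) * E0 p (3 * r) w) = -D0 p (3 * r) w + p * I := by
  have hp2 := hp.out.two_le
  have hr0 : 0 < r := by omega
  have hpm : p = 2 * (3 * r) + 1 := by omega
  have h3 : 3 < p := by omega
  have hw3 : w ^ 3 = 1 := by linear_combination (w - 1) * hw
  have hb : w * (-1 - w) = 1 := by linear_combination -hw
  have h1 := inv_D p hpm h3 w (-1 - w) hb
  have h2 := inv_E p hpm h3 w (-1 - w) hb
  rw [D0_refl] at h1
  have hE := E0_refl p (m := 3 * r) w
  have hwm : (-w) ^ (3 * r) = (-1) ^ (3 * r) := by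
    rw [neg_pow, pow_mul w, hw3, one_pow, mul_one]
  have hs : ((-1 : R p)) ^ (3 * r) * (-1) ^ (3 * r) = 1 := by rw [← mul_pow]; norm_num
  rw [hwm] at h1 h2
  have hT : (p : R p) * T0 p (3 * r) w = 0 := by
    linear_combination h1 - D0 p (3 * r) w * hs
  -- the Wronskian
  have hpp := CDE.p_sq p
  have h20 : (2 : ZMod p) ≠ 0 := by
    have := CDE.cast_ne p 2 (by omega) (by omega)
    exact_mod_cast this
  have hU : (2 : R p) * (p * U0 p (3 * r) w) = p * I - p * D0 p (3 * r) w := by
    have h5 : (p : R p) * (2 * U0 p (3 * r) w) = p * (I - D0 p (3 * r) w) := by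
      apply CDE.p_mul_eq
      have hwr := wr p hpm (-(CDE.red p w))
      have d := red_D0 p hpm w
      have u := red_U0 p hpm h3 w
      have t := red_T0 p hpm h3 w
      have ht := red_of_pmul p _ hT
      rw [t] at ht
      have hI' := congrArg (CDE.red p) hI
      rw [map_mul, map_one, d] at hI'
      rw [ht, zero_mul, sub_zero] at hwr
      rw [map_mul, map_sub, map_ofNat, d, u]
      have hwr' := congrArg (CDE.red p) hw
      rw [map_add, map_add, map_pow, map_one, map_zero] at hwr'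
      set v := CDE.red p w with hv
      have hu : IsUnit (1 - -v) := by
        apply IsUnit.of_mul_eq_one (-v)
        linear_combination -hwr'
      have h9 : cs (ZMod p) (3 * r) (-v) ^ 2 + 2 * (cs (ZMod p) (3 * r) (-v) *
          cu (ZMod p) (3 * r) (-v)) = 1 := by
        apply hu.mul_left_cancel
        linear_combination hwr
      linear_combination (CDE.red p I) * h9 - (cs (ZMod p) (3 * r) (-v) +
        2 * cu (ZMod p) (3 * r) (-v)) * hI'
    linear_combination h5
  refine ⟨hT, hU, ?_⟩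
  have hP : (p : R p) = 6 * r + 1 := by
    have := congrArg (Nat.cast : ℕ → R p) hr
    push_cast at this ⊢
    exact this
  push_cast at h2 hE
  -- `w E(b) = (-1)^m (1 + w) E(w)`, `w² = w⁻¹`
  set s : R p := (-1) ^ (3 * r) with hsd
  set D := D0 p (3 * r) w
  set E := E0 p (3 * r) w
  set E' := E0 p (3 * r) (-1 - w)
  set T := T0 p (3 * r) w
  set U := U0 p (3 * r) w
  have e1 : E' = -(s * (w * E)) := by
    linear_combination (w ^ 2) * hE - E' * hw3 + (s * E * w) * hw
  have e2 : s * E' = 3 * r * D - E + p * U := by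
    linear_combination h2 - (3 * r) * hT
  have e3 : (1 - w) * E = 3 * r * D + p * U := by
    linear_combination e2 - s * e1 + (w * E) * hs
  linear_combination 2 * e3 + hU - D * hP

/-- the two sums -/
theorem case48 (r : ℕ) (hr : p = 6 * r + 1) (w : R p) (hw : w ^ 2 + w + 1 = 0) (e : ℤ)
    (he : e * e = 1) (her : CDE.red p (2 * w + 1) ^ (3 * r) = (e : ZMod p))
    (c : R p) (hc : 48 * c = 1) (I : R p) (hI : D0 p (3 * r) w * I = 1) :
    SA p c = e * D0 p (3 * r) w ∧
      2 * (SA p c + SB p c) = e * (D0 p (3 * r) w + p * I) := by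
  have hp2 := hp.out.two_le
  have hr0 : 0 < r := by omega
  have hpm : p = 2 * (3 * r) + 1 := by omega
  have h3 : 3 < p := by omega
  have hpp := CDE.p_sq p
  have hw3 : w ^ 3 = 1 := by linear_combination (w - 1) * hw
  obtain ⟨hT, hU, hE⟩ := at_w p r hr w hw I hI
  obtain ⟨J, hJ⟩ : ∃ J : R p, 16 * J = 1 := ⟨3 * c, by linear_combination hc⟩
  obtain ⟨z, hz3⟩ : ∃ z : R p, 3 * z = 1 := ⟨16 * c, by linear_combination hc⟩
  set q : R p := 2 * w + 1 with hq
  have hq2 : q ^ 2 = -3 := by rw [hq]; linear_combination 4 * hw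
  have hz : z * q ^ 2 = w * (w + 1) := by
    rw [hq2]; linear_combination -hz3 - hw
  have hzJ : z * J = c := by
    linear_combination (-(z * J)) * hc + (16 * c * J) * hz3 + c * hJ
  have he' : (e : R p) * e = 1 := by rw [← Int.cast_mul, he, Int.cast_one]
  have m0 := main0 p hpm h3 w z q J hq hz hJ
  have m1 := main1 p hpm h3 w z q J hq hz hJ
  have hwp : w ^ p = w := by
    have e1 : w ^ p = w ^ (6 * r + 1) := congrArg (fun k => w ^ k) hr
    rw [e1, show 6 * r + 1 = 3 * (2 * r) + 1 by ring, pow_succ, pow_mul, hw3, one_pow, one_mul]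
  -- `q^m = e (1 + p v)`
  obtain ⟨v, hv⟩ : ∃ v : R p, q ^ (3 * r) = e * (1 + p * v) := by
    have h1 : CDE.red p ((e : R p) * q ^ (3 * r)) = CDE.red p 1 := by
      rw [map_mul, map_pow, red_int, her, map_one, ← Int.cast_mul, he, Int.cast_one]
    obtain ⟨v, hv⟩ := red_eq_of p _ _ h1
    refine ⟨v, ?_⟩
    linear_combination (e : R p) * hv - q ^ (3 * r) * he'
  have hqp : q ^ p = q * (1 + p * v) ^ 2 := by
    have e1 : q ^ p = q ^ (2 * (3 * r) + 1) := congrArg (fun k => q ^ k) hpm
    rw [e1, pow_succ, mul_comm 2 (3 * r), pow_mul, hv]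
    linear_combination (q * (1 + p * v) ^ 2) * he'
  rw [hzJ, pow_add, hwp, hqp, hv] at m0 m1
  have hqu : IsUnit (2 * q * (1 + 3 * (p * v))) := by
    apply IsUnit.of_mul_eq_one (-(8 * c * q * (1 - 3 * (p * v))))
    linear_combination (-(16 * c * (1 - 9 * (p * v) ^ 2))) * hq2 + hc - (48 * c * 9 * v ^ 2) * hpp
  unfold SA SB
  set A := ∑ k ∈ range p, ((((4 * k).choose (2 * k) * (2 * k).choose k : ℕ) : R p) * c ^ k)
  set B := ∑ k ∈ range p, (k : R p) * ((((4 * k).choose (2 * k) * (2 * k).choose k : ℕ) : R p) * c ^ k)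
  set D := D0 p (3 * r) w
  set E := E0 p (3 * r) w
  set U := U0 p (3 * r) w
  set T := T0 p (3 * r) w
  have hA : A = e * D := by
    have h7 : (e : R p) * A = D := by
      apply hqu.mul_left_cancel
      linear_combination m0 - 4 * w * hT + (-2 * e * A * q * v ^ 2 * 3 - 2 * e * A * q * v ^ 3 * p
        + 3 * q * D * v ^ 2) * hpp + D * hq
    linear_combination (e : R p) * h7 - A * he'
  refine ⟨hA, ?_⟩
  have hP : (p : R p) = 2 * (3 * r : ℕ) + 1 := by
    have := congrArg (Nat.cast : ℕ → R p) hpm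
    push_cast at this ⊢
    exact this
  have hB : 2 * (e : R p) * B = -D + p * I := by
    apply hqu.mul_left_cancel
    have g1 : (w + 1) * q = w - 1 := by rw [hq]; linear_combination 2 * hw
    have g2 : 2 * ((w - 1) * E) = D - p * I := by linear_combination -hE
    set M : R p := ((3 * r : ℕ) : R p)
    set P : R p := (p : R p)
    have m1' : 2 * (e * (1 + P * v) * (q * (1 + P * v) ^ 2)) * B =
        q * (3 * (1 + P * v) ^ 2 * ((w - 1) * E + 2 * M * D) - (w - 1) * E + 2 * P * D +
          2 * (2 * (P * U)) - 2 * (M + P) * D) := by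
      linear_combination m1 + (3 * q * (1 + P * v) ^ 2 * E - (E + 2 * w * (E + P * D + 2 * P * U))) * g1
        + (-(6 * q * (1 + P * v) ^ 2 * M * D) + 2 * (M + P) * (D + 2 * w * (D + 2 * P * T))
          - 2 * P * (D + 2 * U)) * hw
        + ((w - 1) * E + 2 * (M + P) * D - 2 * P * (D + 2 * U)) * hq - (8 * (M + P) * w) * hT
    linear_combination 2 * m1' + (q * (3 * (1 + P * v) ^ 2 - 1)) * g2 + (4 * q) * hU
      - (q * ((6 * (1 + P * v) ^ 2 - 2) * D)) * hP
      + (q * (-12 * v * I + 12 * v * D + 3 * v ^ 2 * (D - P * I) + 6 * (P - 1) * v ^ 2 * D)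
        - 4 * e * q * B * (3 * v ^ 2 + P * v ^ 3)) * hpp
  linear_combination 2 * hA + (e : R p) * hB - 2 * B * he'

end Pool.Agent.Q267.CDE
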