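import Pool.Agent.Q267.CDE.Ext
import Pool.Agent.Q267.CDE.Forty8

/-!
# The Landen transformation combined with the inversion, modulo `p²`
-/

namespace Pool.Agent.Q267.CDE.Ext

open Finset Polynomial Pool.Agent.Q267.Seven Pool.Agent.Q267.Landen Pool.Agent.Q261.SC

section

variable {p : ℕ} [hp : Fact p.Prime] {S : Type*} [CommRing S] [Algebra (R p) S]
  {K : Type*} [Field K] [CharP K p] (ρ : S →+* K)
  (hρ : ∀ a b : S, ρ a = ρ b → (p : S) * a = p * b) {m : ℕ}

include hρ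

theorem mainA (hpm : p = 2 * m + 1) (h2 : (2 : K) ≠ 0) (x v b y : S) (hv : (1 + x) * v = 1)
    (hy : 4 * x * v ^ 2 = y) (hb : y * b = 1) (h0 : ct K m (ρ x ^ 2) = 0) :
    (2 * v) ^ p * (1 + x ^ p) * Fl m y = 2 * (y ^ m * Fl m b) := by
  obtain ⟨L, hL1, hL2⟩ := exists_Lam ρ hpm ((1 - x) * v)
  have hv' : (1 + ρ x) * ρ v = 1 := by rw [← map_one ρ, ← map_add, ← map_mul, hv]
  have hlog := log_at (K := K) hpm h2 (ρ x) (ρ v) hv'
  have e1 : 4 * ρ x * ρ v ^ 2 = ρ y := by
    rw [← hy, map_mul, map_mul, map_pow, map_ofNat]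
  have e2 : (1 - ρ x) * ρ v = ρ ((1 - x) * v) := by rw [map_mul, map_sub, map_one]
  rw [h0, mul_zero, mul_zero, e1, e2, ← hL1, ← rho_TS ρ hpm, ← rho_Fl (p := p) ρ hpm] at hlog
  have e3 := hρ (2 * TS p m y) (L * Fl m y) (by
    rw [map_mul, map_mul, map_ofNat]
    linear_combination -hlog)
  have e4 := inv_F (p := p) hpm y b hb
  have e5 : (1 - (1 - x) * v) = 2 * v * x := by linear_combination -hv
  have e6 : (1 + (1 - x) * v) = 2 * v := by linear_combination -hv
  rw [e5, e6, mul_pow (2 * v) x p] at hL2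
  linear_combination (-2) * e4 + e3 + (Fl m y) * hL2

theorem mainB (hpm : p = 2 * m + 1) (h2 : (2 : K) ≠ 0) (x v b y s : S) (hv : (1 + x) * v = 1)
    (hy : 4 * x * v ^ 2 = y) (hb : y * b = 1) (h0 : ct K m (ρ x ^ 2) = 0)
    (hs : (1 - x) * v = s) :
    s * ((2 * v) ^ p * (1 + x ^ p) * F1 m y) = 2 * (s * (y ^ m * (m * Fl m b - F1 m b))) +
      p * (2 * (s ^ p * (v ^ (2 * m) * US p m (x ^ 2))) - (s - s ^ p) * Fl m y) := by
  obtain ⟨L, hL1, hL2⟩ := exists_Lam ρ hpm ((1 - x) * v)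
  have hv' : (1 + ρ x) * ρ v = 1 := by rw [← map_one ρ, ← map_add, ← map_mul, hv]
  have hlog := dlog_at (K := K) hpm h2 (ρ x) (ρ v) hv' h0
  have e1 : 4 * ρ x * ρ v ^ 2 = ρ y := by
    rw [← hy, map_mul, map_mul, map_pow, map_ofNat]
  have e2 : (1 - ρ x) * ρ v = ρ s := by rw [← hs, map_mul, map_sub, map_one]
  have e2' : ρ x ^ 2 = ρ (x ^ 2) := (map_pow ρ x 2).symm
  rw [hs] at hL1
  rw [e1, e2, e2', ← hL1, ← rho_US ρ hpm, ← rho_US ρ hpm, ← rho_Fl (p := p) ρ hpm,
    ← rho_F1 (p := p) ρ hpm] at hlog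
  have e3 := hρ (2 * (s ^ p * (v ^ (2 * m) * US p m (x ^ 2))))
    (2 * (s * US p m y) + (s - s ^ p) * Fl m y - s * L * F1 m y) (by
      simp only [map_mul, map_add, map_sub, map_pow, map_ofNat] at hlog ⊢
      exact hlog)
  have e4 := inv_F (p := p) hpm y b hb
  have e4' := inv_F1 (p := p) hpm y b hb
  have e5 : (1 - (1 - x) * v) = 2 * v * x := by linear_combination -hv
  have e6 : (1 + (1 - x) * v) = 2 * v := by linear_combination -hv
  rw [e5, e6, mul_pow (2 * v) x p] at hL2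
  linear_combination -e3 - (2 * m * s) * e4 + (2 * s) * e4' + (s * F1 m y) * hL2

end

section cast

variable {p : ℕ} [hp : Fact p.Prime] {S : Type*} [CommRing S] [Algebra (R p) S]
  {K : Type*} [Field K] [CharP K p] (ρ : S →+* K) {m : ℕ}

theorem TS_map (c : R p) : TS p m (algebraMap (R p) S c) = algebraMap (R p) S (TS p m c) := by
  unfold TS
  rw [map_sum]
  refine sum_congr rfl fun k _ => ?_
  rw [map_mul, map_pow]
  rfl

theorem US_map (c : R p) : US p m (algebraMap (R p) S c) = algebraMap (R p) S (US p m c) := by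
  unfold US
  rw [map_sum]
  refine sum_congr rfl fun k _ => ?_
  rw [map_mul, map_mul, map_pow, map_natCast]
  rfl

theorem Fl_map (c : R p) : Fl m (algebraMap (R p) S c) = algebraMap (R p) S (Fl m c) := by
  unfold Fl
  rw [map_sum]
  refine sum_congr rfl fun k _ => ?_
  rw [map_mul, map_pow, map_intCast]

theorem F1_map (c : R p) : F1 m (algebraMap (R p) S c) = algebraMap (R p) S (F1 m c) := by
  unfold F1
  rw [map_sum]
  refine sum_congr rfl fun k _ => ?_
  rw [map_mul, map_mul, map_pow, map_intCast, map_natCast]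

theorem red_TS (hpm : p = 2 * m + 1) (c : R p) :
    CDE.red p (TS p m c) = ct (ZMod p) m (CDE.red p c) := rho_TS (CDE.red p) hpm c

theorem red_US (hpm : p = 2 * m + 1) (c : R p) :
    CDE.red p (US p m c) = cu (ZMod p) m (CDE.red p c) := rho_US (CDE.red p) hpm c

theorem p_TS (hpm : p = 2 * m + 1) (h3 : 3 < p) (a : R p) :
    (p : R p) * TS p m (-a) = p * T0 p m a := by
  apply CDE.p_mul_eq
  rw [red_TS hpm, red_T0 p hpm h3, map_neg]

theorem p_US (hpm : p = 2 * m + 1) (h3 : 3 < p) (a : R p) :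
    (p : R p) * US p m (-a) = p * U0 p m a := by
  apply CDE.p_mul_eq
  rw [red_US hpm, red_U0 p hpm h3, map_neg]

/-- vanishing of the logarithmic sum in the field -/
theorem ct_zero (hpm : p = 2 * m + 1) (h3 : 3 < p) (a : R p) (h : (p : R p) * T0 p m a = 0) :
    ct K m (ρ (algebraMap (R p) S (-a))) = 0 := by
  rw [← rho_TS ρ hpm, TS_map, rho_map, red_TS hpm, map_neg]
  have h1 := red_of_pmul p _ h
  rw [red_T0 p hpm h3] at h1
  rw [h1, map_zero]

end cast

end Pool.Agent.Q267.CDE.Ext
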