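import Pool.Agent.Q267.CDE.Ext2

/-!
# The points `4(2 ± √3)` and `(2 ∓ √3)/4`
-/

namespace Pool.Agent.Q267.CDE.Ext

open Finset Polynomial Pool.Agent.Q267.Seven Pool.Agent.Q267.Landen Pool.Agent.Q261.SC

section alg

variable {S : Type*} [CommRing S] (I w x r v : S) (hI : I ^ 2 = -1) (hw : w ^ 2 + w + 1 = 0)
  (hx : x = I * w) (hr : r = -(I * (2 * w + 1))) (hv : v = (1 + x) * (-(I * w ^ 2)) * (2 + r))

include hI hw hx hr

theorem P1 : (2 + r) * (2 - r) = 1 := by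
  subst hx hr
  linear_combination (-(2 * w + 1) ^ 2) * hI + 4 * hw

theorem P2 : (1 + x) ^ 2 = x * (2 - r) := by
  subst hx hr
  linear_combination (w ^ 2 - w * (2 * w + 1)) * hI + hw

include hv

theorem P3 : (1 + x) * v = 1 := by
  have h1 := P1 I w x r hI hw hx hr
  have h2 := P2 I w x r hI hw hx hr
  have hw3 : w ^ 3 = 1 := by linear_combination (w - 1) * hw
  have e : (1 + x) * v = (1 + x) ^ 2 * (-(I * w ^ 2)) * (2 + r) := by rw [hv]; ring
  rw [e, h2, hx]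
  linear_combination (-(I ^ 2 * w ^ 3)) * h1 - w ^ 3 * hI + hw3

theorem P4 : 4 * x * v ^ 2 = 4 * (2 + r) := by
  have h1 := P1 I w x r hI hw hx hr
  have h2 := P2 I w x r hI hw hx hr
  have hw3 : w ^ 3 = 1 := by linear_combination (w - 1) * hw
  have e : 4 * x * v ^ 2 = 4 * x * (1 + x) ^ 2 * (I * w ^ 2) ^ 2 * (2 + r) ^ 2 := by rw [hv]; ring
  rw [e, h2, hx]
  linear_combination (4 * (I ^ 4 * w ^ 6) * (2 + r)) * h1 + (4 * (2 + r) * w ^ 6 * (I ^ 2 - 1)) * hI
    + 4 * (2 + r) * (w ^ 3 + 1) * hw3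

theorem P5 : (1 - x) * v = I * (2 + r) := by
  have h1 := P1 I w x r hI hw hx hr
  have h3 := P3 I w x r v hI hw hx hr hv
  have hw3 : w ^ 3 = 1 := by linear_combination (w - 1) * hw
  have e : (1 - x) * v = (1 - x ^ 2) * (-(I * w ^ 2)) * (2 + r) := by rw [hv]; ring
  rw [e, hx]
  linear_combination (I * w ^ 4 * (2 + r)) * hI + (-(I * (2 + r) * w)) * hw3
    - I * (2 + r) * hw

end alg

section one

variable {p : ℕ} [hp : Fact p.Prime]

theorem pT_zero (n : ℕ) (hn : p = 6 * n + 1) (w : R p) (hw : w ^ 2 + w + 1 = 0) :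
    (p : R p) * T0 p (3 * n) w = 0 := by
  have hp2 := hp.out.two_le
  have hpm : p = 2 * (3 * n) + 1 := by omega
  have h3 : 3 < p := by omega
  have hw3 : w ^ 3 = 1 := by linear_combination (w - 1) * hw
  have hb : w * (-1 - w) = 1 := by linear_combination -hw
  have h1 := inv_D p hpm h3 w (-1 - w) hb
  rw [D0_refl] at h1
  have hwm : (-w) ^ (3 * n) = (-1) ^ (3 * n) := by
    rw [neg_pow, pow_mul w, hw3, one_pow, mul_one]
  have hs : ((-1 : R p)) ^ (3 * n) * (-1) ^ (3 * n) = 1 := by rw [← mul_pow]; norm_num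
  rw [hwm] at h1
  linear_combination h1 - D0 p (3 * n) w * hs

theorem unit2 (hp2 : p ≠ 2) : IsUnit (2 : R p) := by
  have h2 := hp.out.two_le
  have := CDE.isUnit_nat p 2 (by omega) (by omega)
  exact_mod_cast this

variable {S : Type*} [CommRing S] [Algebra (R p) S]
  {K : Type*} [Field K] [CharP K p] (ρ : S →+* K)
  (hρ : ∀ a b : S, ρ a = ρ b → (p : S) * a = p * b)

theorem two_ne (K : Type*) [Field K] [CharP K p] (hp2 : p ≠ 2) : (2 : K) ≠ 0 := by
  have h2 := hp.out.two_le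
  have := Landen.cast_ne (K := K) p 2 (by omega) (by omega)
  exact_mod_cast this

include hρ

/-- `p ≡ 1 (mod 12)` -/
theorem case1 (t : ℕ) (ht : p = 12 * t + 1) (I r J : S) (w : R p) (hI : I ^ 2 = -1)
    (hw : w ^ 2 + w + 1 = 0) (hr : r = -(I * (2 * algebraMap (R p) S w + 1))) (hJ : 4 * J = 1) :
    Fl (6 * t) (4 * (2 + r)) = (-1) ^ t * Fl (6 * t) (J * (2 - r)) := by
  have hp2 := hp.out.two_le
  have hpm : p = 2 * (6 * t) + 1 := by omega
  have h3 : 3 < p := by omega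
  have h20 : (2 : K) ≠ 0 := two_ne (p := p) K (by omega)
  obtain ⟨W, hW⟩ : ∃ W : S, W = algebraMap (R p) S w := ⟨_, rfl⟩
  rw [← hW] at hr
  have hWw : W ^ 2 + W + 1 = 0 := by
    have := congrArg (algebraMap (R p) S) hw
    rw [map_add, map_add, map_pow, map_one, map_zero, ← hW] at this
    exact this
  have hW3 : W ^ 3 = 1 := by linear_combination (W - 1) * hWw
  obtain ⟨x, hx⟩ : ∃ x : S, x = I * W := ⟨_, rfl⟩
  obtain ⟨v, hv⟩ : ∃ v : S, v = (1 + x) * (-(I * W ^ 2)) * (2 + r) := ⟨_, rfl⟩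
  have q1 := P1 I W x r hI hWw hx hr
  have q2 := P2 I W x r hI hWw hx hr
  have q3 := P3 I W x r v hI hWw hx hr hv
  have q4 := P4 I W x r v hI hWw hx hr hv
  have hw' : (-1 - w) ^ 2 + (-1 - w) + 1 = 0 := by linear_combination hw
  have hT := pT_zero (p := p) (2 * t) (by omega) (-1 - w) hw'
  rw [show 3 * (2 * t) = 6 * t by ring] at hT
  have h0 := ct_zero ρ hpm h3 (-1 - w) hT
  have hx2 : x ^ 2 = algebraMap (R p) S (-(-1 - w)) := by
    rw [neg_sub, sub_neg_eq_add, map_add, map_one, ← hW, hx]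
    linear_combination W ^ 2 * hI - hWw
  rw [← hx2, map_pow] at h0
  have hb : 4 * (2 + r) * (J * (2 - r)) = 1 := by linear_combination 4 * J * q1 + hJ
  have key := mainA ρ hρ hpm h20 x v (J * (2 - r)) (4 * (2 + r)) q3 q4 hb h0
  have hx12 : x ^ 12 = 1 := by
    rw [hx, mul_pow, show 12 = 2 * 6 by norm_num, pow_mul, hI, show 2 * 6 = 3 * 4 by norm_num,
      pow_mul, hW3]
    norm_num
  have hxp : x ^ p = x := by
    have : x ^ p = x ^ (12 * t + 1) := congrArg (fun k => x ^ k) ht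
    rw [this, pow_succ, pow_mul, hx12, one_pow, one_mul]
  have hxm : x ^ (6 * t) = (-1) ^ t := by
    rw [hx, mul_pow, show 6 * t = 2 * (3 * t) by ring, pow_mul, hI, show 2 * (3 * t) = 3 * (2 * t)
      by ring, pow_mul W, hW3, one_pow, mul_one, pow_mul]
    norm_num
  have h2p : (2 * v) ^ p = 2 * 4 ^ (6 * t) * (v ^ (2 * (6 * t)) * v) := by
    have : (2 * v) ^ p = (2 * v) ^ (2 * (6 * t) + 1) := congrArg (fun k => (2 * v) ^ k) hpm
    rw [this, pow_succ, mul_pow 2 v, pow_mul 2]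
    norm_num
    ring
  rw [hxp, h2p, mul_pow 4 (2 + r)] at key
  have hu2 : IsUnit (2 : S) := by
    have := (unit2 (p := p) (by omega)).map (algebraMap (R p) S)
    rwa [map_ofNat] at this
  have hu : IsUnit (2 * 4 ^ (6 * t) : S) := by
    refine hu2.mul (IsUnit.pow _ ?_)
    rw [show (4 : S) = 2 * 2 by norm_num]
    exact hu2.mul hu2
  have key2 : v ^ (2 * (6 * t)) * Fl (6 * t) (4 * (2 + r)) =
      (2 + r) ^ (6 * t) * Fl (6 * t) (J * (2 - r)) := by
    apply hu.mul_left_cancel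
    linear_combination key - (2 * 4 ^ (6 * t) * v ^ (2 * (6 * t)) * Fl (6 * t) (4 * (2 + r))) * q3
  have e1 : (1 + x) ^ (2 * (6 * t)) * v ^ (2 * (6 * t)) = 1 := by
    rw [← mul_pow, q3, one_pow]
  have e2 : (1 + x) ^ (2 * (6 * t)) = x ^ (6 * t) * (2 - r) ^ (6 * t) := by
    rw [pow_mul, q2, mul_pow]
  have e3 : (2 + r) ^ (6 * t) * (2 - r) ^ (6 * t) = 1 := by rw [← mul_pow, q1, one_pow]
  rw [← hxm]
  linear_combination (1 + x) ^ (2 * (6 * t)) * key2 - Fl (6 * t) (4 * (2 + r)) * e1 +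
    ((2 + r) ^ (6 * t) * Fl (6 * t) (J * (2 - r))) * e2 + x ^ (6 * t) * Fl (6 * t) (J * (2 - r)) * e3

end one

end Pool.Agent.Q267.CDE.Ext
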