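import Pool.Agent.Q267.CDE.Ext3

/-!
# The points `4(2 ± √3)` for `p ≡ 7 (mod 12)`
-/

namespace Pool.Agent.Q267.CDE.Ext

open Finset Polynomial Pool.Agent.Q267.Seven Pool.Agent.Q267.Landen Pool.Agent.Q261.SC

section

variable {p : ℕ} [hp : Fact p.Prime]
variable {S : Type*} [CommRing S] [Algebra (R p) S]
  {K : Type*} [Field K] [CharP K p] (ρ : S →+* K)
  (hρ : ∀ a b : S, ρ a = ρ b → (p : S) * a = p * b)

include hρ

/-- `p ≡ 7 (mod 12)` -/
theorem case7 (t : ℕ) (ht : p = 12 * t + 7) (I r J : S) (w : R p) (hI : I ^ 2 = -1)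
    (hw : w ^ 2 + w + 1 = 0) (hr : r = -(I * (2 * algebraMap (R p) S w + 1))) (hJ : 4 * J = 1)
    (B : R p) (hB : D0 p (6 * t + 3) (-1 - w) * B = 1) :
    Fl (6 * t + 3) (4 * (2 + r)) = -((-1) ^ t * ((2 - r) * Fl (6 * t + 3) (J * (2 - r)))) ∧
    2 * F1 (6 * t + 3) (4 * (2 + r)) =
      -(2 * ((-1) ^ t * ((2 - r) * (((6 * t + 3 : ℕ) : S) * Fl (6 * t + 3) (J * (2 - r)) -
        F1 (6 * t + 3) (J * (2 - r)))))) +
      p * (I * (2 - r) * ((2 - r) ^ 2 * algebraMap (R p) S B +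
        algebraMap (R p) S (D0 p (6 * t + 3) (-1 - w)))) := by
  have hp2 := hp.out.two_le
  have hpm : p = 2 * (6 * t + 3) + 1 := by omega
  have h3 : 3 < p := by omega
  have h20 : (2 : K) ≠ 0 := two_ne (p := p) K (by omega)
  obtain ⟨W, hW⟩ : ∃ W : S, W = algebraMap (R p) S w := ⟨_, rfl⟩
  rw [← hW] at hr
  have hWw : W ^ 2 + W + 1 = 0 := by
    have := congrArg (algebraMap (R p) S) hw
    rw [map_add, map_add, map_pow, map_one, map_zero, ← hW] at this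
    exact this
  have hW3 : W ^ 3 = 1 := by linear_combination (W - 1) * hWw
  obtain ⟨x, hx⟩ : ∃ x : S, x = I * W := ⟨_, rfl⟩
  obtain ⟨v, hv⟩ : ∃ v : S, v = (1 + x) * (-(I * W ^ 2)) * (2 + r) := ⟨_, rfl⟩
  have q1 := P1 I W x r hI hWw hx hr
  have q2 := P2 I W x r hI hWw hx hr
  have q3 := P3 I W x r v hI hWw hx hr hv
  have q4 := P4 I W x r v hI hWw hx hr hv
  have q5 := P5 I W x r v hI hWw hx hr hv
  have hw' : (-1 - w) ^ 2 + (-1 - w) + 1 = 0 := by linear_combination hw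
  have hatw := at_w p (2 * t + 1) (by omega) (-1 - w) hw' B (by
    rw [show 3 * (2 * t + 1) = 6 * t + 3 by ring]; exact hB)
  rw [show 3 * (2 * t + 1) = 6 * t + 3 by ring] at hatw
  obtain ⟨m, hm⟩ : ∃ m, m = 6 * t + 3 := ⟨_, rfl⟩
  rw [← hm] at hpm hB hatw ⊢
  obtain ⟨hT, hU, -⟩ := hatw
  have h0 := ct_zero ρ hpm h3 (-1 - w) hT
  have hx2 : x ^ 2 = algebraMap (R p) S (-(-1 - w)) := by
    rw [neg_sub, sub_neg_eq_add, map_add, map_one, ← hW, hx]
    linear_combination W ^ 2 * hI - hWw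
  rw [← hx2, map_pow] at h0
  obtain ⟨b, hbd⟩ : ∃ b : S, b = J * (2 - r) := ⟨_, rfl⟩
  obtain ⟨y, hyd⟩ : ∃ y : S, y = 4 * (2 + r) := ⟨_, rfl⟩
  rw [← hbd, ← hyd]
  rw [← hyd] at q4
  have hb : y * b = 1 := by rw [hyd, hbd]; linear_combination 4 * J * q1 + hJ
  -- powers
  have hIp : I ^ p = -I := by
    have : I ^ p = I ^ (12 * t + 7) := congrArg (fun k => I ^ k) ht
    rw [this, show 12 * t + 7 = 2 * (2 * (3 * t)) + 7 by ring, pow_add, pow_mul, pow_mul, hI,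
      neg_sq, one_pow, one_pow, one_mul, show 7 = 2 * 3 + 1 by norm_num, pow_succ, pow_mul, hI]
    ring
  have hWp : W ^ p = W := by
    have : W ^ p = W ^ (12 * t + 7) := congrArg (fun k => W ^ k) ht
    rw [this, show 12 * t + 7 = 3 * (4 * t + 2) + 1 by ring, pow_succ, pow_mul, hW3, one_pow,
      one_mul]
  have hxp : x ^ p = -x := by
    rw [hx, mul_pow, hIp, hWp]
    ring
  have hxm : x ^ m = -((-1) ^ t * I) := by
    rw [hx, mul_pow, hm, show 6 * t + 3 = 2 * (3 * t) + 3 by ring, pow_add I, pow_mul I, hI,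
      show 2 * (3 * t) + 3 = 3 * (2 * t + 1) by ring, pow_mul W, hW3, one_pow, mul_one, pow_mul,
      pow_succ I, hI]
    norm_num
  have hu2 : IsUnit (2 : S) := by
    have := (unit2 (p := p) (by omega)).map (algebraMap (R p) S)
    rwa [map_ofNat] at this
  have hu : IsUnit (2 * 4 ^ m : S) := by
    refine hu2.mul (IsUnit.pow _ ?_)
    rw [show (4 : S) = 2 * 2 by norm_num]
    exact hu2.mul hu2
  obtain ⟨s, hs⟩ : ∃ s : S, s = I * (2 + r) := ⟨_, rfl⟩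
  obtain ⟨z, hz⟩ : ∃ z : S, z = -(I * (2 - r)) := ⟨_, rfl⟩
  have hsz : s * z = 1 := by
    rw [hs, hz]
    linear_combination (-((2 + r) * (2 - r))) * hI + q1
  rw [← hs] at q5
  -- `1 + x = z (1 - x)`
  have hxz : 1 + x = z * (1 - x) := by
    linear_combination (-(1 + x)) * hsz - (z * (1 + x)) * q5 + (z * (1 - x)) * q3
  obtain ⟨V, hV⟩ : ∃ V : S, V = v ^ (2 * m) := ⟨_, rfl⟩
  obtain ⟨E, hE⟩ : ∃ E : S, E = (1 + x) ^ (2 * m) := ⟨_, rfl⟩
  have hEV : E * V = 1 := by rw [hE, hV, ← mul_pow, q3, one_pow]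
  have hE2 : E = x ^ m * (2 - r) ^ m := by rw [hE, pow_mul, q2, mul_pow]
  have e3 : (2 + r) ^ m * (2 - r) ^ m = 1 := by rw [← mul_pow, q1, one_pow]
  have h2p : (2 * v) ^ p = 2 * 4 ^ m * (V * v) := by
    have : (2 * v) ^ p = (2 * v) ^ (2 * m + 1) := congrArg (fun k => (2 * v) ^ k) hpm
    rw [this, pow_succ, mul_pow 2 v, pow_mul 2, ← hV]
    norm_num
    ring
  have hym : y ^ m = 4 ^ m * (2 + r) ^ m := by rw [hyd, mul_pow]
  have keyA := mainA ρ hρ hpm h20 x v b y q3 q4 hb h0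
  have keyB := mainB ρ hρ hpm h20 x v b y s q3 q4 hb h0 q5
  rw [hxp, h2p, hym] at keyA keyB
  rw [← hV] at keyB
  have hzx : z * x ^ m = -((-1) ^ t * (2 - r)) := by
    rw [hxm, hz]
    linear_combination ((-1) ^ t * (2 - r)) * hI
  have kA : V * s * Fl m y = (2 + r) ^ m * Fl m b := by
    apply hu.mul_left_cancel
    linear_combination keyA - (2 * 4 ^ m * V * Fl m y) * q5
  have kA2 : s * Fl m y = x ^ m * Fl m b := by
    linear_combination E * kA - (s * Fl m y) * hEV + ((2 + r) ^ m * Fl m b) * hE2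
      + (x ^ m * Fl m b) * e3
  have kA3 : Fl m y = z * x ^ m * Fl m b := by
    linear_combination z * kA2 - Fl m y * hsz
  refine ⟨by rw [kA3, hzx]; ring, ?_⟩
  -- reduction
  have X1 : (1 + ρ x) * ρ v = 1 := by rw [← map_one ρ, ← map_add, ← map_mul, q3]
  have hchar : (1 + ρ x) ^ p = 1 - ρ x := by
    rw [add_pow_char, one_pow, ← map_pow, hxp, map_neg]
    ring
  have hchar2 : (1 - ρ x) ^ p = 1 + ρ x := by
    rw [sub_pow_char, one_pow, ← map_pow, hxp, map_neg]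
    ring
  have X2 : (1 - ρ x) * ρ v ^ p = 1 := by rw [← hchar, ← mul_pow, X1, one_pow]
  have X3 : ρ s * ρ z = 1 := by rw [← map_mul, hsz, map_one]
  have X4 : (1 - ρ x) * ρ v = ρ s := by rw [← map_one ρ, ← map_sub, ← map_mul, q5]
  have X5 : 1 + ρ x = ρ z * (1 - ρ x) := by
    have := congrArg ρ hxz
    rw [map_add, map_mul, map_sub, map_one] at this
    exact this
  have X6 : ρ V = ρ z := by
    have e : ρ v ^ p = ρ V * ρ v := by
      have : ρ v ^ p = ρ v ^ (2 * m + 1) := congrArg (fun k => ρ v ^ k) hpm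
      rw [this, pow_succ, hV, map_pow]
    rw [e] at X2
    linear_combination (ρ z) * X2 - (ρ z * ρ V) * X4 - ρ V * X3
  have X7 : ρ (s ^ p) = ρ z := by
    rw [map_pow, ← X4, mul_pow, hchar2, X5]
    linear_combination (ρ z) * X2
  have X8 : ρ E = ρ s := by
    have h1 := congrArg ρ hEV
    rw [map_mul, map_one, X6] at h1
    linear_combination (ρ s) * h1 - ρ E * X3
  have hFy : ρ (Fl m y) = ρ z * ρ (algebraMap (R p) S (D0 p m (-1 - w))) := by
    have h1 := landen_at (K := K) hpm h20 (ρ x) (ρ v) X1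
    have e1 : 4 * ρ x * ρ v ^ 2 = ρ y := by
      rw [← q4, map_mul, map_mul, map_pow, map_ofNat]
    have e2 : ρ v ^ (2 * m) = ρ V := by rw [hV, map_pow]
    rw [e1, e2, X6, ← map_pow, ← rho_Fl (p := p) ρ hpm, ← rho_Fl (p := p) ρ hpm, hx2,
      Fl_map] at h1
    exact h1.symm
  obtain ⟨A, hA⟩ : ∃ A : S, A = algebraMap (R p) S (D0 p m (-1 - w)) := ⟨_, rfl⟩
  obtain ⟨B', hB'⟩ : ∃ B' : S, B' = algebraMap (R p) S B := ⟨_, rfl⟩
  rw [← hA, ← hB']
  rw [← hA] at hFy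
  have hUS : (p : S) * (2 * US p m (x ^ 2)) = p * (B' - A) := by
    have h1 := p_US hpm h3 (-1 - w)
    have h2 := congrArg (algebraMap (R p) S) h1
    have h3 := congrArg (algebraMap (R p) S) hU
    simp only [map_mul, map_sub, map_natCast, map_ofNat] at h2 h3
    rw [hx2, US_map, hB', hA]
    linear_combination 2 * h2 + h3
  have h4m : ρ (4 ^ m) = 1 := by
    rw [map_pow, map_ofNat]
    exact two_pow_two_mul (K := K) p m hpm h20
  have f1 := hρ (z ^ 2 * E * (2 * (s ^ p * (V * US p m (x ^ 2))) - (s - s ^ p) * Fl m y))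
    (z ^ 3 * (2 * US p m (x ^ 2)) - (z - z ^ 3) * A) (by
      simp only [map_mul, map_sub, map_ofNat, X6, X7, X8, hFy]
      rw [map_pow ρ z 2, map_pow ρ z 3]
      linear_combination (2 * ρ z ^ 3 * ρ (US p m (x ^ 2)) -
        (ρ z * (ρ s * ρ z + 1) - ρ z ^ 3) * ρ A) * X3)
  have f2 := hρ (4 ^ m * (z ^ 3 * B' - z * A)) (z ^ 3 * B' - z * A) (by
    rw [map_mul, h4m, one_mul])
  have hu4 : IsUnit (4 ^ m : S) := isUnit_of_mul_isUnit_right hu
  apply hu4.mul_left_cancel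
  have hz3 : z ^ 3 = I * (2 - r) ^ 3 := by rw [hz]; linear_combination (-(I * (2 - r) ^ 3)) * hI
  have g1 : 2 * 4 ^ m * F1 m y = 2 * 4 ^ m * (z * x ^ m) * ((m : S) * Fl m b - F1 m b) +
      p * (z ^ 2 * E * (2 * (s ^ p * (V * US p m (x ^ 2))) - (s - s ^ p) * Fl m y)) := by
    linear_combination (z ^ 2 * E) * keyB - (z ^ 2 * E * s * 2 * 4 ^ m * V * F1 m y) * q5
      - (2 * 4 ^ m * F1 m y * (s * z) ^ 2) * hEV - (2 * 4 ^ m * F1 m y * (s * z + 1)) * hsz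
      + (2 * 4 ^ m * ((m : S) * Fl m b - F1 m b) * z * E * (2 + r) ^ m) * hsz
      + (2 * 4 ^ m * ((m : S) * Fl m b - F1 m b) * z * (2 + r) ^ m) * hE2
      + (2 * 4 ^ m * ((m : S) * Fl m b - F1 m b) * z * x ^ m) * e3
  linear_combination g1 + f1 + z ^ 3 * hUS - f2 + (2 * 4 ^ m * ((m : S) * Fl m b - F1 m b)) * hzx
    + (p * 4 ^ m * B') * hz3 - (p * 4 ^ m * A) * hz

end

end Pool.Agent.Q267.CDE.Ext
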