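import Pool.Agent.Q278.PI

/-!
# Reduction `ℤ_(p) → ℤ/p`
-/

namespace Pool.Agent.Q267.CDE

open Q278.PI

variable (p : ℕ) [hp : Fact p.Prime]

theorem den_ne (q : O p) : ((q : ℚ).den : ZMod p) ≠ 0 := by
  intro h
  exact q.2 ((ZMod.natCast_eq_zero_iff _ _).1 h)

/-- reduction modulo p -/
def res : O p →+* ZMod p where
  toFun q := ((q : ℚ) : ZMod p)
  map_one' := by simp
  map_zero' := by simp
  map_add' a b := by
    have := Rat.cast_add_of_ne_zero (den_ne p a) (den_ne p b)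
    simpa using this
  map_mul' a b := by
    have := Rat.cast_mul_of_ne_zero (den_ne p a) (den_ne p b)
    simpa using this

theorem res_zero (q : O p) (h : res p q = 0) : ∃ r : O p, q = (p : O p) * r := by
  have h0 : ((q : ℚ) : ZMod p) = 0 := h
  rw [Rat.cast_def, div_eq_zero_iff] at h0
  have h1 : (((q : ℚ).num : ℤ) : ZMod p) = 0 := h0.resolve_right (den_ne p q)
  rw [ZMod.intCast_zmod_eq_zero_iff_dvd] at h1
  obtain ⟨m, hm⟩ := h1
  have hd : (q : ℚ) = (p : ℚ) * ((m : ℚ) / ((q : ℚ).den : ℚ)) := by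
    conv_lhs => rw [← Rat.num_div_den (q : ℚ), hm]
    push_cast; ring
  have hmem : ((m : ℚ) / ((q : ℚ).den : ℚ)) ∈ O p := by
    intro h2
    have h3 : ((m : ℚ) / ((q : ℚ).den : ℚ)).den ∣ (q : ℚ).den := by
      have := Rat.den_dvd m ((q : ℚ).den : ℤ)
      rw [Rat.divInt_eq_div] at this
      exact_mod_cast this
    exact q.2 (h2.trans h3)
  exact ⟨⟨_, hmem⟩, Subtype.ext (by push_cast; exact hd)⟩

/-- the inverse of a natural number prime to `p` -/
noncomputable def inv (m : ℕ) : O p := if h : p ∣ m then 0 else ⟨1 / (m : ℚ), inv_mem p h⟩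

theorem inv_coe (m : ℕ) (h : ¬ p ∣ m) : ((inv p m : O p) : ℚ) = (m : ℚ)⁻¹ := by
  unfold inv
  rw [dif_neg h]
  exact one_div _

theorem nat_mul_inv (m : ℕ) (h : ¬ p ∣ m) : (m : O p) * inv p m = 1 := by
  apply Subtype.ext
  push_cast
  rw [inv_coe p m h]
  apply mul_inv_cancel₀
  intro h0
  apply h
  have : m = 0 := by exact_mod_cast h0
  rw [this]
  exact dvd_zero p

theorem res_inv (m : ℕ) (h : ¬ p ∣ m) : res p (inv p m) = ((m : ℕ) : ZMod p)⁻¹ := by
  have h1 := congrArg (res p) (nat_mul_inv p m h)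
  rw [map_mul, map_natCast, map_one] at h1
  exact eq_inv_of_mul_eq_one_right h1

/-- congruences modulo `p^m` from membership: `p^m` divides the numerator. -/
theorem num_dvd (m : ℕ) (x w : ℚ) (hw : ¬ p ∣ w.den) (hx : x = (p : ℚ) ^ m * w) :
    (p : ℤ) ^ m ∣ x.num := by
  have h1 : x.num * w.den = (p : ℤ) ^ m * w.num * x.den := by
    have h2 : (x.num : ℚ) * w.den = (p : ℚ) ^ m * w.num * x.den := by
      have hxd : (x.den : ℚ) ≠ 0 := by exact_mod_cast x.den_nz
      have hwd : (w.den : ℚ) ≠ 0 := by exact_mod_cast w.den_nz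
      have e1 : (x.num : ℚ) = x * x.den := by
        rw [Rat.mul_den_eq_num]
      have e2 : (w.num : ℚ) = w * w.den := by
        rw [Rat.mul_den_eq_num]
      rw [e1, e2, hx]
      ring
    exact_mod_cast h2
  have hcop : IsCoprime ((p : ℤ) ^ m) (w.den : ℤ) := by
    apply IsCoprime.pow_left
    rw [Nat.isCoprime_iff_coprime]
    exact (Nat.Prime.coprime_iff_not_dvd hp.out).2 hw
  apply hcop.dvd_of_dvd_mul_right
  rw [h1, mul_assoc]
  exact Dvd.intro _ rfl

end Pool.Agent.Q267.CDE
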