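import Pool.Agent.Q267.CDE.Base
import Pool.Agent.Q267.CDE.ResO

/-!
# The homomorphism `ℤ_(p) → ℤ/p²`
-/

namespace Pool.Agent.Q267.CDE

open Q278.PI

variable (p : ℕ) [hp : Fact p.Prime]

theorem isUnit_coprime (n : ℕ) (h : ¬ p ∣ n) : IsUnit (n : R p) := by
  apply isUnit_of_red
  rw [red_nat, Ne, ZMod.natCast_eq_zero_iff]
  exact h

theorem isUnit_int (n : ℤ) (h : ¬ (p : ℤ) ∣ n) : IsUnit (n : R p) := by
  apply isUnit_of_red
  rw [red_int, Ne, ZMod.intCast_zmod_eq_zero_iff_dvd]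
  exact h

theorem mul_inv_R {x : R p} (h : IsUnit x) : x * x⁻¹ = 1 := by
  obtain ⟨u, rfl⟩ := h
  exact ZMod.mul_inv_of_unit _ u.isUnit

/-- reduction modulo `p²` -/
noncomputable def res2 : O p →+* R p where
  toFun q := ((q : ℚ).num : R p) * ((q : ℚ).den : R p)⁻¹
  map_one' := by
    have : (((1 : O p) : ℚ)) = 1 := rfl
    rw [this]
    simp
  map_zero' := by
    have : (((0 : O p) : ℚ)) = 0 := rfl
    rw [this]
    simp
  map_add' a b := by
    have ha := mul_inv_R p (isUnit_coprime p _ a.2)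
    have hb := mul_inv_R p (isUnit_coprime p _ b.2)
    have hab := mul_inv_R p (isUnit_coprime p _ (a + b).2)
    have e := Rat.add_num_den' (a : ℚ) (b : ℚ)
    have e' := congrArg (Int.cast : ℤ → R p) e
    push_cast at e'
    have hc : (((a + b : O p)) : ℚ) = (a : ℚ) + (b : ℚ) := rfl
    rw [hc] at hab ⊢
    apply (isUnit_coprime p _ a.2).mul_left_cancel
    apply (isUnit_coprime p _ b.2).mul_left_cancel
    apply ((isUnit_coprime p _ (a + b).2)).mul_left_cancel
    rw [hc]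
    set A := (((a : ℚ).num : ℤ) : R p)
    set B := (((b : ℚ).num : ℤ) : R p)
    set C := ((((a : ℚ) + (b : ℚ)).num : ℤ) : R p)
    set X := (((a : ℚ).den : ℕ) : R p)
    set Y := (((b : ℚ).den : ℕ) : R p)
    set Z := ((((a : ℚ) + (b : ℚ)).den : ℕ) : R p)
    linear_combination X * Y * C * hab + e' - Z * Y * A * ha - Z * X * B * hb
  map_mul' a b := by
    have ha := mul_inv_R p (isUnit_coprime p _ a.2)
    have hb := mul_inv_R p (isUnit_coprime p _ b.2)
    have hab := mul_inv_R p (isUnit_coprime p _ (a * b).2)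
    have e := Rat.mul_num_den' (a : ℚ) (b : ℚ)
    have e' := congrArg (Int.cast : ℤ → R p) e
    push_cast at e'
    have hc : (((a * b : O p)) : ℚ) = (a : ℚ) * (b : ℚ) := rfl
    rw [hc] at hab ⊢
    apply (isUnit_coprime p _ a.2).mul_left_cancel
    apply (isUnit_coprime p _ b.2).mul_left_cancel
    apply ((isUnit_coprime p _ (a * b).2)).mul_left_cancel
    rw [hc]
    set A := (((a : ℚ).num : ℤ) : R p)
    set B := (((b : ℚ).num : ℤ) : R p)
    set C := ((((a : ℚ) * (b : ℚ)).num : ℤ) : R p)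
    set X := (((a : ℚ).den : ℕ) : R p)
    set Y := (((b : ℚ).den : ℕ) : R p)
    set Z := ((((a : ℚ) * (b : ℚ)).den : ℕ) : R p)
    linear_combination X * Y * C * hab + e' - Z * A * B * Y * Y⁻¹ * ha - Z * A * B * hb

theorem res2_zero (q : O p) (h : res2 p q = 0) : ∃ r : O p, q = (p : O p) ^ 2 * r := by
  have h0 : ((q : ℚ).num : R p) * ((q : ℚ).den : R p)⁻¹ = 0 := h
  have ha := mul_inv_R p (isUnit_coprime p _ q.2)
  have h1 : ((q : ℚ).num : R p) = 0 := by
    linear_combination (((q : ℚ).den : ℕ) : R p) * h0 - ((q : ℚ).num : R p) * ha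
  rw [ZMod.intCast_zmod_eq_zero_iff_dvd] at h1
  obtain ⟨m, hm⟩ := h1
  have hd : (q : ℚ) = (p : ℚ) ^ 2 * ((m : ℚ) / ((q : ℚ).den : ℚ)) := by
    conv_lhs => rw [← Rat.num_div_den (q : ℚ), hm]
    push_cast; ring
  have hmem : ((m : ℚ) / ((q : ℚ).den : ℚ)) ∈ O p := by
    intro h2
    have h3 : ((m : ℚ) / ((q : ℚ).den : ℚ)).den ∣ (q : ℚ).den := by
      have := Rat.den_dvd m ((q : ℚ).den : ℤ)
      rw [Rat.divInt_eq_div] at this
      exact_mod_cast this
    exact q.2 (h2.trans h3)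
  exact ⟨⟨_, hmem⟩, Subtype.ext (by push_cast; exact hd)⟩

/-- congruences modulo `p²` from equality in `ℤ/p²` -/
theorem cong_of_res2 (a b : O p) (h : res2 p a = res2 p b) :
    (p : ℤ) ^ 2 ∣ ((a : ℚ) - (b : ℚ)).num := by
  obtain ⟨r, hr⟩ := res2_zero p (a - b) (by rw [map_sub, h, sub_self])
  have h1 := congrArg (Subtype.val) hr
  push_cast at h1
  exact num_dvd p 2 _ (r : ℚ) r.2 h1

/-- the inverse of an integer prime to `p` -/
noncomputable def invI (m : ℤ) : O p := if h : (p : ℤ) ∣ m then 0 else ⟨1 / (m : ℚ), inv_int_mem p h⟩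

theorem invI_coe (m : ℤ) (h : ¬ (p : ℤ) ∣ m) : ((invI p m : O p) : ℚ) = (m : ℚ)⁻¹ := by
  unfold invI
  rw [dif_neg h]
  exact one_div _

theorem int_mul_invI (m : ℤ) (h : ¬ (p : ℤ) ∣ m) : (m : O p) * invI p m = 1 := by
  apply Subtype.ext
  push_cast
  rw [invI_coe p m h]
  apply mul_inv_cancel₀
  intro h0
  apply h
  have : m = 0 := by exact_mod_cast h0
  rw [this]
  exact dvd_zero _

theorem res2_invI (m : ℤ) (h : ¬ (p : ℤ) ∣ m) : (m : R p) * res2 p (invI p m) = 1 := by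
  have h1 := congrArg (res2 p) (int_mul_invI p m h)
  rw [map_mul, map_intCast, map_one] at h1
  exact h1

theorem invI_pow (m : ℤ) (h : ¬ (p : ℤ) ∣ m) (k : ℕ) :
    ((invI p m ^ k : O p) : ℚ) = ((m : ℚ) ^ k)⁻¹ := by
  push_cast
  rw [invI_coe p m h, inv_pow]

end Pool.Agent.Q267.CDE
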