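import Pool.Agent.Q267.CDE.Main16
import Pool.Agent.Q267.CDE.Res2
import Pool.Agent.Q267.S16.Four

/-!
# The linear relation for `∑ C(2k,k)^3/16^k` in `ℤ/p²`, the terms modulo `p²`, and the derivative
of Clausen's identity
-/

namespace Pool.Agent.Q267.CDE

open Finset Pool.Agent.Q267.Seven

/-- The Euler numbers. -/
def euler (n : ℕ) : ℤ :=
  if n = 0 then 1
  else -∑ k ∈ ((range (n + 1)).filter (fun k => 2 ∣ k ∧ k ≠ 0)).attach,
    (n.choose k : ℤ) * euler (n - k)
termination_by n
decreasing_by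
  have h := k.2
  rw [mem_filter, mem_range] at h
  omega

theorem euler_isEuler : S16.IsEuler euler where
  zero := by
    rw [euler, if_pos rfl]
  recur n hn := by
    have h1 : (range (n + 1)).filter (fun k => 2 ∣ k) =
        insert 0 ((range (n + 1)).filter (fun k => 2 ∣ k ∧ k ≠ 0)) := by
      ext k
      simp only [mem_filter, mem_range, mem_insert]
      constructor
      · rintro ⟨a, b⟩
        by_cases h0 : k = 0
        · exact Or.inl h0
        · exact Or.inr ⟨a, b, h0⟩
      · rintro (rfl | ⟨a, b, -⟩)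
        · exact ⟨by omega, dvd_zero 2⟩
        · exact ⟨a, b⟩
    rw [h1, sum_insert (by simp), Nat.sub_zero, Nat.choose_zero_right, Nat.cast_one, one_mul]
    conv_lhs =>
      enter [1]
      rw [euler, if_neg (by omega)]
    rw [sum_attach ((range (n + 1)).filter (fun k => 2 ∣ k ∧ k ≠ 0))
      (fun k => (n.choose k : ℤ) * euler (n - k))]
    ring

section

variable (p : ℕ) [hp : Fact p.Prime] {m : ℕ} (hpm : p = 2 * m + 1) (h3 : 3 < p)

include hpm h3

theorem two_pow_not_dvd (a : ℕ) : ¬ ((p : ℤ)) ∣ ((2 ^ a : ℕ) : ℤ) := by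
  intro h
  have h1 : p ∣ 2 ^ a := Int.natCast_dvd_natCast.1 h
  have h2 := (Nat.prime_dvd_prime_iff_eq hp.out Nat.prime_two).1 (hp.out.dvd_of_dvd_pow h1)
  omega

/-- `C(2k,k)²/16^k = d_k` in `ℤ/p²` for `k ≤ m` -/
theorem u2 (J : R p) (hJ : 16 * J = 1) (k : ℕ) (hk : k ≤ m) :
    (k.centralBinom : R p) ^ 2 * J ^ k = (dl m k : R p) := by
  have h1 := dl_sq p m hp.out hpm k hk
  have h2 : ((p ^ 2 : ℕ) : ℤ) ∣ 16 ^ k * dl m k - (k.centralBinom : ℤ) ^ 2 := by
    push_cast
    exact h1
  rw [← ZMod.intCast_zmod_eq_zero_iff_dvd] at h2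
  push_cast at h2
  have h4 : (16 : R p) ^ k * J ^ k = 1 := by rw [← mul_pow, hJ, one_pow]
  linear_combination (-J ^ k) * h2 + (dl m k : R p) * h4

/-- `C(2k,k)² = 0` in `ℤ/p²` for `m < k < p` -/
theorem u2_zero (k : ℕ) (hk : m < k) (hkp : k < p) : (k.centralBinom : R p) ^ 2 = 0 := by
  have h2 : p ∣ k.centralBinom := by
    rw [Nat.centralBinom]
    have h4 : p ∣ (2 * k).factorial := (hp.out.dvd_factorial).2 (by omega)
    have h5 : ¬ p ∣ k.factorial := fun h => by
      have := (hp.out.dvd_factorial).1 h; omega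
    have h6 := Nat.choose_mul_factorial_mul_factorial (show k ≤ 2 * k by omega)
    rw [show 2 * k - k = k by omega] at h6
    rw [← h6] at h4
    rcases (hp.out.dvd_mul).1 h4 with h | h
    · rcases (hp.out.dvd_mul).1 h with h | h
      · exact h
      · exact absurd h h5
    · exact absurd h h5
  obtain ⟨c, hc⟩ := h2
  rw [hc]
  push_cast
  rw [mul_pow, p_sq, zero_mul]

/-- `∑_{k ≤ m} (3k+1) d_k C(2k,k) = p` in `ℤ/p²` -/
theorem lin16 : ∑ k ∈ range (m + 1), (3 * (k : R p) + 1) * ((dl m k : R p) * (k.centralBinom : R p))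
    = p := by
  obtain ⟨w, hw, e⟩ := S16.half_sum p m hpm h3 euler euler_isEuler
  have hn := two_pow_not_dvd p hpm h3 4
  have h16 : ¬ (p : ℤ) ∣ 16 := by
    have : (((2 ^ 4 : ℕ)) : ℤ) = 16 := by norm_num
    rwa [this] at hn
  have hJ := res2_invI p 16 h16
  push_cast at hJ
  set J := res2 p (invI p 16) with hJdef
  set a : Q278.PI.O p := ∑ k ∈ range (m + 1), (3 * (k : Q278.PI.O p) + 1) *
    (k.centralBinom : Q278.PI.O p) ^ 3 * (invI p 16) ^ k with ha
  set b : Q278.PI.O p := (p : Q278.PI.O p) + 2 * (-1) ^ m * (p : Q278.PI.O p) ^ 3 *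
    ((euler (p - 3) : ℤ) : Q278.PI.O p) + (p : Q278.PI.O p) ^ 4 * ⟨w, hw⟩ with hb
  have hab : a = b := by
    apply Subtype.ext
    rw [ha, hb]
    have c3 : ((3 : Q278.PI.O p) : ℚ) = 3 := rfl
    have c2 : ((2 : Q278.PI.O p) : ℚ) = 2 := rfl
    push_cast
    rw [c3, c2]
    have e1 : ∑ k ∈ range (m + 1), (3 * (k : ℚ) + 1) * (k.centralBinom : ℚ) ^ 3 *
        ((invI p 16 : Q278.PI.O p) : ℚ) ^ k =
        ∑ k ∈ range (m + 1), (3 * (k : ℚ) + 1) * (k.centralBinom : ℚ) ^ 3 / 16 ^ k := by
      refine sum_congr rfl fun k _ => ?_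
      rw [invI_coe p 16 h16]
      push_cast
      rw [inv_pow, div_eq_mul_inv]
    rw [e1]
    linear_combination e
  have h5 := congrArg (res2 p) hab
  rw [ha, hb] at h5
  simp only [map_sum, map_mul, map_add, map_pow, map_natCast, map_intCast, map_ofNat, map_one,
    map_neg] at h5
  rw [← hJdef] at h5
  have h6 := p_sq p
  have h7 : ∑ k ∈ range (m + 1), (3 * (k : R p) + 1) * (k.centralBinom : R p) ^ 3 * J ^ k =
      ∑ k ∈ range (m + 1), (3 * (k : R p) + 1) * ((dl m k : R p) * (k.centralBinom : R p)) := by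
    refine sum_congr rfl fun k hk => ?_
    have hk' : k ≤ m := by simpa [Nat.lt_succ_iff] using hk
    have h8 := u2 p hpm h3 J hJ k hk'
    linear_combination (3 * (k : R p) + 1) * (k.centralBinom : R p) * h8
  rw [← h7, h5]
  linear_combination (2 * (-1) ^ m * (p : R p) * ((euler (p - 3) : ℤ) : R p) +
    (p : R p) ^ 2 * res2 p ⟨w, hw⟩) * h6

end

open Polynomial in
/-- the derivative of Clausen's identity -/
theorem clausen_deriv {K : Type*} [CommRing K] (m : ℕ) (x : K) :
    2 * (1 - x) * (∑ k ∈ range (m + 1), (dl m k : K) * x ^ k) *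
      (∑ k ∈ range (m + 1), (k : K) * ((dl m k : K) * x ^ k)) =
    (1 - 2 * x) * ∑ k ∈ range (m + 1), (k : K) * ((dl m k : K) * (k.centralBinom : K) *
      (x * (1 - x)) ^ k) := by
  have h := legendre_sq_ring (R := K[X]) m X
  have h1 := congrArg derivative h
  rw [derivative_pow, derivative_sum, derivative_sum] at h1
  have h2 := congrArg (fun q => eval x (q * (X * (1 - X)))) h1
  have key : ∀ (q : K[X]) (k : ℕ), derivative (q ^ k) * q = (k : K[X]) * q ^ k * derivative q := by
    intro q k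
    rcases k with _ | k
    · simp
    · rw [derivative_pow, Nat.add_sub_cancel]
      push_cast
      rw [map_add, map_natCast, map_one]
      ring
  have e1 : (∑ b ∈ range (m + 1), derivative (((dl m b : ℤ) : K[X]) * X ^ b)) * X =
      ∑ k ∈ range (m + 1), (k : K[X]) * (((dl m k : ℤ) : K[X]) * X ^ k) := by
    rw [sum_mul]
    refine sum_congr rfl fun k _ => ?_
    have h5 := key X k
    rw [derivative_X, mul_one] at h5
    rw [derivative_mul, derivative_intCast, zero_mul, zero_add, mul_assoc, h5]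
    ring
  have e2 : (∑ b ∈ range (m + 1), derivative (((dl m b : ℤ) : K[X]) * (b.centralBinom : K[X]) *
      (X * (1 - X)) ^ b)) * (X * (1 - X)) = (1 - 2 * X) *
      ∑ k ∈ range (m + 1), (k : K[X]) * (((dl m k : ℤ) : K[X]) * (k.centralBinom : K[X]) *
        (X * (1 - X)) ^ k) := by
    rw [sum_mul, mul_sum]
    refine sum_congr rfl fun k _ => ?_
    have h5 := key (X * (1 - X)) k
    have h6 : derivative (X * (1 - X) : K[X]) = 1 - 2 * X := by
      rw [derivative_mul, derivative_sub, derivative_X, derivative_one]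
      ring
    rw [h6] at h5
    rw [derivative_mul, derivative_mul, derivative_intCast, derivative_natCast]
    linear_combination (((dl m k : ℤ) : K[X]) * (k.centralBinom : K[X])) * h5
  have h7 : (∑ k ∈ range (m + 1), ((dl m k : ℤ) : K[X]) * X ^ k) * 2 *
      ((∑ b ∈ range (m + 1), derivative (((dl m b : ℤ) : K[X]) * X ^ b)) * X) * (1 - X) =
      (∑ b ∈ range (m + 1), derivative (((dl m b : ℤ) : K[X]) * (b.centralBinom : K[X]) *
      (X * (1 - X)) ^ b)) * (X * (1 - X)) := by
    rw [← h1, Nat.cast_ofNat, map_ofNat, show 2 - 1 = 1 from rfl, pow_one]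
    ring
  rw [e1, e2] at h7
  have h8 := congrArg (eval x) h7
  simp only [eval_mul, eval_finsetSum, eval_pow, eval_sub, eval_one, eval_X, eval_ofNat,
    eval_intCast, eval_natCast] at h8
  linear_combination h8

end Pool.Agent.Q267.CDE
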