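import Mathlib

/-!
# Quadratic symbols of `x` and `y` for `p = x² + 3y²`, `p ≡ 7 (mod 12)`
-/

namespace Pool.Agent.Q267.CDE

open NumberTheorySymbols

/-- the symbol of `y` -/
theorem jac_y (p : ℕ) (hp : p.Prime) (h12 : p % 12 = 7) (x y : ℤ)
    (hxy : (p : ℤ) = x ^ 2 + 3 * y ^ 2) (hy : y % 4 = 1) : J(y | p) = 1 := by
  have hpodd : Odd p := Nat.odd_iff.2 (by omega)
  have hp4 : p % 4 = 3 := by omega
  have hcop : ∀ a : ℕ, (a : ℤ) ∣ y → x.gcd a = 1 := by
    intro a ha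
    by_contra h
    obtain ⟨q, hq, hqg⟩ := Nat.exists_prime_and_dvd h
    have h1 : (q : ℤ) ∣ x := (Int.natCast_dvd_natCast.2 hqg).trans (Int.gcd_dvd_left _ _)
    have h2 : (q : ℤ) ∣ y := ((Int.natCast_dvd_natCast.2 hqg).trans (Int.gcd_dvd_right _ _)).trans ha
    have h3 : ((q * q : ℕ) : ℤ) ∣ (p : ℤ) := by
      rw [hxy]
      push_cast
      exact dvd_add (by rw [pow_two]; exact mul_dvd_mul h1 h1)
        (Dvd.dvd.mul_left (by rw [pow_two]; exact mul_dvd_mul h2 h2) _)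
    have h4 : q * q ∣ p := Int.natCast_dvd_natCast.1 h3
    have h5 : q ∣ p := (Dvd.intro _ rfl).trans h4
    have h6 := (Nat.prime_dvd_prime_iff_eq hq hp).1 h5
    subst h6
    have := Nat.le_of_dvd hp.pos h4
    have := hp.two_le
    nlinarith
  have hsq : ∀ a : ℕ, (a : ℤ) ∣ y → J((p : ℤ) | a) = 1 := by
    intro a ha
    have h1 : J((p : ℤ) | a) = J(x ^ 2 | a) := by
      apply jacobiSym.mod_left'
      rw [hxy]
      obtain ⟨c, hc⟩ := ha
      rw [hc, show x ^ 2 + 3 * ((a : ℤ) * c) ^ 2 = x ^ 2 + (a : ℤ) * (3 * a * c ^ 2) by ring]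
      exact Int.add_mul_emod_self_left _ _ _
    rw [h1, jacobiSym.pow_left]
    exact jacobiSym.sq_one (hcop a ha)
  rcases le_or_gt 0 y with h0 | h0
  · obtain ⟨a, rfl⟩ := Int.eq_ofNat_of_zero_le h0
    have ha : a % 4 = 1 := by omega
    rw [jacobiSym.quadratic_reciprocity_one_mod_four ha hpodd]
    exact hsq a dvd_rfl
  · obtain ⟨a, ha'⟩ := Int.eq_ofNat_of_zero_le (show 0 ≤ -y by omega)
    have hya : y = -(a : ℤ) := by omega
    have ha : a % 4 = 3 := by omega
    have h1 := hsq a (by rw [hya]; exact (dvd_neg.2 dvd_rfl))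
    rw [hya, jacobiSym.neg _ hpodd, jacobiSym.quadratic_reciprocity_three_mod_four ha hp4, h1,
      ZMod.χ₄_nat_three_mod_four hp4]
    norm_num

/-- the symbol of an odd divisor of `x` -/
theorem jac_odd (p : ℕ) (hp : p.Prime) (h12 : p % 12 = 7) (x y z c : ℤ)
    (hxy : (p : ℤ) = x ^ 2 + 3 * y ^ 2) (hz : z % 2 = 1) (hzx : x = z * c) :
    J(z | p) = J(z | 3) := by
  have hpodd : Odd p := Nat.odd_iff.2 (by omega)
  have hp4 : p % 4 = 3 := by omega
  have hcop : ∀ a : ℕ, (a : ℤ) ∣ x → y.gcd a = 1 := by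
    intro a ha
    by_contra h
    obtain ⟨q, hq, hqg⟩ := Nat.exists_prime_and_dvd h
    have h1 : (q : ℤ) ∣ y := (Int.natCast_dvd_natCast.2 hqg).trans (Int.gcd_dvd_left _ _)
    have h2 : (q : ℤ) ∣ x := ((Int.natCast_dvd_natCast.2 hqg).trans (Int.gcd_dvd_right _ _)).trans ha
    have h3 : ((q * q : ℕ) : ℤ) ∣ (p : ℤ) := by
      rw [hxy]
      push_cast
      exact dvd_add (by rw [pow_two]; exact mul_dvd_mul h2 h2)
        (Dvd.dvd.mul_left (by rw [pow_two]; exact mul_dvd_mul h1 h1) _)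
    have h4 : q * q ∣ p := Int.natCast_dvd_natCast.1 h3
    have h5 : q ∣ p := (Dvd.intro _ rfl).trans h4
    have h6 := (Nat.prime_dvd_prime_iff_eq hq hp).1 h5
    subst h6
    have := Nat.le_of_dvd hp.pos h4
    have := hp.two_le
    nlinarith
  have hsq : ∀ a : ℕ, (a : ℤ) ∣ x → J((p : ℤ) | a) = J(3 | a) := by
    intro a ha
    have h1 : J((p : ℤ) | a) = J(3 * y ^ 2 | a) := by
      apply jacobiSym.mod_left'
      rw [hxy]
      obtain ⟨c, hc⟩ := ha
      rw [hc, show ((a : ℤ) * c) ^ 2 + 3 * y ^ 2 = 3 * y ^ 2 + (a : ℤ) * (a * c ^ 2) by ring]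
      exact Int.add_mul_emod_self_left _ _ _
    rw [h1, jacobiSym.mul_left, jacobiSym.pow_left, jacobiSym.sq_one (hcop a ha), mul_one]
  have hpos : ∀ a : ℕ, a % 2 = 1 → (a : ℤ) ∣ x → J((a : ℤ) | p) = J((a : ℤ) | 3) := by
    intro a ha hax
    have haodd : Odd a := Nat.odd_iff.2 ha
    have hcase : a % 4 = 1 ∨ a % 4 = 3 := by omega
    rcases hcase with h | h
    · rw [jacobiSym.quadratic_reciprocity_one_mod_four h hpodd, hsq a hax,
        jacobiSym.quadratic_reciprocity_one_mod_four h (show Odd 3 by decide)]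
      rfl
    · rw [jacobiSym.quadratic_reciprocity_three_mod_four h hp4, hsq a hax,
        jacobiSym.quadratic_reciprocity_three_mod_four h (show 3 % 4 = 3 by norm_num)]
      rfl
  rcases le_or_gt 0 z with h0 | h0
  · obtain ⟨a, rfl⟩ := Int.eq_ofNat_of_zero_le h0
    exact hpos a (by omega) ⟨c, hzx⟩
  · obtain ⟨a, ha'⟩ := Int.eq_ofNat_of_zero_le (show 0 ≤ -z by omega)
    have hya : z = -(a : ℤ) := by omega
    have h1 := hpos a (by omega) ⟨-c, by rw [hzx, hya]; ring⟩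
    rw [hya, jacobiSym.neg _ hpodd, jacobiSym.neg _ (show Odd 3 by decide), h1,
      ZMod.χ₄_nat_three_mod_four hp4, ZMod.χ₄_nat_three_mod_four (show 3 % 4 = 3 by norm_num)]

theorem two_pow_mul (x : ℤ) (hx : x ≠ 0) : ∃ e : ℕ, ∃ z : ℤ, z % 2 = 1 ∧ x = z * 2 ^ e := by
  obtain ⟨n, hn⟩ : ∃ n, x.natAbs = n := ⟨_, rfl⟩
  induction n using Nat.strong_induction_on generalizing x with
  | _ n ih =>
    rcases Int.emod_two_eq_zero_or_one x with h | h
    · obtain ⟨c, hc⟩ : ∃ c, x = 2 * c := ⟨x / 2, by omega⟩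
      obtain ⟨e, z, hz, h'⟩ := ih c.natAbs (by omega) c (by omega) rfl
      exact ⟨e + 1, z, hz, by rw [hc, h', pow_succ]; ring⟩
    · exact ⟨0, x, h, by simp⟩

/-- the symbol of `x` -/
theorem jac_x (p : ℕ) (hp : p.Prime) (h12 : p % 12 = 7) (x y : ℤ)
    (hxy : (p : ℤ) = x ^ 2 + 3 * y ^ 2) :
    J(x | p) * J(x | 3) = (-1) ^ ((p - 3) / 4) := by
  have hpodd : Odd p := Nat.odd_iff.2 (by omega)
  have hx0 : x ≠ 0 := by
    rintro rfl
    have h1 : ((3 : ℕ) : ℤ) ∣ (p : ℤ) := ⟨y ^ 2, by rw [hxy]; push_cast; ring⟩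
    have h2 : 3 ∣ p := Int.natCast_dvd_natCast.1 h1
    omega
  obtain ⟨e, z, hz, hxe⟩ := two_pow_mul x hx0
  have h1 := jac_odd p hp h12 x y z (2 ^ e) hxy hz hxe
  have hz3 : z.gcd ((3 : ℕ) : ℤ) = 1 := by
    by_contra h
    obtain ⟨q, hq, hqg⟩ := Nat.exists_prime_and_dvd h
    have h2 : (q : ℤ) ∣ ((3 : ℕ) : ℤ) :=
      (Int.natCast_dvd_natCast.2 hqg).trans (Int.gcd_dvd_right _ _)
    have h3 := (Nat.prime_dvd_prime_iff_eq hq Nat.prime_three).1 (Int.natCast_dvd_natCast.1 h2)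
    subst h3
    have h4 : ((3 : ℕ) : ℤ) ∣ z := (Int.natCast_dvd_natCast.2 hqg).trans (Int.gcd_dvd_left _ _)
    have h5 : ((3 : ℕ) : ℤ) ∣ (p : ℤ) := by
      rw [hxy, hxe]
      obtain ⟨c, hc⟩ := h4
      rw [hc]
      exact ⟨3 * c ^ 2 * (2 ^ e) ^ 2 + y ^ 2, by push_cast; ring⟩
    have h6 : 3 ∣ p := Int.natCast_dvd_natCast.1 h5
    omega
  have hsq : J(z | 3) ^ 2 = 1 := jacobiSym.sq_one hz3
  have h23 : J(2 | 3) = -1 := by
    rw [jacobiSym.at_two (show Odd 3 by decide)]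
    decide
  rw [hxe, jacobiSym.mul_left, jacobiSym.mul_left, jacobiSym.pow_left, jacobiSym.pow_left, h1, h23]
  have h24 : p % 24 = 7 ∨ p % 24 = 19 := by omega
  rcases h24 with h24 | h24
  · have hj2 : J(2 | p) = 1 := by
      rw [jacobiSym.at_two hpodd]
      have : ((p : ℕ) : ZMod 8) = 7 := by
        have h8 : p % 8 = 7 := by omega
        rw [← ZMod.natCast_mod p 8, h8]
        rfl
      rw [this]
      decide
    have hx8 : (x : ZMod 8) = 2 ∨ (x : ZMod 8) = 6 := by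
      have h9 := congrArg (Int.cast : ℤ → ZMod 8) hxy
      push_cast at h9
      have : ((p : ℕ) : ZMod 8) = 7 := by
        have h8 : p % 8 = 7 := by omega
        rw [← ZMod.natCast_mod p 8, h8]
        rfl
      rw [this] at h9
      have key : ∀ a b : ZMod 8, 7 = a ^ 2 + 3 * b ^ 2 → a = 2 ∨ a = 6 := by decide
      exact key _ _ h9
    have hx4 : x % 4 = 2 := by
      rcases hx8 with h | h
      · have h9 : ((x - 2 : ℤ) : ZMod 8) = 0 := by push_cast; rw [h]; rfl
        rw [ZMod.intCast_zmod_eq_zero_iff_dvd] at h9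
        push_cast at h9
        omega
      · have h9 : ((x - 6 : ℤ) : ZMod 8) = 0 := by push_cast; rw [h]; rfl
        rw [ZMod.intCast_zmod_eq_zero_iff_dvd] at h9
        push_cast at h9
        omega
    have he : e = 1 := by
      rcases e with _ | e
      · rw [pow_zero, mul_one] at hxe
        omega
      · rcases e with _ | e
        · rfl
        · exfalso
          rw [hxe, pow_succ, pow_succ] at hx4
          have : z * (2 ^ e * 2 * 2) = (z * 2 ^ e) * 4 := by ring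
          rw [this] at hx4
          omega
    have hn : ((-1 : ℤ)) ^ (2 * (p / 24 * 3) + 1) = -1 := by
      rw [pow_add, pow_mul]
      norm_num
    rw [he, hj2, show (p - 3) / 4 = 2 * (p / 24 * 3) + 1 by omega, hn]
    linear_combination (-1 : ℤ) * hsq
  · have hj2 : J(2 | p) = -1 := by
      rw [jacobiSym.at_two hpodd]
      have : ((p : ℕ) : ZMod 8) = 3 := by
        have h8 : p % 8 = 3 := by omega
        rw [← ZMod.natCast_mod p 8, h8]
        rfl
      rw [this]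
      decide
    have hee : ((-1 : ℤ)) ^ e * (-1) ^ e = 1 := by rw [← mul_pow]; norm_num
    have hn : ((-1 : ℤ)) ^ (2 * (p / 24 * 3 + 2)) = 1 := by
      rw [pow_mul]
      norm_num
    rw [hj2, show (p - 3) / 4 = 2 * (p / 24 * 3 + 2) by omega, hn]
    linear_combination (J(z | 3) ^ 2) * hee + hsq

/-- the combined sign -/
theorem sign7 (p : ℕ) [Fact p.Prime] (h12 : p % 12 = 7) (x y η : ℤ)
    (hxy : (p : ℤ) = x ^ 2 + 3 * y ^ 2) (hy : y % 4 = 1) (hη : η = 1 ∨ η = -1)
    (hηx : (3 : ℤ) ∣ η * x + 1) (s : ZMod p) (hs : (x : ZMod p) + y * s = 0) :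
    quadraticChar (ZMod p) s * η = (-1) ^ ((p - 3) / 4) := by
  have hp : p.Prime := Fact.out
  have hpodd : Odd p := Nat.odd_iff.2 (by omega)
  have h1 := jac_y p hp h12 x y hxy hy
  have h2 := jac_x p hp h12 x y hxy
  have h3 : J(x | 3) = -η := by
    rcases hη with rfl | rfl
    · have : J(x | 3) = J(-1 | 3) := by
        apply jacobiSym.mod_left'
        push_cast
        omega
      rw [this, jacobiSym.at_neg_one (show Odd 3 by decide)]
      decide
    · have : J(x | 3) = J(1 | 3) := by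
        apply jacobiSym.mod_left'
        push_cast
        omega
      rw [this, jacobiSym.one_left]
      rfl
  have h4 : quadraticChar (ZMod p) s = -J(x | p) := by
    have e1 : ((y : ZMod p)) * s = ((-x : ℤ) : ZMod p) := by
      push_cast
      linear_combination hs
    have e2 := congrArg (quadraticChar (ZMod p)) e1
    rw [map_mul] at e2
    have e3 : ∀ z : ℤ, quadraticChar (ZMod p) ((z : ℤ) : ZMod p) = J(z | p) := by
      intro z
      rw [← jacobiSym.legendreSym.to_jacobiSym]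
      rfl
    rw [e3, e3, h1, one_mul, jacobiSym.neg _ hpodd, ZMod.χ₄_nat_three_mod_four (by omega)] at e2
    rw [e2]
    ring
  rw [h4, ← h2, h3]
  ring

end Pool.Agent.Q267.CDE
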