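import Pool.Agent.Q267.CDE.A3
import Pool.Agent.Q267.CDE.Sign3
import Pool.Agent.Q267.CDE.Lin16

/-!
# The value at `-w` for `p ≡ 7 (mod 12)` and its derivative
-/

namespace Pool.Agent.Q267.CDE

open Finset Pool.Agent.Q267.Seven Pool.Agent.Y692.QS

/-- the Legendre symbol modulo `3` -/
def chi3 (k : ℕ) : ℤ := if k % 3 = 1 then 1 else if k % 3 = 2 then -1 else 0

theorem chi3_eq {K : Type*} [CommRing K] (w : K) (hw : w ^ 2 + w + 1 = 0) (k : ℕ) :
    (chi3 k : K) * (2 * w + 1) = w ^ k - (-1 - w) ^ k := by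
  have h1 : w ^ 3 = 1 := by linear_combination (w - 1) * hw
  have h2 : (-1 - w) ^ 3 = 1 := by linear_combination (-w - 2) * hw
  obtain ⟨q, i, hi, rfl⟩ : ∃ q i, i < 3 ∧ k = 3 * q + i :=
    ⟨k / 3, k % 3, Nat.mod_lt _ (by norm_num), by omega⟩
  rw [pow_add, pow_mul, h1, one_pow, pow_add (-1 - w), pow_mul (-1 - w), h2, one_pow]
  unfold chi3
  rw [Nat.mul_add_mod, Nat.mod_eq_of_lt hi]
  interval_cases i
  · simp
  · simp
    ring
  · simp
    ring

section

variable {p : ℕ} [hp : Fact p.Prime]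

/-- the value at `-w`, `p ≡ 7 (mod 12)` -/
theorem A7 (h12 : p % 12 = 7) (m : ℕ) (hm : p = 2 * m + 1) (x y : ℤ)
    (hxy : (p : ℤ) = x ^ 2 + 3 * y ^ 2) (hy : y % 4 = 1) (Y : R p) (hY : 6 * (y : R p) * Y = 1) :
    ∃ w : R p, w ^ 2 + w + 1 = 0 ∧ IsUnit (2 * w + 1) ∧
      IsUnit (∑ k ∈ range (m + 1), (dl m k : R p) * (-w) ^ k) ∧
      ∑ k ∈ range (m + 1), (dl m k : R p) * (-w) ^ k =
        (-1) ^ ((p - 3) / 4) * (2 * w + 1) * (2 * (y : R p) - p * Y) ∧
      ∑ k ∈ range (m + 1), (dl m k : R p) * (-(-1 - w)) ^ k =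
        -∑ k ∈ range (m + 1), (dl m k : R p) * (-w) ^ k := by
  obtain ⟨r, hr⟩ : ∃ r, p = 6 * r + 1 := ⟨p / 6, by omega⟩
  have hm3 : m = 3 * r := by omega
  subst hm3
  obtain ⟨w, η, hw, hη, hη3, hred, hA⟩ := A_val r hr x y hxy
  set s : R p := 2 * w + 1 with hs
  have hs2 : s ^ 2 = -3 := by rw [hs]; linear_combination 4 * hw
  have h3u : IsUnit (3 : R p) := by
    have := isUnit_nat p 3 (by omega) (by omega)
    exact_mod_cast this
  have hsu : IsUnit s := by
    have : IsUnit (s ^ 2) := by rw [hs2]; exact h3u.neg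
    exact (isUnit_pow_iff two_ne_zero).1 this
  have h1 : (x : ZMod p) + y * red p s = 0 := by
    rw [map_add, map_mul, red_int, red_int] at hred
    exact hred
  have hsign := sign7 p h12 x y η hxy hy hη hη3 (red p s) h1
  have hsign' := congrArg (Int.cast : ℤ → R p) hsign
  push_cast at hsign'
  obtain ⟨z, hz⟩ := red_eq_of p ((x : R p) + y * s) 0 (by rw [hred, map_zero])
  rw [zero_add] at hz
  have hxy' := congrArg (Int.cast : ℤ → R p) hxy
  push_cast at hxy'
  have hpp := p_sq p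
  have hz2 : (p : R p) * (-(2 * z * y * s)) = p := by
    linear_combination (-1 : R p) * hxy' - (x - y * s) * hz - z ^ 2 * hpp - (y : R p) ^ 2 * hs2
      - p * z * hz
  have hpz : (p : R p) * z = p * (s * Y) := by
    linear_combination (s * Y) * hz2 + (2 * p * z * y * Y) * hs2 - (p : R p) * z * hY
  have hE : (x : R p) - y * s = -(s * (2 * y - p * Y)) := by
    linear_combination hz + hpz
  have hval : ∑ k ∈ range (3 * r + 1), (dl (3 * r) k : R p) * (-w) ^ k =
        (-1) ^ ((p - 3) / 4) * s * (2 * (y : R p) - p * Y) := by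
    rw [hA, hsign', hE]
    ring
  refine ⟨w, hw, hsu, ?_, hval, ?_⟩
  · rw [hval]
    apply isUnit_of_red
    have hYu : IsUnit (6 * (y : R p)) := IsUnit.of_mul_eq_one _ hY
    have hyu : IsUnit (y : R p) := isUnit_of_mul_isUnit_right hYu
    have h2u : IsUnit (2 : R p) := by
      have := isUnit_nat p 2 (by omega) (by omega)
      exact_mod_cast this
    rw [map_mul, map_mul, map_sub, map_mul, map_mul (red p) (p : R p), red_nat p p,
      CharP.cast_eq_zero (ZMod p) p, zero_mul, sub_zero, ← map_mul, ← map_mul, ← map_mul]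
    have : IsUnit ((-1) ^ ((p - 3) / 4) * s * (2 * (y : R p))) :=
      ((isUnit_one.neg.pow _).mul hsu).mul (h2u.mul hyu)
    exact (this.map (red p)).ne_zero
  · have hw' : (-1 - w) ^ 2 + (-1 - w) + 1 = 0 := by linear_combination hw
    have e1 := Rg.F_w h3u w s hw hs (3 * r)
    have e2 := Rg.F_w h3u (-1 - w) (-s) hw' (by rw [hs]; ring) (3 * r)
    have hodd : Odd (3 * r) := by
      rw [Nat.odd_iff]
      omega
    rw [← e1, hodd.neg_pow] at e2
    apply (hsu.pow (3 * r)).mul_left_cancel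
    linear_combination -e2

/-- the weighted value -/
theorem A7_deriv (h12 : p % 12 = 7) (m : ℕ) (hm : p = 2 * m + 1) (w : R p)
    (hw : w ^ 2 + w + 1 = 0) :
    6 * (∑ k ∈ range (m + 1), (dl m k : R p) * (-w) ^ k) *
      (∑ k ∈ range (m + 1), (k : R p) * ((dl m k : R p) * (-w) ^ k)) =
      (2 + w) * (p - (∑ k ∈ range (m + 1), (dl m k : R p) * (-w) ^ k) ^ 2) := by
  have h1 := clausen_deriv m (-w)
  have h2 := legendre_sq_ring m (-w)
  have h3 := lin16 p hm (by omega)
  have e : -w * (1 - -w) = 1 := by linear_combination -hw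
  rw [e] at h1 h2
  simp only [one_pow, mul_one] at h1 h2
  have h4 : ∑ k ∈ range (m + 1), (3 * (k : R p) + 1) * ((dl m k : R p) * (k.centralBinom : R p)) =
      3 * ∑ k ∈ range (m + 1), (k : R p) * ((dl m k : R p) * (k.centralBinom : R p)) +
      ∑ k ∈ range (m + 1), (dl m k : R p) * (k.centralBinom : R p) := by
    rw [mul_sum, ← sum_add_distrib]
    refine sum_congr rfl fun k _ => ?_
    ring
  rw [h4, ← h2] at h3
  set A := ∑ k ∈ range (m + 1), (dl m k : R p) * (-w) ^ k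
  set A1 := ∑ k ∈ range (m + 1), (k : R p) * ((dl m k : R p) * (-w) ^ k)
  set S1 := ∑ k ∈ range (m + 1), (k : R p) * ((dl m k : R p) * (k.centralBinom : R p))
  linear_combination (-3 * w) * h1 + (2 + w) * h3 + (6 * A * A1 - 6 * S1) * hw

end

end Pool.Agent.Q267.CDE
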