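import Pool.Agent.Q267.CDE.Trig2
import Pool.Agent.Q267.CDE.W7

/-!
# Exact identities for the Lucas sequence `u_k(4,1)`
-/

namespace Pool.Agent.Q267.CDE

open Finset Pool.Agent.Q267.Seven Pool.Agent.Q267.S16

/-- the Lucas sequence `u_k(4,1)` -/
def luc : ℕ → ℤ
  | 0 => 0
  | 1 => 1
  | (n + 2) => 4 * luc (n + 1) - luc n

/-- `w^k + w'^k` for the cube roots of unity -/
def tau3 (k : ℕ) : ℤ := if k % 3 = 0 then 2 else -1

theorem tau3_eq {K : Type*} [CommRing K] (w : K) (hw : w ^ 2 + w + 1 = 0) (k : ℕ) :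
    (tau3 k : K) = w ^ k + (-1 - w) ^ k := by
  have h1 : w ^ 3 = 1 := by linear_combination (w - 1) * hw
  have h2 : (-1 - w) ^ 3 = 1 := by linear_combination (-w - 2) * hw
  obtain ⟨q, i, hi, rfl⟩ : ∃ q i, i < 3 ∧ k = 3 * q + i :=
    ⟨k / 3, k % 3, Nat.mod_lt _ (by norm_num), by omega⟩
  rw [pow_add, pow_mul, h1, one_pow, pow_add (-1 - w), pow_mul (-1 - w), h2, one_pow]
  unfold tau3
  rw [Nat.mul_add_mod, Nat.mod_eq_of_lt hi]
  interval_cases i
  · simp
    norm_num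
  · simp
  · simp
    linear_combination -2 * hw

theorem luc_eq {K : Type*} [CommRing K] (q : K) (hq : q ^ 2 = 3) (k : ℕ) :
    2 * q * (luc k : K) = (2 + q) ^ k - (2 - q) ^ k := by
  have key : ∀ n, 2 * q * (luc n : K) = (2 + q) ^ n - (2 - q) ^ n ∧
      2 * q * (luc (n + 1) : K) = (2 + q) ^ (n + 1) - (2 - q) ^ (n + 1) := by
    intro n
    induction n with
    | zero =>
      constructor
      · simp [luc]
      · simp [luc]
        ring
    | succ n ih =>
      refine ⟨ih.2, ?_⟩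
      have e : luc (n + 1 + 1) = 4 * luc (n + 1) - luc n := by rw [luc]
      rw [e]
      push_cast
      have h1 := ih.1
      have h2 := ih.2
      rw [pow_succ, pow_succ] at h2
      rw [pow_succ, pow_succ, pow_succ, pow_succ]
      linear_combination 4 * h2 - h1 - ((2 + q) ^ n - (2 - q) ^ n) * hq
  exact (key k).1

section

variable (r : ℕ) (hr : Odd r)

include hr

/-- data in `ℂ` -/
theorem exact_both :
    2 * (-1 : ℚ) ^ ((r - 1) / 2) * ∑ k ∈ range (3 * r + 1), (luc k : ℚ) * ((dl (3 * r) k : ℚ) *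
      (1 / 4) ^ k) = ∑ k ∈ range (3 * r + 1), (u k * u (3 * r - k)) * ((-1) ^ k * (chi3 k : ℚ)) ∧
    2 * (-1 : ℚ) ^ ((r - 1) / 2) * ∑ k ∈ range (3 * r + 1), (k : ℚ) * ((luc k : ℚ) *
      ((dl (3 * r) k : ℚ) * (1 / 4) ^ k)) = ∑ k ∈ range (3 * r + 1),
        (2 * (k : ℚ) - ((3 * r : ℕ) : ℚ)) * ((u k * u (3 * r - k)) * ((-1) ^ k * (tau3 k : ℚ))) := by
  set m := 3 * r with hm
  obtain ⟨q, hq⟩ : ∃ q : ℂ, q ^ 2 = 3 := IsAlgClosed.exists_pow_nat_eq 3 two_pos
  set I := Complex.I with hI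
  have hI2 : I ^ 2 = -1 := Complex.I_sq
  set z : ℂ := (q + I) / 2 with hz
  have hz2 : z ^ 2 = (1 + q * I) / 2 := by
    rw [hz]; linear_combination (1 / 4 : ℂ) * hq + (1 / 4 : ℂ) * hI2
  have hz3 : z ^ 3 = I := by
    rw [show z ^ 3 = z * z ^ 2 by ring, hz2, hz]
    linear_combination (I / 4 : ℂ) * hq + (q / 4 : ℂ) * hI2
  set w : ℂ := (-1 + q * I) / 2 with hw
  have hw2 : w ^ 2 + w + 1 = 0 := by
    rw [hw]; linear_combination (I ^ 2 / 4 : ℂ) * hq + (3 / 4 : ℂ) * hI2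
  have hw' : (-1 - w) ^ 2 + (-1 - w) + 1 = 0 := by linear_combination hw2
  have hzw : z ^ 2 = -(-1 - w) := by rw [hz2, hw]; ring
  have hqI : 2 * w + 1 = q * I := by rw [hw]; ring
  have hmo : Odd m := by
    rw [hm]
    exact Odd.mul (by decide) hr
  -- the powers of `z`
  have hzm : z ^ m = (-1) ^ ((r - 1) / 2) * I := by
    rw [hm, pow_mul, hz3]
    obtain ⟨t, ht⟩ := hr
    rw [ht, pow_succ, pow_mul, hI2, show (2 * t + 1 - 1) / 2 = t by omega]
  set ε : ℂ := (-1) ^ ((r - 1) / 2) with hε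
  have hε2 : ε * ε = 1 := by rw [hε, ← mul_pow]; norm_num
  have hI0 : I ≠ 0 := Complex.I_ne_zero
  have hq0 : q ≠ 0 := by
    rintro h
    rw [h] at hq
    norm_num at hq
  have hε0 : ε ≠ 0 := by
    intro h
    rw [h] at hε2
    norm_num at hε2
  set x1 : ℂ := (2 - q) / 4 with hx1
  set x2 : ℂ := (2 + q) / 4 with hx2
  have p1 : (-1 / 4) * (1 - z) ^ 2 = z * x1 := by
    have : z ^ 2 + 1 = q * z := by
      rw [hz2, hz]; linear_combination (-1 / 2 : ℂ) * hq
    rw [hx1]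
    linear_combination (-1 / 4 : ℂ) * this
  have p2 : (-1 / 4) * (1 - -z) ^ 2 = (-z) * x2 := by
    have : z ^ 2 + 1 = q * z := by
      rw [hz2, hz]; linear_combination (-1 / 2 : ℂ) * hq
    rw [hx2]
    linear_combination (-1 / 4 : ℂ) * this
  have term1 : ∀ k, k ≤ m → (dl m k : ℂ) * (-1 / 4) ^ k * ((1 - z) ^ (2 * k) * z ^ (m - k)) =
      z ^ m * ((dl m k : ℂ) * x1 ^ k) := by
    intro k hk
    have h5 : z ^ m = z ^ (m - k) * z ^ k := by rw [← pow_add]; congr 1; omega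
    have h6 : (-1 / 4) ^ k * (1 - z) ^ (2 * k) = z ^ k * x1 ^ k := by
      rw [pow_mul, ← mul_pow, p1, mul_pow]
    rw [h5]
    linear_combination ((dl m k : ℂ) * z ^ (m - k)) * h6
  have term2 : ∀ k, k ≤ m → (dl m k : ℂ) * (-1 / 4) ^ k * ((1 - -z) ^ (2 * k) * (-z) ^ (m - k)) =
      -(z ^ m * ((dl m k : ℂ) * x2 ^ k)) := by
    intro k hk
    have h5 : (-z) ^ m = (-z) ^ (m - k) * (-z) ^ k := by rw [← pow_add]; congr 1; omega
    have h6 : (-1 / 4) ^ k * (1 - -z) ^ (2 * k) = (-z) ^ k * x2 ^ k := by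
      rw [pow_mul, ← mul_pow, p2, mul_pow]
    rw [hmo.neg_pow] at h5
    linear_combination ((dl m k : ℂ) * (-z) ^ (m - k)) * h6 - ((dl m k : ℂ) * x2 ^ k) * h5
  have hxk : ∀ k, x2 ^ k - x1 ^ k = 2 * q * ((luc k : ℂ) * (1 / 4) ^ k) := by
    intro k
    have := luc_eq q hq k
    rw [hx2, hx1, div_eq_mul_one_div, div_eq_mul_one_div (2 - q), mul_pow, mul_pow]
    linear_combination (-(1 / 4 : ℂ) ^ k) * this
  -- symmetry
  have hwm : (-(-1 - w)) ^ m = -1 := by
    have h3 : (-1 - w) ^ 3 = 1 := by linear_combination (-w - 2) * hw2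
    rw [hmo.neg_pow, hm, pow_mul, h3, one_pow]
  have hww : (-w) * (-(-1 - w)) = 1 := by linear_combination -hw2
  have hsymm : ∀ k, k ≤ m → (-(-1 - w)) ^ (m - k) = -(-w) ^ k := by
    intro k hk
    have h5 : (-(-1 - w)) ^ m = (-(-1 - w)) ^ (m - k) * (-(-1 - w)) ^ k := by
      rw [← pow_add]; congr 1; omega
    have h6 : (-w) ^ k * (-(-1 - w)) ^ k = 1 := by rw [← mul_pow, hww, one_pow]
    rw [hwm] at h5
    linear_combination (-(-(-1 - w)) ^ (m - k)) * h6 - (-w) ^ k * h5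
  have hsq : (-z) ^ 2 = z ^ 2 := by ring
  constructor
  · have t1 := trig_hom m z (by
      intro h
      rw [h] at hz3
      exact hI0 (by rw [← hz3]; ring))
    have t2 := trig_hom m (-z) (by
      intro h
      rw [neg_eq_zero] at h
      rw [h] at hz3
      exact hI0 (by rw [← hz3]; ring))
    rw [sum_congr rfl fun k hk => term1 k (by simpa [Nat.lt_succ_iff] using hk)] at t1
    rw [sum_congr rfl fun k hk => term2 k (by simpa [Nat.lt_succ_iff] using hk)] at t2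
    simp only [pow_mul, hsq] at t1 t2
    have e0 : z ^ m * ∑ k ∈ range (m + 1), (dl m k : ℂ) * (x2 ^ k - x1 ^ k) =
        -2 * ∑ k ∈ range (m + 1), (u k : ℂ) * (u (m - k) : ℂ) * (z ^ 2) ^ k := by
      have : ∑ k ∈ range (m + 1), (dl m k : ℂ) * (x2 ^ k - x1 ^ k) =
          ∑ k ∈ range (m + 1), (dl m k : ℂ) * x2 ^ k - ∑ k ∈ range (m + 1), (dl m k : ℂ) * x1 ^ k := by
        rw [← sum_sub_distrib]
        exact sum_congr rfl fun k _ => by ring
      rw [this]
      rw [sum_neg_distrib, ← mul_sum] at t2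
      rw [← mul_sum] at t1
      linear_combination t1 + t2
    have e1 : ∑ k ∈ range (m + 1), (dl m k : ℂ) * (x2 ^ k - x1 ^ k) =
        2 * q * ∑ k ∈ range (m + 1), (luc k : ℂ) * ((dl m k : ℂ) * (1 / 4) ^ k) := by
      rw [mul_sum]
      refine sum_congr rfl fun k _ => ?_
      rw [hxk]
      ring
    have e2 : ∑ k ∈ range (m + 1), (u k : ℂ) * (u (m - k) : ℂ) * (z ^ 2) ^ k =
        -∑ k ∈ range (m + 1), (u k : ℂ) * (u (m - k) : ℂ) * (-w) ^ k := by
      rw [← sum_range_reflect, ← sum_neg_distrib]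
      refine sum_congr rfl fun k hk => ?_
      have hk' : k ≤ m := by simpa [Nat.lt_succ_iff] using hk
      rw [show m + 1 - 1 - k = m - k by omega, Nat.sub_sub_self hk', hzw, hsymm k hk']
      ring
    have e3 : 2 * ∑ k ∈ range (m + 1), (u k : ℂ) * (u (m - k) : ℂ) * (z ^ 2) ^ k =
        -(q * I) * ∑ k ∈ range (m + 1), ((u k : ℂ) * (u (m - k) : ℂ)) * ((-1) ^ k * (chi3 k : ℂ)) := by
      have e4 : -(q * I) * ∑ k ∈ range (m + 1), ((u k : ℂ) * (u (m - k) : ℂ)) *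
          ((-1) ^ k * (chi3 k : ℂ)) =
          ∑ k ∈ range (m + 1), (u k : ℂ) * (u (m - k) : ℂ) * (z ^ 2) ^ k -
          ∑ k ∈ range (m + 1), (u k : ℂ) * (u (m - k) : ℂ) * (-w) ^ k := by
        rw [mul_sum, ← sum_sub_distrib]
        refine sum_congr rfl fun k _ => ?_
        have h5 := chi3_eq w hw2 k
        rw [hqI] at h5
        rw [hzw, neg_pow w k, neg_pow (-1 - w) k]
        linear_combination (-((u k : ℂ) * (u (m - k) : ℂ)) * (-1) ^ k) * h5
      rw [e4]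
      linear_combination e2
    rw [e1, hzm] at e0
    have e5 : (2 * ε * ∑ k ∈ range (m + 1), (luc k : ℂ) * ((dl m k : ℂ) * (1 / 4) ^ k)) =
        ∑ k ∈ range (m + 1), ((u k : ℂ) * (u (m - k) : ℂ)) * ((-1) ^ k * (chi3 k : ℂ)) := by
      have hqI0 : q * I ≠ 0 := mul_ne_zero hq0 hI0
      apply mul_left_cancel₀ hqI0
      linear_combination e0 - e3
    rw [hε] at e5
    apply Rat.cast_injective (α := ℂ)
    push_cast
    rw [e5]
  · have t1 := trig_deriv m z
    have t2 := trig_deriv m (-z)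
    have r1 : (∑ k ∈ range (m + 1), (k : ℂ) * ((dl m k : ℂ) * (-1 / 4) ^ k *
        ((1 - z) ^ (2 * k) * z ^ (m - k)))) = z ^ m * ∑ k ∈ range (m + 1), (k : ℂ) *
        ((dl m k : ℂ) * x1 ^ k) := by
      rw [mul_sum]
      refine sum_congr rfl fun k hk => ?_
      rw [term1 k (by simpa [Nat.lt_succ_iff] using hk)]
      ring
    have r2 : (∑ k ∈ range (m + 1), (k : ℂ) * ((dl m k : ℂ) * (-1 / 4) ^ k *
        ((1 - -z) ^ (2 * k) * (-z) ^ (m - k)))) = -(z ^ m * ∑ k ∈ range (m + 1), (k : ℂ) *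
        ((dl m k : ℂ) * x2 ^ k)) := by
      rw [mul_sum, ← sum_neg_distrib]
      refine sum_congr rfl fun k hk => ?_
      rw [term2 k (by simpa [Nat.lt_succ_iff] using hk)]
      ring
    rw [r1] at t1
    rw [r2] at t2
    simp only [pow_mul, hsq] at t1 t2
    set D := ∑ k ∈ range (m + 1), (2 * (k : ℂ) - m) * ((u k : ℂ) * (u (m - k) : ℂ) * (z ^ 2) ^ k)
      with hD
    have e1 : ∑ k ∈ range (m + 1), (k : ℂ) * ((dl m k : ℂ) * x2 ^ k) -
        ∑ k ∈ range (m + 1), (k : ℂ) * ((dl m k : ℂ) * x1 ^ k) =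
        2 * q * ∑ k ∈ range (m + 1), (k : ℂ) * ((luc k : ℂ) * ((dl m k : ℂ) * (1 / 4) ^ k)) := by
      rw [mul_sum, ← sum_sub_distrib]
      refine sum_congr rfl fun k _ => ?_
      linear_combination ((k : ℂ) * (dl m k : ℂ)) * hxk k
    set S := ∑ k ∈ range (m + 1), (k : ℂ) * ((luc k : ℂ) * ((dl m k : ℂ) * (1 / 4) ^ k)) with hS
    have e2 : (1 - z ^ 2) * (z ^ m * (q * S)) = (1 + z ^ 2) * D := by
      linear_combination (-(1 / 2 : ℂ) * (1 - z ^ 2) * z ^ m) * e1 - (1 / 2 : ℂ) * (1 + z) * t2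
        - (1 / 2 : ℂ) * (1 - z) * t1
    have hne : q - 3 * I ≠ 0 := by
      intro h
      have : q = 3 * I := by linear_combination h
      rw [this] at hq
      have h9 : (9 : ℂ) * I ^ 2 = 3 := by linear_combination hq
      rw [hI2] at h9
      norm_num at h9
    have e3 : z ^ m * S = I * D := by
      apply mul_left_cancel₀ hne
      have h7 : (1 - z ^ 2) * q = (q - 3 * I) / 2 := by
        rw [hz2]; linear_combination (-I / 2 : ℂ) * hq
      have h8 : 1 + z ^ 2 = I * (q - 3 * I) / 2 := by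
        rw [hz2]; linear_combination (3 / 2 : ℂ) * hI2
      linear_combination 2 * e2 - 2 * z ^ m * S * h7 + 2 * D * h8
    rw [hzm] at e3
    have e4 : ε * S = D := by
      apply mul_left_cancel₀ hI0
      linear_combination e3
    have e5 : D = ∑ k ∈ range (m + 1), (2 * (k : ℂ) - m) * ((u k : ℂ) * (u (m - k) : ℂ) *
        (-w) ^ k) := by
      rw [hD, ← sum_range_reflect]
      refine sum_congr rfl fun k hk => ?_
      have hk' : k ≤ m := by simpa [Nat.lt_succ_iff] using hk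
      rw [show m + 1 - 1 - k = m - k by omega, Nat.sub_sub_self hk', hzw, hsymm k hk',
        Nat.cast_sub hk']
      ring
    have e6 : 2 * D = ∑ k ∈ range (m + 1), (2 * (k : ℂ) - m) * (((u k : ℂ) * (u (m - k) : ℂ)) *
        ((-1) ^ k * (tau3 k : ℂ))) := by
      have e7 : ∑ k ∈ range (m + 1), (2 * (k : ℂ) - m) * (((u k : ℂ) * (u (m - k) : ℂ)) *
        ((-1) ^ k * (tau3 k : ℂ))) = D + ∑ k ∈ range (m + 1), (2 * (k : ℂ) - m) *
          ((u k : ℂ) * (u (m - k) : ℂ) * (-w) ^ k) := by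
        rw [hD, ← sum_add_distrib]
        refine sum_congr rfl fun k _ => ?_
        have h5 := tau3_eq w hw2 k
        rw [hzw, neg_pow w k, neg_pow (-1 - w) k]
        linear_combination ((2 * (k : ℂ) - m) * ((u k : ℂ) * (u (m - k) : ℂ)) * (-1) ^ k) * h5
      rw [e7, ← e5]
      ring
    rw [← e4, hε] at e6
    apply Rat.cast_injective (α := ℂ)
    push_cast
    rw [← e6]
    ring

end

end Pool.Agent.Q267.CDE
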