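import Pool.Agent.Q267.CDE.Ext4
import Pool.Agent.Q267.CDE.Luc41
import Pool.Agent.Q267.CDE.W7

/-!
# The Lucas weighted sums at `4` and at `1/4`
-/

namespace Pool.Agent.Q267.CDE.Ext

open Finset Polynomial Pool.Agent.Q267.Seven Pool.Agent.Q267.Landen Pool.Agent.Q261.SC

section

variable {S : Type*} [CommRing S]

/-- Binet -/
theorem luc_binet (r : S) (hr : r ^ 2 = 3) (k : ℕ) :
    2 * r * (luc k : S) = (2 + r) ^ k - (2 - r) ^ k := by
  have key : ∀ n : ℕ, 2 * r * (luc n : S) = (2 + r) ^ n - (2 - r) ^ n ∧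
      2 * r * (luc (n + 1) : S) = (2 + r) ^ (n + 1) - (2 - r) ^ (n + 1) := by
    intro n
    induction n with
    | zero =>
      refine ⟨by simp [luc], ?_⟩
      simp [luc]
      ring
    | succ n ih =>
      refine ⟨ih.2, ?_⟩
      have e : (luc (n + 1 + 1) : S) = 4 * (luc (n + 1) : S) - luc n := by
        have : luc (n + 1 + 1) = 4 * luc (n + 1) - luc n := by rw [luc]
        rw [this]
        push_cast
        ring
      rw [e]
      linear_combination 4 * ih.2 - ih.1 + ((2 - r) ^ n - (2 + r) ^ n) * hr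
  exact (key k).1

/-- the Lucas weighted sums -/
def Lc (m : ℕ) (c : S) : S := ∑ k ∈ range (m + 1), (luc k : S) * ((dl m k : S) * c ^ k)

/-- the Lucas weighted sums with an additional factor -/
def Lc1 (m : ℕ) (c : S) : S :=
  ∑ k ∈ range (m + 1), (k : S) * ((luc k : S) * ((dl m k : S) * c ^ k))

theorem Lc_eq (r : S) (hr : r ^ 2 = 3) (m : ℕ) (c : S) :
    2 * r * Lc m c = Fl m (c * (2 + r)) - Fl m (c * (2 - r)) := by
  unfold Lc Fl
  rw [mul_sum, ← sum_sub_distrib]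
  refine sum_congr rfl fun k _ => ?_
  have h := luc_binet r hr k
  rw [mul_pow, mul_pow]
  linear_combination ((dl m k : S) * c ^ k) * h

theorem Lc1_eq (r : S) (hr : r ^ 2 = 3) (m : ℕ) (c : S) :
    2 * r * Lc1 m c = F1 m (c * (2 + r)) - F1 m (c * (2 - r)) := by
  unfold Lc1 F1
  rw [mul_sum, ← sum_sub_distrib]
  refine sum_congr rfl fun k _ => ?_
  have h := luc_binet r hr k
  rw [mul_pow, mul_pow]
  linear_combination ((k : S) * (dl m k : S) * c ^ k) * h

end

section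

variable {p : ℕ} [hp : Fact p.Prime] {S : Type*} [CommRing S] [Algebra (R p) S]

theorem Lc_map (m : ℕ) (c : R p) : algebraMap (R p) S (Lc m c) = Lc m (algebraMap (R p) S c) := by
  unfold Lc
  rw [map_sum]
  refine sum_congr rfl fun k _ => ?_
  rw [map_mul, map_mul, map_pow, map_intCast, map_intCast]

theorem Lc1_map (m : ℕ) (c : R p) :
    algebraMap (R p) S (Lc1 m c) = Lc1 m (algebraMap (R p) S c) := by
  unfold Lc1
  rw [map_sum]
  refine sum_congr rfl fun k _ => ?_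
  rw [map_mul, map_mul, map_mul, map_pow, map_intCast, map_intCast, map_natCast]

variable {K : Type*} [Field K] [CharP K p] (ρ : S →+* K)
  (hρ : ∀ a b : S, ρ a = ρ b → (p : S) * a = p * b)

include hρ

/-- `p ≡ 1 (mod 12)` -/
theorem final1 (t : ℕ) (ht : p = 12 * t + 1) (I : S) (w J : R p) (hI : I ^ 2 = -1)
    (hw : w ^ 2 + w + 1 = 0) (hJ : 4 * J = 1)
    (hinj : Function.Injective (algebraMap (R p) S)) : Lc (6 * t) (4 : R p) = 0 := by
  have hp2 := hp.out.two_le
  obtain ⟨r, hr⟩ : ∃ r : S, r = -(I * (2 * algebraMap (R p) S w + 1)) := ⟨_, rfl⟩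
  obtain ⟨J', hJ'⟩ : ∃ J' : S, J' = algebraMap (R p) S J := ⟨_, rfl⟩
  have hJ4 : 4 * J' = 1 := by
    have := congrArg (algebraMap (R p) S) hJ
    rw [map_mul, map_ofNat, map_one, ← hJ'] at this
    exact this
  obtain ⟨W, hW⟩ : ∃ W : S, W = algebraMap (R p) S w := ⟨_, rfl⟩
  have hWw : W ^ 2 + W + 1 = 0 := by
    have := congrArg (algebraMap (R p) S) hw
    rw [map_add, map_add, map_pow, map_one, map_zero, ← hW] at this
    exact this
  have hr3 : r ^ 2 = 3 := by
    rw [hr, ← hW]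
    linear_combination (2 * W + 1) ^ 2 * hI - 4 * hWw
  have hw' : (-1 - w) ^ 2 + (-1 - w) + 1 = 0 := by linear_combination hw
  have hr' : -r = -(I * (2 * algebraMap (R p) S (-1 - w) + 1)) := by
    rw [hr, map_sub, map_neg, map_one]
    ring
  have c1 := case1 ρ hρ t ht I r J' w hI hw hr hJ4
  have c2 := case1 ρ hρ t ht I (-r) J' (-1 - w) hI hw' hr' hJ4
  rw [← sub_eq_add_neg, sub_neg_eq_add] at c2
  have e1 : J' * (2 + r) = 1 - J' * (2 - r) := by linear_combination hJ4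
  have e2 : Fl (6 * t) (J' * (2 + r)) = Fl (6 * t) (J' * (2 - r)) := by
    rw [e1, Fl_reflK, show 6 * t = 2 * (3 * t) by ring, pow_mul]
    norm_num
  have e3 := Lc_eq r hr3 (6 * t) (4 : S)
  rw [c1, c2, e2, sub_self] at e3
  apply hinj
  rw [Lc_map, map_zero, map_ofNat]
  have h2u : IsUnit (2 : S) := by
    have := (unit2 (p := p) (by omega)).map (algebraMap (R p) S)
    rwa [map_ofNat] at this
  have h3u : IsUnit (3 : S) := by
    have h := CDE.isUnit_nat p 3 (by omega) (by omega)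
    have h' : IsUnit (3 : R p) := by exact_mod_cast h
    have := h'.map (algebraMap (R p) S)
    rwa [map_ofNat] at this
  have hru : IsUnit r := by
    rw [← hr3] at h3u
    exact (isUnit_pow_iff two_ne_zero).1 h3u
  apply (h2u.mul hru).mul_left_cancel
  rw [mul_zero]
  exact e3

/-- `p ≡ 7 (mod 12)` -/
theorem final7 (t : ℕ) (ht : p = 12 * t + 7) (I : S) (w J y Y : R p) (hI : I ^ 2 = -1)
    (hw : w ^ 2 + w + 1 = 0) (hJ : 4 * J = 1)
    (hinj : Function.Injective (algebraMap (R p) S)) (hY : 6 * y * Y = 1)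
    (hA : D0 p (6 * t + 3) w = -((-1) ^ t * ((2 * w + 1) * (2 * y - p * Y))))
    (hu : IsUnit (D0 p (6 * t + 3) w))
    (hL : Lc (6 * t + 3) J = 2 * y - p * Y) (hL1 : Lc1 (6 * t + 3) J = y) :
    Lc (6 * t + 3) (4 : R p) = 2 * (-1) ^ t * (2 * y - p * Y) ∧
    Lc1 (6 * t + 3) (4 : R p) = -((-1) ^ t * (6 * y - 14 * (p * Y))) := by
  have hp2 := hp.out.two_le
  obtain ⟨m, hm⟩ : ∃ m, m = 6 * t + 3 := ⟨_, rfl⟩
  have hpm : p = 2 * m + 1 := by omega
  have hmo : Odd m := ⟨3 * t + 1, by omega⟩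
  obtain ⟨r, hr⟩ : ∃ r : S, r = -(I * (2 * algebraMap (R p) S w + 1)) := ⟨_, rfl⟩
  obtain ⟨J', hJ'⟩ : ∃ J' : S, J' = algebraMap (R p) S J := ⟨_, rfl⟩
  have hJ4 : 4 * J' = 1 := by
    have := congrArg (algebraMap (R p) S) hJ
    rw [map_mul, map_ofNat, map_one, ← hJ'] at this
    exact this
  obtain ⟨W, hW⟩ : ∃ W : S, W = algebraMap (R p) S w := ⟨_, rfl⟩
  have hWw : W ^ 2 + W + 1 = 0 := by
    have := congrArg (algebraMap (R p) S) hw
    rw [map_add, map_add, map_pow, map_one, map_zero, ← hW] at this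
    exact this
  have hr3 : r ^ 2 = 3 := by
    rw [hr, ← hW]
    linear_combination (2 * W + 1) ^ 2 * hI - 4 * hWw
  have hw' : (-1 - w) ^ 2 + (-1 - w) + 1 = 0 := by linear_combination hw
  have hr' : -r = -(I * (2 * algebraMap (R p) S (-1 - w) + 1)) := by
    rw [hr, map_sub, map_neg, map_one]
    ring
  have h2u : IsUnit (2 : S) := by
    have := (unit2 (p := p) (by omega)).map (algebraMap (R p) S)
    rwa [map_ofNat] at this
  have h3u : IsUnit (3 : S) := by
    have h := CDE.isUnit_nat p 3 (by omega) (by omega)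
    have h' : IsUnit (3 : R p) := by exact_mod_cast h
    have := h'.map (algebraMap (R p) S)
    rwa [map_ofNat] at this
  have hru : IsUnit r := by
    rw [← hr3] at h3u
    exact (isUnit_pow_iff two_ne_zero).1 h3u
  obtain ⟨B0, hB0⟩ := hu.exists_right_inv
  have hD : D0 p m (-1 - w) = -D0 p m w := by
    rw [D0_refl, hmo.neg_one_pow]
    ring
  have c1 := case7 ρ hρ t ht I r J' w hI hw hr hJ4 (-B0) (by
    rw [← hm, hD, neg_mul_neg, hm]
    exact hB0)
  have c2 := case7 ρ hρ t ht I (-r) J' (-1 - w) hI hw' hr' hJ4 B0 (by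
    rw [show (-1 - (-1 - w)) = w by ring]
    exact hB0)
  rw [← hm] at c1 c2 hA hB0 hL hL1 ⊢
  rw [show (-1 - (-1 - w)) = w by ring, ← sub_eq_add_neg, sub_neg_eq_add] at c2
  rw [hD] at c1
  obtain ⟨c1a, c1b⟩ := c1
  obtain ⟨c2a, c2b⟩ := c2
  obtain ⟨A, hAd⟩ : ∃ A : S, A = algebraMap (R p) S (D0 p m w) := ⟨_, rfl⟩
  obtain ⟨B, hBd⟩ : ∃ B : S, B = algebraMap (R p) S B0 := ⟨_, rfl⟩
  rw [map_neg, map_neg, ← hAd, ← hBd] at c1b
  rw [← hAd, ← hBd] at c2b
  have hAB : A * B = 1 := by rw [hAd, hBd, ← map_mul, hB0, map_one]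
  obtain ⟨y', hy'⟩ : ∃ y' : S, y' = algebraMap (R p) S y := ⟨_, rfl⟩
  obtain ⟨Y', hY'⟩ : ∃ Y' : S, Y' = algebraMap (R p) S Y := ⟨_, rfl⟩
  have hYY : 6 * y' * Y' = 1 := by
    have := congrArg (algebraMap (R p) S) hY
    rw [map_mul, map_mul, map_ofNat, map_one, ← hy', ← hY'] at this
    exact this
  have hA2 : A = -((-1) ^ t * ((2 * W + 1) * (2 * y' - p * Y'))) := by
    rw [hAd, hA]
    simp only [map_mul, map_neg, map_pow, map_sub, map_add, map_one, map_ofNat, map_natCast]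
    rw [hy', hY', hW]
  have hLs : Lc m J' = 2 * y' - p * Y' := by
    rw [hJ', ← Lc_map, hL]
    simp only [map_mul, map_sub, map_ofNat, map_natCast]
    rw [hy', hY']
  have hL1s : Lc1 m J' = y' := by rw [hJ', ← Lc1_map, hL1, hy']
  have e1 : J' * (2 + r) = 1 - J' * (2 - r) := by linear_combination hJ4
  have e2 : Fl m (J' * (2 + r)) = -Fl m (J' * (2 - r)) := by
    rw [e1, Fl_reflK, hmo.neg_one_pow]
    ring
  have e3 : (2 - r) * F1 m (J' * (2 + r)) = (2 + r) * F1 m (J' * (2 - r)) := by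
    have h := Fl_refl_deriv m (J' * (2 - r))
    change J' * (2 - r) * F1 m (1 - J' * (2 - r)) =
      -((-1) ^ m * ((1 - J' * (2 - r)) * F1 m (J' * (2 - r)))) at h
    rw [← e1, hmo.neg_one_pow] at h
    linear_combination 4 * h + ((2 + r) * F1 m (J' * (2 - r)) -
      (2 - r) * F1 m (J' * (2 + r))) * hJ4
  have l1 := Lc_eq r hr3 m J'
  have l2 := Lc1_eq r hr3 m J'
  have l3 := Lc_eq r hr3 m (4 : S)
  have l4 := Lc1_eq r hr3 m (4 : S)
  rw [hLs] at l1
  rw [hL1s] at l2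
  rw [c1a, c2a] at l3
  have pp := psq p S
  obtain ⟨ε, hε⟩ : ∃ ε : S, ε = (-1) ^ t := ⟨_, rfl⟩
  have hεε : ε * ε = 1 := by rw [hε, ← mul_pow]; norm_num
  rw [← hε] at c1b c2b l3 hA2
  have h2r : IsUnit (2 * r) := h2u.mul hru
  have hP : (p : S) = 2 * (m : S) + 1 := by
    have := congrArg (Nat.cast : ℕ → S) hpm
    push_cast at this
    exact this
  obtain ⟨G, hG⟩ : ∃ G : S, G = Fl m (J' * (2 - r)) := ⟨_, rfl⟩
  obtain ⟨G', hG'⟩ : ∃ G' : S, G' = Fl m (J' * (2 + r)) := ⟨_, rfl⟩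
  obtain ⟨H, hH⟩ : ∃ H : S, H = F1 m (J' * (2 - r)) := ⟨_, rfl⟩
  obtain ⟨H', hH'⟩ : ∃ H' : S, H' = F1 m (J' * (2 + r)) := ⟨_, rfl⟩
  rw [← hG, ← hG'] at e2 l1 l3
  rw [← hH, ← hH'] at e3 l2
  rw [← hG, ← hH] at c1b
  rw [← hG', ← hH'] at c2b
  have g1 : G = -(r * (2 * y' - p * Y')) := by
    apply h2u.mul_left_cancel
    linear_combination l1 + e2
  have g2 : G' = r * (2 * y' - p * Y') := by rw [e2, g1]; ring
  have g3 : H = (2 - r) * y' := by
    apply h2r.mul_left_cancel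
    linear_combination (-(2 - r)) * l2 - e3
  have g4 : H' = (2 + r) * y' := by
    apply h2r.mul_left_cancel
    linear_combination (-(2 + r)) * l2 - e3
  have hrI : I * (2 * W + 1) = -r := by rw [hr, hW]; ring
  have hIA : I * A = ε * (r * (2 * y' - p * Y')) := by
    rw [hA2]
    linear_combination (-(ε * (2 * y' - p * Y'))) * hrI
  have hIB : (p : S) * (I * B) = -(p * (ε * (r * Y'))) := by
    have h1 : ε * r * (2 * y' - p * Y') * (I * B) = -1 := by
      linear_combination (-(I * B)) * hIA + I ^ 2 * hAB + hI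
    have h2 : (p : S) * (ε * (ε * (r ^ 2 * (2 * y' * (I * B * Y'))))) = -(p * (ε * (r * Y'))) := by
      linear_combination (p * ε * r * Y') * h1 + (ε ^ 2 * r ^ 2 * Y' ^ 2 * I * B) * pp
    linear_combination h2 - (p * (2 * y' * (I * B * Y')) * r ^ 2) * hεε
      - (p * (2 * y' * (I * B * Y'))) * hr3 - (p * (I * B)) * hYY
  constructor
  · apply hinj
    rw [Lc_map, map_ofNat]
    simp only [map_mul, map_neg, map_pow, map_sub, map_one, map_ofNat, map_natCast]
    rw [← hε, ← hy', ← hY']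
    apply h2r.mul_left_cancel
    rw [l3, g1, g2]
    ring
  · apply hinj
    rw [Lc1_map, map_ofNat]
    simp only [map_mul, map_neg, map_pow, map_sub, map_one, map_ofNat, map_natCast]
    rw [← hε, ← hy', ← hY']
    have h4r : IsUnit (2 * (2 * r)) := h2u.mul h2r
    apply h4r.mul_left_cancel
    rw [g1, g3] at c1b
    rw [g2, g4] at c2b
    linear_combination 2 * l4 + c1b - c2b - (12 * p * I * B) * hr3 - 52 * hIB - (4 * p) * hIA
      - (4 * ε * r * (2 * y' - p * Y')) * hP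

end

end Pool.Agent.Q267.CDE.Ext
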