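import Pool.Agent.Q267.CDE.TTri
import Pool.Agent.Q267.CDE.TMod
import Pool.Agent.Q261.SC.Main72

/-!
# The sums of `C(4k,2k) C(2k,k) / 48^k` modulo `p²`, `p ≡ 2 (mod 3)`
-/

namespace Pool.Agent.Q267.CDE

open Finset Pool.Agent.Q267.Seven Pool.Agent.Q261.SC

section alt

variable {K : Type*} [Field K]

theorem alt_step (m : ℕ) (g : ℕ → K) :
    ∑ i ∈ range (m + 1 + 1), (-1) ^ i * ((m + 1).choose i : K) * g i =
      ∑ i ∈ range (m + 1), (-1) ^ i * (m.choose i : K) * (g i - g (i + 1)) := by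
  have h1 : ∑ i ∈ range (m + 1), (-1) ^ i * (m.choose i : K) * g i =
      ∑ i ∈ range (m + 1), (-1) ^ (i + 1) * (m.choose (i + 1) : K) * g (i + 1) + g 0 := by
    have h2 : ∑ i ∈ range (m + 1), (-1) ^ i * (m.choose i : K) * g i =
        ∑ i ∈ range (m + 1 + 1), (-1) ^ i * (m.choose i : K) * g i := by
      rw [sum_range_succ _ (m + 1), Nat.choose_succ_self]
      simp
    rw [h2, sum_range_succ']
    simp
  rw [sum_range_succ']
  simp only [mul_sub, sum_sub_distrib]
  rw [h1, Nat.choose_zero_right, pow_zero, Nat.cast_one, one_mul, one_mul, add_sub_right_comm,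
    ← sum_sub_distrib, add_left_inj]
  refine sum_congr rfl fun i _ => ?_
  rw [Nat.choose_succ_succ, pow_succ]
  push_cast
  ring

theorem alt_inv (m : ℕ) : ∀ x : ℕ, (∀ j : ℕ, 0 < j → j ≤ x + 1 + m → (j : K) ≠ 0) →
    (∑ i ∈ range (m + 1), (-1) ^ i * (m.choose i : K) * (((x + 1 + i : ℕ) : K))⁻¹) *
      ((x + 1 + m).factorial : K) = (m.factorial : K) * (x.factorial : K) := by
  induction m with
  | zero =>
    intro x hx
    have h := hx (x + 1) (by omega) (by omega)
    rw [sum_range_one, Nat.choose_zero_right, add_zero, Nat.factorial_succ]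
    push_cast at h ⊢
    field_simp
    simp
  | succ m ih =>
    intro x hx
    have h1 := ih x (fun j h0 hj => hx j h0 (by omega))
    have h2 := ih (x + 1) (fun j h0 hj => hx j h0 (by omega))
    rw [alt_step]
    have e1 : ∀ i, x + 1 + 1 + i = x + 1 + (i + 1) := fun i => by ring
    simp only [e1] at h2
    simp only [mul_sub, sum_sub_distrib, sub_mul]
    rw [h2]
    have e2 : x + 1 + (m + 1) = (x + 1 + m) + 1 := by ring
    rw [e2, Nat.factorial_succ (x + 1 + m), Nat.factorial_succ m, Nat.factorial_succ x]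
    push_cast at h1 h2 ⊢
    linear_combination ((x : K) + 1 + m + 1) * h1

end alt

section

variable (p : ℕ) [hp : Fact p.Prime]

/-- `(p-1-k)! k! = (-1)^(k+1)` -/
theorem wilson_fact (k : ℕ) (hk : k < p) :
    (((p - 1 - k).factorial : ℕ) : ZMod p) * ((k.factorial : ℕ) : ZMod p) = (-1) ^ (k + 1) := by
  have h1 := choose_pred p k hk
  have h2 := Nat.choose_mul_factorial_mul_factorial (show k ≤ p - 1 by omega)
  have h3 := ZMod.wilsons_lemma p
  have h2' := congrArg (Nat.cast : ℕ → ZMod p) h2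
  push_cast at h2'
  rw [h1, h3] at h2'
  have h4 : ((-1 : ZMod p)) ^ k * (-1) ^ k = 1 := by rw [← mul_pow]; norm_num
  rw [pow_succ]
  linear_combination (-1 : ZMod p) ^ k * h2' - (((p - 1 - k).factorial : ℕ) : ZMod p) *
    ((k.factorial : ℕ) : ZMod p) * h4

theorem neg3_pow (r : ℕ) (hr : p = 6 * r + 5) : (-3 : ZMod p) ^ (3 * r + 2) = -1 := by
  have h30 : (3 : ZMod p) ≠ 0 := by
    have := cast_ne p 3 (by omega) (by omega)
    exact_mod_cast this
  have h20 : (2 : ZMod p) ≠ 0 := by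
    have := cast_ne p 2 (by omega) (by omega)
    exact_mod_cast this
  have hn : (-3 : ZMod p) ≠ 0 := neg_ne_zero.2 h30
  have hp2 : p / 2 = 3 * r + 2 := by omega
  rcases ZMod.pow_div_two_eq_neg_one_or_one p hn with h | h
  · exfalso
    have hsq := (ZMod.euler_criterion p hn).2 h
    obtain ⟨s, hs⟩ := hsq
    set w : ZMod p := (s - 1) * 2⁻¹ with hw
    have h2i : (2 : ZMod p) * 2⁻¹ = 1 := mul_inv_cancel₀ h20
    have h1 : w ^ 2 + w + 1 = 0 := by
      have : (4 : ZMod p) ≠ 0 := by
        rw [show (4 : ZMod p) = 2 * 2 by norm_num]; exact mul_ne_zero h20 h20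
      apply (mul_eq_zero.1 (_ : (4 : ZMod p) * (w ^ 2 + w + 1) = 0)).resolve_left this
      have e : 2 * w = s - 1 := by rw [hw]; linear_combination (s - 1) * h2i
      linear_combination (2 * w + s + 1) * e - hs
    have h3 : w ^ 3 = 1 := by linear_combination (w - 1) * h1
    have hw1 : w ≠ 1 := by
      intro h4
      rw [h4] at h1
      apply h30
      linear_combination h1
    have hw0 : w ≠ 0 := by
      intro h4
      rw [h4] at h1
      simp at h1
    have h5 : Fact (Nat.Prime 3) := ⟨by norm_num⟩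
    have h6 : orderOf w = 3 := orderOf_eq_prime h3 hw1
    have h7 := ZMod.orderOf_dvd_card_sub_one hw0
    rw [h6] at h7
    omega
  · rw [hp2] at h
    exact h

/-- the alternating sum -/
noncomputable def Ea (r : ℕ) : ZMod p :=
  ∑ i ∈ range (3 * r + 2 + 1), (-1) ^ i * ((3 * r + 2).choose i : ZMod p) * (3 * (i : ZMod p) + 1)⁻¹

theorem Ea_val (r : ℕ) (hr : p = 6 * r + 5) :
    Ea p r * (((3 * r + 3).choose (r + 1) : ℕ) : ZMod p) = 3 := by
  have h30 : (3 : ZMod p) ≠ 0 := by
    have := cast_ne p 3 (by omega) (by omega)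
    exact_mod_cast this
  have hP : (6 : ZMod p) * r + 5 = 0 := by
    have h := congrArg (Nat.cast : ℕ → ZMod p) hr
    rw [CharP.cast_eq_zero (ZMod p) p] at h
    push_cast at h
    exact h.symm
  have h1 := alt_inv (K := ZMod p) (3 * r + 2) (2 * r + 1)
    (fun j h0 hj => cast_ne p j h0 (by omega))
  have e1 : 3 * Ea p r = ∑ i ∈ range (3 * r + 2 + 1), (-1) ^ i * ((3 * r + 2).choose i : ZMod p) *
      (((2 * r + 1 + 1 + i : ℕ) : ZMod p))⁻¹ := by
    unfold Ea
    rw [mul_sum]
    refine sum_congr rfl fun i _ => ?_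
    have e2 : 3 * (i : ZMod p) + 1 = 3 * ((2 * r + 1 + 1 + i : ℕ) : ZMod p) := by
      push_cast
      linear_combination -hP
    rw [e2, mul_inv]
    have e3 : (3 : ZMod p) * 3⁻¹ = 1 := mul_inv_cancel₀ h30
    linear_combination ((-1) ^ i * ((3 * r + 2).choose i : ZMod p) *
      (((2 * r + 1 + 1 + i : ℕ) : ZMod p))⁻¹) * e3
  rw [← e1] at h1
  have w1 := wilson_fact p r (by omega)
  have w2 := wilson_fact p (3 * r + 2) (by omega)
  rw [show p - 1 - r = 5 * r + 4 by omega] at w1
  rw [show p - 1 - (3 * r + 2) = 3 * r + 2 by omega] at w2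
  rw [show 2 * r + 1 + 1 + (3 * r + 2) = 5 * r + 4 by omega] at h1
  have h4 := Nat.choose_mul_factorial_mul_factorial (show r + 1 ≤ 3 * r + 3 by omega)
  rw [show 3 * r + 3 - (r + 1) = (2 * r + 1) + 1 by omega, Nat.factorial_succ r,
    show 3 * r + 3 = (3 * r + 2) + 1 by ring, Nat.factorial_succ (3 * r + 2),
    Nat.factorial_succ (2 * r + 1)] at h4
  have h4' := congrArg (Nat.cast : ℕ → ZMod p) h4
  push_cast at h4'
  rw [show 3 * r + 3 = (3 * r + 2) + 1 by ring]
  set c := (((3 * r + 2 + 1).choose (r + 1) : ℕ) : ZMod p) with hc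
  set f5 := (((5 * r + 4).factorial : ℕ) : ZMod p)
  set fr := ((r.factorial : ℕ) : ZMod p)
  set f3 := (((3 * r + 2).factorial : ℕ) : ZMod p)
  set f2 := (((2 * r + 1).factorial : ℕ) : ZMod p)
  have hf2 : f2 ≠ 0 := by
    intro h
    rw [ZMod.natCast_eq_zero_iff, hp.out.dvd_factorial] at h
    omega
  have hr1 : ((r : ZMod p) + 1) ≠ 0 := by
    have := cast_ne p (r + 1) (by omega) (by omega)
    exact_mod_cast this
  have hs : ((-1 : ZMod p)) ^ (r + 1) * (-1) ^ (r + 1) = 1 := by rw [← mul_pow]; norm_num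
  have hs2 : ((-1 : ZMod p)) ^ (3 * r + 2 + 1) = (-1) ^ (r + 1) := by
    rw [show 3 * r + 2 + 1 = 2 * (r + 1) + (r + 1) by ring, pow_add, pow_mul]
    norm_num
  rw [hs2] at w2
  set s : ZMod p := (-1) ^ (r + 1)
  have hA : c * fr * f2 = 9 * f3 := by
    apply mul_left_cancel₀ hr1
    linear_combination 3 * h4' - (c * ((r + 1) * fr) * f2) * hP
  apply mul_left_cancel₀ h30
  linear_combination (s * c * fr) * h1 - (3 * Ea p r * c * s) * w1 + (s * f3) * hA + (9 * s) * w2
    + (9 - 3 * Ea p r * c) * hs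

/-! ### the values of `T` -/

theorem T_low (r : ℕ) (hr : p = 6 * r + 5) : (T (3 * r + 2) : R p) = p * lift p
    (∑ j ∈ range (3 * r + 2 + 1), (-1) ^ j * ((3 * r + 2).choose j : ZMod p) *
      (if j < 2 * r + 2 then 0 else (3 * (j : ZMod p) + 1)⁻¹)) := by
  have hP : (6 : ZMod p) * r + 5 = 0 := by
    have h := congrArg (Nat.cast : ℕ → ZMod p) hr
    rw [CharP.cast_eq_zero (ZMod p) p] at h
    push_cast at h
    exact h.symm
  have e1 : (T (3 * r + 2) : R p) = ∑ j ∈ range (3 * r + 2 + 1), p * ((-1) ^ j *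
      ((3 * r + 2).choose j : R p) * lift p (if j < 2 * r + 2 then 0 else (3 * (j : ZMod p) + 1)⁻¹)) := by
    unfold T
    push_cast
    refine sum_congr rfl fun j hj => ?_
    rw [mem_range] at hj
    by_cases h : j < 2 * r + 2
    · rw [if_pos h, Nat.choose_eq_zero_of_lt (show 3 * j < 2 * (3 * r + 2) by omega)]
      have : (p : R p) * lift p (0 : ZMod p) = p * 0 := by
        apply p_mul_eq
        rw [red_lift, map_zero]
      linear_combination (-((-1) ^ j * ((3 * r + 2).choose j : R p))) * this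
    · rw [if_neg h]
      have e2 := choose_R p (3 * r + 2) (3 * j - (6 * r + 5)) (by omega) (by omega)
      rw [show 2 * (3 * r + 2) + (3 * j - (6 * r + 5) + 1) = 3 * j by omega] at e2
      have e3 : ((3 * j - (6 * r + 5) : ℕ) : ZMod p) + 1 = 3 * (j : ZMod p) + 1 := by
        rw [Nat.cast_sub (by omega)]
        push_cast
        linear_combination -hP
      rw [e2, e3]
      ring
  rw [e1, ← mul_sum]
  apply p_mul_eq
  rw [red_lift, map_sum]
  refine sum_congr rfl fun j _ => ?_
  rw [map_mul, map_mul, red_lift, map_pow, map_neg, map_one, red_nat]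

theorem big_choose (i : ℕ) (hi : 3 * i < 2 * p) (hu : ((3 * i + 1 : ℕ) : ZMod p) ≠ 0) :
    (((3 * p + 3 * i).choose (3 * i + 1) : ℕ) : R p) =
      p * lift p (3 * (if 3 * i < p then 1 else 4) * (3 * (i : ZMod p) + 1)⁻¹) := by
  have h0 := hp.out.pos
  have hU : IsUnit (((3 * i + 1 : ℕ)) : R p) := by
    apply isUnit_of_red
    rw [red_nat]
    exact hu
  apply hU.mul_left_cancel
  have h1 := Nat.choose_succ_right_eq (3 * p + 3 * i) (3 * i)
  rw [show 3 * p + 3 * i - 3 * i = 3 * p by omega] at h1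
  have h1' := congrArg (Nat.cast : ℕ → R p) h1
  push_cast at h1'
  have h2 : (((3 * p + 3 * i).choose (3 * i) : ℕ) : ZMod p) = if 3 * i < p then 1 else 4 := by
    have h3 := Choose.choose_modEq_choose_mod_mul_choose_div_nat (p := p) (n := 3 * p + 3 * i)
      (k := 3 * i)
    rw [← ZMod.natCast_eq_natCast_iff] at h3
    rw [h3]
    by_cases h : 3 * i < p
    · have e1 : (3 * p + 3 * i) % p = 3 * i := by
        rw [show 3 * p + 3 * i = 3 * i + p * 3 by ring, Nat.add_mul_mod_self_left,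
          Nat.mod_eq_of_lt h]
      rw [if_pos h, e1, Nat.mod_eq_of_lt h, Nat.choose_self, Nat.div_eq_of_lt h,
        Nat.choose_zero_right]
      simp
    · rw [if_neg h]
      obtain ⟨t, ht⟩ : ∃ t, 3 * i = p + t := ⟨3 * i - p, by omega⟩
      rw [ht]
      have ht' : t < p := by omega
      have e1 : (3 * p + (p + t)) % p = t := by
        rw [show 3 * p + (p + t) = t + p * 4 by ring, Nat.add_mul_mod_self_left,
          Nat.mod_eq_of_lt ht']
      have e2 : (3 * p + (p + t)) / p = 4 := by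
        rw [show 3 * p + (p + t) = t + p * 4 by ring, Nat.add_mul_div_left _ _ h0,
          Nat.div_eq_of_lt ht']
      have e3 : (p + t) % p = t := by rw [Nat.add_mod_left, Nat.mod_eq_of_lt ht']
      have e4 : (p + t) / p = 1 := by rw [Nat.add_div_left _ h0, Nat.div_eq_of_lt ht']
      rw [e1, e2, e3, e4, Nat.choose_self]
      norm_num
  have h5 : (p : R p) * (3 * (((3 * p + 3 * i).choose (3 * i) : ℕ) : R p)) =
      p * ((3 * (i : R p) + 1) * lift p (3 * (if 3 * i < p then 1 else 4) *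
        (3 * (i : ZMod p) + 1)⁻¹)) := by
    apply p_mul_eq
    rw [map_mul, map_mul, red_lift, red_nat, h2, map_ofNat, map_add, map_mul, map_ofNat, red_nat,
      map_one]
    push_cast at hu
    have h6 : (3 * (i : ZMod p) + 1) * (3 * (i : ZMod p) + 1)⁻¹ = 1 := mul_inv_cancel₀ hu
    linear_combination (-(3 * (if 3 * i < p then 1 else 4))) * h6
  push_cast
  linear_combination h1' + h5

theorem T_high (r : ℕ) (hr : p = 6 * r + 5) : (T (3 * r + 2 + p) : R p) = -(p * lift p
    (∑ j ∈ range (3 * r + 2 + 1), (-1) ^ j * ((3 * r + 2).choose j : ZMod p) *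
      (3 * (if j < 2 * r + 2 then 1 else 4) * (3 * (j : ZMod p) + 1)⁻¹))) := by
  have h0 := hp.out.pos
  have hodd : Odd p := ⟨3 * r + 2, by omega⟩
  unfold T
  push_cast
  rw [show 3 * r + 2 + p + 1 = p + (3 * r + 2 + 1) by ring, sum_range_add]
  have e0 : ∑ j ∈ range p, (-1 : R p) ^ j * ((3 * r + 2 + p).choose j : R p) *
      ((3 * j).choose (2 * (3 * r + 2 + p)) : R p) = 0 := by
    refine sum_eq_zero fun j hj => ?_
    rw [mem_range] at hj
    rw [Nat.choose_eq_zero_of_lt (show 3 * j < 2 * (3 * r + 2 + p) by omega)]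
    simp
  rw [e0, zero_add]
  have e1 : ∑ j ∈ range (3 * r + 2 + 1), (-1 : R p) ^ (p + j) *
      ((3 * r + 2 + p).choose (p + j) : R p) *
      ((3 * (p + j)).choose (2 * (3 * r + 2 + p)) : R p) =
      ∑ j ∈ range (3 * r + 2 + 1), p * (-((-1) ^ j * ((3 * r + 2 + p).choose (p + j) : R p) *
        lift p (3 * (if 3 * j < p then 1 else 4) * (3 * (j : ZMod p) + 1)⁻¹))) := by
    refine sum_congr rfl fun j hj => ?_
    rw [mem_range] at hj
    have e2 : (3 * (p + j)).choose (2 * (3 * r + 2 + p)) = (3 * p + 3 * j).choose (3 * j + 1) := by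
      rw [← Nat.choose_symm (show 3 * j + 1 ≤ 3 * p + 3 * j by omega)]
      congr 1
      · ring
      · omega
    have hu : ((3 * j + 1 : ℕ) : ZMod p) ≠ 0 := by
      rw [Ne, ZMod.natCast_eq_zero_iff]
      rintro ⟨c, hc⟩
      have hc2 : c < 2 := by
        by_contra h
        have h1 : 2 ≤ c := by omega
        have h2 : p * 2 ≤ p * c := Nat.mul_le_mul_left _ h1
        omega
      interval_cases c <;> omega
    rw [e2, big_choose p j (by omega) hu, pow_add, hodd.neg_one_pow]
    ring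
  rw [e1, ← mul_sum, ← mul_neg]
  apply p_mul_eq
  rw [map_neg, red_lift, map_sum, ← sum_neg_distrib]
  refine sum_congr rfl fun j hj => ?_
  rw [mem_range] at hj
  rw [map_neg, map_mul, map_mul, red_lift, map_pow, map_neg, map_one, red_nat]
  have e3 : (((3 * r + 2 + p).choose (p + j) : ℕ) : ZMod p) = ((3 * r + 2).choose j : ZMod p) := by
    have h3 := Choose.choose_modEq_choose_mod_mul_choose_div_nat (p := p) (n := 3 * r + 2 + p)
      (k := p + j)
    rw [← ZMod.natCast_eq_natCast_iff] at h3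
    rw [h3, Nat.add_mod_right, Nat.mod_eq_of_lt (show 3 * r + 2 < p by omega), Nat.add_mod_left,
      Nat.mod_eq_of_lt (show j < p by omega), Nat.add_div_right _ h0,
      Nat.div_eq_of_lt (show 3 * r + 2 < p by omega), Nat.add_div_left _ h0,
      Nat.div_eq_of_lt (show j < p by omega), Nat.choose_self, mul_one]
  rw [e3]
  have e4 : (3 * j < p) ↔ (j < 2 * r + 2) := by omega
  simp only [e4]

/-! ### the sums -/

/-- the sums with upper parameter `n` -/
noncomputable def fR (z : R p) (n : ℕ) : R p :=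
  ∑ k ∈ range p, (((n.choose (2 * k) * (2 * k).choose k : ℕ) : R p) * z ^ k)

omit hp in
theorem fR_T (z : R p) (hz : 3 * z = 1) (n : ℕ) (hn : n < 2 * p) :
    (-3) ^ n * fR p z n = (T n : R p) := by
  rw [T_tri]
  push_cast
  rw [neg_pow, mul_assoc]
  congr 1
  unfold fR
  rw [mul_sum]
  have e1 : ∀ k, 3 ^ n * ((((n.choose (2 * k) * (2 * k).choose k : ℕ)) : R p) * z ^ k) =
      (n.choose (2 * k) : R p) * ((2 * k).choose k : R p) * 3 ^ (n - k) := by
    intro k
    rcases le_or_gt (2 * k) n with hkn | hkn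
    · have e2 : (3 : R p) ^ n * z ^ k = 3 ^ (n - k) := by
        have e3 : (3 : R p) ^ n = 3 ^ (n - k) * 3 ^ k := by rw [← pow_add]; congr 1; omega
        rw [e3, mul_assoc, ← mul_pow, hz, one_pow, mul_one]
      rw [← e2]
      push_cast
      ring
    · rw [Nat.choose_eq_zero_of_lt hkn]
      simp
  rw [sum_congr rfl fun k _ => e1 k]
  have z1 : ∀ k, n < 2 * k → (n.choose (2 * k) : R p) * ((2 * k).choose k : R p) * 3 ^ (n - k) = 0 := by
    intro k hk
    rw [Nat.choose_eq_zero_of_lt hk]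
    simp
  rcases le_total p (n + 1) with h | h
  · refine sum_subset (range_subset_range.2 h) fun k _ hk => z1 k ?_
    rw [mem_range] at hk
    omega
  · refine (sum_subset (range_subset_range.2 h) fun k _ hk => z1 k ?_).symm
    rw [mem_range] at hk
    omega

theorem case48b (r : ℕ) (hr : p = 6 * r + 5) (c : R p) (hc : 48 * c = 1) :
    2 * (((3 * r + 3).choose (r + 1) : ℕ) : R p) * SA p c = 3 * p := by
  have hpm : p = 2 * (3 * r + 2) + 1 := by omega
  obtain ⟨J, hJ⟩ : ∃ J : R p, 16 * J = 1 := ⟨3 * c, by linear_combination hc⟩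
  obtain ⟨z, hz3⟩ : ∃ z : R p, 3 * z = 1 := ⟨16 * c, by linear_combination hc⟩
  have hzJ : z * J = c := by
    linear_combination (-(z * J)) * hc + (16 * c * J) * hz3 + c * hJ
  have h1 := extrap p hpm (fun _ => 1) z J hJ
  simp only [one_mul] at h1
  rw [hzJ] at h1
  have h2 := fR_T p z hz3 (3 * r + 2) (by omega)
  have h3 := fR_T p z hz3 (3 * r + 2 + p) (by omega)
  rw [T_low p r hr] at h2
  rw [T_high p r hr] at h3
  unfold fR at h2 h3
  set S1 := ∑ k ∈ range p, ((((3 * r + 2).choose (2 * k) * (2 * k).choose k : ℕ) : R p) * z ^ k)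
  set S2 := ∑ k ∈ range p, ((((3 * r + 2 + p).choose (2 * k) * (2 * k).choose k : ℕ) : R p) * z ^ k)
  set L1 := ∑ j ∈ range (3 * r + 2 + 1), (-1) ^ j * ((3 * r + 2).choose j : ZMod p) *
      (if j < 2 * r + 2 then 0 else (3 * (j : ZMod p) + 1)⁻¹) with hL1
  set L2 := ∑ j ∈ range (3 * r + 2 + 1), (-1) ^ j * ((3 * r + 2).choose j : ZMod p) *
      (3 * (if j < 2 * r + 2 then 1 else 4) * (3 * (j : ZMod p) + 1)⁻¹) with hL2
  have hL : L2 = 3 * Ea p r + 9 * L1 := by
    rw [hL1, hL2]
    unfold Ea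
    rw [mul_sum, mul_sum, ← sum_add_distrib]
    refine sum_congr rfl fun j _ => ?_
    split_ifs <;> ring
  have hS : 2 * ((-3) ^ (3 * r + 2 + p) * SA p c) = p * (3 * lift p (Ea p r)) := by
    unfold SA
    have e1 : (p : R p) * (3 * (-3) ^ p * lift p L1 + lift p L2) = p * (3 * lift p (Ea p r)) := by
      apply p_mul_eq
      simp only [map_add, map_mul, map_pow, map_neg, map_ofNat, red_lift]
      rw [ZMod.pow_card, hL]
      ring
    rw [pow_add] at h3 ⊢
    linear_combination ((-3) ^ (3 * r + 2) * (-3) ^ p) * h1 + (3 * (-3) ^ p) * h2 - h3 + e1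
  have h3u : IsUnit ((-3 : R p) ^ (3 * r + 2 + p)) := by
    apply IsUnit.pow
    apply IsUnit.of_mul_eq_one (-z)
    linear_combination hz3
  apply h3u.mul_left_cancel
  have e2 : (p : R p) * ((((3 * r + 3).choose (r + 1) : ℕ) : R p) * (3 * lift p (Ea p r))) =
      p * ((-3) ^ (3 * r + 2 + p) * 3) := by
    apply p_mul_eq
    simp only [map_mul, map_pow, map_neg, map_ofNat, red_lift, red_nat]
    rw [pow_add, neg3_pow p r hr, ZMod.pow_card]
    have h5 := Ea_val p r hr
    linear_combination 3 * h5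
  linear_combination (((3 * r + 3).choose (r + 1) : ℕ) : R p) * hS + e2

end

end Pool.Agent.Q267.CDE
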