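import Pool.Agent.Q267.CDE.Cen4
import Pool.Agent.Q267.CDE.A3
import Pool.Agent.Y153.QN3.Jac

/-!
# The quartic Jacobi sum modulo `p²`
-/

namespace Pool.Agent.Q267.CDE

open Finset Pool.Agent.Y153.QN3

section

variable {p : ℕ} [hp : Fact p.Prime]

/-- the image of `i` -/
noncomputable def Iw (φ : GaussianInt →+* ZMod p) : R p := om p (φ ⟨0, 1⟩)

theorem phi_i (φ : GaussianInt →+* ZMod p) : φ ⟨0, 1⟩ * φ ⟨0, 1⟩ = -1 := by
  rw [← map_mul]
  have : (⟨0, 1⟩ : GaussianInt) * ⟨0, 1⟩ = -1 := by decide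
  rw [this, map_neg, map_one]

theorem Iw_sq (hp4 : p % 4 = 1) (φ : GaussianInt →+* ZMod p) : Iw φ * Iw φ = -1 := by
  unfold Iw
  rw [← om_mul, phi_i, om_neg p (Nat.odd_iff.2 (by omega)), om_one]

/-- the homomorphism `ℤ[i] → ℤ/p²` -/
noncomputable def Phi4 (hp4 : p % 4 = 1) (φ : GaussianInt →+* ZMod p) : GaussianInt →+* R p :=
  Zsqrtd.lift ⟨Iw φ, by rw [Iw_sq hp4]; norm_num⟩

theorem Phi4_apply (hp4 : p % 4 = 1) (φ : GaussianInt →+* ZMod p) (u : GaussianInt) :
    Phi4 hp4 φ u = (u.re : R p) + u.im * Iw φ := rfl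

theorem phi_apply4 (φ : GaussianInt →+* ZMod p) (u : GaussianInt) :
    φ u = (u.re : ZMod p) + u.im * φ ⟨0, 1⟩ := by
  have : u = (u.re : GaussianInt) + (u.im : GaussianInt) * ⟨0, 1⟩ := by
    ext
    · simp
    · simp
  conv_lhs => rw [this]
  rw [map_add, map_mul, map_intCast, map_intCast]

theorem Phi4_U (hp4 : p % 4 = 1) (φ : GaussianInt →+* ZMod p) {u : GaussianInt} (hu : Y153.QN3.U u) :
    Phi4 hp4 φ u = om p (φ u) := by
  have hodd : Odd p := Nat.odd_iff.2 (by omega)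
  rcases U_cases hu with h | h | h | h | h
  · rw [h, map_zero, map_zero, om_zero]
  · rw [h, map_one, map_one, om_one]
  · rw [h, map_neg, map_one, map_neg, map_one, om_neg p hodd, om_one]
  · rw [h, Phi4_apply]
    simp [Iw]
  · have e : (⟨0, -1⟩ : GaussianInt) = -⟨0, 1⟩ := by decide
    rw [h, e, map_neg, map_neg, om_neg p hodd, Phi4_apply]
    simp [Iw]

theorem Phi4_chi (hp4 : p % 4 = 1) (φ : GaussianInt →+* ZMod p) (t : ZMod p) :
    Phi4 hp4 φ (chi φ hp4 t) = om p t ^ ((p - 1) / 4) := by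
  rw [Phi4_U hp4 φ (chi_U φ hp4 t), map_chi, om_pow]

theorem star_U {u : GaussianInt} (hu : Y153.QN3.U u) : star u = u ^ 3 := by
  rcases U_cases hu with h | h | h | h | h <;> rw [h] <;> decide

/-- the Jacobi sum -/
theorem V4_eq (n : ℕ) (hn : p = 4 * n + 1) (hp4 : p % 4 = 1) (φ : GaussianInt →+* ZMod p) :
    ∑ t : ZMod p, om p t ^ (p - 1 - n) * om p (1 - t) ^ (2 * n) =
      Phi4 hp4 φ (star (J φ hp4)) := by
  unfold J jacobiSum
  rw [star_sum, map_sum]
  refine sum_congr rfl fun t _ => ?_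
  have h1 : star (((chi φ hp4) ^ 2) (1 - t)) = ((chi φ hp4) (1 - t)) ^ 2 := by
    rw [MulChar.pow_apply' _ (by norm_num), chi_sq]
    ext
    · simp
    · simp
  rw [star_mul, h1, star_U (chi_U φ hp4 t), map_mul, map_pow, map_pow, Phi4_chi, Phi4_chi, ← pow_mul,
    ← pow_mul, show (p - 1) / 4 * 2 = 2 * n by omega, show (p - 1) / 4 * 3 = p - 1 - n by omega]
  ring

/-- the value of the Jacobi sum -/
theorem gauss4 (n : ℕ) (hn : p = 4 * n + 1) (x y : ℤ) (hxy : (p : ℤ) = x ^ 2 + y ^ 2)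
    (hx : x % 4 = 1) : ∃ I : R p, I * I = -1 ∧ (x : ZMod p) * red p I = y ∧
      ∑ t : ZMod p, om p t ^ (p - 1 - n) * om p (1 - t) ^ (2 * n) =
        -((-1) ^ n * ((x : R p) - y * I)) := by
  have hp4 : p % 4 = 1 := by omega
  have hnorm : (⟨x, y⟩ : GaussianInt).norm = (p : ℤ) := by
    rw [Zsqrtd.norm_def, hxy]; ring
  obtain ⟨φ, hφ⟩ := exists_red (⟨x, y⟩ : GaussianInt) hnorm
  have hJ := J_eq hφ hnorm hp4
  refine ⟨Iw φ, Iw_sq hp4 φ, ?_, ?_⟩
  · have h0 : φ ⟨x, y⟩ = 0 := (hφ _).2 dvd_rfl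
    rw [phi_apply4] at h0
    have h1 := phi_i φ
    unfold Iw
    rw [red_om]
    simp only at h0
    linear_combination (φ ⟨0, 1⟩) * h0 - (y : ZMod p) * h1
  · rw [V4_eq n hn hp4 φ, hJ]
    have hy2 : y % 2 = 0 := by
      have h1 : ((p : ℤ)) % 2 = 1 := by omega
      rw [hxy] at h1
      have h2 : x % 2 = 1 := by omega
      rcases Int.emod_two_eq_zero_or_one y with h | h
      · exact h
      · exfalso
        have e1 : x ^ 2 % 2 = 1 := by rw [pow_two, Int.mul_emod, h2]; norm_num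
        have e2 : y ^ 2 % 2 = 1 := by rw [pow_two, Int.mul_emod, h]; norm_num
        omega
    have hx4 : ((x : ℤ) : ZMod 4) = 1 := by
      have h9 : ((x - 1 : ℤ) : ZMod 4) = 0 := by
        rw [ZMod.intCast_zmod_eq_zero_iff_dvd]
        push_cast
        omega
      push_cast at h9
      linear_combination h9
    obtain ⟨s, hs⟩ : ∃ s, x = 4 * s + 1 := ⟨x / 4, by omega⟩
    have hcase : y % 4 = 0 ∨ y % 4 = 2 := by omega
    rcases hcase with h | h
    · have hy4 : ((y : ℤ) : ZMod 4) = 0 := by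
        rw [ZMod.intCast_zmod_eq_zero_iff_dvd]
        push_cast
        omega
      have hw : prim (⟨x, y⟩ : GaussianInt) = ⟨x, y⟩ := by
        unfold prim w
        simp only
        rw [hx4, hy4]
        have : wf 1 0 = 1 := by decide
        rw [this, one_mul]
      obtain ⟨t, ht⟩ : ∃ t, y = 4 * t := ⟨y / 4, by omega⟩
      have hne : Even n := by
        have h1 : (4 * (n : ℤ) + 1) = (4 * s + 1) ^ 2 + (4 * t) ^ 2 := by
          rw [← hs, ← ht, ← hxy, hn]; push_cast; ring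
        have h2 : (n : ℤ) = 2 * (2 * s ^ 2 + s + 2 * t ^ 2) := by linarith
        have h3 : (n : ℤ) % 2 = 0 := by rw [h2]; exact Int.mul_emod_right _ _
        exact Nat.even_iff.2 (by omega)
      rw [hw, hne.neg_one_pow, star_neg, map_neg, Phi4_apply]
      simp
      ring
    · have hy4 : ((y : ℤ) : ZMod 4) = 2 := by
        have h9 : ((y - 2 : ℤ) : ZMod 4) = 0 := by
          rw [ZMod.intCast_zmod_eq_zero_iff_dvd]
          push_cast
          omega
        push_cast at h9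
        linear_combination h9
      have hw : prim (⟨x, y⟩ : GaussianInt) = -⟨x, y⟩ := by
        unfold prim w
        simp only
        rw [hx4, hy4]
        have : wf 1 2 = -1 := by decide
        rw [this]
        ring
      obtain ⟨t, ht⟩ : ∃ t, y = 4 * t + 2 := ⟨y / 4, by omega⟩
      have hne : Odd n := by
        have h1 : (4 * (n : ℤ) + 1) = (4 * s + 1) ^ 2 + (4 * t + 2) ^ 2 := by
          rw [← hs, ← ht, ← hxy, hn]; push_cast; ring
        have h2 : (n : ℤ) = 2 * (2 * s ^ 2 + s + 2 * t ^ 2 + 2 * t) + 1 := by linarith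
        exact Nat.odd_iff.2 (by omega)
      rw [hw, hne.neg_one_pow, neg_neg, Phi4_apply]
      simp
      ring

end

end Pool.Agent.Q267.CDE
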