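import Pool.Agent.Q267.CDE.Trig2

/-!
# Symmetry, the value at `1/2`, and the expansion at `ab = 1`, `a² = 2`
-/

namespace Pool.Agent.Q267.CDE

open Finset Pool.Agent.Q267.Seven Pool.Agent.Q267.S16

theorem Fl_refl (m : ℕ) (x : ℤ) : Fl m (1 - x) = (-1) ^ m * Fl m x := by
  have key : ∀ n, Fl n (1 - x) = (-1) ^ n * Fl n x ∧
      Fl (n + 1) (1 - x) = (-1) ^ (n + 1) * Fl (n + 1) x := by
    intro n
    induction n with
    | zero =>
      constructor
      · simp [Fl, dl]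
      · simp [Fl, dl, sum_range_succ]
        ring
    | succ n ih =>
      refine ⟨ih.2, ?_⟩
      have h1 := Fl_rec n (1 - x)
      have h2 := Fl_rec n x
      have hn : ((n : ℤ) + 2) ≠ 0 := by positivity
      apply mul_left_cancel₀ hn
      have e1 := ih.1
      have e2 := ih.2
      rw [show n + 1 + 1 = n + 2 from rfl, h1, e1, e2]
      have e3 : (-1 : ℤ) ^ (n + 2) = (-1) ^ n := by rw [pow_add]; norm_num
      have e4 : (-1 : ℤ) ^ (n + 1) = -(-1) ^ n := by rw [pow_succ]; ring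
      rw [e3, e4]
      linear_combination (-(-1) ^ n) * h2
  exact (key m).1

theorem Fl_half (n : ℕ) : (4 : ℚ) ^ n * Fl (2 * n) (1 / 2 : ℚ) =
    (-1) ^ n * (((2 * n).choose n : ℕ) : ℚ) := by
  induction n with
  | zero => simp [Fl, dl]
  | succ n ih =>
    have h1 := Fl_rec (2 * n) (1 / 2 : ℚ)
    have h2 := Nat.succ_mul_centralBinom_succ n
    have h2' : (((n + 1) * (n + 1).centralBinom : ℕ) : ℚ) =
      ((2 * (2 * n + 1) * n.centralBinom : ℕ) : ℚ) := by rw [h2]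
    rw [Nat.centralBinom, Nat.centralBinom] at h2'
    push_cast at h1 h2' ih
    have hn : ((n : ℚ) + 1) ≠ 0 := by positivity
    apply mul_left_cancel₀ hn
    rw [show 2 * (n + 1) = 2 * n + 2 by ring] at h2' ⊢
    rw [pow_succ, pow_succ]
    linear_combination (2 * (4 : ℚ) ^ n) * h1 - (2 * (2 * (n : ℚ) + 1)) * ih + (-1) ^ n * h2'

/-- the integral form -/
theorem Fl_half_int (n : ℕ) : ∑ k ∈ range (2 * n + 1), dl (2 * n) k * 2 ^ (2 * n - k) =
    (-1) ^ n * (((2 * n).choose n : ℕ) : ℤ) := by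
  have h := Fl_half n
  have e : (4 : ℚ) ^ n * Fl (2 * n) (1 / 2 : ℚ) =
      ∑ k ∈ range (2 * n + 1), (dl (2 * n) k : ℚ) * 2 ^ (2 * n - k) := by
    unfold Fl
    rw [mul_sum]
    refine sum_congr rfl fun k hk => ?_
    have hk' : k ≤ 2 * n := by simpa [Nat.lt_succ_iff] using hk
    have h4 : (4 : ℚ) ^ n = 2 ^ (2 * n - k) * 2 ^ k := by
      rw [← pow_add, Nat.sub_add_cancel hk', pow_mul]
      norm_num
    have h5 : (2 : ℚ) ^ k * (1 / 2) ^ k = 1 := by rw [← mul_pow]; norm_num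
    rw [h4]
    linear_combination ((dl (2 * n) k : ℚ) * 2 ^ (2 * n - k)) * h5
  rw [e] at h
  exact_mod_cast h

/-- the expansion at `a² = 2`, `ab = 1` -/
theorem trig_two {K : Type*} [Field K] [CharZero K] (n : ℕ) (a b x : K) (ha : a ^ 2 = 2)
    (hab : a * b = 1) (hx : 1 - 2 * x = (a + b) / 2) :
    2 ^ n * Fl (2 * n) x = ∑ k ∈ range (2 * n + 1), (u k : K) * (u (2 * n - k) : K) * 2 ^ k := by
  rw [Fl_trig (2 * n) x a b hab hx, Wt_range, mul_sum]
  refine sum_congr rfl fun k hk => ?_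
  have hk' : k ≤ 2 * n := by simpa [Nat.lt_succ_iff] using hk
  have h1 : (2 : K) ^ n = a ^ (2 * n - k) * a ^ k := by
    rw [← pow_add, Nat.sub_add_cancel hk', pow_mul, ha]
  have h2 : (2 : K) ^ k = a ^ k * a ^ k := by rw [← ha, ← pow_mul, two_mul, pow_add]
  have h3 : a ^ (2 * n - k) * b ^ (2 * n - k) = 1 := by rw [← mul_pow, hab, one_pow]
  rw [h1, h2]
  linear_combination ((u k : K) * (u (2 * n - k) : K) * a ^ k * a ^ k) * h3

end Pool.Agent.Q267.CDE
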