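import Pool.Agent.Q261.SC.Main72
import Pool.Agent.Q267.CDE.Half2

/-!
# Inversion and reflection of the weighted Legendre sums modulo `p²`
-/

namespace Pool.Agent.Q267.CDE

open Finset Polynomial Pool.Agent.Q267.Seven Pool.Agent.Q267.Landen Pool.Agent.Q261.SC

section poly

variable {K : Type*} [CommRing K]

/-- the polynomial -/
noncomputable def FlP (K : Type*) [CommRing K] (m : ℕ) : K[X] :=
  ∑ k ∈ range (m + 1), C (dl m k : K) * X ^ k

theorem FlP_eval (m : ℕ) (x : K) : (FlP K m).eval x = Fl m x := by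
  unfold FlP Fl
  rw [eval_finsetSum]
  refine sum_congr rfl fun k _ => ?_
  rw [eval_mul, eval_C, eval_pow, eval_X]

theorem FlP_deriv (m : ℕ) (x : K) : x * (derivative (FlP K m)).eval x =
    ∑ k ∈ range (m + 1), (k : K) * ((dl m k : K) * x ^ k) := by
  unfold FlP
  rw [derivative_sum, eval_finsetSum, mul_sum]
  refine sum_congr rfl fun k _ => ?_
  rcases k with _ | k
  · simp
  · rw [derivative_C_mul, derivative_X_pow, eval_mul, eval_mul, eval_C, eval_C, eval_pow, eval_X,
      Nat.add_sub_cancel, pow_succ]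
    ring

theorem FlP_refl (m : ℕ) : (FlP K m).comp (1 - X) = (-1) ^ m * FlP K m := by
  have hz : (FlP ℤ m).comp (1 - X) = (-1) ^ m * FlP ℤ m := by
    apply Polynomial.eq_of_infinite_eval_eq
    apply Set.Infinite.mono (s := Set.univ)
    · intro x _
      rw [Set.mem_setOf_eq, eval_comp, eval_sub, eval_one, eval_X, eval_mul, eval_pow, eval_neg,
        eval_one, FlP_eval, FlP_eval, Fl_refl]
    · exact Set.infinite_univ
  have hm : (FlP ℤ m).map (Int.castRingHom K) = FlP K m := by
    unfold FlP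
    rw [Polynomial.map_sum]
    refine sum_congr rfl fun k _ => ?_
    rw [Polynomial.map_mul, Polynomial.map_pow, map_C, map_X]
    simp
  have h := congrArg (Polynomial.map (Int.castRingHom K)) hz
  rw [Polynomial.map_comp, Polynomial.map_mul, hm, Polynomial.map_sub, Polynomial.map_one, map_X,
    Polynomial.map_pow, Polynomial.map_neg, Polynomial.map_one] at h
  exact h

theorem Fl_reflK (m : ℕ) (x : K) : Fl m (1 - x) = (-1) ^ m * Fl m x := by
  have h := congrArg (eval x) (FlP_refl (K := K) m)
  rw [eval_comp, eval_sub, eval_one, eval_X, eval_mul, eval_pow, eval_neg,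
    eval_one, FlP_eval, FlP_eval] at h
  exact h

/-- the reflected derivative -/
theorem Fl_refl_deriv (m : ℕ) (x : K) :
    x * ∑ k ∈ range (m + 1), (k : K) * ((dl m k : K) * (1 - x) ^ k) =
      -((-1) ^ m * ((1 - x) * ∑ k ∈ range (m + 1), (k : K) * ((dl m k : K) * x ^ k))) := by
  have h := congrArg (fun q : K[X] => (derivative q).eval x) (FlP_refl (K := K) m)
  simp only [derivative_comp, derivative_sub, derivative_one, derivative_X, zero_sub] at h
  have e : derivative ((-1) ^ m * FlP K m) = (-1) ^ m * derivative (FlP K m) := by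
    have : ((-1 : K[X]) ^ m) = C ((-1) ^ m) := by rw [C_pow, C_neg, C_1]
    rw [this, derivative_C_mul]
  rw [e, eval_mul, eval_neg, eval_one, eval_comp, eval_sub, eval_one, eval_X, eval_mul, eval_pow,
    eval_neg, eval_one] at h
  rw [← FlP_deriv, ← FlP_deriv]
  linear_combination (-(x * (1 - x))) * h

end poly

section

variable (p : ℕ) [hp : Fact p.Prime] {m : ℕ}

/-- inversion of the sum -/
theorem inv_D (hpm : p = 2 * m + 1) (h3 : 3 < p) (a b : R p) (hab : a * b = 1) :
    (-a) ^ m * D0 p m b = D0 p m a - p * T0 p m a := by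
  have h1 : D0 p m b = ∑ k ∈ range (m + 1), (dl m (m - k) : R p) * (-b) ^ (m - k) := by
    unfold D0
    rw [← sum_range_reflect]
    refine sum_congr rfl fun k hk => ?_
    rw [show m + 1 - 1 - k = m - k by omega]
  rw [h1]
  unfold D0 T0
  rw [mul_sum, mul_sum, ← sum_sub_distrib]
  refine sum_congr rfl fun k hk => ?_
  rw [mem_range] at hk
  have hd := dl_diff p m hpm k (by omega)
  have hs : (-a) ^ m * (-b) ^ (m - k) = (-a) ^ k := by
    have e : (-a) ^ m = (-a) ^ k * (-a) ^ (m - k) := by rw [← pow_add]; congr 1; omega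
    rw [e, mul_assoc, ← mul_pow, neg_mul_neg, hab, one_pow, mul_one]
  have hpe : (p : R p) * (cR p m k * (hR p (m - k) - hR p k)) =
      p * ((dl m k : R p) * (hR p (m + k) - hR p k)) := by
    apply CDE.p_mul_eq
    have h5 : CDE.red p (hR p (m - k)) = Hh (ZMod p) (m - k) := Seven.red_hR p (m - k) (by omega)
    have h6 : CDE.red p (hR p k) = Hh (ZMod p) k := Seven.red_hR p k (by omega)
    rw [map_mul, map_mul, red_dl p hpm k (by omega), red_diff p hpm h3 k (by omega), map_sub, h5, h6]
    congr 1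
    unfold cR cc
    rw [map_pow, map_natCast]
  have e2 : (-a) ^ m * ((dl m (m - k) : R p) * (-b) ^ (m - k)) = (dl m (m - k) : R p) * (-a) ^ k := by
    rw [← hs]; ring
  rw [e2]
  linear_combination ((-a) ^ k) * hd - ((-a) ^ k) * hpe

/-- inversion of the weighted sum -/
theorem inv_E (hpm : p = 2 * m + 1) (h3 : 3 < p) (a b : R p) (hab : a * b = 1) :
    (-a) ^ m * E0 p m b = m * D0 p m a - E0 p m a - p * (m * T0 p m a - U0 p m a) := by
  have h1 : E0 p m b = ∑ k ∈ range (m + 1), ((m - k : ℕ) : R p) *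
      ((dl m (m - k) : R p) * (-b) ^ (m - k)) := by
    unfold E0
    rw [← sum_range_reflect]
    refine sum_congr rfl fun k hk => ?_
    rw [show m + 1 - 1 - k = m - k by omega]
  rw [h1]
  unfold D0 T0 U0 E0
  rw [mul_sum, mul_sum, ← sum_sub_distrib, mul_sum, ← sum_sub_distrib, mul_sum, ← sum_sub_distrib]
  refine sum_congr rfl fun k hk => ?_
  rw [mem_range] at hk
  have hd := dl_diff p m hpm k (by omega)
  have hs : (-a) ^ m * (-b) ^ (m - k) = (-a) ^ k := by
    have e : (-a) ^ m = (-a) ^ k * (-a) ^ (m - k) := by rw [← pow_add]; congr 1; omega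
    rw [e, mul_assoc, ← mul_pow, neg_mul_neg, hab, one_pow, mul_one]
  have hpe : (p : R p) * (cR p m k * (hR p (m - k) - hR p k)) =
      p * ((dl m k : R p) * (hR p (m + k) - hR p k)) := by
    apply CDE.p_mul_eq
    have h5 : CDE.red p (hR p (m - k)) = Hh (ZMod p) (m - k) := Seven.red_hR p (m - k) (by omega)
    have h6 : CDE.red p (hR p k) = Hh (ZMod p) k := Seven.red_hR p k (by omega)
    rw [map_mul, map_mul, red_dl p hpm k (by omega), red_diff p hpm h3 k (by omega), map_sub, h5, h6]
    congr 1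
    unfold cR cc
    rw [map_pow, map_natCast]
  rw [Nat.cast_sub (show k ≤ m by omega)]
  have e2 : (-a) ^ m * (((m : R p) - k) * ((dl m (m - k) : R p) * (-b) ^ (m - k))) =
      ((m : R p) - k) * ((dl m (m - k) : R p) * (-a) ^ k) := by
    rw [← hs]; ring
  rw [e2]
  linear_combination (((m : R p) - k) * (-a) ^ k) * hd - (((m : R p) - k) * (-a) ^ k) * hpe

omit hp in
theorem D0_eq (a : R p) : D0 p m a = Fl m (-a) := rfl

omit hp in
theorem D0_refl (a : R p) : D0 p m (-1 - a) = (-1) ^ m * D0 p m a := by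
  rw [D0_eq, D0_eq, ← Fl_reflK]
  congr 1
  ring

omit hp in
theorem E0_refl (a : R p) : a * E0 p m (-1 - a) = (-1) ^ m * ((1 + a) * E0 p m a) := by
  have h := Fl_refl_deriv m (-a)
  unfold E0
  have e : -(-1 - a) = 1 - -a := by ring
  rw [e]
  linear_combination -h

end

end Pool.Agent.Q267.CDE
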