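import Pool.Agent.Q267.CDE.Trig

/-!
# The quadratic transformation `P_{2n}(1-2x) = ∑ c_k (4x(1-x))^k`
-/

namespace Pool.Agent.Q267.CDE

open Polynomial Finset Pool.Agent.Q267.Landen Pool.Agent.Q267.Seven

variable {K : Type*} [Field K] [CharZero K]

/-- `(-n)_k (n+1/2)_k / k!²` -/
def cs (K : Type*) [Field K] (n k : ℕ) : K :=
  (∏ j ∈ range k, (-(((n : K) - j) * ((n : K) + j + 1 / 2)))) / ((k.factorial : ℕ) : K) ^ 2

theorem cs_succ (n k : ℕ) : cs K n (k + 1) * ((k : K) + 1) ^ 2 =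
    -(((n : K) - k) * ((n : K) + k + 1 / 2)) * cs K n k := by
  unfold cs
  have hk : ((k : K) + 1) ≠ 0 := by
    have : ((k + 1 : ℕ) : K) ≠ 0 := Nat.cast_ne_zero.2 (by omega)
    push_cast at this
    exact this
  have hf : ((k.factorial : ℕ) : K) ≠ 0 := Nat.cast_ne_zero.2 k.factorial_ne_zero
  rw [prod_range_succ, Nat.factorial_succ]
  push_cast
  set P := ∏ x ∈ range k, -(((n : K) - x) * ((n : K) + x + 1 / 2))
  field_simp

omit [CharZero K] in
theorem cs_zero_of (n k : ℕ) (h : n < k) : cs K n k = 0 := by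
  unfold cs
  rw [prod_eq_zero (mem_range.2 h) (by simp), zero_div]

/-- weights -/
def vq (K : Type*) [Field K] (n k : ℕ) : K := cs K n k * 4 ^ k

theorem vq_succ (n k : ℕ) : vq K n (k + 1) * ((k : K) + 1) ^ 2 =
    (4 * (k : K) ^ 2 + 2 * k - ((2 * n : ℕ) : K) * (((2 * n : ℕ) : K) + 1)) * vq K n k := by
  have h := cs_succ (K := K) n k
  unfold vq
  push_cast
  rw [pow_succ]
  linear_combination (4 ^ k * 4) * h

theorem DD2S (n : ℕ) : DD (DD (Sw n (vq K n) 0)) =
    - C (((2 * n : ℕ) : K) * (((2 * n : ℕ) : K) + 1)) * W K * Sw n (vq K n) 0 := by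
  have h := Sw_shift n (fun k => vq K n k * (k : K) ^ 2)
    (fun k => (4 * (k : K) ^ 2 + 2 * k - ((2 * n : ℕ) : K) * (((2 * n : ℕ) : K) + 1)) * vq K n k)
    (by simp) (by push_cast; ring) (by
      intro k _
      have := vq_succ (K := K) n k
      push_cast at this ⊢
      exact this)
  have e1 : Sw n (vq K n) 2 = ∑ k ∈ range (n + 1), C (vq K n k * (k : K) ^ 2) * W K ^ k := rfl
  have e2 : 4 * Sw n (vq K n) 2 + 2 * Sw n (vq K n) 1
      - C (((2 * n : ℕ) : K) * (((2 * n : ℕ) : K) + 1)) * Sw n (vq K n) 0 =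
      ∑ k ∈ range (n + 1), C ((4 * (k : K) ^ 2 + 2 * k - ((2 * n : ℕ) : K) *
        (((2 * n : ℕ) : K) + 1)) * vq K n k) * W K ^ k := by
    unfold Sw
    rw [mul_sum, mul_sum, mul_sum, ← sum_add_distrib, ← sum_sub_distrib]
    refine sum_congr rfl fun k _ => ?_
    simp only [C_mul, C_pow, C_sub, C_add, map_ofNat]
    ring
  rw [← e1, ← e2] at h
  simp only [DD_Sw, DD_mul, DD_sigma, zero_add]
  rw [show (1 + 1 : ℕ) = 2 from rfl]
  set P0 := Sw n (vq K n) 0
  set P1 := Sw n (vq K n) 1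
  set P2 := Sw n (vq K n) 2
  unfold W at h ⊢
  linear_combination h

theorem step2 (N : K) (Y : K[X]) (hY : DD (DD Y) = - C N * W K * Y) (j : ℕ)
    (h : X ^ (j + 1) ∣ Y) : X ^ (j + 2) ∣ Y := by
  obtain ⟨Z, rfl⟩ := h
  set n : K[X] := C ((j + 1 : ℕ) : K) with hn
  set b : K[X] := 1 - X with hb
  have hab : DD (X : K[X]) = X * b := by rw [DD_X]; rfl
  have key : ∀ Z : K[X], DD (X ^ (j + 1) * Z) = X ^ (j + 1) * (n * b * Z + DD Z) := by
    intro Z
    rw [DD_mul, DD_pow X (j + 1) b hab]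
    ring
  rw [key, key] at hY
  have e : X ^ (j + 1) * ((n * b * (n * b * Z + DD Z) + DD (n * b * Z + DD Z))
      + C N * W K * Z) = 0 := by
    linear_combination hY
  have e4 := (mul_eq_zero.1 e).resolve_left (pow_ne_zero _ X_ne_zero)
  have e5 := congrArg (eval (0 : K)) e4
  have hr : (0 : K) * (1 - 0) = 0 := by ring
  have hW : (W K).eval 0 = 0 := by
    unfold W
    rw [eval_mul, eval_sub, eval_one, eval_X, hr]
  simp only [eval_add, eval_mul, eval_DD 0 hr, hW, eval_zero, add_zero,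
    mul_zero, zero_mul] at e5
  have hj0 : n.eval 0 ≠ 0 := by
    rw [hn, eval_C]
    exact Nat.cast_ne_zero.2 (Nat.succ_ne_zero j)
  have hb0 : b.eval 0 ≠ 0 := by
    rw [hb, eval_sub, eval_one, eval_X, sub_zero]
    exact one_ne_zero
  have e6 : eval 0 Z = 0 := by
    have hNb := mul_ne_zero hj0 hb0
    exact (mul_eq_zero.1 ((mul_eq_zero.1 e5).resolve_left hNb)).resolve_left hNb
  have e7 : X ∣ Z := by
    rw [X_dvd_iff, coeff_zero_eq_eval_zero]; exact e6
  obtain ⟨T, rfl⟩ := e7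
  exact ⟨T, by ring⟩

theorem quad_poly (n : ℕ) :
    Ph (2 * n) (dK K (2 * n)) 0 (X : K[X]) 1 = Sw n (vq K n) 0 := by
  rw [← sub_eq_zero]
  set Y := Ph (2 * n) (dK K (2 * n)) 0 (X : K[X]) 1 - Sw n (vq K n) 0 with hYdef
  have hY : DD (DD Y) = - C (((2 * n : ℕ) : K) * (((2 * n : ℕ) : K) + 1)) * W K * Y := by
    rw [hYdef, DD_sub, DD_sub, DD2L, DD2S]
    ring
  have h0 : Y.eval 0 = 0 := by
    rw [hYdef, eval_sub, eval_Sw_zero n _ 0 (by ring), eval_Ph_zero (2 * n) _ _ _ _ eval_X,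
      eval_one]
    simp [dK, vq, cs, dl]
  have all : ∀ j : ℕ, X ^ (j + 1) ∣ Y := by
    intro j
    induction j with
    | zero =>
      rw [zero_add, pow_one, X_dvd_iff, coeff_zero_eq_eval_zero]; exact h0
    | succ j ih => exact step2 _ Y hY j ih
  ext i
  rw [coeff_zero]
  exact X_pow_dvd_iff.1 (all i) i (Nat.lt_succ_self i)

/-- **the quadratic transformation** -/
theorem quad (n : ℕ) (x : K) : Fl (2 * n) x =
    ∑ k ∈ range (n + 1), cs K n k * (4 * (x * (1 - x))) ^ k := by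
  have h := congrArg (eval x) (quad_poly (K := K) n)
  have e1 : (Ph (2 * n) (dK K (2 * n)) 0 (X : K[X]) 1).eval x = Fl (2 * n) x := by
    unfold Ph Fl
    rw [eval_finsetSum]
    refine sum_congr rfl fun k _ => ?_
    simp [dK]
  have e2 : (Sw n (vq K n) 0).eval x = ∑ k ∈ range (n + 1), cs K n k * (4 * (x * (1 - x))) ^ k := by
    unfold Sw W
    rw [eval_finsetSum]
    refine sum_congr rfl fun k _ => ?_
    simp [vq, mul_pow]
    ring
  rw [e1, e2] at h
  exact h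

end Pool.Agent.Q267.CDE
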