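import Pool.Agent.Q267.CDE.Ext5
import Pool.Agent.Q267.CDE.Res2

/-!
# The quadratic extension of `ℤ/p²`, `p ≡ 3 (mod 4)`, and roots of unity for `p ≡ 1`
-/

namespace Pool.Agent.Q267.CDE.Ext

open Finset Polynomial Pool.Agent.Q267.Seven Pool.Agent.Q267.Landen Pool.Agent.Q261.SC Q278.PI

variable (p : ℕ) [hp : Fact p.Prime]

/-- reduction of the quadratic extension -/
def redQ : QuadraticAlgebra (R p) (-1) 0 →+* QuadraticAlgebra (ZMod p) (-1) 0 where
  toFun z := ⟨CDE.red p z.re, CDE.red p z.im⟩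
  map_one' := by
    ext
    · simp [QuadraticAlgebra.re_one]
    · simp [QuadraticAlgebra.im_one]
  map_mul' a b := by ext <;> simp
  map_zero' := by ext <;> simp
  map_add' a b := by ext <;> simp

theorem redQ_p (a b : QuadraticAlgebra (R p) (-1) 0) (h : redQ p a = redQ p b) :
    (p : QuadraticAlgebra (R p) (-1) 0) * a = p * b := by
  have h1 : CDE.red p a.re = CDE.red p b.re := congrArg QuadraticAlgebra.re h
  have h2 : CDE.red p a.im = CDE.red p b.im := congrArg QuadraticAlgebra.im h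
  have g1 := CDE.p_mul_eq p _ _ h1
  have g2 := CDE.p_mul_eq p _ _ h2
  ext
  · simp [g1]
  · simp [g2]

theorem no_sqrt (h4 : p % 4 = 3) : ∀ r : ZMod p, r ^ 2 ≠ -1 + 0 * r := by
  intro r h
  rw [zero_mul, add_zero] at h
  have := (ZMod.exists_sq_eq_neg_one_iff (p := p)).1 ⟨r, by rw [← h]; ring⟩
  exact this h4

theorem lucas7 (t : ℕ) (ht : p = 12 * t + 7) (w J y Y : R p)
    (hw : w ^ 2 + w + 1 = 0) (hJ : 4 * J = 1) (hY : 6 * y * Y = 1)
    (hA : D0 p (6 * t + 3) w = -((-1) ^ t * ((2 * w + 1) * (2 * y - p * Y))))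
    (hu : IsUnit (D0 p (6 * t + 3) w))
    (hL : Lc (6 * t + 3) J = 2 * y - p * Y) (hL1 : Lc1 (6 * t + 3) J = y) :
    Lc (6 * t + 3) (4 : R p) = 2 * (-1) ^ t * (2 * y - p * Y) ∧
    Lc1 (6 * t + 3) (4 : R p) = -((-1) ^ t * (6 * y - 14 * (p * Y))) := by
  have : Fact (∀ r : ZMod p, r ^ 2 ≠ -1 + 0 * r) := ⟨no_sqrt p (by omega)⟩
  have : CharP (QuadraticAlgebra (ZMod p) (-1) 0) p :=
    charP_of_injective_algebraMap
      (QuadraticAlgebra.algebraMap_injective (R := ZMod p) (a := -1) (b := 0)) p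
  refine final7 (K := QuadraticAlgebra (ZMod p) (-1) 0) (redQ p) (redQ_p p) t ht
    QuadraticAlgebra.omega w J y Y ?_ hw hJ QuadraticAlgebra.algebraMap_injective hY hA hu hL hL1
  ext <;> simp [pow_two, QuadraticAlgebra.re_one, QuadraticAlgebra.im_one]

theorem exists_I (h4 : p % 4 = 1) : ∃ I : R p, I ^ 2 = -1 := by
  obtain ⟨g, hg⟩ := (ZMod.exists_sq_eq_neg_one_iff (p := p)).2 (by omega)
  refine ⟨CDE.om p g, ?_⟩
  rw [← CDE.om_pow, pow_two, ← hg, CDE.om_neg p (hp.out.odd_of_ne_two (by omega)), CDE.om_one]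

theorem exists_w (h3 : p % 3 = 1) : ∃ w : R p, w ^ 2 + w + 1 = 0 := by
  obtain ⟨g, hg, hg0⟩ := CDE.exists_gen p
  obtain ⟨q, hq⟩ : ∃ q, p = 3 * q + 1 := ⟨p / 3, by omega⟩
  have hp2 := hp.out.two_le
  have e1 : (g ^ q) ^ 3 = 1 := by
    rw [← pow_mul, show q * 3 = p - 1 by omega]
    exact ZMod.pow_card_sub_one_eq_one hg0
  have e2 : g ^ q ≠ 1 := by
    intro h
    have := orderOf_dvd_of_pow_eq_one h
    rw [hg] at this
    have := Nat.le_of_dvd (by omega) this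
    omega
  refine ⟨CDE.om p (g ^ q), ?_⟩
  have e3 : CDE.om p (g ^ q) ^ 3 = 1 := by rw [← CDE.om_pow, e1, CDE.om_one]
  have hu : IsUnit (CDE.om p (g ^ q) - 1) := by
    apply CDE.isUnit_of_red
    rw [map_sub, CDE.red_om, map_one]
    exact sub_ne_zero.2 e2
  apply hu.mul_left_cancel
  linear_combination e3

theorem lucas1 (t : ℕ) (ht : p = 12 * t + 1) (J : R p) (hJ : 4 * J = 1) :
    Lc (6 * t) (4 : R p) = 0 := by
  obtain ⟨I, hI⟩ := exists_I p (by omega)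
  obtain ⟨w, hw⟩ := exists_w p (by omega)
  exact final1 (CDE.red p) (CDE.p_mul_eq p) t ht I w J hI hw hJ fun _ _ h => h

/-- congruences give equalities in `ℤ/p²` -/
theorem res2_of_cong (a b : O p) (h : (p : ℤ) ^ 2 ∣ ((a : ℚ) - (b : ℚ)).num) :
    res2 p a = res2 p b := by
  rw [← sub_eq_zero, ← map_sub]
  have h1 : res2 p (a - b) = (((((a - b : O p)) : ℚ).num : ℤ) : R p) *
      (((((a - b : O p)) : ℚ).den : ℕ) : R p)⁻¹ := rfl
  have h2 : (((a - b : O p)) : ℚ) = (a : ℚ) - (b : ℚ) := rfl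
  have h3 : (((((a - b : O p)) : ℚ).num : ℤ) : R p) = 0 := by
    rw [h2, ZMod.intCast_zmod_eq_zero_iff_dvd]
    push_cast
    exact h
  rw [h1, h3, zero_mul]

end Pool.Agent.Q267.CDE.Ext
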