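import Mathlib

/-!
# The quartic symbol of `2`
-/

namespace Pool.Agent.Q267.CDE

open NumberTheorySymbols

/-- `(-1)^z` for an integer `z` -/
def sg (z : ℤ) : ℤ := if z % 2 = 0 then 1 else -1

theorem sg_sq (z : ℤ) : sg z * sg z = 1 := by
  unfold sg; split_ifs <;> norm_num

theorem sg_add (a b : ℤ) : sg (a + b) = sg a * sg b := by
  unfold sg; split_ifs <;> omega

theorem sg_two_mul (a : ℤ) : sg (2 * a) = 1 := by
  unfold sg; rw [if_pos (by omega)]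

theorem zpow_sg (z : ℤ) : (-1 : ℚ) ^ z = (sg z : ℚ) := by
  unfold sg
  split_ifs with h
  · rw [Even.neg_one_zpow (Int.even_iff.2 h)]; norm_num
  · rw [Odd.neg_one_zpow (Int.odd_iff.2 (by omega))]; norm_num

theorem pow_sg (n : ℕ) : (-1 : ℤ) ^ n = sg n := by
  unfold sg
  split_ifs with h
  · exact Even.neg_one_pow (Nat.even_iff.2 (by omega))
  · exact Odd.neg_one_pow (Nat.odd_iff.2 (by omega))

variable (p : ℕ) [hp : Fact p.Prime]

theorem no_common (x y : ℤ) (hxy : (p : ℤ) = x ^ 2 + y ^ 2) (q : ℕ) (hq : q.Prime)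
    (h1 : (q : ℤ) ∣ x) (h2 : (q : ℤ) ∣ y) : False := by
  have h3 : ((q * q : ℕ) : ℤ) ∣ (p : ℤ) := by
    rw [hxy]
    push_cast
    exact dvd_add (by rw [pow_two]; exact mul_dvd_mul h1 h1)
      (by rw [pow_two]; exact mul_dvd_mul h2 h2)
  have h4 : q * q ∣ p := Int.natCast_dvd_natCast.1 h3
  have h5 : q ∣ p := (Dvd.intro _ rfl).trans h4
  have h6 := (Nat.prime_dvd_prime_iff_eq hq hp.out).1 h5
  have h7 := Nat.le_of_dvd hp.out.pos h4
  have h8 := hq.two_le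
  rw [← h6] at h7
  nlinarith

omit hp in
theorem jac_abs (hp4 : p % 4 = 1) (z : ℤ) (hz : z % 2 = 1) : J(z | p) = J((p : ℤ) | z.natAbs) := by
  have hodd : Odd p := Nat.odd_iff.2 (by omega)
  have hN : Odd z.natAbs := Nat.odd_iff.2 (by omega)
  have h1 : J(z | p) = J((z.natAbs : ℤ) | p) := by
    rcases Int.natAbs_eq z with h | h
    · rw [← h]
    · conv_lhs => rw [h]
      rw [jacobiSym.neg _ hodd, ZMod.χ₄_nat_one_mod_four hp4, one_mul]
  rw [h1, jacobiSym.quadratic_reciprocity_one_mod_four hp4 hN]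

theorem jac_x4 (hp4 : p % 4 = 1) (x y : ℤ) (hxy : (p : ℤ) = x ^ 2 + y ^ 2) (hx : x % 2 = 1) :
    J(x | p) = 1 := by
  rw [jac_abs p hp4 x hx]
  have h1 : J((p : ℤ) | x.natAbs) = J(y ^ 2 | x.natAbs) := by
    apply jacobiSym.mod_left'
    rw [hxy]
    obtain ⟨c, hc⟩ : (x.natAbs : ℤ) ∣ x := Int.natAbs_dvd.2 dvd_rfl
    have : x ^ 2 + y ^ 2 = y ^ 2 + (x.natAbs : ℤ) * (c * x) := by
      linear_combination x * hc
    rw [this]
    exact Int.add_mul_emod_self_left _ _ _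
  rw [h1]
  apply jacobiSym.sq_one'
  by_contra h
  obtain ⟨q, hq, hqg⟩ := Nat.exists_prime_and_dvd h
  have h2 : (q : ℤ) ∣ y := (Int.natCast_dvd_natCast.2 hqg).trans (Int.gcd_dvd_left _ _)
  have h3 : (q : ℤ) ∣ x := ((Int.natCast_dvd_natCast.2 hqg).trans (Int.gcd_dvd_right _ _)).trans
    (Int.natAbs_dvd.2 dvd_rfl)
  exact no_common p x y hxy q hq h3 h2

theorem jac_xy4 (hp4 : p % 4 = 1) (x y : ℤ) (hxy : (p : ℤ) = x ^ 2 + y ^ 2)
    (hs : (x + y) % 2 = 1) : J(x + y | p) = J(2 | (x + y).natAbs) := by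
  rw [jac_abs p hp4 (x + y) hs]
  set N := (x + y).natAbs with hN
  obtain ⟨c, hc⟩ : (N : ℤ) ∣ (x + y) := Int.natAbs_dvd.2 dvd_rfl
  have h1 : J(2 * (p : ℤ) | N) = J((x - y) ^ 2 | N) := by
    apply jacobiSym.mod_left'
    rw [hxy]
    have : 2 * (x ^ 2 + y ^ 2) = (x - y) ^ 2 + (N : ℤ) * (c * (x + y)) := by
      linear_combination (x + y) * hc
    rw [this]
    exact Int.add_mul_emod_self_left _ _ _
  have h2 : J((x - y) ^ 2 | N) = 1 := by
    apply jacobiSym.sq_one'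
    by_contra h
    obtain ⟨q, hq, hqg⟩ := Nat.exists_prime_and_dvd h
    have h2 : (q : ℤ) ∣ x - y := (Int.natCast_dvd_natCast.2 hqg).trans (Int.gcd_dvd_left _ _)
    have h3 : (q : ℤ) ∣ x + y := ((Int.natCast_dvd_natCast.2 hqg).trans
      (Int.gcd_dvd_right _ _)).trans (Int.natAbs_dvd.2 dvd_rfl)
    have hq2 : ¬ (q : ℤ) ∣ 2 := by
      intro h4
      have h5 : q ∣ 2 := by exact_mod_cast h4
      have h6 := (Nat.prime_dvd_prime_iff_eq hq Nat.prime_two).1 h5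
      rw [h6] at h3
      push_cast at h3
      omega
    have h4 : (q : ℤ) ∣ 2 * x := by
      have := dvd_add h2 h3
      rwa [show x - y + (x + y) = 2 * x by ring] at this
    have h5 : (q : ℤ) ∣ 2 * y := by
      have := dvd_sub h3 h2
      rwa [show x + y - (x - y) = 2 * y by ring] at this
    have hqp := Nat.prime_iff_prime_int.1 hq
    exact no_common p x y hxy q hq ((hqp.dvd_or_dvd h4).resolve_left hq2)
      ((hqp.dvd_or_dvd h5).resolve_left hq2)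
  rw [h2, jacobiSym.mul_left] at h1
  rcases Int.eq_one_or_neg_one_of_mul_eq_one h1 with h | h
  · rw [h, one_mul] at h1
    rw [h1, h]
  · rw [h] at h1
    rw [h]
    linarith

theorem jac_two_sg (z : ℤ) (t : ℤ) (hz : z = 4 * t + 1) : J(2 | z.natAbs) = sg t := by
  have hN : Odd z.natAbs := Nat.odd_iff.2 (by omega)
  rw [jacobiSym.at_two hN]
  unfold sg
  split_ifs with h
  · have h8 : z.natAbs % 8 = 1 ∨ z.natAbs % 8 = 7 := by omega
    rcases h8 with h8 | h8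
    · rw [← ZMod.natCast_mod z.natAbs 8, h8]; decide
    · rw [← ZMod.natCast_mod z.natAbs 8, h8]; decide
  · have h8 : z.natAbs % 8 = 3 ∨ z.natAbs % 8 = 5 := by omega
    rcases h8 with h8 | h8
    · rw [← ZMod.natCast_mod z.natAbs 8, h8]; decide
    · rw [← ZMod.natCast_mod z.natAbs 8, h8]; decide

theorem euler_pow (n : ℕ) (hn : p = 4 * n + 1) (z : ℤ) :
    ((J(z | p) : ℤ) : ZMod p) = (z : ZMod p) ^ (2 * n) := by
  rw [← jacobiSym.legendreSym.to_jacobiSym, legendreSym.eq_pow]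
  congr 1
  omega

/-- the quartic symbol of two, `4 ∣ y` -/
theorem quart0 (n : ℕ) (hn : p = 4 * n + 1) (x y t : ℤ) (hxy : (p : ℤ) = x ^ 2 + y ^ 2)
    (hx : x % 4 = 1) (hy : y = 4 * t) (f : ZMod p) (hf : f * f = -1)
    (hfx : (x : ZMod p) * f = y) : (2 : ZMod p) ^ n = ((sg t : ℤ) : ZMod p) := by
  have hp4 : p % 4 = 1 := by omega
  obtain ⟨s, hs⟩ : ∃ s, x = 4 * s + 1 := ⟨x / 4, by omega⟩
  have h1 := jac_x4 p hp4 x y hxy (by omega)
  have h2 := jac_xy4 p hp4 x y hxy (by omega)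
  rw [jac_two_sg (x + y) (s + t) (by rw [hs, hy]; ring)] at h2
  have e1 := euler_pow p n hn x
  have e2 := euler_pow p n hn (x + y)
  rw [h1] at e1
  rw [h2] at e2
  have hp0 : ((p : ℤ) : ZMod p) = 0 := by
    push_cast
    exact CharP.cast_eq_zero _ _
  have hxy' := congrArg (Int.cast : ℤ → ZMod p) hxy
  rw [hp0] at hxy'
  push_cast at hxy' e1 e2
  -- `n`
  have hn2 : ∃ m : ℕ, n = 2 * m ∧ (m : ℤ) = 2 * s ^ 2 + s + 2 * t ^ 2 := by
    have h3 : (4 * (n : ℤ) + 1) = (4 * s + 1) ^ 2 + (4 * t) ^ 2 := by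
      rw [← hs, ← hy, ← hxy, hn]; push_cast; ring
    have h4 : (n : ℤ) = 2 * (2 * s ^ 2 + s + 2 * t ^ 2) := by linarith
    refine ⟨n / 2, by omega, by omega⟩
  obtain ⟨m, hm, hms⟩ := hn2
  have hfn : f ^ n = ((sg s : ℤ) : ZMod p) := by
    rw [hm, pow_mul, pow_two, hf]
    have h5 : (-1 : ℤ) ^ m = sg s := by
      rw [pow_sg, hms, show 2 * s ^ 2 + s + 2 * t ^ 2 = s + 2 * (s ^ 2 + t ^ 2) by ring, sg_add,
        sg_two_mul, mul_one]
    rw [← h5]
    push_cast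
    rfl
  have h6 : 2 * ((x : ZMod p) ^ 2 * f) = ((x : ZMod p) + y) ^ 2 := by
    linear_combination (2 * (x : ZMod p)) * hfx - (-1 : ZMod p) * hxy'
  have h7 := congrArg (fun z => z ^ n) h6
  simp only [mul_pow, ← pow_mul] at h7
  rw [← e1, ← e2, hfn] at h7
  have h8 := congrArg (Int.cast : ℤ → ZMod p) (sg_sq s)
  have h9 := congrArg (Int.cast : ℤ → ZMod p) (sg_add s t)
  push_cast at h8 h9 h7
  rw [h9] at h7
  linear_combination ((sg s : ℤ) : ZMod p) * h7 - ((2 : ZMod p) ^ n - ((sg t : ℤ) : ZMod p)) * h8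

/-- the quartic symbol of two, `y ≡ 2 mod 4` -/
theorem quart2 (n : ℕ) (hn : p = 4 * n + 1) (x y t : ℤ) (hxy : (p : ℤ) = x ^ 2 + y ^ 2)
    (hx : x % 4 = 1) (hy : y = 4 * t + 2) (f : ZMod p) (hf : f * f = -1)
    (hfx : (x : ZMod p) * f = y) : (2 : ZMod p) ^ n = f * ((sg t : ℤ) : ZMod p) := by
  have hp4 : p % 4 = 1 := by omega
  obtain ⟨s, hs⟩ : ∃ s, x = 4 * s + 1 := ⟨x / 4, by omega⟩
  have h1 := jac_x4 p hp4 x y hxy (by omega)
  have h2 := jac_xy4 p hp4 x y hxy (by omega)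
  have habs : (x + y).natAbs = (4 * (-(s + t) - 1) + 1 : ℤ).natAbs := by
    rw [hs, hy]
    omega
  rw [habs, jac_two_sg _ (-(s + t) - 1) rfl] at h2
  have e1 := euler_pow p n hn x
  have e2 := euler_pow p n hn (x + y)
  rw [h1] at e1
  rw [h2] at e2
  have hp0 : ((p : ℤ) : ZMod p) = 0 := by
    push_cast
    exact CharP.cast_eq_zero _ _
  have hxy' := congrArg (Int.cast : ℤ → ZMod p) hxy
  rw [hp0] at hxy'
  push_cast at hxy' e1 e2
  have hn2 : ∃ m : ℕ, n = 2 * m + 1 ∧ (m : ℤ) = 2 * s ^ 2 + s + 2 * t ^ 2 + 2 * t := by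
    have h3 : (4 * (n : ℤ) + 1) = (4 * s + 1) ^ 2 + (4 * t + 2) ^ 2 := by
      rw [← hs, ← hy, ← hxy, hn]; push_cast; ring
    have h4 : (n : ℤ) = 2 * (2 * s ^ 2 + s + 2 * t ^ 2 + 2 * t) + 1 := by linarith
    refine ⟨n / 2, by omega, by omega⟩
  obtain ⟨m, hm, hms⟩ := hn2
  have hfn : f ^ n = f * ((sg s : ℤ) : ZMod p) := by
    rw [hm, pow_succ, pow_mul, pow_two, hf]
    have h5 : (-1 : ℤ) ^ m = sg s := by
      rw [pow_sg, hms, show 2 * s ^ 2 + s + 2 * t ^ 2 + 2 * t = s + 2 * (s ^ 2 + t ^ 2 + t) by ring,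
        sg_add, sg_two_mul, mul_one]
    rw [← h5]
    push_cast
    ring
  have h6 : 2 * ((x : ZMod p) ^ 2 * f) = ((x : ZMod p) + y) ^ 2 := by
    linear_combination (2 * (x : ZMod p)) * hfx - (-1 : ZMod p) * hxy'
  have h7 := congrArg (fun z => z ^ n) h6
  simp only [mul_pow, ← pow_mul] at h7
  rw [← e1, ← e2, hfn] at h7
  have hsg : sg (-(s + t) - 1) = -(sg s * sg t) := by
    rw [← sg_add]
    unfold sg
    split_ifs <;> omega
  have h8 := congrArg (Int.cast : ℤ → ZMod p) (sg_sq s)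
  have h9 := congrArg (Int.cast : ℤ → ZMod p) hsg
  push_cast at h8 h9 h7
  rw [h9] at h7
  linear_combination (-f * ((sg s : ℤ) : ZMod p)) * h7
    + ((2 : ZMod p) ^ n * f ^ 2 + f * ((sg t : ℤ) : ZMod p)) * h8 + (2 : ZMod p) ^ n * hf

end Pool.Agent.Q267.CDE
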