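import Mathlib

/-!
# Two coefficients of `(1 + 2X)^n (X + 2)^n = (X + 2 (1+X)^2)^n`
-/

namespace Pool.Agent.Q267.CDE.Qx

open Finset Polynomial

variable {A : Type*} [CommRing A]

theorem base_eq : ((1 + C 2 * X) * (X + C 2) : A[X]) = X + C 2 * (1 + X) ^ 2 := by
  rw [show (C 2 : A[X]) = 2 from rfl]
  ring

theorem coeff_rhs (n q : ℕ) : ((X + C 2 * (1 + X) ^ 2) ^ n : A[X]).coeff (n + q) =
    ∑ k ∈ range (n + 1), ((n.choose k : ℕ) : A) * 2 ^ k * (((2 * k).choose (k + q) : ℕ) : A) := by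
  rw [add_comm (X : A[X]), add_pow, finsetSum_coeff]
  refine sum_congr rfl fun k hk => ?_
  rw [mem_range] at hk
  have e : ((C 2 * (1 + X) ^ 2) ^ k * X ^ (n - k) * ((n.choose k : ℕ) : A[X])) =
      C (((n.choose k : ℕ) : A) * 2 ^ k) * ((1 + X) ^ (2 * k) * X ^ (n - k)) := by
    rw [mul_pow, C_mul, C_pow, ← pow_mul, map_natCast]
    ring
  rw [e, coeff_C_mul, show n + q = (k + q) + (n - k) by omega, coeff_mul_X_pow,
    coeff_one_add_X_pow]

theorem coeff_lhs (n q : ℕ) : (((1 + C 2 * X) * (X + C 2)) ^ n : A[X]).coeff (n + q) =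
    ∑ i ∈ range (n + 1), ((n.choose i : ℕ) : A) * 2 ^ i *
      (2 ^ (n - (n + q - i)) * ((n.choose (n + q - i) : ℕ) : A)) := by
  rw [mul_pow, add_comm (1 : A[X]), add_pow (C 2 * X) 1 n, sum_mul, finsetSum_coeff]
  refine sum_congr rfl fun i hi => ?_
  rw [mem_range] at hi
  have e : ((C 2 * X) ^ i * 1 ^ (n - i) * ((n.choose i : ℕ) : A[X])) * (X + C 2) ^ n =
      C (((n.choose i : ℕ) : A) * 2 ^ i) * ((X + C 2) ^ n * X ^ i) := by
    rw [mul_pow, C_mul, C_pow, map_natCast, one_pow]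
    ring
  have e2 : ((X + C 2) ^ n * X ^ i : A[X]).coeff (n + q) =
      2 ^ (n - (n + q - i)) * ((n.choose (n + q - i) : ℕ) : A) := by
    have : n + q = (n + q - i) + i := by omega
    conv_lhs => rw [this]
    rw [coeff_mul_X_pow, coeff_X_add_C_pow]
  rw [e, coeff_C_mul, e2]

/-- the central coefficient -/
theorem id1 (n : ℕ) : ∑ k ∈ range (n + 1), ((n.choose k : ℕ) : A) * 2 ^ k * ((k.centralBinom : ℕ) : A) =
    ∑ j ∈ range (n + 1), ((n.choose j : ℕ) : A) ^ 2 * 4 ^ j := by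
  have h1 := coeff_rhs (A := A) n 0
  have h2 := coeff_lhs (A := A) n 0
  rw [base_eq] at h2
  rw [h2] at h1
  simp only [add_zero] at h1
  unfold Nat.centralBinom
  rw [← h1]
  refine sum_congr rfl fun i hi => ?_
  rw [mem_range] at hi
  rw [Nat.sub_sub_self (show i ≤ n by omega), Nat.choose_symm (show i ≤ n by omega),
    show (4 : A) = 2 * 2 by norm_num, mul_pow]
  ring

/-- the coefficient at distance `q` -/
theorem id2 (n0 q : ℕ) : ∑ j ∈ range (n0 + 1), (((n0 + q).choose (q + j) : ℕ) : A) * 2 ^ (q + j) *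
      (((2 * (q + j)).choose (2 * q + j) : ℕ) : A) =
    ∑ j ∈ range (n0 + 1), (((n0 + q).choose (q + j) : ℕ) : A) * (((n0 + q).choose j : ℕ) : A) *
      2 ^ (2 * j + q) := by
  have h1 := coeff_rhs (A := A) (n0 + q) q
  have h2 := coeff_lhs (A := A) (n0 + q) q
  rw [base_eq] at h2
  rw [h2] at h1
  have e0 : n0 + q + 1 = q + (n0 + 1) := by ring
  rw [e0, sum_range_add _ q (n0 + 1), sum_range_add _ q (n0 + 1)] at h1
  have z1 : ∑ i ∈ range q, (((n0 + q).choose i : ℕ) : A) * 2 ^ i *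
      (2 ^ (n0 + q - (n0 + q + q - i)) * (((n0 + q).choose (n0 + q + q - i) : ℕ) : A)) = 0 := by
    refine sum_eq_zero fun i hi => ?_
    rw [mem_range] at hi
    rw [Nat.choose_eq_zero_of_lt (show n0 + q < n0 + q + q - i by omega)]
    simp
  have z2 : ∑ k ∈ range q, (((n0 + q).choose k : ℕ) : A) * 2 ^ k * (((2 * k).choose (k + q) : ℕ) : A) =
      0 := by
    refine sum_eq_zero fun k hk => ?_
    rw [mem_range] at hk
    rw [Nat.choose_eq_zero_of_lt (show 2 * k < k + q by omega)]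
    simp
  rw [z1, z2, zero_add, zero_add] at h1
  rw [show (fun j => (((n0 + q).choose (q + j) : ℕ) : A) * 2 ^ (q + j) *
      (((2 * (q + j)).choose (2 * q + j) : ℕ) : A)) = fun j => (((n0 + q).choose (q + j) : ℕ) : A) *
      2 ^ (q + j) * (((2 * (q + j)).choose (q + j + q) : ℕ) : A) from by
    funext j
    rw [show q + j + q = 2 * q + j by ring]]
  rw [← h1]
  refine sum_congr rfl fun j hj => ?_
  rw [mem_range] at hj
  rw [show n0 + q + q - (q + j) = n0 + q - j by omega,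
    Nat.sub_sub_self (show j ≤ n0 + q by omega), Nat.choose_symm (show j ≤ n0 + q by omega),
    show 2 * j + q = (q + j) + j by ring, pow_add _ (q + j) j]
  ring

end Pool.Agent.Q267.CDE.Qx
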