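import Pool.Agent.Q267.CDE.Qx1
import Pool.Agent.Q261.SC.Extra

/-!
# The three sums of `C(-1/4, k)` in terms of ordinary binomial sums, modulo `p²`
-/

namespace Pool.Agent.Q267.CDE.Qx

open Finset Polynomial Pool.Agent.Q267 Pool.Agent.Q267.Seven Pool.Agent.Q267.CDE Pool.Agent.Q261.SC

section

variable (p : ℕ) [hp : Fact p.Prime]

theorem lin (n k : ℕ) (hk : k < p) : ∃ z : R p, ∀ t : R p,
    (descPochhammer (R p) k).eval ((n : R p) + t * p) =
      (k.factorial : R p) * ((n.choose k : R p) + t * (p * z)) := by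
  have hu := fact_unit p k hk
  obtain ⟨u, hu⟩ := hu
  refine ⟨((u⁻¹ : (R p)ˣ) : R p) * (derivative (descPochhammer (R p) k)).eval (n : R p), fun t => ?_⟩
  have hpp := CDE.p_sq p
  have s1 : (t * (p : R p)) ^ 2 = 0 := by linear_combination t ^ 2 * hpp
  have h1 : (k.factorial : R p) * ((u⁻¹ : (R p)ˣ) : R p) = 1 := by rw [← hu]; exact u.mul_inv
  have h2 : (descPochhammer (R p) k).eval (n : R p) = (k.factorial : R p) * (n.choose k : R p) := by
    rw [descPochhammer_eval_eq_descFactorial, Nat.descFactorial_eq_factorial_mul_choose]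
    push_cast
    ring
  rw [Polynomial.eval_add_of_sq_eq_zero _ _ _ s1, h2]
  linear_combination (-(t * p * (derivative (descPochhammer (R p) k)).eval (n : R p))) * h1

theorem choose_shift (n k : ℕ) (hk : k < p) : ∃ z : R p,
    (((n + p).choose k : ℕ) : R p) = (n.choose k : R p) + p * z ∧
    ∀ t G : R p, (k.factorial : R p) * G = (descPochhammer (R p) k).eval ((n : R p) + t * p) →
      G = (n.choose k : R p) + t * (p * z) := by
  obtain ⟨z, hz⟩ := lin p n k hk
  refine ⟨z, ?_, fun t G hG => ?_⟩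
  · apply (fact_unit p k hk).mul_left_cancel
    have h1 := hz 1
    rw [one_mul, one_mul, ← Nat.cast_add, descPochhammer_eval_eq_descFactorial,
      Nat.descFactorial_eq_factorial_mul_choose, Nat.cast_mul] at h1
    exact h1
  · apply (fact_unit p k hk).mul_left_cancel
    rw [hG, hz t]

/-- `C(2p+j,p) = 2 C(p+j,p)` modulo `p²` -/
theorem choose_two (h3 : 3 < p) (j : ℕ) (hj : j < p) :
    (((2 * p + j).choose p : ℕ) : R p) = 2 * (((p + j).choose p : ℕ) : R p) ∧
      IsUnit (((p + j).choose p : ℕ) : R p) := by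
  have hpp := CDE.p_sq p
  have a1 := asc p 1 j hj
  have a2 := asc p 2 j hj
  rw [one_mul, Nat.cast_one, one_mul] at a1
  have hf := fact_unit p j hj
  have hpf := Nat.factorial_pos p
  -- `C(p+j,p)`
  have e1 : (p + j).choose p * j.factorial = (p + 1).ascFactorial j := by
    have h1 := Nat.choose_mul_factorial_mul_factorial (show p ≤ p + j by omega)
    rw [Nat.add_sub_cancel_left, ← Nat.factorial_mul_ascFactorial p j] at h1
    apply Nat.eq_of_mul_eq_mul_left hpf
    linear_combination h1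
  have e1' := congrArg (Nat.cast : ℕ → R p) e1
  rw [Nat.cast_mul, a1] at e1'
  have c1 : (((p + j).choose p : ℕ) : R p) = 1 + p * hR p j := by
    apply hf.mul_left_cancel
    linear_combination e1'
  -- `C(2p+j,p)`
  have e2 : (2 * p + j).choose p * (p + 1).ascFactorial j =
      (2 * p).choose p * (2 * p + 1).ascFactorial j := by
    have h1 := Nat.choose_mul_factorial_mul_factorial (show p ≤ 2 * p + j by omega)
    rw [show 2 * p + j - p = p + j by omega, ← Nat.factorial_mul_ascFactorial p j,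
      ← Nat.factorial_mul_ascFactorial (2 * p) j] at h1
    have e5 : (2 * p).factorial = (2 * p).choose p * (p.factorial * p.factorial) := by
      have := Nat.choose_mul_factorial_mul_factorial (show p ≤ 2 * p by omega)
      rw [show 2 * p - p = p by omega] at this
      rw [← this]
      ring
    rw [e5] at h1
    apply Nat.eq_of_mul_eq_mul_left (Nat.mul_pos hpf hpf)
    linear_combination h1
  have e2' := congrArg (Nat.cast : ℕ → R p) e2
  rw [Nat.cast_mul, Nat.cast_mul, a1, a2, choose_two_p p h3] at e2'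
  have c2 : (((2 * p + j).choose p : ℕ) : R p) * (1 + p * hR p j) = 2 * (1 + 2 * p * hR p j) := by
    apply hf.mul_left_cancel
    push_cast at e2'
    linear_combination e2'
  constructor
  · rw [c1]
    linear_combination (1 - p * hR p j) * c2 + (((2 * p + j).choose p : ℕ) : R p) * hR p j ^ 2 * hpp
      - 4 * hR p j ^ 2 * hpp
  · rw [c1]
    apply IsUnit.of_mul_eq_one (1 - p * hR p j)
    linear_combination (-(hR p j) ^ 2) * hpp

/-- `C(2p+2j,p+j) = 2 C(2p+2j,2p+j)` modulo `p²` -/
theorem choose_half (h3 : 3 < p) (j : ℕ) (hj : j < p) :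
    (((p + j).centralBinom : ℕ) : R p) = 2 * (((2 * (p + j)).choose (2 * p + j) : ℕ) : R p) := by
  obtain ⟨h1, h2⟩ := choose_two p h3 j hj
  apply h2.mul_right_cancel
  have e1 : (2 * (p + j)).choose (p + j) * (p + j).choose p =
      (2 * (p + j)).choose (2 * p + j) * (2 * p + j).choose p := by
    have a1 := Nat.choose_mul (n := 2 * (p + j)) (k := p + j) (s := p) (by omega)
    have a2 := Nat.choose_mul (n := 2 * (p + j)) (k := 2 * p + j) (s := p) (by omega)
    rw [show 2 * (p + j) - p = p + j + j by omega] at a1 a2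
    rw [show p + j - p = j by omega] at a1
    rw [show 2 * p + j - p = p + j by omega] at a2
    rw [a1, a2, Nat.choose_symm_add]
  have e2 := congrArg (Nat.cast : ℕ → R p) e1
  rw [Nat.cast_mul, Nat.cast_mul, h1] at e2
  unfold Nat.centralBinom
  linear_combination e2

end

section

variable (p : ℕ) [hp : Fact p.Prime] (n : ℕ)

/-- `∑ C(n,j)² 4^j` -/
def ff (p n : ℕ) : R p := ∑ j ∈ range (n + 1), ((n.choose j : ℕ) : R p) ^ 2 * 4 ^ j

/-- `∑ C(n,j) C(n+p,j) 4^j` -/
def x1 (p n : ℕ) : R p :=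
  ∑ j ∈ range (n + 1), ((n.choose j : ℕ) : R p) * (((n + p).choose j : ℕ) : R p) * 4 ^ j

/-- `∑ C(n,j) C(n+p,p+j) 4^j` -/
def x3 (p n : ℕ) : R p :=
  ∑ j ∈ range (n + 1), ((n.choose j : ℕ) : R p) * (((n + p).choose (p + j) : ℕ) : R p) * 4 ^ j

variable (hnp : n < p) (c J : R p) (hJ : 4 * J = 1) (hc : -J = (n : R p) + (-c) * p)
  (G : ℕ → R p) (hG : ∀ k, k < p → (k.factorial : R p) * G k = (descPochhammer (R p) k).eval (-J))

include hnp

omit hp in
theorem sum_to_n (f : ℕ → R p) (hf : ∀ k, n < k → k < p → f k = 0) :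
    ∑ k ∈ range p, f k = ∑ k ∈ range (n + 1), f k := by
  rw [← sum_range_add_sum_Ico _ (show n + 1 ≤ p by omega)]
  have : ∑ k ∈ Ico (n + 1) p, f k = 0 := by
    refine sum_eq_zero fun k hk => ?_
    rw [mem_Ico] at hk
    exact hf k (by omega) hk.2
  rw [this, add_zero]

include hc hG

/-- the weight `4` -/
theorem S1_eq : ∑ k ∈ range p, G k ^ 2 * 4 ^ k = (1 + 2 * c) * ff p n - 2 * c * x1 p n := by
  have hpp := CDE.p_sq p
  rw [sum_to_n p n hnp]
  · unfold ff x1
    rw [mul_sum, mul_sum, ← sum_sub_distrib]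
    refine sum_congr rfl fun k hk => ?_
    rw [mem_range] at hk
    obtain ⟨z, hz, hz2⟩ := choose_shift p n k (by omega)
    rw [hz2 (-c) (G k) (by rw [← hc]; exact hG k (by omega)), hz]
    linear_combination (c ^ 2 * z ^ 2 * 4 ^ k) * hpp
  · intro k hk hkp
    obtain ⟨z, hz, hz2⟩ := choose_shift p n k (by omega)
    rw [hz2 (-c) (G k) (by rw [← hc]; exact hG k (by omega)), Nat.choose_eq_zero_of_lt hk]
    push_cast
    linear_combination (c ^ 2 * z ^ 2 * 4 ^ k) * hpp

omit hp hnp hc hG in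
theorem x3_refl : x3 p n = ∑ k ∈ range (n + 1), ((n.choose k : ℕ) : R p) *
    (((n + p).choose k : ℕ) : R p) * 4 ^ (n - k) := by
  unfold x3
  rw [← sum_range_reflect]
  refine sum_congr rfl fun k hk => ?_
  rw [mem_range] at hk
  rw [show n + 1 - 1 - k = n - k by omega, Nat.choose_symm (by omega : k ≤ n),
    show p + (n - k) = n + p - k by omega, Nat.choose_symm (by omega : k ≤ n + p)]

include hJ

/-- the weight `1/4` -/
theorem S3_eq : 4 ^ n * ∑ k ∈ range p, G k ^ 2 * J ^ k = (1 + 2 * c) * ff p n - 2 * c * x3 p n := by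
  have hpp := CDE.p_sq p
  rw [sum_to_n p n hnp, x3_refl p n]
  · have e : ff p n = ∑ k ∈ range (n + 1), ((n.choose k : ℕ) : R p) ^ 2 * 4 ^ (n - k) := by
      unfold ff
      rw [← sum_range_reflect]
      refine sum_congr rfl fun k hk => ?_
      rw [mem_range] at hk
      rw [show n + 1 - 1 - k = n - k by omega, Nat.choose_symm (by omega : k ≤ n)]
    rw [e, mul_sum, mul_sum, mul_sum, ← sum_sub_distrib]
    refine sum_congr rfl fun k hk => ?_
    rw [mem_range] at hk
    obtain ⟨z, hz, hz2⟩ := choose_shift p n k (by omega)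
    rw [hz2 (-c) (G k) (by rw [← hc]; exact hG k (by omega)), hz]
    have h4 : (4 : R p) ^ n = 4 ^ (n - k) * 4 ^ k := by rw [← pow_add]; congr 1; omega
    have h5 : (4 : R p) ^ k * J ^ k = 1 := by rw [← mul_pow, hJ, one_pow]
    rw [h4]
    linear_combination (c ^ 2 * z ^ 2 * 4 ^ (n - k)) * hpp +
      (((n.choose k : ℕ) : R p) + (-c) * (p * z)) ^ 2 * 4 ^ (n - k) * h5
  · intro k hk hkp
    obtain ⟨z, hz, hz2⟩ := choose_shift p n k (by omega)
    rw [hz2 (-c) (G k) (by rw [← hc]; exact hG k (by omega)), Nat.choose_eq_zero_of_lt hk]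
    push_cast
    linear_combination (c ^ 2 * z ^ 2 * J ^ k) * hpp

omit hJ

/-- the mixed sum -/
theorem S2_eq (h3 : 3 < p) : ∑ k ∈ range p, G k * (k.centralBinom : R p) * 2 ^ k =
    ∑ k ∈ range p, G k ^ 2 * 4 ^ k - c * (4 ^ p * (2 * x3 p n - ff p n) -
      2 * 2 ^ p * (x1 p n + x3 p n - ff p n)) := by
  have hpp := CDE.p_sq p
  rw [S1_eq p n hnp c J hc G hG]
  -- the sum with `C(n,k)`
  have s1 : ∑ k ∈ range p, ((n.choose k : ℕ) : R p) * (k.centralBinom : R p) * 2 ^ k = ff p n := by
    rw [sum_to_n p n hnp]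
    · unfold ff
      rw [← id1]
      exact sum_congr rfl fun k _ => by ring
    · intro k hk _
      rw [Nat.choose_eq_zero_of_lt hk]
      simp
  -- the sum with `C(n+p,k)`
  have i1 := id1 (A := R p) (n + p)
  rw [show n + p + 1 = p + (n + 1) by ring, sum_range_add _ p (n + 1), sum_range_add _ p (n + 1)] at i1
  have s2 : ∑ k ∈ range p, ((((n + p).choose k : ℕ) : R p)) ^ 2 * 4 ^ k = 2 * x1 p n - ff p n := by
    rw [sum_to_n p n hnp]
    · unfold ff x1
      rw [mul_sum, ← sum_sub_distrib]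
      refine sum_congr rfl fun k hk => ?_
      rw [mem_range] at hk
      obtain ⟨z, hz, -⟩ := choose_shift p n k (by omega)
      rw [hz]
      linear_combination (z ^ 2 * 4 ^ k) * hpp
    · intro k hk hkp
      obtain ⟨z, hz, -⟩ := choose_shift p n k (by omega)
      rw [hz, Nat.choose_eq_zero_of_lt hk]
      push_cast
      linear_combination (z ^ 2 * 4 ^ k) * hpp
  have hd : ∀ j, j ≤ n → ∃ y : R p, (((n + p).choose (p + j) : ℕ) : R p) =
      ((n.choose j : ℕ) : R p) + p * y := by
    intro j hj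
    obtain ⟨z, hz, -⟩ := choose_shift p n (n - j) (by omega)
    refine ⟨z, ?_⟩
    rw [← Nat.choose_symm (show p + j ≤ n + p by omega), show n + p - (p + j) = n - j by omega, hz,
      Nat.choose_symm hj]
  have s3 : ∑ j ∈ range (n + 1), ((((n + p).choose (p + j) : ℕ) : R p)) ^ 2 * 4 ^ (p + j) =
      4 ^ p * (2 * x3 p n - ff p n) := by
    unfold ff x3
    rw [mul_sum, ← sum_sub_distrib, mul_sum]
    refine sum_congr rfl fun k hk => ?_
    rw [mem_range] at hk
    obtain ⟨y, hy⟩ := hd k (by omega)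
    rw [hy, pow_add]
    linear_combination (y ^ 2 * 4 ^ p * 4 ^ k) * hpp
  have s4 : ∑ j ∈ range (n + 1), (((n + p).choose (p + j) : ℕ) : R p) * 2 ^ (p + j) *
      (((p + j).centralBinom : ℕ) : R p) = 2 * 2 ^ p * (x1 p n + x3 p n - ff p n) := by
    have i2 := id2 (A := R p) n p
    have e1 : ∑ j ∈ range (n + 1), (((n + p).choose (p + j) : ℕ) : R p) * 2 ^ (p + j) *
        (((p + j).centralBinom : ℕ) : R p) = 2 * ∑ j ∈ range (n + 1),
        (((n + p).choose (p + j) : ℕ) : R p) * 2 ^ (p + j) *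
          (((2 * (p + j)).choose (2 * p + j) : ℕ) : R p) := by
      rw [mul_sum]
      refine sum_congr rfl fun j hj => ?_
      rw [mem_range] at hj
      rw [choose_half p h3 j (by omega)]
      ring
    rw [e1, i2]
    unfold x1 x3 ff
    rw [← sum_add_distrib, ← sum_sub_distrib, mul_sum, mul_sum]
    refine sum_congr rfl fun j hj => ?_
    rw [mem_range] at hj
    obtain ⟨y, hy⟩ := hd j (by omega)
    obtain ⟨z, hz, -⟩ := choose_shift p n j (by omega)
    rw [hy, hz, pow_add, pow_mul, show (2 : R p) ^ 2 = 4 by norm_num]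
    linear_combination (2 * y * z * 2 ^ p * 4 ^ j) * hpp
  have s5 : ∑ k ∈ range p, (((n + p).choose k : ℕ) : R p) * (k.centralBinom : R p) * 2 ^ k =
      2 * x1 p n - ff p n + 4 ^ p * (2 * x3 p n - ff p n) -
        2 * 2 ^ p * (x1 p n + x3 p n - ff p n) := by
    rw [s2, s3, s4] at i1
    have e : ∑ k ∈ range p, (((n + p).choose k : ℕ) : R p) * (k.centralBinom : R p) * 2 ^ k =
        ∑ k ∈ range p, (((n + p).choose k : ℕ) : R p) * 2 ^ k * (k.centralBinom : R p) :=
      sum_congr rfl fun k _ => by ring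
    rw [e]
    linear_combination i1
  have s6 : ∑ k ∈ range p, G k * (k.centralBinom : R p) * 2 ^ k =
      (1 + c) * ∑ k ∈ range p, ((n.choose k : ℕ) : R p) * (k.centralBinom : R p) * 2 ^ k -
      c * ∑ k ∈ range p, (((n + p).choose k : ℕ) : R p) * (k.centralBinom : R p) * 2 ^ k := by
    rw [mul_sum, mul_sum, ← sum_sub_distrib]
    refine sum_congr rfl fun k hk => ?_
    rw [mem_range] at hk
    obtain ⟨z, hz, hz2⟩ := choose_shift p n k (by omega)
    rw [hz2 (-c) (G k) (by rw [← hc]; exact hG k (by omega)), hz]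
    ring
  rw [s6, s1, s5]
  ring

end

end Pool.Agent.Q267.CDE.Qx
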