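import Pool.Agent.Q267.CDE.Qx2
import Pool.Agent.Q267.CDE.Quad
import Pool.Agent.Q267.CDE.Res2
import Pool.Agent.Q267.CDE.Luc41

/-!
# `C(-1/4, k)` in `ℤ_(p)`, the quadratic transformation in `ℤ/p²`, the trigonometric identity
-/

namespace Pool.Agent.Q267.CDE.Qx

open Finset Polynomial Pool.Agent.Q267 Pool.Agent.Q267.Seven Pool.Agent.Q267.CDE Pool.Agent.Q261.SC
  Q278.PI Pool.Agent.Q267.S16

/-- The generalized binomial coefficient `C(a, k)`. -/
def gb (a : ℚ) (k : ℕ) : ℚ := (∏ j ∈ range k, (a - j)) / k.factorial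

section

variable (p : ℕ) [hp : Fact p.Prime]

omit hp in
theorem ndf (hp' : p.Prime) (k : ℕ) (hk : k < p) : ¬ (p : ℤ) ∣ ((k.factorial : ℕ) : ℤ) := by
  intro h
  have h1 := Int.natCast_dvd_natCast.1 h
  have := (hp'.dvd_factorial).1 h1
  omega

/-- `C(-1/4,k)` in `ℤ_(p)` -/
noncomputable def gO (k : ℕ) : O p :=
  (∏ j ∈ range k, (-(invI p 4) - (j : O p))) * invI p ((k.factorial : ℕ) : ℤ)

/-- `c_k` in `ℤ_(p)` -/
noncomputable def cO (n k : ℕ) : O p :=
  (∏ j ∈ range k, (-(((n : O p) - (j : O p)) * ((n : O p) + (j : O p) + invI p 2)))) *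
    (invI p ((k.factorial : ℕ) : ℤ)) ^ 2

theorem gO_coe (h4 : ¬ (p : ℤ) ∣ 4) (k : ℕ) (hk : k < p) : ((gO p k : O p) : ℚ) = gb (-1 / 4) k := by
  unfold gO gb
  push_cast
  rw [invI_coe p 4 h4, invI_coe p _ (ndf p hp.out k hk), div_eq_mul_inv]
  congr 1
  refine prod_congr rfl fun j _ => ?_
  norm_num

theorem cO_coe (h2 : ¬ (p : ℤ) ∣ 2) (n k : ℕ) (hk : k < p) :
    ((cO p n k : O p) : ℚ) = CDE.cs ℚ n k := by
  unfold cO CDE.cs
  push_cast
  rw [invI_coe p 2 h2, invI_coe p _ (ndf p hp.out k hk), div_eq_mul_inv, inv_pow]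
  congr 1
  refine prod_congr rfl fun j _ => ?_
  norm_num

theorem g_desc (k : ℕ) (hk : k < p) : (k.factorial : R p) * res2 p (gO p k) =
    (descPochhammer (R p) k).eval (-(res2 p (invI p 4))) := by
  have hf := res2_invI p ((k.factorial : ℕ) : ℤ) (ndf p hp.out k hk)
  unfold gO
  rw [descPochhammer_eval_eq_prod_range]
  simp only [map_mul, map_prod, map_neg, map_sub, map_natCast]
  push_cast at hf
  linear_combination (∏ j ∈ range k, (-(res2 p (invI p 4)) - (j : R p))) * hf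

variable (e n : ℕ) (hn : e * p = 4 * n + 1)

include hn

theorem g_eq_c (h2' : ¬ (p : ℤ) ∣ 2) (h4' : ¬ (p : ℤ) ∣ 4) (k : ℕ) :
    res2 p (gO p k) ^ 2 = res2 p (cO p n k) := by
  unfold gO cO
  have h4 := res2_invI p 4 h4'
  have h2 := res2_invI p 2 h2'
  simp only [map_mul, map_prod, map_neg, map_sub, map_add, map_pow, map_natCast]
  set J4 := res2 p (invI p 4)
  set J2 := res2 p (invI p 2)
  push_cast at h4 h2
  have hJ : J2 = 2 * J4 := by
    have hu : IsUnit (2 : R p) := IsUnit.of_mul_eq_one _ h2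
    apply hu.mul_left_cancel
    linear_combination h2 - h4
  have hP : (e : R p) * p = 4 * n + 1 := by
    have := congrArg (Nat.cast : ℕ → R p) hn
    push_cast at this
    exact this
  rw [mul_pow, ← prod_pow]
  congr 1
  refine prod_congr rfl fun j _ => ?_
  have hpp := CDE.p_sq p
  rw [hJ]
  have e1 : -J4 = n - e * p * J4 := by
    rw [hP]
    linear_combination (n : R p) * h4
  have e2 : (n : R p) + 2 * J4 = -((n : R p) - 2 * (e * p * J4)) := by
    linear_combination -2 * e1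
  rw [e1]
  linear_combination (e ^ 2 * J4 ^ 2) * hpp + ((n : R p) - j) * e2

omit hn in
/-- the quadratic transformation over `ℤ/p²` -/
theorem quad_R (h2 : ¬ (p : ℤ) ∣ 2) (hnp : n < p) (x : R p) :
    ∑ k ∈ range (n + 1), res2 p (cO p n k) * (4 * (x * (1 - x))) ^ k = Fl (2 * n) x := by
  obtain ⟨dO, hdO⟩ : ∃ dO : ℕ → O p, ∀ k, dO k = ((dl (2 * n) k : ℤ) : O p) := ⟨_, fun _ => rfl⟩
  have hpoly : (∑ k ∈ range (2 * n + 1), C (dO k) * X ^ k : (O p)[X]) =
      ∑ k ∈ range (n + 1), C (cO p n k) * (4 * (X * (1 - X))) ^ k := by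
    apply Polynomial.map_injective (O p).subtype Subtype.val_injective
    apply Polynomial.funext
    intro r
    have h := quad (K := ℚ) n r
    simp only [Polynomial.map_sum, Polynomial.map_mul, Polynomial.map_pow, Polynomial.map_C,
      Polynomial.map_X, Polynomial.map_sub, Polynomial.map_one, Polynomial.map_ofNat,
      eval_finsetSum, eval_mul, eval_C, eval_pow, eval_X, eval_sub, eval_one, eval_ofNat]
    unfold Fl at h
    have e1 : ∑ k ∈ range (2 * n + 1), (O p).subtype (dO k) * r ^ k =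
        ∑ k ∈ range (2 * n + 1), ((dl (2 * n) k : ℤ) : ℚ) * r ^ k := by
      refine sum_congr rfl fun k _ => ?_
      rw [hdO, map_intCast]
    have e2 : ∑ k ∈ range (n + 1), (O p).subtype (cO p n k) * (4 * (r * (1 - r))) ^ k =
        ∑ k ∈ range (n + 1), CDE.cs ℚ n k * (4 * (r * (1 - r))) ^ k := by
      refine sum_congr rfl fun k hk => ?_
      rw [← cO_coe p h2 n k (by have := mem_range.1 hk; omega)]
      rfl
    rw [e1, e2]
    exact h
  have h := congrArg (eval₂ (res2 p) x) hpoly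
  simp only [eval₂_finsetSum, eval₂_mul, eval₂_C, eval₂_pow, eval₂_X, eval₂_sub, eval₂_one,
    eval₂_ofNat] at h
  unfold Fl
  rw [← h]
  refine sum_congr rfl fun k _ => ?_
  rw [hdO, map_intCast]

theorem G2_sum (h2 : ¬ (p : ℤ) ∣ 2) (h4 : ¬ (p : ℤ) ∣ 4) (hnp : n < p) (x v : R p)
    (hv : 4 * (x * (1 - x)) = v) :
    ∑ k ∈ range p, res2 p (gO p k) ^ 2 * v ^ k = Fl (2 * n) x := by
  rw [← quad_R p n h2 hnp x, hv, sum_to_n p n hnp]
  · refine sum_congr rfl fun k hk => ?_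
    rw [g_eq_c p e n hn h2 h4]
  · intro k hk hkp
    rw [g_eq_c p e n hn h2 h4]
    have : cO p n k = 0 := by
      apply Subtype.ext
      rw [cO_coe p h2 n k hkp, cs_zero_of n k hk]
      rfl
    rw [this, map_zero, zero_mul]

end

section

/-- the exact expansion at `1/4` -/
theorem exact3 (n : ℕ) : 2 * ∑ k ∈ range (n + 1), CDE.cs ℚ n k * (1 / 4) ^ k =
    ∑ k ∈ range (2 * n + 1), (u k * u (2 * n - k)) * ((-1) ^ (k + n) * (tau3 (k + 2 * n) : ℚ)) := by
  obtain ⟨q, hq⟩ : ∃ q : ℂ, q ^ 2 = 3 := IsAlgClosed.exists_pow_nat_eq 3 two_pos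
  set I := Complex.I with hI
  have hI2 : I ^ 2 = -1 := Complex.I_sq
  set z : ℂ := (q + I) / 2 with hz
  set z' : ℂ := (q - I) / 2 with hz'
  have hzz : z * z' = 1 := by
    rw [hz, hz']; linear_combination (1 / 4 : ℂ) * hq - (1 / 4 : ℂ) * hI2
  have hz2 : z ^ 2 = (1 + q * I) / 2 := by
    rw [hz]; linear_combination (1 / 4 : ℂ) * hq + (1 / 4 : ℂ) * hI2
  have hz2' : z' ^ 2 = (1 - q * I) / 2 := by
    rw [hz']; linear_combination (1 / 4 : ℂ) * hq + (1 / 4 : ℂ) * hI2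
  set w : ℂ := (-1 + q * I) / 2 with hw
  have hw2 : w ^ 2 + w + 1 = 0 := by
    rw [hw]; linear_combination (I ^ 2 / 4 : ℂ) * hq + (3 / 4 : ℂ) * hI2
  have hzw : z ^ 2 = -(-1 - w) := by rw [hz2, hw]; ring
  have hzw' : z' ^ 2 = -w := by rw [hz2', hw]; ring
  set x : ℂ := (2 - q) / 4 with hx
  have hx1 : 1 - 2 * x = (z + z') / 2 := by rw [hx, hz, hz']; ring
  have hx2 : 4 * (x * (1 - x)) = 1 / 4 := by rw [hx]; linear_combination (-1 / 4 : ℂ) * hq
  have f1 := Fl_trig (2 * n) x z z' hzz hx1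
  have f2 := Fl_trig (2 * n) x z' z (by rw [mul_comm]; exact hzz) (by rw [hx1]; ring)
  rw [Wt_range] at f1 f2
  have h := quad (K := ℂ) n x
  rw [hx2] at h
  have key : ∀ (a b v v' : ℂ), a * b = 1 → a ^ 2 = -v → b ^ 2 = -v' → v' = v ^ 2 → ∀ k, k ≤ 2 * n →
      a ^ k * b ^ (2 * n - k) = (-1) ^ (k + n) * v ^ (k + 2 * n) := by
    intro a b v v' hab ha hb hv k hk
    have e1 : a ^ k * b ^ (2 * n - k) = (a ^ 2) ^ k * (b ^ 2) ^ n := by
      have e2 : b ^ (2 * n) = b ^ (2 * n - k) * b ^ k := by rw [← pow_add]; congr 1; omega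
      have e3 : a ^ k * b ^ k = 1 := by rw [← mul_pow, hab, one_pow]
      rw [← pow_mul b 2 n, e2, ← pow_mul, mul_comm 2 k, pow_mul, pow_two]
      linear_combination (-(a ^ k * b ^ (2 * n - k))) * e3
    rw [e1, ha, hb, hv, neg_pow v k, neg_pow (v ^ 2) n, ← pow_mul v 2 n, pow_add, pow_add]
    ring
  have hwb : w ^ 2 = -1 - w := by linear_combination hw2
  have hwb' : (-1 - w) ^ 2 = w := by linear_combination hw2
  apply Rat.cast_injective (α := ℂ)
  have e1 : (2 : ℂ) * Fl (2 * n) x = ∑ k ∈ range (2 * n + 1), (u k * u (2 * n - k) : ℂ) *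
      ((-1) ^ (k + n) * (tau3 (k + 2 * n) : ℂ)) := by
    rw [two_mul]
    nth_rewrite 1 [f1]
    rw [f2, ← sum_add_distrib]
    refine sum_congr rfl fun k hk => ?_
    have hk' : k ≤ 2 * n := by simpa [Nat.lt_succ_iff] using hk
    have t := tau3_eq w hw2 (k + 2 * n)
    have a1 := key z z' (-1 - w) w hzz hzw hzw' hwb'.symm k hk'
    have a2 := key z' z w (-1 - w) (by rw [mul_comm]; exact hzz) hzw' hzw hwb.symm k hk'
    rw [t]
    linear_combination ((u k : ℂ) * (u (2 * n - k) : ℂ)) * a1 +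
      ((u k : ℂ) * (u (2 * n - k) : ℂ)) * a2
  rw [h] at e1
  push_cast
  rw [← e1]
  congr 1
  refine sum_congr rfl fun k _ => ?_
  unfold CDE.cs
  push_cast
  rfl

end

end Pool.Agent.Q267.CDE.Qx
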