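import Pool.Agent.Q267.CDE.Qx3
import Pool.Agent.Q267.CDE.Ext3

/-!
# The values of the three sums, `p ≡ 1, 7 (mod 12)`
-/

namespace Pool.Agent.Q267.CDE.Qx

open Finset Polynomial Pool.Agent.Q267 Pool.Agent.Q267.Seven Pool.Agent.Q267.CDE Pool.Agent.Q261.SC
  Q278.PI Pool.Agent.Q267.S16

section

variable (p : ℕ) [hp : Fact p.Prime]

/-- `C(2k,k) / 4^k` -/
def uR (p : ℕ) (J : R p) (k : ℕ) : R p := (k.centralBinom : R p) * J ^ k

/-- the weight at `1/4` as a sum -/
theorem G3_sum (e n : ℕ) (hn : e * p = 4 * n + 1) (h2 : ¬ (p : ℤ) ∣ 2) (h4 : ¬ (p : ℤ) ∣ 4)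
    (hnp : n < p) :
    2 * ∑ k ∈ range p, res2 p (gO p k) ^ 2 * (res2 p (invI p 4)) ^ k =
      ∑ k ∈ range (2 * n + 1), (uR p (res2 p (invI p 4)) k * uR p (res2 p (invI p 4)) (2 * n - k)) *
        ((-1) ^ (k + n) * (tau3 (k + 2 * n) : R p)) := by
  have hid : 2 * ∑ k ∈ range (n + 1), cO p n k * (invI p 4) ^ k =
      ∑ k ∈ range (2 * n + 1), (((k.centralBinom : O p) * (invI p 4) ^ k) *
        (((2 * n - k).centralBinom : O p) * (invI p 4) ^ (2 * n - k))) *
        ((-1) ^ (k + n) * ((tau3 (k + 2 * n) : ℤ) : O p)) := by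
    apply Subtype.ext
    have c2 : ((2 : O p) : ℚ) = 2 := rfl
    push_cast
    rw [c2, invI_coe p 4 h4]
    have h5 := exact3 n
    have e1 : ∑ k ∈ range (n + 1), ((cO p n k : O p) : ℚ) * (((4 : ℤ) : ℚ)⁻¹) ^ k =
        ∑ k ∈ range (n + 1), CDE.cs ℚ n k * (1 / 4) ^ k := by
      refine sum_congr rfl fun k hk => ?_
      rw [cO_coe p h2 n k (by have := mem_range.1 hk; omega)]
      norm_num
    rw [e1, h5]
    refine sum_congr rfl fun k _ => ?_
    unfold S16.u
    push_cast
    rw [div_eq_mul_inv, div_eq_mul_inv, ← inv_pow, ← inv_pow]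
  have h := congrArg (res2 p) hid
  simp only [map_sum, map_mul, map_pow, map_natCast, map_ofNat, map_neg, map_one, map_intCast] at h
  unfold uR
  rw [← h, sum_to_n p n hnp]
  · congr 1
    refine sum_congr rfl fun k _ => ?_
    rw [g_eq_c p e n hn h2 h4]
  · intro k hk hkp
    rw [g_eq_c p e n hn h2 h4]
    have : cO p n k = 0 := by
      apply Subtype.ext
      rw [cO_coe p h2 n k hkp, cs_zero_of n k hk]
      rfl
    rw [this, map_zero, zero_mul]

omit hp in
theorem nd2 (h3 : 3 < p) : ¬ (p : ℤ) ∣ 2 := by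
  intro h
  have := Int.le_of_dvd (by norm_num) h
  omega

theorem nd4 (h3 : 3 < p) : ¬ (p : ℤ) ∣ 4 := by
  intro h
  rcases (Nat.prime_iff_prime_int.1 hp.out).dvd_or_dvd (show (p : ℤ) ∣ 2 * 2 from h) with h | h <;>
  exact nd2 p h3 h

/-- `p ≡ 1 (mod 12)`, weight `4` -/
theorem val1_1 (t : ℕ) (ht : p = 12 * t + 1) (w : R p) (hw : w ^ 2 + w + 1 = 0) :
    ∑ k ∈ range p, res2 p (gO p k) ^ 2 * 4 ^ k = D0 p (6 * t) w := by
  have h2 := hp.out.two_le
  have h := G2_sum p 1 (3 * t) (by omega) (nd2 p (by omega)) (nd4 p (by omega)) (by omega) (-w) 4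
    (by linear_combination -4 * hw)
  rw [h, D0_eq, show 2 * (3 * t) = 6 * t by ring]

/-- `p ≡ 7 (mod 12)`, weight `4` -/
theorem val1_7 (t : ℕ) (ht : p = 12 * t + 7) (w : R p) (hw : w ^ 2 + w + 1 = 0) :
    ∑ k ∈ range p, res2 p (gO p k) ^ 2 * 4 ^ k = (2 * w + 1) * D0 p (6 * t + 3) w := by
  have h := G2_sum p 3 (9 * t + 5) (by omega) (nd2 p (by omega)) (nd4 p (by omega)) (by omega) (-w) 4
    (by linear_combination -4 * hw)
  have hpm : p = 2 * (6 * t + 3) + 1 := by omega
  have h1 := high_sum p hpm (by omega) w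
  have hT := Ext.pT_zero (p := p) (2 * t + 1) (by omega) w hw
  rw [show 3 * (2 * t + 1) = 6 * t + 3 by ring] at hT
  have hw3 : w ^ 3 = 1 := by linear_combination (w - 1) * hw
  have hwp : w ^ p = w := by
    have : w ^ p = w ^ (3 * (4 * t + 2) + 1) := congrArg (fun k => w ^ k) (by omega)
    rw [this, pow_succ, pow_mul, hw3, one_pow, one_mul]
  rw [hwp] at h1
  have e : Fl (2 * (9 * t + 5)) (-w) = ∑ k ∈ range (6 * t + 3 + p + 1),
      ((((6 * t + 3 + p).choose k * (6 * t + 3 + p + k).choose k : ℕ)) : R p) * w ^ k := by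
    unfold Fl
    rw [show 2 * (9 * t + 5) = 6 * t + 3 + p by omega]
    refine sum_congr rfl fun k _ => ?_
    rw [dl_nat]
  rw [h, e, h1]
  linear_combination 4 * w * hT

theorem tau3_add (k i : ℕ) : tau3 (k + 3 * i) = tau3 k := by
  unfold tau3
  rw [Nat.add_mul_mod_self_left]

/-- `p ≡ 1 (mod 12)`, weight `1/4` -/
theorem val3_1 (t : ℕ) (ht : p = 12 * t + 1) (w : R p) (hw : w ^ 2 + w + 1 = 0) :
    ∑ k ∈ range p, res2 p (gO p k) ^ 2 * (res2 p (invI p 4)) ^ k = (-1) ^ t * D0 p (6 * t) w := by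
  have h2 := hp.out.two_le
  have h := G3_sum p 1 (3 * t) (by omega) (nd2 p (by omega)) (nd4 p (by omega)) (by omega)
  have hJ := res2_invI p 4 (nd4 p (by omega))
  push_cast at hJ
  set J := res2 p (invI p 4) with hJd
  have hpm : p = 2 * (6 * t) + 1 := by omega
  rw [show 2 * (3 * t) = 6 * t by ring] at h
  have hev : ((-1 : R p)) ^ (6 * t) = 1 := by rw [show 6 * t = 2 * (3 * t) by ring, pow_mul]; norm_num
  have hw3 : w ^ 3 = 1 := by linear_combination (w - 1) * hw
  have hw' : (-1 - w) ^ 2 + (-1 - w) + 1 = 0 := by linear_combination hw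
  have hww : w * (-1 - w) = 1 := by linear_combination -hw
  have hw3' : (-1 - w) ^ 3 = 1 := by linear_combination (-w - 2) * hw
  have hD := D0_refl (p := p) (m := 6 * t) w
  rw [hev, one_mul] at hD
  -- twice the sum
  have key : 4 * ∑ k ∈ range p, res2 p (gO p k) ^ 2 * J ^ k =
      2 * ((-1) ^ t * (D0 p (6 * t) w + D0 p (6 * t) (-1 - w))) := by
    have e1 : 4 * ∑ k ∈ range p, res2 p (gO p k) ^ 2 * J ^ k =
        2 * (2 * ∑ k ∈ range p, res2 p (gO p k) ^ 2 * J ^ k) := by ring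
    rw [e1, h, mul_sum]
    have e2 : ∀ k ∈ range (6 * t + 1), 2 * (uR p J k * uR p J (6 * t - k) *
        ((-1) ^ (k + 3 * t) * (tau3 (k + 6 * t) : R p))) =
        (dl (6 * t) k : R p) * ((-1) ^ t * (-1) ^ k * (w ^ k + (-1 - w) ^ k)) +
        (dl (6 * t) (6 * t - k) : R p) * ((-1) ^ t * (-1) ^ (6 * t - k) *
          (w ^ (6 * t - k) + (-1 - w) ^ (6 * t - k))) := by
      intro k hk
      have hk' : k ≤ 6 * t := by simpa [Nat.lt_succ_iff] using hk
      have h8 := uu p hpm (by omega) J hJ k hk'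
      rw [hev, one_mul] at h8
      have h9 : (tau3 (k + 6 * t) : R p) = w ^ k + (-1 - w) ^ k := by
        rw [show k + 6 * t = k + 3 * (2 * t) by ring, tau3_add, tau3_eq w hw]
      have s1 : ((-1 : R p)) ^ (k + 3 * t) = (-1) ^ t * (-1) ^ k := by
        rw [show k + 3 * t = t + k + 2 * t by ring, pow_add _ (t + k), pow_mul _ 2 t, pow_add]
        norm_num
      have s2 : ((-1 : R p)) ^ (6 * t - k) = (-1) ^ k := by
        have e5 : ((-1 : R p)) ^ (6 * t - k) * (-1) ^ k = 1 := by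
          rw [← pow_add, Nat.sub_add_cancel hk', hev]
        have e6 : ((-1 : R p)) ^ k * (-1) ^ k = 1 := by rw [← mul_pow]; norm_num
        linear_combination (-1) ^ k * e5 - (-1) ^ (6 * t - k) * e6
      have hone : ∀ v v' : R p, v ^ 3 = 1 → v * v' = 1 → v ^ (6 * t - k) = v' ^ k := by
        intro v v' hv hvv
        have e5 : v ^ (6 * t - k) * v ^ k = 1 := by
          rw [← pow_add, Nat.sub_add_cancel hk', show 6 * t = 3 * (2 * t) by ring, pow_mul, hv,
            one_pow]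
        have e6 : v ^ k * v' ^ k = 1 := by rw [← mul_pow, hvv, one_pow]
        linear_combination (v' ^ k) * e5 - v ^ (6 * t - k) * e6
      rw [h9, s1, s2, hone w (-1 - w) hw3 hww, hone (-1 - w) w hw3' (by rw [mul_comm]; exact hww)]
      unfold uR
      linear_combination ((-1) ^ t * (-1) ^ k * (w ^ k + (-1 - w) ^ k)) * h8
    rw [sum_congr rfl e2, sum_add_distrib]
    have e3 : ∑ k ∈ range (6 * t + 1), (dl (6 * t) (6 * t - k) : R p) * ((-1) ^ t * (-1) ^ (6 * t - k) *
          (w ^ (6 * t - k) + (-1 - w) ^ (6 * t - k))) = ∑ k ∈ range (6 * t + 1),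
          (dl (6 * t) k : R p) * ((-1) ^ t * (-1) ^ k * (w ^ k + (-1 - w) ^ k)) := by
      rw [← sum_range_reflect]
      refine sum_congr rfl fun k hk => ?_
      have hk' : k ≤ 6 * t := by simpa [Nat.lt_succ_iff] using hk
      rw [show 6 * t + 1 - 1 - k = 6 * t - k by omega, Nat.sub_sub_self hk']
    rw [e3, ← two_mul]
    congr 1
    unfold D0
    rw [← sum_add_distrib, mul_sum]
    refine sum_congr rfl fun k _ => ?_
    rw [neg_pow w k, neg_pow (-1 - w) k]
    ring
  rw [hD] at key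
  linear_combination J * key - (∑ k ∈ range p, res2 p (gO p k) ^ 2 * J ^ k
    - (-1) ^ t * D0 p (6 * t) w) * hJ

/-- harmonic numbers, reflected -/
theorem hR_two {m : ℕ} (hpm : p = 2 * m + 1) (h3 : 3 < p) (k : ℕ) (hk : k ≤ m) :
    2 * Landen.Hh (ZMod p) (2 * (m - k)) - Landen.Hh (ZMod p) (m - k) =
      Landen.Hh (ZMod p) k - Landen.Hh (ZMod p) m := by
  have Hs : ∀ n, Landen.Hh (ZMod p) (n + 1) = Landen.Hh (ZMod p) n + ((n + 1 : ℕ) : ZMod p)⁻¹ := by
    intro n
    unfold Landen.Hh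
    rw [sum_range_succ]
  have hm' : (2 : ZMod p) * m + 1 = 0 := by
    have h0 : ((p : ℕ) : ZMod p) = 0 := CharP.cast_eq_zero _ p
    have h1 := congrArg (Nat.cast : ℕ → ZMod p) hpm
    rw [h0] at h1
    push_cast at h1
    exact h1.symm
  induction k with
  | zero =>
    have h0 := Hh_pred p h3
    rw [Nat.sub_zero, show 2 * m = p - 1 by omega, h0]
    simp [Landen.Hh]
  | succ k ih =>
    have ih := ih (by omega)
    obtain ⟨j, hj⟩ : ∃ j, m - k = j + 1 := ⟨m - k - 1, by omega⟩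
    have hj' : m - (k + 1) = j := by omega
    rw [hj, show 2 * (j + 1) = 2 * j + 1 + 1 by ring, Hs (2 * j + 1), Hs (2 * j), Hs j] at ih
    rw [hj', Hs k]
    have n1 := CDE.cast_ne p (j + 1) (by omega) (by omega)
    have n2 := CDE.cast_ne p (2 * j + 1) (by omega) (by omega)
    have n3 := CDE.cast_ne p (k + 1) (by omega) (by omega)
    have h20 := CDE.cast_ne p 2 (by omega) (by omega)
    have hmk : ((m : ℕ) : ZMod p) = k + j + 1 := by
      have := congrArg (Nat.cast : ℕ → ZMod p) (show m = k + (j + 1) by omega)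
      push_cast at this
      linear_combination this
    have n2e : ((2 * j + 1 : ℕ) : ZMod p) = -(2 * ((k + 1 : ℕ) : ZMod p)) := by
      push_cast
      linear_combination hm' - 2 * hmk
    have i2 : ((2 * j + 1 + 1 : ℕ) : ZMod p)⁻¹ * 2 = ((j + 1 : ℕ) : ZMod p)⁻¹ := by
      have e : ((2 * j + 1 + 1 : ℕ) : ZMod p) = 2 * ((j + 1 : ℕ) : ZMod p) := by push_cast; ring
      rw [e, mul_inv]
      push_cast at h20
      field_simp
    have i1 : ((2 * j + 1 : ℕ) : ZMod p)⁻¹ * 2 = -(((k + 1 : ℕ) : ZMod p)⁻¹) := by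
      rw [n2e, inv_neg, mul_inv]
      push_cast at h20
      field_simp
    linear_combination ih - i2 - i1

/-- `u_{p+j}` modulo `p²` -/
theorem choose_big (h3 : 3 < p) (j : ℕ) (hj : 2 * j < p) :
    (((p + j).centralBinom : ℕ) : R p) =
      2 * (j.centralBinom : R p) * (1 + 2 * p * (hR p (2 * j) - hR p j)) := by
  have hpp := CDE.p_sq p
  have e1 := Nat.choose_mul_factorial_mul_factorial (show p + j ≤ 2 * (p + j) by omega)
  rw [show 2 * (p + j) - (p + j) = p + j by omega, show 2 * (p + j) = 2 * p + 2 * j by ring,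
    ← Nat.factorial_mul_ascFactorial p j, ← Nat.factorial_mul_ascFactorial (2 * p) (2 * j)] at e1
  have e5 : (2 * p).factorial = (2 * p).choose p * (p.factorial * p.factorial) := by
    have := Nat.choose_mul_factorial_mul_factorial (show p ≤ 2 * p by omega)
    rw [show 2 * p - p = p by omega] at this
    rw [← this]
    ring
  rw [e5] at e1
  have hpos : 0 < p.factorial * p.factorial := Nat.mul_pos (Nat.factorial_pos p) (Nat.factorial_pos p)
  have e6 : (2 * p + 2 * j).choose (p + j) * ((p + 1).ascFactorial j * (p + 1).ascFactorial j) =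
      (2 * p).choose p * (2 * p + 1).ascFactorial (2 * j) := by
    apply Nat.eq_of_mul_eq_mul_left hpos
    linear_combination e1
  have e7 := congrArg (Nat.cast : ℕ → R p) e6
  have a1 := asc p 1 j (by omega)
  have a2 := asc p 2 (2 * j) hj
  rw [one_mul, Nat.cast_one, one_mul] at a1
  rw [Nat.cast_mul, Nat.cast_mul, Nat.cast_mul, choose_two_p p h3, a1, a2] at e7
  have e2 := Nat.choose_mul_factorial_mul_factorial (show j ≤ 2 * j by omega)
  rw [show 2 * j - j = j by omega] at e2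
  have e8 := congrArg (Nat.cast : ℕ → R p) e2
  have f2 := fact_unit p j (by omega)
  have key : (((2 * p + 2 * j).choose (p + j) : ℕ) : R p) * (1 + 2 * p * hR p j) =
      2 * (((2 * j).choose j : ℕ) : R p) * (1 + 2 * p * hR p (2 * j)) := by
    apply (f2.mul f2).mul_left_cancel
    push_cast at e7 e8
    linear_combination e7 - (((2 * p + 2 * j).choose (p + j) : ℕ) : R p) * (j.factorial : R p) ^ 2 *
      hR p j ^ 2 * hpp - 2 * (1 + 2 * p * hR p (2 * j)) * e8
  unfold Nat.centralBinom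
  rw [show 2 * (p + j) = 2 * p + 2 * j by ring]
  linear_combination (1 - 2 * p * hR p j) * key +
    (4 * (((2 * p + 2 * j).choose (p + j) : ℕ) : R p) * hR p j ^ 2 -
      8 * (((2 * j).choose j : ℕ) : R p) * hR p j * hR p (2 * j)) * hpp

/-- Fermat's little theorem for `4^m` -/
theorem four_pow {m : ℕ} (hpm : p = 2 * m + 1) (h3 : 3 < p) : ∃ κ : R p, (4 : R p) ^ m = 1 + p * κ := by
  apply CDE.red_eq_of
  rw [map_pow, map_one, map_ofNat]
  have h20 := CDE.cast_ne p 2 (by omega) (by omega)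
  push_cast at h20
  have := ZMod.pow_card_sub_one_eq_one h20
  rw [show p - 1 = 2 * m by omega, pow_mul] at this
  rw [← this]
  norm_num

/-- `p H_m = 2 - 2 · 4^m` -/
theorem hR_m {m : ℕ} (hpm : p = 2 * m + 1) (h3 : 3 < p) (J : R p) (hJ : 4 * J = 1) :
    (p : R p) * hR p m = 2 - 2 * 4 ^ m := by
  have h1 := uu p hpm h3 J hJ 0 (Nat.zero_le m)
  have h2 := dl_R p m hpm m le_rfl
  have hs : ((-1 : R p)) ^ m * (-1) ^ m = 1 := by rw [← mul_pow]; norm_num
  have hc : cR p m m = 1 := by simp [cR]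
  have h0 : hR p (m - m) = 0 := by simp [hR]
  have hcb : (((m.centralBinom : ℕ)) : R p) = (-1) ^ m * (dl m m : R p) := by
    unfold dl Nat.centralBinom
    rw [Nat.choose_self, show m + m = 2 * m by ring]
    push_cast
    linear_combination (-(((2 * m).choose m : ℕ) : R p)) * hs
  have hd0 : (dl m 0 : R p) = 1 := by simp [dl]
  rw [hc, h0] at h2
  rw [Nat.sub_zero, Nat.centralBinom_zero, hcb, hd0] at h1
  have h4 : (4 : R p) ^ m * J ^ m = 1 := by rw [← mul_pow, hJ, one_pow]
  obtain ⟨κ, hκ⟩ := four_pow p hpm h3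
  have hpp := CDE.p_sq p
  -- 2 d J^m = 1 + d
  have h5 : 2 * (dl m m : R p) * J ^ m = 1 + (dl m m : R p) := by
    push_cast at h1
    rw [pow_zero] at h1
    linear_combination (-1) ^ m * h1 + (1 + (dl m m : R p) - 2 * (dl m m : R p) * J ^ m) * hs
  rw [h2] at h5
  have h6 : (p : R p) * hR p m * 4 ^ m = p * hR p m := by
    rw [hκ]
    linear_combination (hR p m * κ) * hpp
  linear_combination -(4 ^ m) * h5 + (2 * (1 - p * hR p m)) * h4 + h6

/-- `u_{p+j}`, `j = m - k` -/
theorem uR_big {m : ℕ} (hpm : p = 2 * m + 1) (h3 : 3 < p) (J : R p) (hJ : 4 * J = 1) (k : ℕ)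
    (hk : k ≤ m) : 2 * uR p J (p + (m - k)) = uR p J (m - k) * (1 + p * (hR p k - hR p (m - k))) := by
  have hpp := CDE.p_sq p
  obtain ⟨κ, hκ⟩ := four_pow p hpm h3
  have hm := hR_m p hpm h3 J hJ
  have hc := choose_big p h3 (m - k) (by omega)
  have key : (p : R p) * (2 * hR p (2 * (m - k)) - hR p (m - k)) = p * (hR p k - hR p m) := by
    apply CDE.p_mul_eq
    have r1 : CDE.red p (hR p (2 * (m - k))) = Landen.Hh (ZMod p) (2 * (m - k)) :=
      Seven.red_hR p _ (by omega)
    have r2 : CDE.red p (hR p (m - k)) = Landen.Hh (ZMod p) (m - k) := Seven.red_hR p _ (by omega)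
    have r3 : CDE.red p (hR p k) = Landen.Hh (ZMod p) k := Seven.red_hR p _ (by omega)
    have r4 : CDE.red p (hR p m) = Landen.Hh (ZMod p) m := Seven.red_hR p _ (by omega)
    rw [map_sub, map_sub, map_mul, map_ofNat, r1, r2, r3, r4]
    exact hR_two p hpm h3 k hk
  have h4 : (4 : R p) ^ m * J ^ m = 1 := by rw [← mul_pow, hJ, one_pow]
  have hJp : J ^ (p + (m - k)) = J ^ m * J ^ m * J * J ^ (m - k) := by
    rw [pow_add]
    congr 1
    have : J ^ p = J ^ (2 * m + 1) := congrArg (fun n => J ^ n) hpm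
    rw [this, pow_succ, two_mul, pow_add]
  unfold uR
  rw [hc, hJp]
  rw [hκ] at h4 hm
  have hJm : J ^ m = 1 - p * κ := by
    linear_combination (1 - p * κ) * h4 + J ^ m * κ ^ 2 * hpp
  rw [hJm]
  set B := (((m - k).centralBinom : ℕ) : R p) * J ^ (m - k)
  set h1 := hR p (2 * (m - k))
  set h2 := hR p (m - k)
  set h0 := hR p k
  set hm' := hR p m
  linear_combination (B * (1 - p * κ) ^ 2 * (1 + 2 * p * (h1 - h2))) * hJ + B * key
    - B * hm + (B * (κ ^ 2 * (1 + 2 * p * (h1 - h2)) - 4 * κ * (h1 - h2))) * hpp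

/-- `p ≡ 7 (mod 12)`, weight `1/4` -/
theorem val3_7 (t : ℕ) (ht : p = 12 * t + 7) (w : R p) (hw : w ^ 2 + w + 1 = 0) :
    2 * ∑ k ∈ range p, res2 p (gO p k) ^ 2 * (res2 p (invI p 4)) ^ k =
      (-1) ^ t * ((2 * w + 1) * D0 p (6 * t + 3) w) := by
  have h2 := hp.out.two_le
  have h := G3_sum p 3 (9 * t + 5) (by omega) (nd2 p (by omega)) (nd4 p (by omega)) (by omega)
  have hJ := res2_invI p 4 (nd4 p (by omega))
  push_cast at hJ
  set J := res2 p (invI p 4) with hJd
  obtain ⟨m, hm⟩ : ∃ m, m = 6 * t + 3 := ⟨_, rfl⟩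
  have hpm : p = 2 * m + 1 := by omega
  have hpp := CDE.p_sq p
  rw [show 2 * (9 * t + 5) = p + m by omega] at h
  rw [show 6 * t + 3 = m by omega]
  -- powers of the sixth roots of unity
  have hw' : (-1 - w) ^ 2 + (-1 - w) + 1 = 0 := by linear_combination hw
  obtain ⟨v, hv⟩ : ∃ v, v = -w := ⟨_, rfl⟩
  obtain ⟨v', hv'⟩ : ∃ v', v' = -(-1 - w) := ⟨_, rfl⟩
  have hvv : v * v' = 1 := by rw [hv, hv']; linear_combination -hw
  have hv3 : v ^ 3 = -1 := by rw [hv]; linear_combination (1 - w) * hw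
  have hv3' : v' ^ 3 = -1 := by rw [hv']; linear_combination (w + 2) * hw
  have hodd : Odd m := Nat.odd_iff.2 (by omega)
  have hsm : ((-1 : R p)) ^ m = -1 := hodd.neg_one_pow
  have hpm3 : ∀ a b : R p, a ^ 3 = -1 → a * b = 1 → ∀ k, k ≤ m → a ^ (m - k) = -b ^ k := by
    intro a b ha hab k hk
    have e5 : a ^ (m - k) * a ^ k = -1 := by
      rw [← pow_add, Nat.sub_add_cancel hk, hm, show 6 * t + 3 = 3 * (2 * t + 1) by ring, pow_mul, ha,
        pow_add, pow_mul]
      norm_num
    have e6 : a ^ k * b ^ k = 1 := by rw [← mul_pow, hab, one_pow]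
    linear_combination (b ^ k) * e5 - a ^ (m - k) * e6
  have hg : ∀ k, ((-1 : R p)) ^ (k + (9 * t + 5)) * (tau3 (k + (p + m)) : R p) =
      -((-1) ^ t * (w * v ^ k + (-1 - w) * v' ^ k)) := by
    intro k
    have s1 : ((-1 : R p)) ^ (k + (9 * t + 5)) = -((-1) ^ t * (-1) ^ k) := by
      rw [show k + (9 * t + 5) = (t + k) + (2 * (4 * t + 2) + 1) by ring, pow_add _ (t + k),
        pow_succ _ (2 * (4 * t + 2)), pow_mul _ 2, pow_add]
      norm_num
    have s2 : (tau3 (k + (p + m)) : R p) = w ^ (k + 1) + (-1 - w) ^ (k + 1) := by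
      rw [show k + (p + m) = (k + 1) + 3 * (6 * t + 3) by omega, tau3_add, tau3_eq w hw]
    rw [s1, s2, hv, hv', neg_pow w k, neg_pow (-1 - w) k]
    ring
  obtain ⟨g, hgd⟩ : ∃ g : ℕ → R p, ∀ k, g k = -((-1) ^ t * (w * v ^ k + (-1 - w) * v' ^ k)) :=
    ⟨_, fun _ => rfl⟩
  have hg' : ∀ k, ((-1 : R p)) ^ (k + (9 * t + 5)) * (tau3 (k + (p + m)) : R p) = g k := by
    intro k
    rw [hg, hgd]
  simp only [hg'] at h
  have hgs : ∀ k, k ≤ m → g (p + (m - k)) = g k := by
    intro k hk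
    have hpp' : ∀ a b : R p, a ^ 3 = -1 → a * b = 1 → a ^ (p + (m - k)) = -(a * b ^ k) := by
      intro a b ha hab
      have e1 : a ^ p = a := by
        have : a ^ p = a ^ (3 * (2 * (2 * t + 1)) + 1) := congrArg (fun n => a ^ n) (by omega)
        rw [this, pow_succ, pow_mul, ha, pow_mul]
        norm_num
      rw [pow_add, e1, hpm3 a b ha hab k hk]
      ring
    rw [hgd, hgd, hpp' v v' hv3 hvv, hpp' v' v hv3' (by rw [mul_comm]; exact hvv), hv, hv']
    linear_combination ((-1) ^ t * ((-(-1 - w)) ^ k + (-w) ^ k)) * (-1 : R p) * hw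
  -- splitting the sum
  have hsplit : ∑ k ∈ range (p + m + 1), uR p J k * uR p J (p + m - k) * g k =
      ∑ k ∈ range (m + 1), uR p J k * (2 * uR p J (p + (m - k))) * g k := by
    rw [show p + m + 1 = p + (m + 1) by ring, sum_range_add _ p (m + 1),
      ← sum_range_add_sum_Ico _ (show m + 1 ≤ p by omega)]
    have z1 : ∑ k ∈ Ico (m + 1) p, uR p J k * uR p J (p + m - k) * g k = 0 := by
      refine sum_eq_zero fun k hk => ?_
      rw [mem_Ico] at hk
      have hz : ∀ i, m < i → i < p → ∃ z : R p, uR p J i = p * z := by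
        intro i hi hip
        have h5 : CDE.red p (uR p J i) = 0 := by
          unfold uR
          have h6 := u2_zero p hpm (by omega) i hi hip
          have h7 := congrArg (CDE.red p) h6
          rw [map_pow, map_zero] at h7
          rw [map_mul, pow_eq_zero_iff (two_ne_zero) |>.1 h7, zero_mul]
        obtain ⟨z, hz⟩ := CDE.red_eq_of p (uR p J i) 0 (by rw [h5, map_zero])
        exact ⟨z, by rw [hz, zero_add]⟩
      obtain ⟨z, hz1⟩ := hz k (by omega) hk.2
      obtain ⟨z', hz2⟩ := hz (p + m - k) (by omega) (by omega)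
      rw [hz1, hz2]
      linear_combination (z * z' * g k) * hpp
    have z2 : ∑ j ∈ range (m + 1), uR p J (p + j) * uR p J (p + m - (p + j)) * g (p + j) =
        ∑ k ∈ range (m + 1), uR p J k * uR p J (p + (m - k)) * g k := by
      rw [← sum_range_reflect]
      refine sum_congr rfl fun k hk => ?_
      have hk' : k ≤ m := by simpa [Nat.lt_succ_iff] using hk
      rw [show m + 1 - 1 - k = m - k by omega, show p + m - (p + (m - k)) = k by omega, hgs k hk']
      ring
    rw [z1, z2, add_zero, ← sum_add_distrib]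
    refine sum_congr rfl fun k hk => ?_
    have hk' : k ≤ m := by simpa [Nat.lt_succ_iff] using hk
    rw [show p + m - k = p + (m - k) by omega]
    ring
  rw [hsplit] at h
  have hD := D0_refl (p := p) (m := m) w
  rw [hsm] at hD
  have key : 2 * (2 * ∑ k ∈ range p, res2 p (gO p k) ^ 2 * J ^ k) =
      2 * ((-1) ^ t * ((2 * w + 1) * D0 p m w)) := by
    rw [h, mul_sum]
    have e2 : ∀ k ∈ range (m + 1), 2 * (uR p J k * (2 * uR p J (p + (m - k))) * g k) =
        (dl m k : R p) * g k - 3 * ((dl m (m - k) : R p) * g k) := by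
      intro k hk
      have hk' : k ≤ m := by simpa [Nat.lt_succ_iff] using hk
      have h8 := uu p hpm (by omega) J hJ k hk'
      rw [hsm] at h8
      have h9 := uR_big p hpm (by omega) J hJ k hk'
      have h10 := dl_diff p m hpm k hk'
      have h11 := dl_R p m hpm k hk'
      have h12 : (p : R p) * (dl m k : R p) = p * cR p m k := by
        rw [h11]
        linear_combination (-(cR p m k * (hR p m - hR p (m - k)))) * hpp
      rw [h9]
      unfold uR
      set δ := hR p k - hR p (m - k)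
      have h13 : (dl m (m - k) : R p) = (dl m k : R p) + p * (cR p m k * δ) := by
        linear_combination h10
      rw [h13] at h8 ⊢
      linear_combination ((1 + p * δ) * g k) * h8 - 2 * δ * g k * h12 -
        (cR p m k * δ ^ 2 * g k) * hpp
    rw [sum_congr rfl e2, sum_sub_distrib, ← mul_sum]
    have e3 : ∑ k ∈ range (m + 1), (dl m (m - k) : R p) * g k =
        ∑ k ∈ range (m + 1), (dl m k : R p) * ((-1) ^ t * (w * v' ^ k + (-1 - w) * v ^ k)) := by
      rw [← sum_range_reflect]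
      refine sum_congr rfl fun k hk => ?_
      have hk' : k ≤ m := by simpa [Nat.lt_succ_iff] using hk
      rw [show m + 1 - 1 - k = m - k by omega, Nat.sub_sub_self hk', hgd, hpm3 v v' hv3 hvv k hk',
        hpm3 v' v hv3' (by rw [mul_comm]; exact hvv) k hk']
      ring
    have e4 : ∑ k ∈ range (m + 1), (dl m k : R p) * ((-1) ^ t * (w * v' ^ k + (-1 - w) * v ^ k)) =
        (-1) ^ t * (w * D0 p m (-1 - w) + (-1 - w) * D0 p m w) := by
      unfold D0
      rw [mul_sum, mul_sum, ← sum_add_distrib, mul_sum, ← hv, ← hv']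
      exact sum_congr rfl fun k _ => by ring
    have e5 : ∑ k ∈ range (m + 1), (dl m k : R p) * g k =
        -((-1) ^ t * (w * D0 p m w + (-1 - w) * D0 p m (-1 - w))) := by
      unfold D0
      rw [mul_sum, mul_sum, ← sum_add_distrib, mul_sum, ← sum_neg_distrib, ← hv, ← hv']
      refine sum_congr rfl fun k _ => ?_
      rw [hgd]
      ring
    rw [e3, e4, e5, hD]
    ring
  have h2u : IsUnit (2 : R p) := Ext.unit2 (by omega)
  exact h2u.mul_left_cancel key

end

end Pool.Agent.Q267.CDE.Qx
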