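import Pool.Agent.Q267.CDE.Sign3

/-!
# Quadratic symbols of `x` and `y` for `p = x² + 3y²`, `p ≡ 1 (mod 12)`
-/

namespace Pool.Agent.Q267.CDE

open NumberTheorySymbols

theorem gcd_one (p : ℕ) (hp : p.Prime) (h2 : p ≠ 3) (x y : ℤ)
    (hxy : (p : ℤ) = x ^ 2 + 3 * y ^ 2) (q : ℕ) (hq : q.Prime) (h1 : (q : ℤ) ∣ x)
    (h3 : (q : ℤ) ∣ y) : False := by
  have h3 : ((q * q : ℕ) : ℤ) ∣ (p : ℤ) := by
    rw [hxy]
    push_cast
    exact dvd_add (by rw [pow_two]; exact mul_dvd_mul h1 h1)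
      (Dvd.dvd.mul_left (by rw [pow_two]; exact mul_dvd_mul h3 h3) _)
  have h4 : q * q ∣ p := Int.natCast_dvd_natCast.1 h3
  have h5 : q ∣ p := (Dvd.intro _ rfl).trans h4
  have h6 := (Nat.prime_dvd_prime_iff_eq hq hp).1 h5
  subst h6
  have := Nat.le_of_dvd hp.pos h4
  have := hp.two_le
  nlinarith

/-- the symbol of `x` -/
theorem jac_x1 (p : ℕ) (hp : p.Prime) (h12 : p % 12 = 1) (x y : ℤ)
    (hxy : (p : ℤ) = x ^ 2 + 3 * y ^ 2) (hx : x % 4 = 1) : J(x | p) = J(x | 3) := by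
  have hpodd : Odd p := Nat.odd_iff.2 (by omega)
  have hp4 : p % 4 = 1 := by omega
  have hcop : ∀ a : ℕ, (a : ℤ) ∣ x → y.gcd a = 1 := by
    intro a ha
    by_contra h
    obtain ⟨q, hq, hqg⟩ := Nat.exists_prime_and_dvd h
    have h1 : (q : ℤ) ∣ y := (Int.natCast_dvd_natCast.2 hqg).trans (Int.gcd_dvd_left _ _)
    have h2 : (q : ℤ) ∣ x := ((Int.natCast_dvd_natCast.2 hqg).trans (Int.gcd_dvd_right _ _)).trans ha
    exact gcd_one p hp (by omega) x y hxy q hq h2 h1
  have hsq : ∀ a : ℕ, (a : ℤ) ∣ x → J((p : ℤ) | a) = J(3 | a) := by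
    intro a ha
    have h1 : J((p : ℤ) | a) = J(3 * y ^ 2 | a) := by
      apply jacobiSym.mod_left'
      rw [hxy]
      obtain ⟨c, hc⟩ := ha
      rw [hc, show ((a : ℤ) * c) ^ 2 + 3 * y ^ 2 = 3 * y ^ 2 + (a : ℤ) * (a * c ^ 2) by ring]
      exact Int.add_mul_emod_self_left _ _ _
    rw [h1, jacobiSym.mul_left, jacobiSym.pow_left, jacobiSym.sq_one (hcop a ha), mul_one]
  rcases le_or_gt 0 x with h0 | h0
  · obtain ⟨a, rfl⟩ := Int.eq_ofNat_of_zero_le h0
    have ha : a % 4 = 1 := by omega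
    rw [jacobiSym.quadratic_reciprocity_one_mod_four ha hpodd, hsq a dvd_rfl,
      jacobiSym.quadratic_reciprocity_one_mod_four ha (show Odd 3 by decide)]
    rfl
  · obtain ⟨a, ha'⟩ := Int.eq_ofNat_of_zero_le (show 0 ≤ -x by omega)
    have hya : x = -(a : ℤ) := by omega
    have ha : a % 4 = 3 := by omega
    have hao : Odd a := Nat.odd_iff.2 (by omega)
    have h1 := hsq a (by rw [hya]; exact (dvd_neg.2 dvd_rfl))
    rw [hya, jacobiSym.neg _ hpodd, ZMod.χ₄_nat_one_mod_four hp4, one_mul,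
      ← jacobiSym.quadratic_reciprocity_one_mod_four hp4 hao, h1,
      jacobiSym.neg _ (show Odd 3 by decide),
      ZMod.χ₄_nat_three_mod_four (show 3 % 4 = 3 by norm_num),
      jacobiSym.quadratic_reciprocity_three_mod_four ha (show 3 % 4 = 3 by norm_num)]
    push_cast
    ring

/-- the symbol of an odd divisor of `y` -/
theorem jac_z1 (p : ℕ) (hp : p.Prime) (h12 : p % 12 = 1) (x y z c : ℤ)
    (hxy : (p : ℤ) = x ^ 2 + 3 * y ^ 2) (hz : z % 2 = 1) (hzy : y = z * c) : J(z | p) = 1 := by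
  have hpodd : Odd p := Nat.odd_iff.2 (by omega)
  have hp4 : p % 4 = 1 := by omega
  have hcop : ∀ a : ℕ, (a : ℤ) ∣ y → x.gcd a = 1 := by
    intro a ha
    by_contra h
    obtain ⟨q, hq, hqg⟩ := Nat.exists_prime_and_dvd h
    have h1 : (q : ℤ) ∣ x := (Int.natCast_dvd_natCast.2 hqg).trans (Int.gcd_dvd_left _ _)
    have h2 : (q : ℤ) ∣ y := ((Int.natCast_dvd_natCast.2 hqg).trans (Int.gcd_dvd_right _ _)).trans ha
    exact gcd_one p hp (by omega) x y hxy q hq h1 h2
  have hsq : ∀ a : ℕ, (a : ℤ) ∣ y → J((p : ℤ) | a) = 1 := by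
    intro a ha
    have h1 : J((p : ℤ) | a) = J(x ^ 2 | a) := by
      apply jacobiSym.mod_left'
      rw [hxy]
      obtain ⟨c, hc⟩ := ha
      rw [hc, show x ^ 2 + 3 * ((a : ℤ) * c) ^ 2 = x ^ 2 + (a : ℤ) * (3 * a * c ^ 2) by ring]
      exact Int.add_mul_emod_self_left _ _ _
    rw [h1, jacobiSym.pow_left]
    exact jacobiSym.sq_one (hcop a ha)
  have hpos : ∀ a : ℕ, a % 2 = 1 → (a : ℤ) ∣ y → J((a : ℤ) | p) = 1 := by
    intro a ha hay
    have haodd : Odd a := Nat.odd_iff.2 ha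
    rw [← jacobiSym.quadratic_reciprocity_one_mod_four hp4 haodd]
    exact hsq a hay
  rcases le_or_gt 0 z with h0 | h0
  · obtain ⟨a, rfl⟩ := Int.eq_ofNat_of_zero_le h0
    exact hpos a (by omega) ⟨c, hzy⟩
  · obtain ⟨a, ha'⟩ := Int.eq_ofNat_of_zero_le (show 0 ≤ -z by omega)
    have hya : z = -(a : ℤ) := by omega
    have h1 := hpos a (by omega) ⟨-c, by rw [hzy, hya]; ring⟩
    rw [hya, jacobiSym.neg _ hpodd, h1, ZMod.χ₄_nat_one_mod_four hp4, one_mul]

/-- the symbol of `y` -/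
theorem jac_y1 (p : ℕ) (hp : p.Prime) (h12 : p % 12 = 1) (x y : ℤ)
    (hxy : (p : ℤ) = x ^ 2 + 3 * y ^ 2) (hx : x % 2 = 1) :
    J(y | p) = (-1) ^ ((p - 1) / 4) := by
  have hpodd : Odd p := Nat.odd_iff.2 (by omega)
  have hy0 : y ≠ 0 := by
    rintro rfl
    have h1 : p = x.natAbs * x.natAbs := by
      have : (p : ℤ) = ((x.natAbs * x.natAbs : ℕ) : ℤ) := by
        rw [hxy]
        push_cast
        rw [← pow_two, sq_abs]
        ring
      exact_mod_cast this
    have h2 : x.natAbs ∣ p := ⟨_, h1⟩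
    rcases (Nat.dvd_prime hp).1 h2 with h | h
    · rw [h] at h1
      have := hp.one_lt
      omega
    · rw [h] at h1
      have := hp.one_lt
      nlinarith
  obtain ⟨e, z, hz, hye⟩ := two_pow_mul y hy0
  have h1 := jac_z1 p hp h12 x y z (2 ^ e) hxy hz hye
  rw [hye, jacobiSym.mul_left, jacobiSym.pow_left, h1, one_mul]
  have h24 : p % 24 = 1 ∨ p % 24 = 13 := by omega
  rcases h24 with h24 | h24
  · have hj2 : J(2 | p) = 1 := by
      rw [jacobiSym.at_two hpodd]
      have : ((p : ℕ) : ZMod 8) = 1 := by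
        have h8 : p % 8 = 1 := by omega
        rw [← ZMod.natCast_mod p 8, h8]
        rfl
      rw [this]
      decide
    rw [hj2, one_pow, show (p - 1) / 4 = 2 * (p / 24 * 3) by omega, pow_mul]
    norm_num
  · have hj2 : J(2 | p) = -1 := by
      rw [jacobiSym.at_two hpodd]
      have : ((p : ℕ) : ZMod 8) = 5 := by
        have h8 : p % 8 = 5 := by omega
        rw [← ZMod.natCast_mod p 8, h8]
        rfl
      rw [this]
      decide
    have hy8 : (y : ZMod 8) = 2 ∨ (y : ZMod 8) = 6 := by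
      have h9 := congrArg (Int.cast : ℤ → ZMod 8) hxy
      push_cast at h9
      have h5 : ((p : ℕ) : ZMod 8) = 5 := by
        have h8 : p % 8 = 5 := by omega
        rw [← ZMod.natCast_mod p 8, h8]
        rfl
      rw [h5] at h9
      have hx8 : (x : ZMod 8) = 1 ∨ (x : ZMod 8) = 3 ∨ (x : ZMod 8) = 5 ∨ (x : ZMod 8) = 7 := by
        have h8 : x % 8 = 1 ∨ x % 8 = 3 ∨ x % 8 = 5 ∨ x % 8 = 7 := by omega
        rcases h8 with h | h | h | h
        · left; rw [← ZMod.intCast_mod x 8]; push_cast; rw [h]; rfl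
        · right; left; rw [← ZMod.intCast_mod x 8]; push_cast; rw [h]; rfl
        · right; right; left; rw [← ZMod.intCast_mod x 8]; push_cast; rw [h]; rfl
        · right; right; right; rw [← ZMod.intCast_mod x 8]; push_cast; rw [h]; rfl
      have key : ∀ a b : ZMod 8, (a = 1 ∨ a = 3 ∨ a = 5 ∨ a = 7) → 5 = a ^ 2 + 3 * b ^ 2 →
          b = 2 ∨ b = 6 := by decide
      exact key _ _ hx8 h9
    have hy4 : y % 4 = 2 := by
      rcases hy8 with h | h
      · have h9 : ((y - 2 : ℤ) : ZMod 8) = 0 := by push_cast; rw [h]; rfl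
        rw [ZMod.intCast_zmod_eq_zero_iff_dvd] at h9
        push_cast at h9
        omega
      · have h9 : ((y - 6 : ℤ) : ZMod 8) = 0 := by push_cast; rw [h]; rfl
        rw [ZMod.intCast_zmod_eq_zero_iff_dvd] at h9
        push_cast at h9
        omega
    have he : e = 1 := by
      rcases e with _ | e
      · rw [pow_zero, mul_one] at hye
        omega
      · rcases e with _ | e
        · rfl
        · exfalso
          rw [hye, pow_succ, pow_succ] at hy4
          have : z * (2 ^ e * 2 * 2) = (z * 2 ^ e) * 4 := by ring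
          rw [this] at hy4
          omega
    rw [he, hj2, show (p - 1) / 4 = 2 * (p / 24 * 3 + 1) + 1 by omega, pow_add, pow_mul]
    norm_num

/-- the combined sign -/
theorem sign1 (p : ℕ) [Fact p.Prime] (h12 : p % 12 = 1) (x y η : ℤ)
    (hxy : (p : ℤ) = x ^ 2 + 3 * y ^ 2) (hx : x % 4 = 1) (hη : η = 1 ∨ η = -1)
    (hηx : (3 : ℤ) ∣ η * x + 1) (s : ZMod p) (hs : (x : ZMod p) + y * s = 0) :
    quadraticChar (ZMod p) s * η = -(-1) ^ ((p - 1) / 4) := by
  have hp : p.Prime := Fact.out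
  have hpodd : Odd p := Nat.odd_iff.2 (by omega)
  have h1 := jac_x1 p hp h12 x y hxy hx
  have h2 := jac_y1 p hp h12 x y hxy (by omega)
  have h3 : J(x | 3) = -η := by
    rcases hη with rfl | rfl
    · have : J(x | 3) = J(-1 | 3) := by
        apply jacobiSym.mod_left'
        push_cast
        omega
      rw [this, jacobiSym.at_neg_one (show Odd 3 by decide)]
      decide
    · have : J(x | 3) = J(1 | 3) := by
        apply jacobiSym.mod_left'
        push_cast
        omega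
      rw [this, jacobiSym.one_left]
      rfl
  have hs2 : ((-1 : ℤ)) ^ ((p - 1) / 4) * (-1) ^ ((p - 1) / 4) = 1 := by rw [← mul_pow]; norm_num
  have h4 : quadraticChar (ZMod p) s = (-1) ^ ((p - 1) / 4) * J(x | p) := by
    have e1 : ((y : ZMod p)) * s = ((-x : ℤ) : ZMod p) := by
      push_cast
      linear_combination hs
    have e2 := congrArg (quadraticChar (ZMod p)) e1
    rw [map_mul] at e2
    have e3 : ∀ z : ℤ, quadraticChar (ZMod p) ((z : ℤ) : ZMod p) = J(z | p) := by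
      intro z
      rw [← jacobiSym.legendreSym.to_jacobiSym]
      rfl
    rw [e3, e3, h2, jacobiSym.neg _ hpodd, ZMod.χ₄_nat_one_mod_four (by omega), one_mul] at e2
    linear_combination (-1) ^ ((p - 1) / 4) * e2 - quadraticChar (ZMod p) s * hs2
  have hη2 : η * η = 1 := by rcases hη with rfl | rfl <;> norm_num
  rw [h4, h1, h3]
  linear_combination (-(-1) ^ ((p - 1) / 4)) * hη2

end Pool.Agent.Q267.CDE
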