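import Pool.Agent.Q267.CDE.Qx4
import Pool.Agent.Q267.CDE.Sign1
import Pool.Agent.Q267.CDE.Quad2

/-!
# The mixed sum, and the value at `-w` for `p ≡ 1 (mod 12)`
-/

namespace Pool.Agent.Q267.CDE.Qx

open Finset Polynomial Pool.Agent.Q267 Pool.Agent.Q267.Seven Pool.Agent.Q267.CDE Pool.Agent.Q261.SC
  Q278.PI Pool.Agent.Q267.S16

section

variable (p : ℕ) [hp : Fact p.Prime]

theorem p_x3 (n : ℕ) (hnp : n < p) : (p : R p) * x3 p n = p * ff p n := by
  have hpp := CDE.p_sq p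
  unfold x3 ff
  rw [mul_sum, mul_sum]
  refine sum_congr rfl fun j hj => ?_
  rw [mem_range] at hj
  obtain ⟨z, hz, -⟩ := choose_shift p n (n - j) (by omega)
  have e : (((n + p).choose (p + j) : ℕ) : R p) = ((n.choose j : ℕ) : R p) + p * z := by
    rw [← Nat.choose_symm (show p + j ≤ n + p by omega), show n + p - (p + j) = n - j by omega, hz,
      Nat.choose_symm (by omega : j ≤ n)]
  rw [e]
  linear_combination ((n.choose j : R p) * z * 4 ^ j) * hpp

/-- the mixed sum equals the sum with weight `4` -/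
theorem S2_fin {m : ℕ} (hpm : p = 2 * m + 1) (h3 : 3 < p) (n : ℕ) (hnp : n < p) (c J κ : R p)
    (hκ : (4 : R p) ^ m = 1 + p * κ) (hJ : 4 * J = 1) (hc : -J = (n : R p) + (-c) * p)
    (G : ℕ → R p)
    (hG : ∀ k, k < p → (k.factorial : R p) * G k = (descPochhammer (R p) k).eval (-J))
    (hrel : ∑ k ∈ range p, G k ^ 2 * 4 ^ k =
      4 ^ n * (∑ k ∈ range p, G k ^ 2 * J ^ k) * (1 - 2 * c * (p * κ))) :
    ∑ k ∈ range p, G k * (k.centralBinom : R p) * 2 ^ k = ∑ k ∈ range p, G k ^ 2 * 4 ^ k := by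
  have hpp := CDE.p_sq p
  have e1 := S1_eq p n hnp c J hc G hG
  have e3 := S3_eq p n hnp c J hJ hc G hG
  have e2 := S2_eq p n hnp c J hc G hG h3
  have hx := p_x3 p n hnp
  rw [e2]
  set A := ∑ k ∈ range p, G k ^ 2 * 4 ^ k
  set B := 4 ^ n * ∑ k ∈ range p, G k ^ 2 * J ^ k
  have h2u : IsUnit (2 : R p) := Ext.unit2 (by omega)
  have h2p : (2 : R p) ^ p = 2 * 4 ^ m := by
    have : (2 : R p) ^ p = 2 ^ (2 * m + 1) := congrArg (fun k => (2 : R p) ^ k) hpm
    rw [this, pow_succ, pow_mul]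
    norm_num
    ring
  have h4p : (4 : R p) ^ p = 4 * (4 ^ m) ^ 2 := by
    have : (4 : R p) ^ p = 4 ^ (2 * m + 1) := congrArg (fun k => (4 : R p) ^ k) hpm
    rw [this, pow_succ, ← pow_mul, mul_comm m 2]
    ring
  rw [h2p, h4p, hκ]
  have key : 2 * (c * (4 * (1 + p * κ) ^ 2 * (2 * x3 p n - ff p n) -
      2 * (2 * (1 + p * κ)) * (x1 p n + x3 p n - ff p n))) = 0 := by
    linear_combination (4 * (1 + p * κ)) * hrel + (-4 * (1 + p * κ)) * e1 +
      (4 * (1 + p * κ)) * e3 - (8 * c * p * κ) * e3 + (16 * (1 + c) * c * κ) * hx +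
      (c * κ ^ 2 * (16 * x3 p n - 8 * ff p n - 8 * B)) * hpp
  have key2 := h2u.mul_left_cancel (show 2 * (c * (4 * (1 + p * κ) ^ 2 * (2 * x3 p n - ff p n) -
      2 * (2 * (1 + p * κ)) * (x1 p n + x3 p n - ff p n))) = 2 * 0 by rw [key, mul_zero])
  rw [key2, sub_zero]

/-- the quadratic character of `2` -/
theorem tau_eq {m : ℕ} (hpm : p = 2 * m + 1) (h3 : 3 < p) (t : ℕ)
    (ht : p = 12 * t + 1 ∨ p = 12 * t + 7) : ∃ z : R p, (2 : R p) ^ m = (-1) ^ t + p * z := by
  apply CDE.red_eq_of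
  rw [map_pow, map_pow, map_neg, map_one, map_ofNat]
  have h1 := legendreSym.eq_pow p 2
  have h2 := legendreSym.at_two (p := p) (by omega)
  rw [show p / 2 = m by omega, h2] at h1
  push_cast at h1
  rw [← h1]
  have h8 : ZMod.χ₈ (p : ZMod 8) = (-1) ^ t := by
    rcases Nat.even_or_odd t with he | ho
    · obtain ⟨s, hs⟩ := he
      have : (p : ZMod 8) = 1 ∨ (p : ZMod 8) = 7 := by
        rcases ht with ht | ht
        · left
          have h8 : p % 8 = 1 := by omega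
          rw [← ZMod.natCast_mod p 8, h8]
          rfl
        · right
          have h8 : p % 8 = 7 := by omega
          rw [← ZMod.natCast_mod p 8, h8]
          rfl
      rw [Even.neg_one_pow ⟨s, hs⟩]
      rcases this with h | h <;> rw [h] <;> decide
    · obtain ⟨s, hs⟩ := ho
      have : (p : ZMod 8) = 5 ∨ (p : ZMod 8) = 3 := by
        rcases ht with ht | ht
        · left
          have h8 : p % 8 = 5 := by omega
          rw [← ZMod.natCast_mod p 8, h8]
          rfl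
        · right
          have h8 : p % 8 = 3 := by omega
          rw [← ZMod.natCast_mod p 8, h8]
          rfl
      rw [Odd.neg_one_pow ⟨s, hs⟩]
      rcases this with h | h <;> rw [h] <;> decide
  rw [h8]
  push_cast
  rfl

/-- the mixed sum, `p ≡ 1 (mod 12)` -/
theorem val2_1 (t : ℕ) (ht : p = 12 * t + 1) :
    ∑ k ∈ range p, res2 p (gO p k) * (k.centralBinom : R p) * 2 ^ k =
      ∑ k ∈ range p, res2 p (gO p k) ^ 2 * 4 ^ k := by
  have hp2 := hp.out.two_le
  obtain ⟨w, hw⟩ := Ext.exists_w p (by omega)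
  have v1 := val1_1 p t ht w hw
  have v3 := val3_1 p t ht w hw
  have hJ := res2_invI p 4 (nd4 p (by omega))
  push_cast at hJ
  set J := res2 p (invI p 4) with hJd
  have hpm : p = 2 * (6 * t) + 1 := by omega
  obtain ⟨κ, hκ⟩ := four_pow p hpm (by omega)
  obtain ⟨z, hz⟩ := tau_eq p hpm (by omega) t (Or.inl ht)
  have hpp := CDE.p_sq p
  have hP : (p : R p) = 12 * t + 1 := by
    have := congrArg (Nat.cast : ℕ → R p) ht
    push_cast at this
    exact this
  have hs : ((-1 : R p)) ^ t * (-1) ^ t = 1 := by rw [← mul_pow]; norm_num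
  have h42 : ∀ n, (4 : R p) ^ n = 2 ^ (2 * n) := by
    intro n
    rw [pow_mul]
    norm_num
  have h4 : (4 : R p) ^ (6 * t) = (2 ^ (6 * t)) ^ 2 := by
    rw [h42, ← pow_mul, mul_comm (6 * t) 2]
  have h4n : (4 : R p) ^ (3 * t) = 2 ^ (6 * t) := by
    rw [h42, show 2 * (3 * t) = 6 * t by ring]
  refine S2_fin p hpm (by omega) (3 * t) (by omega) J J κ hκ hJ ?_ (fun k => res2 p (gO p k))
    (fun k hk => g_desc p k hk) ?_
  · push_cast
    rw [hP]
    linear_combination (3 * (t : R p)) * hJ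
  · rw [v1, v3, h4n, hz]
    rw [h4, hz] at hκ
    -- `2 (-1)^t p z = p κ`
    set D := D0 p (6 * t) w
    have hk2 : (p : R p) * κ = 2 * (-1) ^ t * (p * z) := by
      linear_combination -hκ + hs + z ^ 2 * hpp
    linear_combination (2 * J * ((-1) ^ t + p * z) * (-1) ^ t * D) * hk2 +
      (((-1) ^ t + p * z) * (-1) ^ t * D * (-1) ^ t * p * z) * hJ +
      (-D + D * (-1) ^ t * p * z) * hs + (D * (-1) ^ t * (-1) ^ t * z ^ 2) * hpp

/-- the mixed sum, `p ≡ 7 (mod 12)` -/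
theorem val2_7 (t : ℕ) (ht : p = 12 * t + 7) :
    ∑ k ∈ range p, res2 p (gO p k) * (k.centralBinom : R p) * 2 ^ k =
      ∑ k ∈ range p, res2 p (gO p k) ^ 2 * 4 ^ k := by
  have hp2 := hp.out.two_le
  obtain ⟨w, hw⟩ := Ext.exists_w p (by omega)
  have v1 := val1_7 p t ht w hw
  have v3 := val3_7 p t ht w hw
  have hJ := res2_invI p 4 (nd4 p (by omega))
  push_cast at hJ
  set J := res2 p (invI p 4) with hJd
  have hpm : p = 2 * (6 * t + 3) + 1 := by omega
  obtain ⟨κ, hκ⟩ := four_pow p hpm (by omega)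
  obtain ⟨z, hz⟩ := tau_eq p hpm (by omega) t (Or.inr ht)
  have hpp := CDE.p_sq p
  have hP : (p : R p) = 12 * t + 7 := by
    have := congrArg (Nat.cast : ℕ → R p) ht
    push_cast at this
    exact this
  have hs : ((-1 : R p)) ^ t * (-1) ^ t = 1 := by rw [← mul_pow]; norm_num
  have h4 : (4 : R p) ^ (6 * t + 3) = (2 ^ (6 * t + 3)) ^ 2 := by
    rw [← pow_mul, mul_comm (6 * t + 3) 2, pow_mul]; norm_num
  have h4n : (4 : R p) ^ (9 * t + 5) = 2 * (2 ^ (6 * t + 3)) ^ 3 := by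
    rw [← pow_mul, ← pow_succ', show (6 * t + 3) * 3 + 1 = 2 * (9 * t + 5) by ring, pow_mul]; norm_num
  refine S2_fin p hpm (by omega) (9 * t + 5) (by omega) (3 * J) J κ hκ hJ ?_
    (fun k => res2 p (gO p k)) (fun k hk => g_desc p k hk) ?_
  · push_cast
    rw [hP]
    linear_combination (9 * (t : R p) + 5) * hJ
  · rw [v1, h4n, hz]
    rw [h4, hz] at hκ
    set D := (2 * w + 1) * D0 p (6 * t + 3) w
    set B := ∑ k ∈ range p, res2 p (gO p k) ^ 2 * J ^ k
    have hk2 : (p : R p) * κ = 2 * (-1) ^ t * (p * z) := by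
      linear_combination -hκ + hs + z ^ 2 * hpp
    obtain ⟨e, he⟩ : ∃ e : R p, e = (-1) ^ t := ⟨_, rfl⟩
    rw [← he] at hk2 hs v3 ⊢
    have h5 : (e + p * z) ^ 3 = e + 3 * p * z := by
      linear_combination (e + 3 * p * z) * hs + (3 * e * z ^ 2 + p * z ^ 3) * hpp
    rw [h5]
    linear_combination (12 * J * (e + 3 * p * z) * B) * hk2 +
      (6 * (e + 3 * p * z) * B * e * p * z) * hJ + (18 * B * e * z ^ 2) * hpp +
      -D * hs - e * v3 + (6 * B * p * z) * hs

/-- the value at `-w`, `p ≡ 1 (mod 12)` -/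
theorem A1 (t : ℕ) (ht : p = 12 * t + 1) (x y : ℤ)
    (hxy : (p : ℤ) = x ^ 2 + 3 * y ^ 2) (hx : x % 4 = 1) (X : R p) (hX : 2 * (x : R p) * X = 1) :
    ∃ w : R p, w ^ 2 + w + 1 = 0 ∧
      D0 p (6 * t) w = (-1) ^ ((p - 1) / 4) * (2 * (x : R p) - p * X) := by
  obtain ⟨w, η, hw, hη, hη3, hred, hA⟩ := A_val (2 * t) (by omega) x y hxy
  refine ⟨w, hw, ?_⟩
  set s : R p := 2 * w + 1 with hs
  have hs2 : s ^ 2 = -3 := by rw [hs]; linear_combination 4 * hw
  have h1 : (x : ZMod p) + y * CDE.red p s = 0 := by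
    rw [map_add, map_mul, CDE.red_int, CDE.red_int] at hred
    exact hred
  have hsign := sign1 p (by omega) x y η hxy hx hη hη3 (CDE.red p s) h1
  have hsign' := congrArg (Int.cast : ℤ → R p) hsign
  push_cast at hsign'
  obtain ⟨z, hz⟩ := CDE.red_eq_of p ((x : R p) + y * s) 0 (by rw [hred, map_zero])
  rw [zero_add] at hz
  have hxy' := congrArg (Int.cast : ℤ → R p) hxy
  push_cast at hxy'
  have hpp := CDE.p_sq p
  have hz2 : (p : R p) * z * (2 * x) = p := by
    linear_combination (-1 : R p) * hxy' + z ^ 2 * hpp - (x - y * s) * hz + p * z * hz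
      - (y : R p) ^ 2 * hs2
  have hpz : (p : R p) * z = p * X := by
    linear_combination X * hz2 - (p : R p) * z * hX
  have e : D0 p (6 * t) w = ∑ k ∈ range (3 * (2 * t) + 1), (dl (3 * (2 * t)) k : R p) * (-w) ^ k := by
    unfold D0
    rw [show 3 * (2 * t) = 6 * t by ring]
  rw [e, hA, hsign']
  linear_combination (-(-1) ^ ((p - 1) / 4)) * hz - (-1) ^ ((p - 1) / 4) * hpz

end

end Pool.Agent.Q267.CDE.Qx
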