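import Pool.Agent.Q267.CDE.CentreR
import Pool.Agent.Q261.SC.Tri

/-!
# `T n` as a trinomial sum
-/

namespace Pool.Agent.Q267.CDE

open Finset Pool.Agent.Q267.Seven Pool.Agent.Q261.SC

theorem T_tri (n : ℕ) : T n = (-1) ^ n * ∑ k ∈ range (n + 1),
    ((n.choose (2 * k) * (2 * k).choose k : ℕ) : ℤ) * 3 ^ (n - k) := by
  obtain ⟨s, hs⟩ : ∃ s : ℂ, s ^ 2 = -3 := IsAlgClosed.exists_pow_nat_eq (-3) two_pos
  set w : ℂ := (s - 1) / 2 with hw
  have h1 : w ^ 2 + w + 1 = 0 := by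
    rw [hw]; linear_combination (1 / 4 : ℂ) * hs
  have h2 : s = 2 * w + 1 := by rw [hw]; ring
  have h3 : IsUnit (3 : ℂ) := by rw [isUnit_iff_ne_zero]; norm_num
  have h := Rg.F_w h3 w s h1 h2 n
  rw [Rg.dl_neg] at h
  have ht := transf n w
  push_cast at ht
  rw [ht] at h
  have hww : w * (w + 1) = -1 := by linear_combination h1
  rw [hww, ← h2, mul_sum] at h
  apply Int.cast_injective (α := ℂ)
  rw [← h]
  push_cast
  rw [mul_sum]
  refine sum_congr rfl fun k hk => ?_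
  rcases le_or_gt (2 * k) n with hkn | hkn
  · have e1 : s ^ n * s ^ (n - 2 * k) = (-1) ^ (n - k) * 3 ^ (n - k) := by
      rw [← pow_add, show n + (n - 2 * k) = 2 * (n - k) by omega, pow_mul, hs, ← mul_pow]
      norm_num
    have e2 : ((-1 : ℂ)) ^ n = (-1) ^ (n - k) * (-1) ^ k := by
      rw [← pow_add]; congr 1; omega
    rw [e2]
    linear_combination ((n.choose (2 * k) : ℂ) * ((2 * k).choose k : ℂ) * (-1) ^ k) * e1
  · rw [Nat.choose_eq_zero_of_lt hkn]
    simp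

end Pool.Agent.Q267.CDE
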