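import Pool.Agent.Q267.CDE.Trig

/-!
# The derivative of the trigonometric expansion
-/

namespace Pool.Agent.Q267.CDE

open Finset Polynomial Pool.Agent.Q267.Seven Pool.Agent.Q267.S16

theorem trig_hom {K : Type*} [Field K] [CharZero K] (m : ℕ) (e : K) (he : e ≠ 0) :
    ∑ k ∈ range (m + 1), (u k : K) * (u (m - k) : K) * e ^ (2 * k) =
      ∑ k ∈ range (m + 1), (dl m k : K) * (-1 / 4) ^ k * ((1 - e) ^ (2 * k) * e ^ (m - k)) := by
  have h4 : (4 : K) ≠ 0 := by norm_num
  have h := Fl_trig m (-(1 - e) ^ 2 / (4 * e)) e e⁻¹ (mul_inv_cancel₀ he) (by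
    field_simp
    ring)
  rw [Wt_range] at h
  unfold Fl at h
  have h2 := congrArg (fun x => e ^ m * x) h
  rw [mul_sum, mul_sum] at h2
  have e1 : ∑ k ∈ range (m + 1), e ^ m * ((u k : K) * (u (m - k) : K) * e ^ k * (e⁻¹) ^ (m - k)) =
      ∑ k ∈ range (m + 1), (u k : K) * (u (m - k) : K) * e ^ (2 * k) := by
    refine sum_congr rfl fun k hk => ?_
    have hk' : k ≤ m := by simpa [Nat.lt_succ_iff] using hk
    have h5 : e ^ m = e ^ (m - k) * e ^ k := by rw [← pow_add]; congr 1; omega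
    have h6 : e ^ (m - k) * (e⁻¹) ^ (m - k) = 1 := by rw [← mul_pow, mul_inv_cancel₀ he, one_pow]
    rw [h5, two_mul, pow_add]
    linear_combination ((u k : K) * (u (m - k) : K) * e ^ k * e ^ k) * h6
  have e2 : ∑ k ∈ range (m + 1), e ^ m * ((dl m k : K) * (-(1 - e) ^ 2 / (4 * e)) ^ k) =
      ∑ k ∈ range (m + 1), (dl m k : K) * (-1 / 4) ^ k * ((1 - e) ^ (2 * k) * e ^ (m - k)) := by
    refine sum_congr rfl fun k hk => ?_
    have hk' : k ≤ m := by simpa [Nat.lt_succ_iff] using hk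
    have h5 : e ^ m = e ^ (m - k) * e ^ k := by rw [← pow_add]; congr 1; omega
    have h6 : e ^ k * (-(1 - e) ^ 2 / (4 * e)) ^ k = (-1 / 4) ^ k * (1 - e) ^ (2 * k) := by
      rw [pow_mul, ← mul_pow, ← mul_pow]
      congr 1
      field_simp
    rw [h5]
    linear_combination ((dl m k : K) * e ^ (m - k)) * h6
  rw [e1, e2] at h2
  exact h2.symm

theorem trig_poly (m : ℕ) :
    (∑ k ∈ range (m + 1), C (u k * u (m - k)) * X ^ (2 * k) : ℚ[X]) =
      ∑ k ∈ range (m + 1), C ((dl m k : ℚ) * (-1 / 4) ^ k) * ((1 - X) ^ (2 * k) * X ^ (m - k)) := by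
  apply Polynomial.eq_of_infinite_eval_eq
  apply Set.Infinite.mono (s := {x : ℚ | x ≠ 0})
  · intro e he
    have h := trig_hom (K := ℚ) m e he
    simp only [Rat.cast_id] at h
    simp only [Set.mem_ofPred_eq, eval_finsetSum, eval_mul, eval_pow, eval_C, eval_X, eval_sub,
      eval_one]
    exact h
  · have : {x : ℚ | x ≠ 0} = {0}ᶜ := rfl
    rw [this]
    exact (Set.finite_singleton (0 : ℚ)).infinite_compl

/-- the derivative of the expansion -/
theorem trig_deriv {K : Type*} [Field K] [CharZero K] (m : ℕ) (e : K) :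
    (1 - e) * ∑ k ∈ range (m + 1), (2 * (k : K) - m) * ((u k : K) * (u (m - k) : K) * e ^ (2 * k)) =
      -((1 + e) * ∑ k ∈ range (m + 1), (k : K) * ((dl m k : K) * (-1 / 4) ^ k *
        ((1 - e) ^ (2 * k) * e ^ (m - k)))) := by
  have key : ∀ (q : ℚ[X]) (k : ℕ), derivative (q ^ k) * q = (k : ℚ[X]) * q ^ k * derivative q := by
    intro q k
    rcases k with _ | k
    · simp
    · rw [derivative_pow, Nat.add_sub_cancel]
      push_cast
      rw [map_add, map_natCast, map_one]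
      ring
  have h := trig_poly m
  have h1 := congrArg derivative h
  rw [derivative_sum, derivative_sum] at h1
  have e1 : (∑ k ∈ range (m + 1), derivative (C (u k * u (m - k)) * X ^ (2 * k) : ℚ[X])) * X =
      ∑ k ∈ range (m + 1), (2 * (k : ℚ[X])) * (C (u k * u (m - k)) * X ^ (2 * k)) := by
    rw [sum_mul]
    refine sum_congr rfl fun k _ => ?_
    have h5 := key X (2 * k)
    rw [derivative_X, mul_one] at h5
    push_cast at h5
    rw [derivative_C_mul]
    linear_combination C (u k * u (m - k)) * h5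
  have e2 : (∑ k ∈ range (m + 1), derivative (C ((dl m k : ℚ) * (-1 / 4) ^ k) *
      ((1 - X) ^ (2 * k) * X ^ (m - k)) : ℚ[X])) * (X * (1 - X)) =
      (m : ℚ[X]) * (1 - X) * ∑ k ∈ range (m + 1), C ((dl m k : ℚ) * (-1 / 4) ^ k) *
      ((1 - X) ^ (2 * k) * X ^ (m - k)) - (1 + X) * ∑ k ∈ range (m + 1), (k : ℚ[X]) *
      (C ((dl m k : ℚ) * (-1 / 4) ^ k) * ((1 - X) ^ (2 * k) * X ^ (m - k))) := by
    rw [sum_mul, mul_sum, mul_sum, ← sum_sub_distrib]
    refine sum_congr rfl fun k hk => ?_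
    have hk' : k ≤ m := by simpa [Nat.lt_succ_iff] using hk
    have h5 := key X (m - k)
    rw [derivative_X, mul_one] at h5
    have h6 := key (1 - X) (2 * k)
    have h7 : derivative (1 - X : ℚ[X]) = -1 := by
      rw [derivative_sub, derivative_one, derivative_X, zero_sub]
    rw [h7] at h6
    push_cast [Nat.cast_sub hk'] at h5 h6
    rw [derivative_C_mul, derivative_mul]
    linear_combination (C ((dl m k : ℚ) * (-1 / 4) ^ k) * (1 - X) ^ (2 * k) * (1 - X)) * h5 +
      (C ((dl m k : ℚ) * (-1 / 4) ^ k) * X ^ (m - k) * X) * h6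
  have h2 : (∑ k ∈ range (m + 1), derivative (C (u k * u (m - k)) * X ^ (2 * k) : ℚ[X])) * X *
      (1 - X) = (∑ k ∈ range (m + 1), derivative (C ((dl m k : ℚ) * (-1 / 4) ^ k) *
      ((1 - X) ^ (2 * k) * X ^ (m - k)) : ℚ[X])) * (X * (1 - X)) := by
    rw [h1]
    ring
  rw [e1, e2, ← h] at h2
  have h3 := congrArg (aeval e) h2
  simp only [map_sum, map_mul, map_sub, map_add, map_pow, map_natCast, map_one, aeval_X, aeval_C,
    map_ofNat, eq_ratCast, Rat.cast_intCast] at h3
  have e4 : ∑ k ∈ range (m + 1), (2 * (k : K) - m) * ((u k : K) * (u (m - k) : K) * e ^ (2 * k)) =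
      ∑ k ∈ range (m + 1), 2 * (k : K) * ((u k : K) * (u (m - k) : K) * e ^ (2 * k)) -
      m * ∑ k ∈ range (m + 1), ((u k : K) * (u (m - k) : K) * e ^ (2 * k)) := by
    rw [mul_sum, ← sum_sub_distrib]
    refine sum_congr rfl fun k _ => ?_
    ring
  rw [e4]
  push_cast at h3
  linear_combination h3

end Pool.Agent.Q267.CDE
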