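import Pool.Agent.Q267.CDE.A3
import Pool.Agent.Q267.CDE.Lin16
import Pool.Agent.Q267.Seven.Split

/-!
# `2 u_k u_{m-k} = (-1)^m (d_k + d_{m-k})` in `ℤ/p²`
-/

namespace Pool.Agent.Q267.CDE

open Finset Pool.Agent.Q267.Seven

section

variable (p : ℕ) [hp : Fact p.Prime] {m : ℕ} (hpm : p = 2 * m + 1)

include hpm

theorem cb_sign (j : ZMod p) (hj : 4 * j = 1) (k : ℕ) (hk : k ≤ m) :
    ((k.centralBinom : ℕ) : ZMod p) * j ^ k = (-1) ^ k * ((m.choose k : ℕ) : ZMod p) := by
  have hm' : (2 : ZMod p) * m + 1 = 0 := by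
    have h0 : ((p : ℕ) : ZMod p) = 0 := CharP.cast_eq_zero _ p
    have h1 := congrArg (Nat.cast : ℕ → ZMod p) hpm
    rw [h0] at h1
    push_cast at h1
    exact h1.symm
  induction k with
  | zero => simp
  | succ k ih =>
    have ih := ih (by omega)
    have h1 := Nat.succ_mul_centralBinom_succ k
    have h1' : (((k + 1) * (k + 1).centralBinom : ℕ) : ZMod p) =
      ((2 * (2 * k + 1) * k.centralBinom : ℕ) : ZMod p) := by rw [h1]
    push_cast at h1'
    have h2 := Nat.choose_succ_right_eq m k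
    have h2' : ((m.choose (k + 1) * (k + 1) : ℕ) : ZMod p) =
      ((m.choose k * (m - k) : ℕ) : ZMod p) := by rw [h2]
    rw [Nat.cast_mul, Nat.cast_mul, Nat.cast_sub (by omega)] at h2'
    push_cast at h2'
    have hk0 := cast_ne p (k + 1) (by omega) (by omega)
    push_cast at hk0
    apply mul_left_cancel₀ hk0
    have h20 : (2 : ZMod p) ≠ 0 := by
      have := cast_ne p 2 (by omega) (by
        have := hp.out.two_le
        omega)
      exact_mod_cast this
    apply mul_left_cancel₀ h20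
    rw [pow_succ, pow_succ]
    linear_combination (2 * j ^ k * j) * h1' + (4 * (2 * (k : ZMod p) + 1) * j) * ih
      + ((2 * (k : ZMod p) + 1) * (-1) ^ k * (m.choose k : ZMod p)) * hj
      + (2 * (-1) ^ k) * h2' + ((-1) ^ k * (m.choose k : ZMod p)) * hm'

theorem uu (h3 : 3 < p) (J : R p) (hJ : 4 * J = 1) (k : ℕ) (hk : k ≤ m) :
    2 * (((k.centralBinom : R p) * J ^ k) * (((m - k).centralBinom : R p) * J ^ (m - k))) =
      (-1) ^ m * ((dl m k : R p) + (dl m (m - k) : R p)) := by
  have hp2 : p ≠ 2 := by omega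
  have hJ2 : 16 * J ^ 2 = 1 := by linear_combination (4 * J + 1) * hJ
  have u1 := u2 p hpm h3 (J ^ 2) hJ2 k hk
  have v1 := u2 p hpm h3 (J ^ 2) hJ2 (m - k) (by omega)
  have hj : 4 * red p J = 1 := by
    have := congrArg (red p) hJ
    rw [map_mul, map_one, map_ofNat] at this
    exact this
  have s1 := cb_sign p hpm (red p J) hj k hk
  have s2 := cb_sign p hpm (red p J) hj (m - k) (by omega)
  rw [Nat.choose_symm hk] at s2
  have hsg : ((-1 : ZMod p)) ^ k * (-1) ^ (m - k) = (-1) ^ m := by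
    rw [← pow_add]
    congr 1
    omega
  have hsq : ((-1 : R p)) ^ m * (-1) ^ m = 1 := by rw [← mul_pow]; norm_num
  have d1 := dl_mod (K := ZMod p) p m hpm k hk
  have d2 := dl_mod (K := ZMod p) p m hpm (m - k) (by omega)
  have hc : Landen.cc (ZMod p) m k = ((m.choose k : ℕ) : ZMod p) ^ 2 := by
    simp [Landen.cc]
  have hc2 : Landen.cc (ZMod p) m (m - k) = ((m.choose k : ℕ) : ZMod p) ^ 2 := by
    simp [Landen.cc, Nat.choose_symm hk]
  rw [hc] at d1
  rw [hc2] at d2
  have h20 : (2 : ZMod p) ≠ 0 := by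
    have := cast_ne p 2 (by omega) (by omega)
    exact_mod_cast this
  have hC : ((m.choose k : ℕ) : ZMod p) ≠ 0 := by
    rw [Ne, ZMod.natCast_eq_zero_iff]
    intro hd
    have h5 : m.choose k ∣ m.factorial := by
      have := Nat.choose_mul_factorial_mul_factorial hk
      exact ⟨k.factorial * (m - k).factorial, by rw [← this]; ring⟩
    have h6 := (hp.out.dvd_factorial).1 (hd.trans h5)
    omega
  have hdiff := dl_diff p m hpm k hk
  apply sq_one_eq hp2
  · have e : (((-1 : R p)) ^ m * ((dl m k : R p) + (dl m (m - k) : R p))) ^ 2 =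
        ((dl m k : R p) + (dl m (m - k) : R p)) ^ 2 := by
      rw [mul_pow, ← pow_mul, mul_comm m 2, pow_mul]
      norm_num
    rw [e]
    have e2 : ((dl m (m - k) : R p) - (dl m k : R p)) ^ 2 = 0 := by
      rw [hdiff]
      have := p_sq p
      linear_combination (cR p m k * (hR p (m - k) - hR p k)) ^ 2 * this
    have e3 : (J ^ 2) ^ k = (J ^ k) ^ 2 := by rw [← pow_mul, ← pow_mul, mul_comm]
    have e4 : (J ^ 2) ^ (m - k) = (J ^ (m - k)) ^ 2 := by rw [← pow_mul, ← pow_mul, mul_comm]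
    rw [e3] at u1
    rw [e4] at v1
    linear_combination (4 * ((m - k).centralBinom : R p) ^ 2 * (J ^ (m - k)) ^ 2) * u1 +
      4 * (dl m k : R p) * v1 - e2
  · apply isUnit_of_red
    rw [map_mul, map_pow, map_neg, map_one, map_add, map_intCast, map_intCast, d1, d2, ← two_mul]
    exact mul_ne_zero (pow_ne_zero _ (neg_ne_zero.2 one_ne_zero)) (mul_ne_zero h20 (pow_ne_zero _ hC))
  · rw [map_mul, map_mul, map_mul, map_mul, map_ofNat, map_pow, map_pow, map_natCast, map_natCast,
      s1, s2, map_mul, map_pow, map_neg, map_one, map_add, map_intCast, map_intCast, d1, d2, ← hsg]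
    ring

end

end Pool.Agent.Q267.CDE
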